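import Pool.Agent.P.MP_2862dc_ag.Stmts

namespace CenLoc

open MvPolynomial

/-- Evaluation through the one variable view of a polynomial in `Option κ` variables. -/
theorem ALG_eval {κ : Type} (π : κ → MvPolynomial κ ℂ) (g : MvPolynomial κ ℂ)
    (Γ : MvPolynomial (Option κ) ℂ) :
    aeval (fun o : Option κ => o.elim g π) Γ =
      Polynomial.eval₂ (aeval π : MvPolynomial κ ℂ →ₐ[ℂ] MvPolynomial κ ℂ).toRingHom g
        (optionEquivLeft ℂ κ Γ) := by
  induction Γ using MvPolynomial.induction_on with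
  | C a => simp [optionEquivLeft_C]
  | add p q hp hq => rw [map_add, map_add, Polynomial.eval₂_add, hp, hq]
  | mul_X p i hp =>
    rw [map_mul, map_mul, Polynomial.eval₂_mul, hp]
    cases i with
    | none => simp [optionEquivLeft_X_none]
    | some j => simp [optionEquivLeft_X_some]

theorem ALG_deriv {κ : Type} (Γ : MvPolynomial (Option κ) ℂ) :
    optionEquivLeft ℂ κ (pderiv none Γ) = Polynomial.derivative (optionEquivLeft ℂ κ Γ) := by
  classical
  induction Γ using MvPolynomial.induction_on with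
  | C a => simp [optionEquivLeft_C]
  | add p q hp hq => rw [map_add, map_add, map_add, map_add, hp, hq]
  | mul_X p i hp =>
    rw [Derivation.leibniz, map_mul, Polynomial.derivative_mul, smul_eq_mul, smul_eq_mul,
      map_add, map_mul, map_mul, hp]
    cases i with
    | none => simp [optionEquivLeft_X_none, add_comm, mul_comm]
    | some j => simp [optionEquivLeft_X_some, pderiv_X, mul_comm]

theorem ALG_exists {κ : Type} [Fintype κ] (π : κ → MvPolynomial κ ℂ) (g : MvPolynomial κ ℂ) :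
    ∃ p : Polynomial (MvPolynomial κ ℂ), p ≠ 0 ∧
      Polynomial.eval₂ (aeval π : MvPolynomial κ ℂ →ₐ[ℂ] MvPolynomial κ ℂ).toRingHom g p = 0 := by
  have hn : ¬ AlgebraicIndependent ℂ (fun o : Option κ => o.elim g π) := by
    intro h
    have h1 := h.cardinalMk_le_trdeg
    rw [MvPolynomial.trdeg_of_isDomain] at h1
    simp only [Cardinal.mk_fintype, Fintype.card_option, Cardinal.lift_natCast,
      Nat.cast_le] at h1
    omega
  rw [algebraicIndependent_iff] at hn
  push Not at hn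
  obtain ⟨Γ, h0, hΓ⟩ := hn
  refine ⟨optionEquivLeft ℂ κ Γ, ?_, ?_⟩
  · intro h
    exact hΓ ((optionEquivLeft ℂ κ).injective (by rw [h, map_zero]))
  · rw [← ALG_eval, h0]

theorem ALG_min {κ : Type} [Fintype κ] (π : κ → MvPolynomial κ ℂ) (g : MvPolynomial κ ℂ) :
    ∃ p : Polynomial (MvPolynomial κ ℂ), p ≠ 0 ∧
      Polynomial.eval₂ (aeval π : MvPolynomial κ ℂ →ₐ[ℂ] MvPolynomial κ ℂ).toRingHom g p = 0 ∧
      ∀ q : Polynomial (MvPolynomial κ ℂ), q ≠ 0 → q.natDegree < p.natDegree →
        Polynomial.eval₂ (aeval π : MvPolynomial κ ℂ →ₐ[ℂ] MvPolynomial κ ℂ).toRingHom g q ≠ 0 := by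
  classical
  have hex : ∃ n : ℕ, ∃ p : Polynomial (MvPolynomial κ ℂ), p.natDegree = n ∧ p ≠ 0 ∧
      Polynomial.eval₂ (aeval π : MvPolynomial κ ℂ →ₐ[ℂ] MvPolynomial κ ℂ).toRingHom g p = 0 := by
    obtain ⟨p, hp, h⟩ := ALG_exists π g
    exact ⟨_, p, rfl, hp, h⟩
  obtain ⟨p, hd, hp, h⟩ := Nat.find_spec hex
  refine ⟨p, hp, h, fun q hq hlt h0 => ?_⟩
  rw [hd] at hlt
  exact Nat.find_min hex hlt ⟨q, rfl, hq, h0⟩

theorem ALG_pos {κ : Type} (π : κ → MvPolynomial κ ℂ) (hπ : AlgebraicIndependent ℂ π)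
    (g : MvPolynomial κ ℂ) (p : Polynomial (MvPolynomial κ ℂ)) (hp : p ≠ 0)
    (h : Polynomial.eval₂ (aeval π : MvPolynomial κ ℂ →ₐ[ℂ] MvPolynomial κ ℂ).toRingHom g p = 0) :
    p.natDegree ≠ 0 := by
  intro h0
  rw [Polynomial.eq_C_of_natDegree_eq_zero h0, Polynomial.eval₂_C] at h
  have h1 : p.coeff 0 = 0 := (algebraicIndependent_iff.mp hπ) _ h
  apply hp
  rw [Polynomial.eq_C_of_natDegree_eq_zero h0, h1, map_zero]

theorem pf_ALG : StALG := by
  intro κ _ π hπ
  constructor
  · intro g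
    obtain ⟨p, hp, h, hmin⟩ := ALG_min π g
    have hpos := ALG_pos π hπ g p hp h
    refine ⟨(optionEquivLeft ℂ κ).symm p, ?_, ?_⟩
    · rw [ALG_eval, AlgEquiv.apply_symm_apply, h]
    · rw [ALG_eval, ALG_deriv, AlgEquiv.apply_symm_apply]
      apply hmin
      · intro hd
        exact hpos (Polynomial.derivative_eq_zero.mp hd)
      · exact Polynomial.natDegree_derivative_lt hpos
  · intro g hg
    obtain ⟨p, hp, h, hmin⟩ := ALG_min π g
    have hpos := ALG_pos π hπ g p hp h
    have hsplit := Polynomial.X_mul_divX_add p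
    have h2 : g * Polynomial.eval₂
        (aeval π : MvPolynomial κ ℂ →ₐ[ℂ] MvPolynomial κ ℂ).toRingHom g p.divX +
        aeval π (p.coeff 0) = 0 := by
      have h3 := h
      rw [← hsplit, Polynomial.eval₂_add, Polynomial.eval₂_mul, Polynomial.eval₂_X,
        Polynomial.eval₂_C] at h3
      exact h3
    refine ⟨p.coeff 0, ?_, ?_⟩
    · intro h0
      rw [h0, map_zero, add_zero] at h2
      have h4 := (mul_eq_zero.mp h2).resolve_left hg
      have hne : p.divX ≠ 0 := by
        intro hz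
        rw [hz, h0, mul_zero, map_zero, add_zero] at hsplit
        exact hp hsplit.symm
      refine hmin p.divX hne ?_ h4
      rw [Polynomial.natDegree_divX_eq_natDegree_tsub_one]
      omega
    · exact ⟨-Polynomial.eval₂
        (aeval π : MvPolynomial κ ℂ →ₐ[ℂ] MvPolynomial κ ℂ).toRingHom g p.divX, by
        linear_combination h2⟩

end CenLoc
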