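import Pool.Agent.P.MP_2862dc_ag.Basic

/-! Polynomials whose circular averages vanish to order `N` are rotation derivatives up to
order `N`. -/

namespace CenLoc

open MvPolynomial Filter Topology Asymptotics

/-- The point of the unit circle with angle `θ`. -/
noncomputable def AVG_pt (θ : ℝ) : Pt := ![(Real.cos θ : ℂ), (Real.sin θ : ℂ)]

lemma AVG_cont (g : Pol ℂ) : Continuous fun θ : ℝ => eval (AVG_pt θ) g := by
  refine (MvPolynomial.continuous_eval g).comp ?_
  refine continuous_pi fun i => ?_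
  fin_cases i
  · simp only [AVG_pt, Fin.zero_eta, Matrix.cons_val_zero]; fun_prop
  · simp only [AVG_pt, Fin.mk_one, Matrix.cons_val_one, Matrix.cons_val_zero]; fun_prop

/-- The integral over the unit circle. -/
noncomputable def AVG_avg : Pol ℂ →ₗ[ℂ] ℂ where
  toFun g := ∫ θ in (0 : ℝ)..2 * Real.pi, eval (AVG_pt θ) g
  map_add' g h := by
    simp only [map_add]
    exact intervalIntegral.integral_add ((AVG_cont g).intervalIntegrable _ _)
      ((AVG_cont h).intervalIntegrable _ _)
  map_smul' c g := by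
    simp only [smul_eq_C_mul, map_mul, eval_C, RingHom.id_apply, smul_eq_mul]
    exact intervalIntegral.integral_const_mul _ _

lemma AVG_avg_apply (g : Pol ℂ) :
    AVG_avg g = ∫ θ in (0 : ℝ)..2 * Real.pi, eval (AVG_pt θ) g := rfl

/-- The infinitesimal rotation. -/
noncomputable def AVG_rot : Pol ℂ →ₗ[ℂ] Pol ℂ where
  toFun a := X 0 * pderiv 1 a - X 1 * pderiv 0 a
  map_add' a b := by simp only [map_add]; ring
  map_smul' c a := by
    rw [Derivation.map_smul, Derivation.map_smul]
    simp only [RingHom.id_apply, smul_eq_C_mul]; ring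

lemma AVG_rot_apply (a : Pol ℂ) : AVG_rot a = X 0 * pderiv 1 a - X 1 * pderiv 0 a := rfl

lemma AVG_rot_mul (a b : Pol ℂ) : AVG_rot (a * b) = AVG_rot a * b + a * AVG_rot b := by
  simp only [AVG_rot_apply, Derivation.leibniz, smul_eq_mul]; ring

lemma AVG_deriv (a : Pol ℂ) (θ : ℝ) :
    HasDerivAt (fun t : ℝ => eval (AVG_pt t) a) (eval (AVG_pt θ) (AVG_rot a)) θ := by
  induction a using MvPolynomial.induction_on with
  | C c =>
    simp only [AVG_rot_apply, pderiv_C, mul_zero, sub_self, map_zero, eval_C]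
    exact hasDerivAt_const _ _
  | add p q hp hq =>
    simp only [map_add]
    exact hp.add hq
  | mul_X p i hp =>
    have hX : HasDerivAt (fun t : ℝ => eval (AVG_pt t) (X i : Pol ℂ))
        (eval (AVG_pt θ) (AVG_rot (X i))) θ := by
      fin_cases i
      · have h := (Real.hasDerivAt_cos θ).ofReal_comp
        simpa [AVG_pt, AVG_rot_apply, pderiv_X] using h
      · have h := (Real.hasDerivAt_sin θ).ofReal_comp
        simpa [AVG_pt, AVG_rot_apply, pderiv_X] using h
    rw [AVG_rot_mul]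
    simp only [map_add, map_mul]
    exact hp.mul hX

lemma AVG_avg_rot (a : Pol ℂ) : AVG_avg (AVG_rot a) = 0 := by
  rw [AVG_avg_apply, intervalIntegral.integral_eq_sub_of_hasDerivAt
    (fun t _ => AVG_deriv a t) ((AVG_cont _).intervalIntegrable _ _)]
  simp [AVG_pt]

lemma AVG_avg_pow (c : ℂ) (i : ℕ) :
    AVG_avg (C c * (X 0 ^ 2 + X 1 ^ 2) ^ i) = c * (2 * Real.pi) := by
  rw [AVG_avg_apply]
  have h : ∀ θ : ℝ, eval (AVG_pt θ) (C c * (X 0 ^ 2 + X 1 ^ 2) ^ i : Pol ℂ) = c := by
    intro θ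
    have h1 : ((Real.cos θ : ℂ)) ^ 2 + ((Real.sin θ : ℂ)) ^ 2 = 1 := by
      exact_mod_cast Real.cos_sq_add_sin_sq θ
    simp only [AVG_pt, map_mul, eval_C, map_pow, map_add, eval_X, Matrix.cons_val_zero,
      Matrix.cons_val_one, h1, one_pow, mul_one]
  simp only [h, intervalIntegral.integral_const, sub_zero, Complex.real_smul]
  push_cast; ring

lemma AVG_rot_hom {a : Pol ℂ} {j : ℕ} (ha : a.IsHomogeneous j) :
    (AVG_rot a).IsHomogeneous j := by
  rcases j with _ | j
  · rw [← totalDegree_zero_iff_isHomogeneous, totalDegree_eq_zero_iff_eq_C] at ha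
    rw [ha]
    simp only [AVG_rot_apply, pderiv_C, mul_zero, sub_self]
    exact isHomogeneous_zero _ _ _
  · rw [AVG_rot_apply]
    have h1 := (isHomogeneous_X ℂ (0 : Fin 2)).mul (ha.pderiv (i := 1))
    have h2 := (isHomogeneous_X ℂ (1 : Fin 2)).mul (ha.pderiv (i := 0))
    rw [show 1 + (j + 1 - 1) = j + 1 by omega] at h1 h2
    exact h1.sub h2

lemma AVG_solve (hLIN : StLIN) {h : Pol ℂ} {j : ℕ} (hh : h.IsHomogeneous j)
    (h0 : AVG_avg h = 0) : ∃ a, AVG_rot a = h := by
  let W : Submodule ℂ (Pol ℂ) := homogeneousSubmodule (Fin 2) ℂ j ⊓ LinearMap.ker AVG_avg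
  have : FiniteDimensional ℂ (homogeneousSubmodule (Fin 2) ℂ j) :=
    Module.Finite.iff_fg.2 (homogeneousSubmodule_fg (Fin 2) ℂ j)
  have : FiniteDimensional ℂ W := Submodule.finiteDimensional_of_le inf_le_left
  have hW : ∀ x ∈ W, AVG_rot x ∈ W := fun x hx =>
    ⟨AVG_rot_hom hx.1, AVG_avg_rot x⟩
  have hinj : Function.Injective (AVG_rot.restrict hW) := by
    rw [← LinearMap.ker_eq_bot, LinearMap.ker_eq_bot']
    intro w hw
    have hw' : AVG_rot w.1 = 0 := congrArg Subtype.val hw
    have hact : act (C (0 : ℂ) * X 0 + C (-1 : ℂ) * X 1, C (1 : ℂ) * X 0 - C (0 : ℂ) * X 1) w.1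
        = 0 := by
      rw [← hw', AVG_rot_apply]
      simp only [act, map_zero, map_neg, map_one]; ring
    rcases hLIN ℂ 0 (-1) 1 w.1 j (by norm_num) w.2.1 hact with h1 | ⟨i, c, -, h1⟩
    · exact Subtype.ext h1
    · have h2 : w.1 = C c * (X 0 ^ 2 + X 1 ^ 2) ^ i := by
        rw [h1]
        congr 2
        simp only [map_zero, map_neg, map_one, mul_zero]; ring
      have h3 : AVG_avg w.1 = 0 := w.2.2
      rw [h2, AVG_avg_pow] at h3
      have h4 : (2 * Real.pi : ℂ) ≠ 0 := by
        exact_mod_cast Real.two_pi_pos.ne'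
      have h5 : c = 0 := (mul_eq_zero.1 h3).resolve_right h4
      apply Subtype.ext
      rw [h2, h5]; simp
  obtain ⟨a, ha⟩ := LinearMap.injective_iff_surjective.1 hinj ⟨h, hh, h0⟩
  exact ⟨a.1, congrArg Subtype.val ha⟩

lemma AVG_scale {h : Pol ℂ} {j : ℕ} (hh : h.IsHomogeneous j) (r : ℂ) (θ : ℝ) :
    eval ![r * Real.cos θ, r * Real.sin θ] h = r ^ j * eval (AVG_pt θ) h := by
  rw [eval_eq', eval_eq', Finset.mul_sum]
  refine Finset.sum_congr rfl fun m hm => ?_
  have h1 : m 0 + m 1 = j := by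
    have h2 := hh (mem_support_iff.1 hm)
    have h3 : Finsupp.degree m = j := by
      rw [Finsupp.degree_eq_weight_one]; exact h2
    rw [Finsupp.degree_eq_sum] at h3
    simpa using h3
  simp only [AVG_pt, Fin.prod_univ_two, Matrix.cons_val_zero, Matrix.cons_val_one, mul_pow, ← h1,
    pow_add]
  ring

lemma AVG_poly (N : ℕ) : ∀ P : Polynomial ℂ,
    ((fun r : ℂ => P.eval r) =O[𝓝[≠] 0] fun r => ‖r‖ ^ N) → ∀ j < N, P.coeff j = 0 := by
  induction N with
  | zero => intro P _ j hj; omega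
  | succ N ih =>
    intro P hP j hj
    have h0 : P.eval 0 = 0 := by
      have h1 : Tendsto (fun r : ℂ => ‖r‖ ^ (N + 1)) (𝓝[≠] 0) (𝓝 0) := by
        have h2 : Tendsto (fun r : ℂ => ‖r‖ ^ (N + 1)) (𝓝 0) (𝓝 (‖(0 : ℂ)‖ ^ (N + 1))) :=
          (continuous_norm.pow _).tendsto 0
        simpa using h2.mono_left nhdsWithin_le_nhds
      have h3 : Tendsto (fun r : ℂ => P.eval r) (𝓝[≠] 0) (𝓝 (P.eval 0)) :=
        (P.continuous.tendsto 0).mono_left nhdsWithin_le_nhds
      exact tendsto_nhds_unique h3 (hP.trans_tendsto h1)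
    have hc : P.coeff 0 = 0 := by rw [Polynomial.coeff_zero_eq_eval_zero, h0]
    obtain ⟨Q, rfl⟩ := Polynomial.X_dvd_iff.2 hc
    rcases j with _ | j
    · exact hc
    · rw [Polynomial.coeff_X_mul]
      refine ih Q ?_ j (by omega)
      obtain ⟨c, hc⟩ := hP.bound
      refine IsBigO.of_bound c ?_
      filter_upwards [hc, self_mem_nhdsWithin] with r hr hr0
      have h4 : 0 < ‖r‖ := norm_pos_iff.2 hr0
      simp only [Polynomial.eval_mul, Polynomial.eval_X, norm_mul, norm_pow, norm_norm] at hr ⊢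
      refine le_of_mul_le_mul_left ?_ h4
      calc ‖r‖ * ‖Q.eval r‖ ≤ c * ‖r‖ ^ (N + 1) := hr
        _ = ‖r‖ * (c * ‖r‖ ^ N) := by ring

theorem pf_AVG (hLIN : StLIN) : StAVG := by
  intro g N hO
  set D := g.totalDegree + 1 with hD
  let P : Polynomial ℂ :=
    ∑ j ∈ Finset.range D, Polynomial.monomial j (AVG_avg (homogeneousComponent j g))
  have hP : ∀ r : ℂ, (∫ θ in (0 : ℝ)..2 * Real.pi, eval ![r * Real.cos θ, r * Real.sin θ] g) =
      P.eval r := by
    intro r
    have h1 : ∀ θ : ℝ, eval ![r * Real.cos θ, r * Real.sin θ] g =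
        eval (AVG_pt θ) (∑ j ∈ Finset.range D, r ^ j • homogeneousComponent j g) := by
      intro θ
      conv_lhs => rw [← sum_homogeneousComponent g]
      simp only [map_sum, smul_eq_C_mul, map_mul, eval_C]
      exact Finset.sum_congr rfl fun j _ =>
        AVG_scale (homogeneousComponent_isHomogeneous j g) r θ
    simp only [h1]
    rw [← AVG_avg_apply, map_sum]
    simp only [P, Polynomial.eval_finsetSum, Polynomial.eval_monomial, map_smul, smul_eq_mul]
    exact Finset.sum_congr rfl fun j _ => mul_comm _ _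
  simp only [hP] at hO
  have hc := AVG_poly N P (hO.mono nhdsWithin_le_nhds)
  have hz : ∀ j < N, AVG_avg (homogeneousComponent j g) = 0 := by
    intro j hj
    by_cases hjD : j < D
    · have h2 := hc j hj
      simp only [P, Polynomial.finsetSum_coeff, Polynomial.coeff_monomial,
        Finset.sum_ite_eq', Finset.mem_range, hjD, if_true] at h2
      exact h2
    · rw [homogeneousComponent_eq_zero j g (by omega), map_zero]
  have hs : ∀ j : ℕ, ∃ a : Pol ℂ, j < N → AVG_rot a = homogeneousComponent j g := by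
    intro j
    by_cases hj : j < N
    · obtain ⟨a, ha⟩ := AVG_solve hLIN (homogeneousComponent_isHomogeneous j g) (hz j hj)
      exact ⟨a, fun _ => ha⟩
    · exact ⟨0, fun h => absurd h hj⟩
  choose a ha using hs
  refine ⟨∑ j ∈ Finset.range N, a j, ?_⟩
  rw [← AVG_rot_apply, map_sum, mem_mI_pow]
  intro m hm
  rw [Finset.sum_congr rfl fun j hj => ha j (Finset.mem_range.1 hj), coeff_sub, coeff_sum]
  simp only [coeff_homogeneousComponent, Finset.sum_ite_eq, Finset.mem_range, hm, if_true,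
    sub_self]

end CenLoc
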