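import Pool.Agent.P.MP_2862dc_ag.Basic

namespace CenLoc

open MvPolynomial

lemma BAD_lg {G : Type} [Fintype G] [DecidableEq G] (f : G → Pol ℂ) (s : G → ℂ) (g : G) :
    lg (fun j => C (s j) * f j) g = (∏ j, s j) • lg f g := by
  rw [lg, lg, Finset.prod_mul_distrib, ← smul_eq_C_mul (f g), ham_smul, smul_eq_C_smul,
    smul_eq_C_smul, smul_smul, smul_smul, ← Finset.mul_prod_erase _ s (Finset.mem_univ g),
    map_mul, map_prod]
  congr 1
  ring

lemma BAD_om {G : Type} [Fintype G] [DecidableEq G] (f : G → Pol ℂ) (lam s : G → ℂ)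
    (hs : ∏ j, s j ≠ 0) :
    om (fun j => C (s j) * f j) (fun j => lam j * (∏ j, s j)⁻¹) = om f lam := by
  rw [om_eq, om_eq]
  refine Finset.sum_congr rfl fun g _ => ?_
  rw [BAD_lg, smul_smul, mul_assoc, inv_mul_cancel₀ hs, mul_one]

lemma BAD_bad {G : Type} [Fintype G] [DecidableEq G] (g0 : G) (f : G → Pol ℂ) (lam s : G → ℂ)
    (hs : ∏ j, s j ≠ 0) (h : Bad g0 f lam) :
    Bad g0 (fun j => C (s j) * f j) (fun j => lam j * (∏ j, s j)⁻¹) := by
  rcases h with h | ⟨p, h1, h2, h3, h4⟩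
  · left
    simp only [h, zero_mul]
  · right
    rw [BAD_om f lam s hs]
    refine ⟨p, h1, h2, h3, ?_⟩
    rw [Finset.prod_mul_distrib, map_mul, h4, mul_zero]

lemma BAD_eval {S T : Type} (A : MvPolynomial (S ⊕ T) ℂ) (π : S → ℂ) (t : T → ℂ) :
    eval t (map (eval π) (sumRingEquiv ℂ T S (rename Sum.swap A))) = eval (Sum.elim π t) A := by
  induction A using MvPolynomial.induction_on with
  | C r => simp [sumRingEquiv_C]
  | add a b ha hb => simp only [map_add, ha, hb]
  | mul_X a j ha =>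
    simp only [map_mul, ha, rename_X, eval_X]
    congr 1
    rcases j with j | j
    · simp [sumRingEquiv_X_inr]
    · simp [sumRingEquiv_X_inl]

theorem pf_BAD (hCASES : StCASES) : StBAD := by
  intro G _ _ dd g0 d h1 hs e
  obtain ⟨A0, hA0, hv⟩ := hCASES G dd g0 d h1 hs e
  have hB0 : sumRingEquiv ℂ (G ⊕ Fin 2) (Idx dd) (rename Sum.swap A0) ≠ 0 := by
    intro h
    apply hA0
    apply rename_injective Sum.swap Sum.swap_leftInverse.injective
    rw [map_zero]
    exact (map_eq_zero_iff _ (sumRingEquiv ℂ (G ⊕ Fin 2) (Idx dd)).injective).mp h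
  obtain ⟨m, hm⟩ := MvPolynomial.ne_zero_iff.mp hB0
  refine ⟨_, hm, fun f lam hf hf0 hbad => ?_⟩
  have key : map (eval fun u => coords d (om f lam) (e u))
      (sumRingEquiv ℂ (G ⊕ Fin 2) (Idx dd) (rename Sum.swap A0)) *
      ((∏ g : G, X (Sum.inl g)) * rename Sum.inr (∏ g, f g)) = 0 := by
    apply MvPolynomial.funext
    intro t
    rw [map_mul, map_mul, map_zero, BAD_eval, eval_rename, map_prod, map_prod]
    simp only [eval_X]
    by_cases hc : ∏ g, t (Sum.inl g) = 0
    · rw [hc, zero_mul, mul_zero]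
    by_cases hq : ∏ g, eval (t ∘ Sum.inr) (f g) = 0
    · rw [hq, mul_zero, mul_zero]
    have hq' : ∀ g, eval (t ∘ Sum.inr) (f g) ≠ 0 := fun g =>
      Finset.prod_ne_zero_iff.mp hq g (Finset.mem_univ g)
    have hs0 : ∏ g, (t (Sum.inl g) / eval (t ∘ Sum.inr) (f g)) ≠ 0 := by
      rw [Finset.prod_div_distrib]
      exact div_ne_zero hc hq
    have := hv (fun j => C (t (Sum.inl j) / eval (t ∘ Sum.inr) (f j)) * f j,
      fun j => lam j * (∏ j, t (Sum.inl j) / eval (t ∘ Sum.inr) (f j))⁻¹)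
      (BAD_bad g0 f lam _ hs0 hbad) (fun g =>
      (totalDegree_mul _ _).trans (by simpa using hf g)) (t ∘ Sum.inr)
    simp only [BAD_om f lam _ hs0] at this
    have et : Sum.elim (fun g => eval (t ∘ Sum.inr)
        (C (t (Sum.inl g) / eval (t ∘ Sum.inr) (f g)) * f g)) (t ∘ Sum.inr) = t := by
      funext x
      rcases x with g | i
      · simp only [Sum.elim_inl, map_mul, eval_C]
        exact div_mul_cancel₀ _ (hq' g)
      · rfl
    rw [et] at this
    rw [this, zero_mul]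
  have hne : ((∏ g : G, X (Sum.inl g)) * rename Sum.inr (∏ g, f g) :
      MvPolynomial (G ⊕ Fin 2) ℂ) ≠ 0 := by
    refine mul_ne_zero (Finset.prod_ne_zero_iff.mpr fun g _ => X_ne_zero _) ?_
    intro h
    have : ∏ g, f g = 0 := by
      apply rename_injective (Sum.inr : Fin 2 → G ⊕ Fin 2) Sum.inr_injective
      rw [h, map_zero]
    exact Finset.prod_ne_zero_iff.mpr (fun g _ => hf0 g) this
  have hB := (mul_eq_zero.mp key).resolve_right hne
  have := congrArg (coeff m) hB
  rwa [coeff_map, coeff_zero] at this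

end CenLoc
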