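import Pool.Agent.P.MP_2862dc_ag.Basic

/-! The bad set is contained in a finite union of elementary thin sets. -/

namespace CenLoc

open MvPolynomial

section
variable {G : Type} [Fintype G] [DecidableEq G] {dd : G → ℕ} {d : ℕ}

lemma CASES_mono {Ω Ω' : Set ((G → Pol ℂ) × (G → ℂ))} (h : Ω ⊆ Ω') (h' : Thin d dd Ω') :
    Thin d dd Ω := by
  intro e
  obtain ⟨A, hA, hA'⟩ := h' e
  exact ⟨A, hA, fun x hx => hA' x (h hx)⟩

lemma CASES_union {Ω Ω' : Set ((G → Pol ℂ) × (G → ℂ))} (h : Thin d dd Ω) (h' : Thin d dd Ω') :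
    Thin d dd (Ω ∪ Ω') := by
  intro e
  obtain ⟨A, hA, hA1⟩ := h e
  obtain ⟨B, hB, hB1⟩ := h' e
  refine ⟨A * B, mul_ne_zero hA hB, fun x hx hd q => ?_⟩
  rw [map_mul]
  rcases hx with hx | hx
  · rw [hA1 x hx hd q, zero_mul]
  · rw [hB1 x hx hd q, mul_zero]

lemma CASES_ex {ι : Type} [Fintype ι] (c : ι → Prop) (Ω : ι → Set ((G → Pol ℂ) × (G → ℂ)))
    (h : ∀ i, c i → Thin d dd (Ω i)) : Thin d dd {x | ∃ i, c i ∧ x ∈ Ω i} := by
  classical
  intro e
  have h1 : ∀ i, ∃ A : MvPolynomial (Idx dd ⊕ G ⊕ Fin 2) ℂ, A ≠ 0 ∧ (c i →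
      ∀ x ∈ Ω i, (∀ g, (x.1 g).totalDegree ≤ dd g) → ∀ q : Pt,
      eval (Sum.elim (fun u => coords d (om x.1 x.2) (e u))
        (Sum.elim (fun g => eval q (x.1 g)) q)) A = 0) := by
    intro i
    by_cases hc : c i
    · obtain ⟨A, hA, hA'⟩ := h i hc e
      exact ⟨A, hA, fun _ => hA'⟩
    · exact ⟨1, one_ne_zero, fun h => absurd h hc⟩
  choose A hA hA' using h1
  refine ⟨∏ i, A i, Finset.prod_ne_zero_iff.mpr fun i _ => hA i, ?_⟩
  rintro x ⟨i, hc, hx⟩ hd q
  rw [map_prod]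
  exact Finset.prod_eq_zero (Finset.mem_univ i) (hA' i hc x hx hd q)

lemma CASES_one (v T : G → ℂ) {i : G} (hi : v i = 0) :
    ∑ g, (∏ m ∈ Finset.univ.erase g, v m) * T g = (∏ m ∈ Finset.univ.erase i, v m) * T i := by
  refine Finset.sum_eq_single i (fun g _ hg => ?_) (by simp)
  rw [Finset.prod_eq_zero (i := i) (by simp [hg.symm]) hi, zero_mul]

lemma CASES_two (v : G → ℂ) (T : G → G → ℂ) {i j : G} (hij : i ≠ j) (hi : v i = 0)
    (hj : v j = 0) :
    ∑ g, ∑ k ∈ Finset.univ.erase g, (∏ m ∈ (Finset.univ.erase g).erase k, v m) * T g k =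
      (∏ m ∈ (Finset.univ.erase i).erase j, v m) * (T i j + T j i) := by
  rw [Finset.sum_eq_add i j hij, mul_add]
  · congr 1
    · refine Finset.sum_eq_single j (fun k _ hk => ?_) (by simp [hij.symm])
      rw [Finset.prod_eq_zero (i := j) (by simp [hk.symm, hij.symm]) hj, zero_mul]
    · rw [Finset.erase_right_comm (a := i)]
      refine Finset.sum_eq_single i (fun k _ hk => ?_) (by simp [hij])
      rw [Finset.prod_eq_zero (i := i) (by simp [hk.symm, hij]) hi, zero_mul]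
  · rintro g _ ⟨hgi, hgj⟩
    refine Finset.sum_eq_zero fun k _ => ?_
    by_cases hk : k = i
    · rw [Finset.prod_eq_zero (i := j) (by simp [hk, hij.symm, hgj.symm]) hj, zero_mul]
    · rw [Finset.prod_eq_zero (i := i) (by simp [Ne.symm hk, hgi.symm]) hi, zero_mul]
  · simp
  · simp

lemma CASES_om1 (f : G → Pol ℂ) (lam : G → ℂ) (p : Pt) :
    eval p (om f lam).1 = ∑ g, (∏ m ∈ Finset.univ.erase g, eval p (f m)) *
      (lam g * eval p (pderiv 1 (f g))) := by
  simp only [om, map_sum, map_mul, map_prod, eval_C]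
  exact Finset.sum_congr rfl fun g _ => by ring

lemma CASES_om2 (f : G → Pol ℂ) (lam : G → ℂ) (p : Pt) :
    eval p (om f lam).2 = -∑ g, (∏ m ∈ Finset.univ.erase g, eval p (f m)) *
      (lam g * eval p (pderiv 0 (f g))) := by
  simp only [om, map_neg, map_sum, map_mul, map_prod, eval_C]
  congr 1
  exact Finset.sum_congr rfl fun g _ => by ring

lemma CASES_dvg (f : G → Pol ℂ) (lam : G → ℂ) (p : Pt) :
    eval p (dvg (om f lam)) = ∑ g, ∑ k ∈ Finset.univ.erase g,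
      (∏ m ∈ (Finset.univ.erase g).erase k, eval p (f m)) *
        (lam g * (eval p (pderiv 0 (f k)) * eval p (pderiv 1 (f g)) -
          eval p (pderiv 1 (f k)) * eval p (pderiv 0 (f g)))) := by
  rw [om_eq, dvg_sum, map_sum]
  refine Finset.sum_congr rfl fun g _ => ?_
  rw [smul_eq_C_smul, dvg_smul, ham_C, lg, dvg_smul, dvg_ham, ham_prod, wedge_sum_left]
  simp only [wedge_smul_left, mul_zero, zero_add, map_add, map_mul, map_sum, map_prod, eval_C,
    Finset.mul_sum]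
  rw [show eval p (wedge (0 : Pol ℂ × Pol ℂ) ((∏ j ∈ Finset.univ.erase g, f j) • ham (f g))) = 0 by
    simp [wedge], add_zero]
  refine Finset.sum_congr rfl fun k _ => ?_
  simp only [wedge, ham, map_sub, map_mul, map_neg]
  ring

end

theorem pf_CASES (hPIECE : StPIECE) : StCASES := by
  classical
  intro G _ _ dd g0 d h1 hs
  obtain ⟨p1, p2, p3, p4, p5⟩ := hPIECE G dd d h1 hs
  have q1 := CASES_ex (fun _ : G => True) _ fun i _ => p1 i
  have q2 := CASES_ex (fun z : G × G => z.1 ≠ z.2) _ fun z hz => p2 z.1 z.2 hz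
  have q3 := CASES_ex (fun _ : G => True) _ fun i _ => p3 i
  have q4 := CASES_ex (fun z : G × G => z.1 ≠ z.2) _ fun z hz => p4 z.1 z.2 hz
  have q5 := CASES_ex (fun z : G × G × G => z.1 ≠ z.2.1 ∧ z.2.1 ≠ z.2.2 ∧ z.1 ≠ z.2.2) _
    fun z hz => p5 z.1 z.2.1 z.2.2 hz.1 hz.2.1 hz.2.2
  refine CASES_mono ?_ (CASES_union q1 (CASES_union q2 (CASES_union q3 (CASES_union q4 q5))))
  rintro ⟨f, lam⟩ hx
  rcases hx with h0 | ⟨p, e1, e2, e3, e4⟩
  · exact Or.inl ⟨g0, trivial, h0⟩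
  simp only at e1 e2 e3 e4
  rw [map_prod, Finset.prod_eq_zero_iff] at e4
  obtain ⟨i, -, hi⟩ := e4
  by_cases hl : lam i = 0
  · exact Or.inl ⟨i, trivial, hl⟩
  by_cases hg : ∀ c, eval p (pderiv c (f i)) = 0
  · exact Or.inr (Or.inr (Or.inl ⟨i, trivial, p, hi, hg⟩))
  by_cases hj : ∃ j, j ≠ i ∧ eval p (f j) = 0
  · obtain ⟨j, hji, hj⟩ := hj
    by_cases hm : ∃ m, m ≠ i ∧ m ≠ j ∧ eval p (f m) = 0
    · obtain ⟨m, hmi, hmj, hm⟩ := hm
      exact Or.inr (Or.inr (Or.inr (Or.inr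
        ⟨(i, j, m), ⟨hji.symm, hmj.symm, hmi.symm⟩, p, hi, hj, hm⟩)))
    by_cases hll : lam i = lam j
    · exact Or.inr (Or.inl ⟨(i, j), hji.symm, hll⟩)
    have hne : (∏ m ∈ (Finset.univ.erase i).erase j, eval p (f m)) ≠ 0 := by
      refine Finset.prod_ne_zero_iff.mpr fun m hm' h => hm ⟨m, ?_, ?_, h⟩
      · exact Finset.ne_of_mem_erase (Finset.mem_of_mem_erase hm')
      · exact Finset.ne_of_mem_erase hm'
    rw [CASES_dvg, CASES_two (fun m => eval p (f m)) _ hji.symm hi hj] at e3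
    have e5 := (mul_eq_zero.mp e3).resolve_left hne
    have e6 : eval p (pderiv 0 (f j)) * eval p (pderiv 1 (f i)) =
        eval p (pderiv 1 (f j)) * eval p (pderiv 0 (f i)) := by
      have : (lam i - lam j) * (eval p (pderiv 0 (f j)) * eval p (pderiv 1 (f i)) -
          eval p (pderiv 1 (f j)) * eval p (pderiv 0 (f i))) = 0 := by
        linear_combination e5
      exact sub_eq_zero.mp ((mul_eq_zero.mp this).resolve_left (sub_ne_zero.mpr hll))
    refine Or.inr (Or.inr (Or.inr (Or.inl ⟨(i, j), hji.symm, p, ?_⟩)))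
    by_cases a0 : eval p (pderiv 0 (f i)) = 0
    · have a1 : eval p (pderiv 1 (f i)) ≠ 0 := fun h => hg (Fin.forall_fin_two.mpr ⟨a0, h⟩)
      refine ⟨eval p (pderiv 1 (f j)) / eval p (pderiv 1 (f i)), hi, hj,
        Fin.forall_fin_two.mpr ⟨?_, ?_⟩⟩
      · rw [a0, mul_zero] at e6 ⊢
        exact (mul_eq_zero.mp e6).resolve_right a1
      · exact (div_mul_cancel₀ _ a1).symm
    · refine ⟨eval p (pderiv 0 (f j)) / eval p (pderiv 0 (f i)), hi, hj,
        Fin.forall_fin_two.mpr ⟨(div_mul_cancel₀ _ a0).symm, ?_⟩⟩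
      field_simp
      linear_combination -e6
  · exfalso
    have hne : (∏ m ∈ Finset.univ.erase i, eval p (f m)) ≠ 0 :=
      Finset.prod_ne_zero_iff.mpr fun m hm' h => hj ⟨m, Finset.ne_of_mem_erase hm', h⟩
    rw [CASES_om1, CASES_one (fun m => eval p (f m)) _ hi] at e1
    rw [CASES_om2, CASES_one (fun m => eval p (f m)) _ hi, neg_eq_zero] at e2
    exact hg (Fin.forall_fin_two.mpr
      ⟨(mul_eq_zero.mp ((mul_eq_zero.mp e2).resolve_left hne)).resolve_left hl,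
        (mul_eq_zero.mp ((mul_eq_zero.mp e1).resolve_left hne)).resolve_left hl⟩)

end CenLoc
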