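import Pool.Agent.P.MP_2862dc_ag.Stmts

/-! The chain rule for the derivations `Der.pt`. -/

namespace CenLoc

open MvPolynomial

noncomputable section

lemma CHAIN_c1 {k : Type} [CommRing k] [Algebra ℂ k] {κ : Type} [Fintype κ] (τ v : κ → k)
    (Φ : MvPolynomial κ ℂ) : (Der.pt τ v).c1 Φ = ∑ u, aeval τ (pderiv u Φ) * v u := rfl

lemma CHAIN_c0 {k : Type} [CommRing k] [Algebra ℂ k] {κ : Type} [Fintype κ] (τ v : κ → k)
    (Φ : MvPolynomial κ ℂ) : (Der.pt τ v).c0 Φ = aeval τ Φ := rfl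

lemma CHAIN_X {k : Type} [CommRing k] [Algebra ℂ k] {κ : Type} [Fintype κ] (τ v : κ → k)
    (i : κ) : (Der.pt τ v).c1 (X i) = v i := by
  classical
  rw [CHAIN_c1, Finset.sum_eq_single i]
  · simp
  · intro j _ hj
    simp [pderiv_X_of_ne (Ne.symm hj)]
  · simp

lemma CHAIN_comp {k : Type} [CommRing k] [Algebra ℂ k] {ι κ : Type}
    (θ : ι → MvPolynomial κ ℂ) (τ : κ → k) (Φ : MvPolynomial ι ℂ) :
    aeval τ (aeval θ Φ) = aeval (fun i => aeval τ (θ i)) Φ := by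
  rw [← AlgHom.comp_apply, comp_aeval]

theorem pf_CHAIN : StCHAIN := by
  intro k _ _ ι κ _ _ θ τ v Φ
  induction Φ using MvPolynomial.induction_on with
  | C a => simp [CHAIN_c1]
  | add p q hp hq => rw [map_add, map_add, map_add, hp, hq]
  | mul_X p i hp =>
    rw [map_mul, Der.leib, Der.leib, hp, CHAIN_X, CHAIN_c0, CHAIN_c0, CHAIN_c0, CHAIN_c0,
      CHAIN_comp, aeval_X, aeval_X, CHAIN_c1]
    congr 1

end

end CenLoc
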