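import Pool.Agent.P.MP_2862dc_ag.Basic

/-! Polynomial jets of the first integral at a center. -/

namespace CenLoc

open MvPolynomial Filter Topology Asymptotics

lemma CJET_line (p v : Pt) : Tendsto (fun t : ℂ => p + t • v) (𝓝[≠] 0) (𝓝 p) := by
  have h : Continuous fun t : ℂ => p + t • v := by fun_prop
  have h2 := h.tendsto 0
  simp only [zero_smul, add_zero] at h2
  exact h2.mono_left nhdsWithin_le_nhds

lemma CJET_slope {φ : Pt → ℂ} {L : Pt →L[ℂ] ℂ} {p : Pt} (h : HasFDerivAt φ L p) (h0 : φ p = 0)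
    (v : Pt) : Tendsto (fun t : ℂ => φ (p + t • v) / t) (𝓝[≠] 0) (𝓝 (L v)) := by
  have h1 : HasDerivAt (fun t : ℂ => p + t • v) v 0 := by
    simpa using ((hasDerivAt_id (0 : ℂ)).smul_const v).const_add p
  have h2 : HasFDerivAt φ L (p + (0 : ℂ) • v) := by simpa using h
  have h3 := h2.comp_hasDerivAt (0 : ℂ) h1
  rw [hasDerivAt_iff_tendsto_slope] at h3
  refine h3.congr fun t => ?_
  simp [slope_def_field, h0]

lemma CJET_sqs_an {ψ : Pt → Pt} {p : Pt} (h : AnalyticAt ℂ ψ p) : AnalyticAt ℂ (sqs ψ) p := by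
  have hj : ∀ j : Fin 2, AnalyticAt ℂ (fun z => ψ z j) p := fun j =>
    ((ContinuousLinearMap.proj (R := ℂ) (φ := fun _ : Fin 2 => ℂ) j).analyticAt _).comp h
  exact ((hj 0).pow 2).add ((hj 1).pow 2)

lemma CJET_comp {ψ : Pt → Pt} {z : Pt} (h : DifferentiableAt ℂ ψ z) (j : Fin 2) :
    HasFDerivAt (fun x => ψ x j)
      ((ContinuousLinearMap.proj (R := ℂ) (φ := fun _ : Fin 2 => ℂ) j).comp (fderiv ℂ ψ z)) z :=
  (ContinuousLinearMap.proj (R := ℂ) (φ := fun _ : Fin 2 => ℂ) j).hasFDerivAt.comp z h.hasFDerivAt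

lemma CJET_dP_sqs {ψ : Pt → Pt} {z : Pt} (h : DifferentiableAt ℂ ψ z) (i : Fin 2) :
    dP (sqs ψ) i z = 2 * ψ z 0 * fderiv ℂ ψ z (Pi.single i 1) 0 +
      2 * ψ z 1 * fderiv ℂ ψ z (Pi.single i 1) 1 := by
  have h0 := ((CJET_comp h 0).pow 2).add ((CJET_comp h 1).pow 2)
  have e : sqs ψ = (fun x => ψ x 0 ^ 2) + fun x => ψ x 1 ^ 2 := rfl
  rw [dP, e, h0.fderiv]
  simp

lemma CJET_dP_lim {ψ : Pt → Pt} {p : Pt} (h : AnalyticAt ℂ ψ p) (h0 : ψ p = 0) (v : Pt)
    (i : Fin 2) : Tendsto (fun t : ℂ => dP (sqs ψ) i (p + t • v) / t) (𝓝[≠] 0)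
      (𝓝 (2 * fderiv ℂ ψ p v 0 * fderiv ℂ ψ p (Pi.single i 1) 0 +
        2 * fderiv ℂ ψ p v 1 * fderiv ℂ ψ p (Pi.single i 1) 1)) := by
  have hs : ∀ j : Fin 2, Tendsto (fun t : ℂ => ψ (p + t • v) j / t) (𝓝[≠] 0)
      (𝓝 (fderiv ℂ ψ p v j)) := fun j =>
    CJET_slope (CJET_comp h.differentiableAt j) (by simp [h0]) v
  have hc : ∀ j : Fin 2, Tendsto (fun t : ℂ => fderiv ℂ ψ (p + t • v) (Pi.single i 1) j)
      (𝓝[≠] 0) (𝓝 (fderiv ℂ ψ p (Pi.single i 1) j)) := fun j => by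
    have h1 : ContinuousAt (fun z => fderiv ℂ ψ z (Pi.single i 1) j) p :=
      (continuous_apply j).continuousAt.comp
        (h.fderiv.continuousAt.clm_apply continuousAt_const)
    exact h1.tendsto.comp (CJET_line p v)
  have hl := (((hs 0).const_mul 2).mul (hc 0)).add (((hs 1).const_mul 2).mul (hc 1))
  refine hl.congr' ?_
  filter_upwards [(CJET_line p v).eventually h.eventually_analyticAt] with t ht
  rw [CJET_dP_sqs ht.differentiableAt]
  ring

lemma CJET_apply (B : Pt →L[ℂ] Pt) (v : Pt) (j : Fin 2) :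
    B v j = v 0 * B (Pi.single 0 1) j + v 1 * B (Pi.single 1 1) j := by
  have : v = v 0 • Pi.single 0 1 + v 1 • Pi.single 1 1 := by
    funext i; fin_cases i <;> simp
  conv_lhs => rw [this]
  simp

lemma CJET_det {B : Pt →L[ℂ] Pt} (hB : Function.Injective B) :
    B (Pi.single 0 1) 0 * B (Pi.single 1 1) 1 - B (Pi.single 1 1) 0 * B (Pi.single 0 1) 1 ≠ 0 := by
  intro hd
  have key : ∀ v : Pt, B v 0 = 0 → B v 1 = 0 → v = 0 := fun v a b => by
    apply hB
    rw [map_zero]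
    funext j; fin_cases j
    · exact a
    · exact b
  have h1 := key ![B (Pi.single 1 1) 0, -B (Pi.single 0 1) 0]
    (by rw [CJET_apply]; simp; ring) (by rw [CJET_apply]; simp; linear_combination -hd)
  have h2 := key ![B (Pi.single 1 1) 1, -B (Pi.single 0 1) 1]
    (by rw [CJET_apply]; simp; linear_combination hd) (by rw [CJET_apply]; simp; ring)
  have a1 : B (Pi.single 0 1) 0 = 0 := by simpa using congrFun h1 1
  have a2 : B (Pi.single 0 1) 1 = 0 := by simpa using congrFun h2 1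
  have := congrFun (key _ a1 a2) 0
  simp at this

lemma CJET_trace {u : Pol ℂ × Pol ℂ} {p : Pt} (h : IsCenter u p) : eval p (dvg u) = 0 := by
  obtain ⟨hP, hQ, -, ψ, hψ, h0, hB, hev⟩ := h
  have key : ∀ v : Pt,
      (eval p (pderiv 0 u.1) * v 0 + eval p (pderiv 1 u.1) * v 1) *
        (2 * fderiv ℂ ψ p v 0 * fderiv ℂ ψ p (Pi.single 0 1) 0 +
          2 * fderiv ℂ ψ p v 1 * fderiv ℂ ψ p (Pi.single 0 1) 1) +
      (eval p (pderiv 0 u.2) * v 0 + eval p (pderiv 1 u.2) * v 1) *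
        (2 * fderiv ℂ ψ p v 0 * fderiv ℂ ψ p (Pi.single 1 1) 0 +
          2 * fderiv ℂ ψ p v 1 * fderiv ℂ ψ p (Pi.single 1 1) 1) = 0 := fun v => by
    have a := CJET_slope (hasFDerivAt_eval u.1 p) hP v
    have b := CJET_slope (hasFDerivAt_eval u.2 p) hQ v
    have hl := (a.mul (CJET_dP_lim hψ h0 v 0)).add (b.mul (CJET_dP_lim hψ h0 v 1))
    have hz : Tendsto (fun t : ℂ => eval (p + t • v) u.1 / t * (dP (sqs ψ) 0 (p + t • v) / t) +
        eval (p + t • v) u.2 / t * (dP (sqs ψ) 1 (p + t • v) / t)) (𝓝[≠] 0) (𝓝 0) := by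
      refine tendsto_const_nhds.congr' ?_
      filter_upwards [(CJET_line p v).eventually hev] with t ht
      have : eval (p + t • v) u.1 / t * (dP (sqs ψ) 0 (p + t • v) / t) +
          eval (p + t • v) u.2 / t * (dP (sqs ψ) 1 (p + t • v) / t) =
          (eval (p + t • v) u.1 * dP (sqs ψ) 0 (p + t • v) +
            eval (p + t • v) u.2 * dP (sqs ψ) 1 (p + t • v)) / (t * t) := by
        simp only [div_eq_mul_inv, mul_inv]; ring
      rw [this, ht, zero_div]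
    have := tendsto_nhds_unique hl hz
    simpa [Fin.sum_univ_two] using this
  have hd := CJET_det hB.1
  have e1 := key (Pi.single 0 1)
  have e2 := key (Pi.single 1 1)
  have e3 := key ![1, 1]
  rw [CJET_apply _ ![1, 1] 0, CJET_apply _ ![1, 1] 1] at e3
  simp only [Pi.single_eq_same, Matrix.cons_val_zero, Matrix.cons_val_one, ne_eq, zero_ne_one,
    one_ne_zero, not_false_eq_true, Pi.single_eq_of_ne, mul_one, mul_zero, add_zero, zero_add,
    one_mul, Matrix.cons_val_fin_one] at e1 e2 e3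
  simp only [dvg, map_add]
  generalize fderiv ℂ ψ p (Pi.single 0 1) 0 = b00 at *
  generalize fderiv ℂ ψ p (Pi.single 0 1) 1 = b10 at *
  generalize fderiv ℂ ψ p (Pi.single 1 1) 0 = b01 at *
  generalize fderiv ℂ ψ p (Pi.single 1 1) 1 = b11 at *
  have : (eval p (pderiv 0 u.1) + eval p (pderiv 1 u.2)) * (2 * (b00 * b11 - b01 * b10) ^ 2) = 0 := by
    linear_combination (b01 ^ 2 + b11 ^ 2) * e1 + (b00 ^ 2 + b10 ^ 2) * e2 -
      (b00 * b01 + b10 * b11) * (e3 - e1 - e2)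
  exact (mul_eq_zero.mp this).resolve_right (mul_ne_zero two_ne_zero (pow_ne_zero _ hd))

lemma CJET_pow_mono (p : Pt) {a b : ℕ} (h : a ≤ b) :
    (fun z : Pt => ‖z - p‖ ^ b) =O[𝓝 p] fun z => ‖z - p‖ ^ a := by
  have h1 : ∀ᶠ z in 𝓝 p, ‖z - p‖ ≤ 1 := by
    filter_upwards [Metric.closedBall_mem_nhds p one_pos] with z hz
    simpa [dist_eq_norm] using hz
  refine IsBigO.of_bound 1 ?_
  filter_upwards [h1] with z hz
  simp only [norm_pow, norm_norm, one_mul]
  exact pow_le_pow_of_le_one (norm_nonneg _) hz h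

lemma CJET_sqs_O {ψ : Pt → Pt} {p : Pt} (h : AnalyticAt ℂ ψ p) (h0 : ψ p = 0) :
    sqs ψ =O[𝓝 p] fun z => ‖z - p‖ ^ 2 := by
  have hj : ∀ j : Fin 2, (fun z => ψ z j) =O[𝓝 p] fun z => ‖z - p‖ := fun j => by
    have := (CJET_comp h.differentiableAt j).isBigO_sub
    simp only [h0, Pi.zero_apply, sub_zero] at this
    exact this.norm_right
  exact ((hj 0).pow 2).add ((hj 1).pow 2)

lemma CJET_not_three {ψ : Pt → Pt} {p : Pt} (h : AnalyticAt ℂ ψ p) (h0 : ψ p = 0)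
    (hB : Function.Surjective (fderiv ℂ ψ p)) :
    ¬ (sqs ψ =O[𝓝 p] fun z => ‖z - p‖ ^ 3) := by
  intro hO
  obtain ⟨v, hv⟩ := hB (Pi.single 0 1)
  have hs : ∀ j : Fin 2, Tendsto (fun t : ℂ => ψ (p + t • v) j / t) (𝓝[≠] 0)
      (𝓝 (fderiv ℂ ψ p v j)) := fun j =>
    CJET_slope (CJET_comp h.differentiableAt j) (by simp [h0]) v
  have hl := ((hs 0).pow 2).add ((hs 1).pow 2)
  rw [hv] at hl
  have h1 : Tendsto (fun t : ℂ => sqs ψ (p + t • v) / t ^ 2) (𝓝[≠] 0) (𝓝 1) := by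
    have e : (Pi.single 0 1 : Pt) 0 ^ 2 + (Pi.single 0 1 : Pt) 1 ^ 2 = 1 := by simp
    rw [e] at hl
    refine hl.congr fun t => ?_
    simp only [sqs, div_pow, add_div]
  have h2 : (fun t : ℂ => sqs ψ (p + t • v)) =o[𝓝[≠] 0] fun t : ℂ => t ^ 2 := by
    have a := hO.comp_tendsto (CJET_line p v)
    have b : (fun t : ℂ => ‖p + t • v - p‖ ^ 3) =O[𝓝[≠] 0] fun t : ℂ => t ^ 3 := by
      refine IsBigO.of_bound (‖v‖ ^ 3) (Eventually.of_forall fun t => ?_)
      simp only [add_sub_cancel_left, norm_smul, norm_pow, norm_mul, norm_norm, mul_pow]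
      rw [mul_comm]
    have c : (fun t : ℂ => t ^ 3) =o[𝓝[≠] 0] fun t : ℂ => t ^ 2 :=
      (isLittleO_pow_pow (by norm_num)).mono nhdsWithin_le_nhds
    exact (a.trans b).trans_isLittleO c
  have h3 := h2.tendsto_div_nhds_zero
  exact one_ne_zero (tendsto_nhds_unique h1 h3)

theorem pf_CJET (hJET : StJET) (hDERO : StDERO) (hPOLYO : StPOLYO) : StCJET := by
  intro u p hc
  refine ⟨CJET_trace hc, fun N => ?_⟩
  obtain ⟨-, -, -, ψ, hψ, h0, hB, hev⟩ := hc
  have han := CJET_sqs_an hψ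
  obtain ⟨f, hf⟩ := hJET (sqs ψ) p (N + 3) han
  have e : ∀ (g : Pol ℂ) (z : Pt), eval (z - p) g = eval z (tr (-p) g) := fun g z => by
    rw [eval_tr, sub_eq_add_neg]
  refine ⟨f, ?_, fun h3 => ?_, ?_⟩
  · rw [← hPOLYO f p 2]
    have := (CJET_sqs_O hψ h0).sub (hf.trans (CJET_pow_mono p (by omega : 2 ≤ N + 3)))
    simpa using this
  · refine CJET_not_three hψ h0 hB.2 ?_
    have := (hf.trans (CJET_pow_mono p (by omega : 3 ≤ N + 3))).add ((hPOLYO f p 3).mpr h3)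
    simpa using this
  · rw [← hPOLYO _ p N]
    have hg : AnalyticAt ℂ (fun z => sqs ψ z - eval (z - p) f) p := by
      simp only [e]
      exact han.sub (analyticAt_eval _ p)
    have hd : ∀ i : Fin 2, (dP (fun z => sqs ψ z - eval (z - p) f) i) =O[𝓝 p]
        fun z => ‖z - p‖ ^ N := fun i =>
      hDERO _ p N i hg (hf.trans (CJET_pow_mono p (by omega)))
    have hb : ∀ g : Pol ℂ, (fun z : Pt => eval z g) =O[𝓝 p] fun _ => (1 : ℝ) := fun g =>
      (analyticAt_eval g p).continuousAt.tendsto.isBigO_one ℝ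
    have hs := (((hb u.1).mul (hd 0)).add ((hb u.2).mul (hd 1))).neg_left
    simp only [one_mul] at hs
    refine hs.congr' ?_ EventuallyEq.rfl
    filter_upwards [hev, han.eventually_analyticAt] with z hz hz'
    have hi : ∀ i : Fin 2, dP (fun z => sqs ψ z - eval (z - p) f) i z =
        dP (sqs ψ) i z - eval (z - p) (pderiv i f) := fun i => by
      simp only [e]
      rw [← pderiv_tr, ← dP_eval, dP, dP, dP,
        fderiv_fun_sub hz'.differentiableAt (analyticAt_eval _ z).differentiableAt]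
      rfl
    rw [hi, hi]
    simp only [act, trP, map_add, map_mul, eval_sub_tr]
    linear_combination -hz

end CenLoc
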