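import Pool.Agent.P.MP_2862dc_ag.Stmts

/-!
Coefficientwise derivations of formal power series and the connection on null classes.
-/

namespace CenLoc

section
variable {k : Type} [Field k] (δ : Derivation ℤ k k)

lemma CONN_coeff (a : Ser k) (m : Fin 2 →₀ ℕ) :
    MvPowerSeries.coeff m (serMap δ a) = δ (MvPowerSeries.coeff m a) := rfl

lemma CONN_add (a b : Ser k) : serMap δ (a + b) = serMap δ a + serMap δ b := by
  ext m
  simp only [CONN_coeff, map_add]

lemma CONN_sub (a b : Ser k) : serMap δ (a - b) = serMap δ a - serMap δ b := by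
  ext m
  simp only [CONN_coeff, map_sub]

lemma CONN_zero : serMap δ (0 : Ser k) = 0 := by
  ext m
  simp only [CONN_coeff, map_zero]

lemma CONN_mul (a b : Ser k) : serMap δ (a * b) = a * serMap δ b + serMap δ a * b := by
  classical
  ext m
  simp only [CONN_coeff, map_add, MvPowerSeries.coeff_mul, map_sum, Derivation.leibniz,
    smul_eq_mul, ← Finset.sum_add_distrib]
  exact Finset.sum_congr rfl fun p _ => by ring

lemma CONN_C (c : k) : serMap δ (MvPowerSeries.C c : Ser k) = MvPowerSeries.C (δ c) := by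
  classical
  ext m
  simp only [CONN_coeff, MvPowerSeries.coeff_C]
  split_ifs <;> simp

lemma CONN_X (i : Fin 2) : serMap δ (MvPowerSeries.X i : Ser k) = 0 := by
  classical
  ext m
  simp only [CONN_coeff, MvPowerSeries.coeff_X, map_zero]
  split_ifs <;> simp

lemma CONN_pderiv (i : Fin 2) (a : Ser k) :
    serMap δ (MvPowerSeries.pderiv k i a) = MvPowerSeries.pderiv k i (serMap δ a) := by
  ext m
  have h1 : δ ((m i : k) + 1) = 0 := by
    have := δ.map_natCast (m i + 1)
    simpa using this
  simp only [CONN_coeff, MvPowerSeries.coeff_pderiv, Derivation.leibniz, smul_eq_mul, h1]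
  ring

end

theorem pf_CONN : StCONN := by
  intro k _ δ
  refine ⟨CONN_add δ, CONN_mul δ, CONN_C δ, CONN_X δ, CONN_pderiv δ, ?_⟩
  intro h H' hH ρ σ hσ ⟨b, ⟨m, hm⟩, hb⟩
  have h1 : serMap δ h.1 = MvPowerSeries.pderiv k 1 H' := congrArg Prod.fst hH
  have h2 : serMap δ h.2 = -MvPowerSeries.pderiv k 0 H' := congrArg Prod.snd hH
  refine ⟨fun j => (serMap δ (b j).1 + H' * (b (j - 1)).1, serMap δ (b j).2 + H' * (b (j - 1)).2),
    ⟨m + 1, fun j hj => ?_⟩, fun j => ?_⟩
  · simp only [hm j (by omega), hm (j - 1) (by omega), Prod.fst_zero, Prod.snd_zero, CONN_zero,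
      mul_zero, add_zero]
    rfl
  · have key : (if 0 ≤ j then (σ + Polynomial.X * Polynomial.C H' * ρ).coeff j.toNat else 0) =
        serMap δ (if 0 ≤ j then ρ.coeff j.toNat else 0) +
          H' * (if 0 ≤ j - 1 then ρ.coeff (j - 1).toNat else 0) := by
      by_cases hj : 0 ≤ j
      · rw [if_pos hj, if_pos hj, Polynomial.coeff_add, hσ, mul_assoc]
        congr 1
        by_cases hj' : 0 ≤ j - 1
        · have e : j.toNat = (j - 1).toNat + 1 := by omega
          rw [if_pos hj', e, Polynomial.coeff_X_mul, Polynomial.coeff_C_mul]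
        · have e : j.toNat = 0 := by omega
          rw [if_neg hj', e, Polynomial.coeff_X_mul_zero, mul_zero]
      · rw [if_neg hj, if_neg hj, if_neg (by omega), CONN_zero, mul_zero, add_zero]
    rw [key, hb j, hb (j - 1)]
    simp only [dvgS, wedge, CONN_add, CONN_sub, CONN_mul, CONN_pderiv, h1, h2, map_add,
      Derivation.leibniz, smul_eq_mul]
    ring

end CenLoc
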