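import Pool.Agent.P.MP_2862dc_ag.Stmts

/-! Subspaces stable under a derivation are spanned by constant vectors. -/

set_option autoImplicit false

namespace CenLoc

open Finset

section
variable {k : Type} [Field k] {ι : Type} [Fintype ι]

open Classical in
/-- the number of nonzero coordinates -/
noncomputable def CONST_sz (v : ι → k) : ℕ := (univ.filter fun i => v i ≠ 0).card

lemma CONST_sz_lt {v w : ι → k} (h : ∀ i, v i = 0 → w i = 0) (j : ι) (hj : v j ≠ 0)
    (hw : w j = 0) : CONST_sz w < CONST_sz v := by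
  classical
  unfold CONST_sz
  apply Finset.card_lt_card
  constructor
  · intro i hi
    simp only [mem_filter, mem_univ, true_and] at hi ⊢
    exact fun h0 => hi (h i h0)
  · intro hsub
    have : j ∈ univ.filter fun i => w i ≠ 0 := hsub (by simpa using hj)
    simp [hw] at this

lemma CONST_ex (δ : Derivation ℤ k k) (U : Submodule k (ι → k))
    (hU : ∀ v ∈ U, (fun i => δ (v i)) ∈ U) :
    ∀ n : ℕ, ∀ v ∈ U, CONST_sz v ≤ n → v ≠ 0 →
      ∃ c ∈ U, (∀ i, δ (c i) = 0) ∧ c ≠ 0 ∧ ∀ i, v i = 0 → c i = 0 := by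
  intro n
  induction n using Nat.strong_induction_on with
  | _ n ih =>
    intro v hv hn h0
    obtain ⟨j, hj⟩ : ∃ j, v j ≠ 0 := by
      by_contra hc
      push Not at hc
      exact h0 (funext hc)
    set u : ι → k := (v j)⁻¹ • v with hu
    have huU : u ∈ U := U.smul_mem _ hv
    have huj : u j = 1 := by simp [hu, hj]
    have huz : ∀ i, v i = 0 → u i = 0 := fun i hi => by simp [hu, hi]
    by_cases hd : (fun i => δ (u i)) = 0
    · refine ⟨u, huU, fun i => congrFun hd i, ?_, huz⟩
      intro h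
      rw [h] at huj
      simp at huj
    · have hz : ∀ i, v i = 0 → (fun i => δ (u i)) i = 0 := fun i hi => by
        simp [huz i hi]
      have hlt : CONST_sz (fun i => δ (u i)) < CONST_sz v :=
        CONST_sz_lt hz j hj (by simp [huj])
      obtain ⟨c, hc, h1, h2, h3⟩ := ih _ (lt_of_lt_of_le hlt hn) _ (hU u huU) le_rfl hd
      exact ⟨c, hc, h1, h2, fun i hi => h3 i (hz i hi)⟩

lemma CONST_span (δ : Derivation ℤ k k) (U : Submodule k (ι → k))
    (hU : ∀ v ∈ U, (fun i => δ (v i)) ∈ U) :
    U ≤ Submodule.span k {v | v ∈ U ∧ ∀ i, δ (v i) = 0} := by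
  have key : ∀ n : ℕ, ∀ v ∈ U, CONST_sz v ≤ n →
      v ∈ Submodule.span k {v | v ∈ U ∧ ∀ i, δ (v i) = 0} := by
    intro n
    induction n using Nat.strong_induction_on with
    | _ n ih =>
      intro v hv hn
      by_cases h0 : v = 0
      · rw [h0]; exact Submodule.zero_mem _
      obtain ⟨c, hc, h1, h2, h3⟩ := CONST_ex δ U hU _ v hv le_rfl h0
      obtain ⟨j, hj⟩ : ∃ j, c j ≠ 0 := by
        by_contra hcc
        push Not at hcc
        exact h2 (funext hcc)
      have hvj : v j ≠ 0 := fun h => hj (h3 j h)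
      set w : ι → k := v - (v j / c j) • c with hw
      have hwU : w ∈ U := U.sub_mem hv (U.smul_mem _ hc)
      have hlt : CONST_sz w < CONST_sz v :=
        CONST_sz_lt (fun i hi => by simp [hw, hi, h3 i hi]) j hvj (by simp [hw, hj])
      have hws := ih _ (lt_of_lt_of_le hlt hn) w hwU le_rfl
      have hcs : c ∈ Submodule.span k {v | v ∈ U ∧ ∀ i, δ (v i) = 0} :=
        Submodule.subset_span ⟨hc, h1⟩
      have : v = w + (v j / c j) • c := by simp [hw]
      rw [this]
      exact Submodule.add_mem _ hws (Submodule.smul_mem _ _ hcs)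
  intro v hv
  exact key _ v hv le_rfl

/-- the orthogonal space for the dot product -/
def CONST_perp (U : Submodule k (ι → k)) : Submodule k (ι → k) where
  carrier := {ψ | ∀ v ∈ U, ∑ i, ψ i * v i = 0}
  add_mem' := by
    intro a b ha hb v hv
    simp only [Pi.add_apply, add_mul, sum_add_distrib, ha v hv, hb v hv, add_zero]
  zero_mem' := by
    intro v _
    simp
  smul_mem' := by
    intro c a ha v hv
    simp only [Pi.smul_apply, smul_eq_mul, mul_assoc, ← mul_sum, ha v hv, mul_zero]

lemma CONST_perp_stable (δ : Derivation ℤ k k) (U : Submodule k (ι → k))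
    (hU : ∀ v ∈ U, (fun i => δ (v i)) ∈ U) :
    ∀ ψ ∈ CONST_perp U, (fun i => δ (ψ i)) ∈ CONST_perp U := by
  intro ψ hψ v hv
  have h1 : ∑ i, ψ i * v i = 0 := hψ v hv
  have h2 : ∑ i, ψ i * δ (v i) = 0 := hψ _ (hU v hv)
  have h3 : δ (∑ i, ψ i * v i) = ∑ i, ψ i * δ (v i) + ∑ i, δ (ψ i) * v i := by
    rw [map_sum, ← sum_add_distrib]
    refine sum_congr rfl fun i _ => ?_
    rw [Derivation.leibniz]
    simp only [smul_eq_mul]
    ring
  rw [h1, map_zero, h2, zero_add] at h3
  exact h3.symm

end

theorem pf_CONST : StCONST := by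
  intro k _ ι _ δ U hU
  classical
  refine ⟨CONST_span δ U hU, fun w hw => ?_⟩
  obtain ⟨f, hf, hfU⟩ := Submodule.exists_dual_map_eq_bot_of_notMem hw inferInstance
  have hdot : ∀ v : ι → k, f v = ∑ i, f (Pi.single i 1) * v i := by
    intro v
    conv_lhs => rw [pi_eq_sum_univ' v]
    rw [map_sum]
    refine sum_congr rfl fun i _ => ?_
    rw [map_smul, smul_eq_mul, mul_comm]
  have h0 : (fun i => f (Pi.single i 1)) ∈ CONST_perp U := by
    intro v hv
    rw [← hdot v]
    have : f v ∈ U.map f := Submodule.mem_map_of_mem hv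
    rw [hfU] at this
    exact (Submodule.mem_bot k).1 this
  have hsp := CONST_span δ (CONST_perp U) (CONST_perp_stable δ U hU) h0
  by_contra hc
  push Not at hc
  have hall : ∀ ψ ∈ Submodule.span k {v | v ∈ CONST_perp U ∧ ∀ i, δ (v i) = 0},
      ∑ i, ψ i * w i = 0 := by
    intro ψ hψ
    induction hψ using Submodule.span_induction with
    | mem x hx => exact hc x hx.2 hx.1
    | zero => simp
    | add a b _ _ ha hb =>
      simp only [Pi.add_apply, add_mul, sum_add_distrib, ha, hb, add_zero]
    | smul c a _ ha =>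
      simp only [Pi.smul_apply, smul_eq_mul, mul_assoc, ← mul_sum, ha, mul_zero]
  have := hall _ hsp
  rw [← hdot w] at this
  exact hf this

end CenLoc
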