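import Pool.Agent.P.MP_2862dc_ag.Basic

namespace CenLoc

open MvPolynomial

section DEC
variable {k G I : Type} [Field k] [Fintype G] [Fintype I] [DecidableEq I]
  (L : Lines k G I)

/-- Sums of elements of the spaces `B j`. -/
def DEC_S : Submodule k (Ser k × Ser k) where
  carrier := {u | ∃ χ : I → Ser k × Ser k, (∀ j, χ j ∈ L.B j) ∧ u = ∑ j, χ j}
  add_mem' := by
    rintro _ _ ⟨χ, h, rfl⟩ ⟨χ', h', rfl⟩
    exact ⟨χ + χ', fun j => add_mem (h j) (h' j), by simp [Finset.sum_add_distrib]⟩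
  zero_mem' := ⟨0, fun j => zero_mem _, by simp⟩
  smul_mem' := by
    rintro c _ ⟨χ, h, rfl⟩
    exact ⟨c • χ, fun j => Submodule.smul_mem _ _ (h j), by simp [Finset.smul_sum]⟩

omit [Fintype G] in
lemma DEC_mem {j : I} {x : Ser k × Ser k} (hx : x ∈ L.B j) : x ∈ DEC_S L := by
  refine ⟨Pi.single j x, fun i => ?_, by simp⟩
  by_cases h : i = j
  · subst h
    simpa using hx
  · rw [Pi.single_eq_of_ne h]
    exact zero_mem _

omit [Fintype G] [Fintype I] [DecidableEq I] in
lemma DEC_B' {j m : I} (h : m ≠ j) : (L.t j * L.t m) • hamS (L.l m : Ser k) ∈ L.B j :=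
  Submodule.mem_sup_left (Submodule.subset_span ⟨m, h, rfl⟩)

lemma DEC_A1 (hG : L.Gen) {x : Ser k} (hx : x ∈ L.A1) :
    (x, (0 : Ser k)) ∈ DEC_S L ∧ ((0 : Ser k), x) ∈ DEC_S L := by
  induction hx using Submodule.span_induction with
  | mem x hx =>
    rcases hx with ⟨i, rfl⟩ | ⟨i, j, hij, rfl⟩
    · exact ⟨DEC_mem L (j := i) (Submodule.mem_sup_right (Submodule.subset_span (by simp))),
        DEC_mem L (j := i) (Submodule.mem_sup_right (Submodule.subset_span (by simp)))⟩
    · have hb := hG.br_ne i j hij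
      have h1 := DEC_mem L (DEC_B' L hij)
      have h2 := DEC_mem L (DEC_B' L hij.symm)
      have e1 : L.br i j • (L.t i * L.t j, (0 : Ser k)) =
          L.a i • ((L.t i * L.t j) • hamS (L.l j : Ser k)) -
            L.a j • ((L.t j * L.t i) • hamS (L.l i : Ser k)) := by
        ext1 <;> simp [L.hamS_l, Lines.br, MvPowerSeries.smul_eq_C_mul] <;> ring
      have e2 : L.br i j • ((0 : Ser k), L.t i * L.t j) =
          L.b i • ((L.t i * L.t j) • hamS (L.l j : Ser k)) -
            L.b j • ((L.t j * L.t i) • hamS (L.l i : Ser k)) := by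
        ext1 <;> simp [L.hamS_l, Lines.br, MvPowerSeries.smul_eq_C_mul] <;> ring
      constructor
      · have h : L.br i j • (L.t i * L.t j, (0 : Ser k)) ∈ DEC_S L := by
          rw [e1]
          exact sub_mem (Submodule.smul_mem _ _ h2) (Submodule.smul_mem _ _ h1)
        have := Submodule.smul_mem _ (L.br i j)⁻¹ h
        rwa [smul_smul, inv_mul_cancel₀ hb, one_smul] at this
      · have h : L.br i j • ((0 : Ser k), L.t i * L.t j) ∈ DEC_S L := by
          rw [e2]
          exact sub_mem (Submodule.smul_mem _ _ h2) (Submodule.smul_mem _ _ h1)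
        have := Submodule.smul_mem _ (L.br i j)⁻¹ h
        rwa [smul_smul, inv_mul_cancel₀ hb, one_smul] at this
  | zero => exact ⟨zero_mem _, zero_mem _⟩
  | add x y _ _ hx hy =>
    constructor
    · simpa using add_mem hx.1 hy.1
    · simpa using add_mem hx.2 hy.2
  | smul c x _ hx =>
    constructor
    · simpa using Submodule.smul_mem _ c hx.1
    · simpa using Submodule.smul_mem _ c hx.2

omit [Fintype G] [Fintype I] [DecidableEq I] in
/-- Induction principle for `B j`. -/
lemma DEC_ind {j : I} (P : Ser k × Ser k → Prop) (h0 : P 0) (ha : ∀ x y, P x → P y → P (x + y))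
    (hs : ∀ (c : k) x, P x → P (c • x)) (h1 : P (L.t j, 0)) (h2 : P (0, L.t j))
    (h3 : ∀ m, m ≠ j → P ((L.t j * L.t m) • hamS (L.l m : Ser k))) {χ : Ser k × Ser k}
    (hχ : χ ∈ L.B j) : P χ := by
  obtain ⟨x, hx, y, hy, rfl⟩ := Submodule.mem_sup.1 hχ
  refine ha _ _ ?_ ?_
  · clear hχ
    induction hx using Submodule.span_induction with
    | mem x hx =>
      obtain ⟨m, hm, rfl⟩ := hx
      exact h3 m hm
    | zero => exact h0
    | add x y _ _ hx hy => exact ha _ _ hx hy
    | smul c x _ hx => exact hs _ _ hx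
  · clear hχ
    induction hy using Submodule.span_induction with
    | mem x hx =>
      rcases hx with rfl | rfl
      · exact h1
      · exact h2
    | zero => exact h0
    | add x y _ _ hx hy => exact ha _ _ hx hy
    | smul c x _ hx => exact hs _ _ hx

omit [Fintype G] in
lemma DEC_key (j : I) (θ : Ser k × Ser k) (hθ : dvgS θ = 0) :
    L.mu j • dvgS (L.t j • θ) + wedge L.h (L.t j • θ) =
      ∑ m ∈ Finset.univ.erase j, L.mu m • (L.t m * L.t j * wedge (hamS (L.l m : Ser k)) θ) := by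
  rw [dvgS_smul, hθ, mul_zero, zero_add, L.hamS_t, wedge_smul_left, wedge_smul_right, Lines.h,
    Lines.zeta, wedge_sum_left, ← Finset.add_sum_erase _ _ (Finset.mem_univ j), mul_add,
    Finset.mul_sum, ← add_assoc]
  have e : L.mu j • (-(L.t j ^ 2) * wedge (hamS (L.l j : Ser k)) θ) +
      L.t j * wedge ((L.mu j • L.t j) • hamS (L.l j : Ser k)) θ = 0 := by
    rw [wedge_smul_left]
    simp only [MvPowerSeries.smul_eq_C_mul]
    ring
  rw [e, zero_add]
  refine Finset.sum_congr rfl fun m _ => ?_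
  rw [wedge_smul_left]
  simp only [MvPowerSeries.smul_eq_C_mul]
  ring

omit [Fintype G] [Fintype I] [DecidableEq I] in
lemma DEC_E {i j : I} (h : i ≠ j) : L.t i * L.t j ∈ L.E := Submodule.subset_span ⟨i, j, h, rfl⟩

omit [Fintype G] in
lemma DEC_const (j : I) (θ : Ser k × Ser k) (hθ : dvgS θ = 0)
    (hc : ∀ m, ∃ c : k, wedge (hamS (L.l m : Ser k)) θ = MvPowerSeries.C c) :
    L.mu j • dvgS (L.t j • θ) + wedge L.h (L.t j • θ) ∈ L.E := by
  rw [DEC_key L j θ hθ]
  refine Submodule.sum_mem _ fun m hm => Submodule.smul_mem _ _ ?_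
  obtain ⟨c, hc⟩ := hc m
  rw [hc, mul_comm, ← MvPowerSeries.smul_eq_C_mul]
  exact Submodule.smul_mem _ _ (DEC_E L (Finset.ne_of_mem_erase hm))

omit [Fintype G] in
lemma DEC_F1 (j : I) : ((∏ i, L.l i : Pol k) : Ser k) * L.t j =
    ((∏ i ∈ Finset.univ.erase j, L.l i : Pol k) : Ser k) := by
  rw [← Finset.mul_prod_erase _ _ (Finset.mem_univ j), MvPolynomial.coe_mul, mul_right_comm,
    L.l_mul_t, one_mul]

omit [Fintype G] in
lemma DEC_F2 {j m : I} (h : m ≠ j) : ((∏ i, L.l i : Pol k) : Ser k) * (L.t j * L.t m) =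
    ((∏ i ∈ (Finset.univ.erase j).erase m, L.l i : Pol k) : Ser k) := by
  rw [← mul_assoc, DEC_F1,
    ← Finset.mul_prod_erase _ _ (Finset.mem_erase.2 ⟨h, Finset.mem_univ m⟩), MvPolynomial.coe_mul,
    mul_right_comm, L.l_mul_t, one_mul]

omit [Fintype G] [Fintype I] [DecidableEq I] in
lemma DEC_deg (A : Finset I) : (∏ i ∈ A, L.l i).totalDegree ≤ A.card := by
  simpa using totalDegree_prod_le A L.l (fun _ => 1) fun i _ => L.totalDegree_l_le i

omit [Fintype G] [Fintype I] [DecidableEq I] in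
lemma DEC_deg' (A : Finset I) (m : I) : DegLE A.card ((∏ i ∈ A, L.l i) • ham (L.l m)) :=
  DegLE.mul (DEC_deg L A) (degLE_ham (L.totalDegree_l_le m))

end DEC

theorem pf_DEC (hLS : StLS) : StDEC := by
  intro k G I _ _ _ _ _ _ L hG
  obtain ⟨-, -, -, -, -, h3, -⟩ := hLS k G I L hG
  have cE : ∀ j : I, (Finset.univ.erase j).card = Fintype.card I - 1 := fun j => by
    rw [Finset.card_erase_of_mem (Finset.mem_univ j), Finset.card_univ]
  refine ⟨fun u h1 h2 => ?_, fun j χ hχ => ?_, fun j χ hχ => ?_, fun c => ?_, fun x hx => ?_⟩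
  · have := add_mem (DEC_A1 L hG h1).1 (DEC_A1 L hG h2).2
    have h : u ∈ DEC_S L := by simpa using this
    exact h
  · refine DEC_ind L (fun χ => L.mu j • dvgS χ + wedge L.h χ ∈ L.E) ?_ ?_ ?_ ?_ ?_ ?_ hχ
    · simp [dvgS_zero, wedge]
    · intro x y hx hy
      rw [dvgS_add, wedge_add_right, smul_add, add_add_add_comm]
      exact add_mem hx hy
    · intro c x hx
      rw [dvgS_smul', wedge_smul_right', smul_comm, ← smul_add]
      exact Submodule.smul_mem _ _ hx
    · have := DEC_const L j (1, 0) (by simp [dvgS]) fun m => ⟨L.a m, by simp [L.hamS_l, wedge]⟩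
      simpa using this
    · have := DEC_const L j (0, 1) (by simp [dvgS]) fun m => ⟨L.b m, by simp [L.hamS_l, wedge]⟩
      simpa using this
    · intro m' hm'
      have hθ : dvgS (L.t m' • hamS (L.l m' : Ser k)) = 0 := by
        rw [dvgS_smul, dvgS_hamS, mul_zero, zero_add, L.hamS_t, wedge_smul_left, wedge_self,
          mul_zero]
      rw [mul_smul, DEC_key L j _ hθ]
      refine Submodule.sum_mem _ fun m hm => Submodule.smul_mem _ _ ?_
      have hmj := Finset.ne_of_mem_erase hm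
      rw [wedge_smul_right, L.wedge_hamS_l]
      by_cases h : m = m'
      · rw [h, L.br_self, map_zero, mul_zero, mul_zero]
        exact zero_mem _
      · have hD := hG.D_ne m j m' hmj hm'.symm h
        have hE : L.D m j m' • (L.t m * L.t j * L.t m') ∈ L.E := by
          rw [h3 m j m' hmj hm'.symm h]
          exact add_mem (add_mem (Submodule.smul_mem _ _ (DEC_E L hmj))
            (Submodule.smul_mem _ _ (DEC_E L hm'.symm)))
            (Submodule.smul_mem _ _ (DEC_E L (Ne.symm h)))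
        have h2 := Submodule.smul_mem _ (L.br m m' * (L.D m j m')⁻¹) hE
        rw [smul_smul, mul_assoc, inv_mul_cancel₀ hD, mul_one, MvPowerSeries.smul_eq_C_mul] at h2
        convert h2 using 1
        ring
  · refine DEC_ind L (fun χ => ∃ σ : Pol k × Pol k, DegLE (Fintype.card I - 1) σ ∧
      ((∏ i, L.l i : Pol k) : Ser k) • χ = coeP σ) ?_ ?_ ?_ ?_ ?_ ?_ hχ
    · exact ⟨0, degLE_zero _, by rw [smul_zero, coeP_zero]⟩
    · rintro x y ⟨σ, h, e⟩ ⟨σ', h', e'⟩
      exact ⟨σ + σ', h.add h', by rw [smul_add, e, e', coeP_add]⟩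
    · rintro c x ⟨σ, h, e⟩
      exact ⟨c • σ, h.smul c, by rw [smul_comm, e, coeP_smul']⟩
    · refine ⟨(∏ i ∈ Finset.univ.erase j, L.l i, 0), ⟨(DEC_deg L _).trans (cE j).le, by simp⟩, ?_⟩
      rw [Prod.smul_mk, smul_eq_mul, DEC_F1, smul_zero]
      simp [coeP]
    · refine ⟨(0, ∏ i ∈ Finset.univ.erase j, L.l i), ⟨by simp, (DEC_deg L _).trans (cE j).le⟩, ?_⟩
      rw [Prod.smul_mk, smul_zero, smul_eq_mul, DEC_F1]
      simp [coeP]
    · intro m hm
      refine ⟨_, (DEC_deg' L ((Finset.univ.erase j).erase m) m).mono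
        ((Finset.card_erase_le).trans (cE j).le), ?_⟩
      rw [smul_smul, DEC_F2 L hm, coeP_smul, coeP_ham]
  · exact degLE_sum _ _ fun i _ => ((DEC_deg' L _ i).mono (cE i).le).smul _
  · induction hx using Submodule.span_induction with
    | mem x hx =>
      obtain ⟨i, j, hij, rfl⟩ := hx
      exact ⟨_, DEC_F2 L hij.symm⟩
    | zero => exact ⟨0, by simp⟩
    | add x y _ _ hx hy =>
      obtain ⟨σ, e⟩ := hx
      obtain ⟨σ', e'⟩ := hy
      exact ⟨σ + σ', by rw [mul_add, e, e', MvPolynomial.coe_add]⟩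
    | smul c x _ hx =>
      obtain ⟨σ, e⟩ := hx
      exact ⟨c • σ, by rw [mul_smul_comm, e, coeS_smul]⟩

end CenLoc
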