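import Pool.Agent.P.MP_2862dc_ag.Basic

/-! Density of the complement of a hypersurface in the logarithmic locus. -/

namespace CenLoc

open MvPolynomial Filter Topology

lemma DENS_deg {e : ℕ} {a b : Pol ℂ} (t : ℂ) (ha : a.totalDegree ≤ e) (hb : b.totalDegree ≤ e) :
    (C (1 - t) * a + C t * b).totalDegree ≤ e := by
  refine (totalDegree_add _ _).trans (max_le ?_ ?_)
  · exact (totalDegree_mul _ _).trans (by rw [totalDegree_C, zero_add]; exact ha)
  · exact (totalDegree_mul _ _).trans (by rw [totalDegree_C, zero_add]; exact hb)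

lemma DENS_eval_aeval {ι : Type} (w : ι → Polynomial ℂ) (Φ : MvPolynomial ι ℂ) (t : ℂ) :
    Polynomial.eval t (aeval w Φ) = eval (fun i => Polynomial.eval t (w i)) Φ := by
  induction Φ using MvPolynomial.induction_on with
  | C r => simp
  | add a b ha hb => simp [ha, hb]
  | mul_X a j ha => simp [ha]

theorem pf_DENS : StDENS := by
  classical
  intro d s dd Φ h1 hs hex ω hω
  obtain ⟨ω1, ⟨-, f1, lam1, hf1, e1⟩, hΦ⟩ := hex
  obtain ⟨hω0, f, lam, hf, e⟩ := hω
  let ft : Fin s → Pol (Polynomial ℂ) := fun g =>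
    C (1 - Polynomial.X) * map Polynomial.C (f g) + C Polynomial.X * map Polynomial.C (f1 g)
  let lt : Fin s → Polynomial ℂ := fun g =>
    (1 - Polynomial.X) * Polynomial.C (lam g) + Polynomial.X * Polynomial.C (lam1 g)
  let w : Fin 2 × Mon d → Polynomial ℂ := coords d (om ft lt)
  let γ : ℂ → Fin 2 × Mon d → ℂ := fun t i => Polynomial.eval t (w i)
  have hmap : ∀ (t : ℂ) (x : Pol ℂ),
      map (Polynomial.evalRingHom t) (map Polynomial.C x) = x := by
    intro t x
    rw [MvPolynomial.map_map]
    have : (Polynomial.evalRingHom t).comp Polynomial.C = RingHom.id ℂ := by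
      ext z; simp
    rw [this, MvPolynomial.map_id]
  have hγ : ∀ t, γ t = coords d (om (fun g => C (1 - t) * f g + C t * f1 g)
      fun g => (1 - t) * lam g + t * lam1 g) := by
    intro t
    funext i
    have := coords_mapP (Polynomial.evalRingHom t) d (om ft lt) i
    rw [mapP_om] at this
    have e2 : (fun g => map (Polynomial.evalRingHom t) (ft g)) =
        fun g => C (1 - t) * f g + C t * f1 g := by
      funext g
      simp only [ft, map_add, map_mul, map_C, hmap]
      simp
    have e3 : (fun g => Polynomial.evalRingHom t (lt g)) =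
        fun g => (1 - t) * lam g + t * lam1 g := by
      funext g
      simp only [lt, map_add, map_mul, map_sub, map_one, Polynomial.coe_evalRingHom,
        Polynomial.eval_X, Polynomial.eval_C]
    rw [e2, e3] at this
    exact this.symm
  have hγ0 : γ 0 = ω := by
    rw [hγ]
    simp only [sub_zero, map_one, one_mul, map_zero, zero_mul, add_zero]
    rw [← e, coords_form]
  have hγ1 : γ 1 = ω1 := by
    rw [hγ]
    simp only [sub_self, map_one, one_mul, map_zero, zero_mul, zero_add]
    rw [← e1, coords_form]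
  have hcont : Continuous γ := continuous_pi fun i => (w i).continuous
  have hP : aeval w Φ ≠ 0 := by
    intro h0
    apply hΦ
    rw [← hγ1, ← DENS_eval_aeval, h0, Polynomial.eval_zero]
  have hfin : {t : ℂ | (aeval w Φ).IsRoot t}.Finite := Polynomial.finite_setOfPred_isRoot hP
  have hev1 : ∀ᶠ t in 𝓝[≠] (0 : ℂ), eval (γ t) Φ ≠ 0 := by
    have h2 : ({t : ℂ | (aeval w Φ).IsRoot t} \ {0})ᶜ ∈ 𝓝 (0 : ℂ) :=
      (hfin.subset Set.sdiff_subset).isClosed.isOpen_compl.mem_nhds (by simp)
    filter_upwards [nhdsWithin_le_nhds h2, self_mem_nhdsWithin] with t ht ht0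
    intro h3
    apply ht
    refine ⟨?_, ht0⟩
    change Polynomial.eval t (aeval w Φ) = 0
    rw [DENS_eval_aeval]; exact h3
  have hev2 : ∀ᶠ t in 𝓝[≠] (0 : ℂ), γ t ≠ 0 := by
    apply nhdsWithin_le_nhds
    exact hcont.continuousAt.eventually_ne (by rw [hγ0]; exact hω0)
  have htend : Tendsto γ (𝓝[≠] (0 : ℂ)) (𝓝 ω) := by
    rw [← hγ0]
    exact hcont.continuousAt.tendsto.mono_left nhdsWithin_le_nhds
  refine mem_closure_of_tendsto htend ?_
  filter_upwards [hev1, hev2] with t ht1 ht2
  refine ⟨⟨ht2, fun g => C (1 - t) * f g + C t * f1 g, fun g => (1 - t) * lam g + t * lam1 g,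
    fun g => DENS_deg t (hf g) (hf1 g), ?_⟩, ht1⟩
  rw [hγ]
  exact form_coords (degLE_om _ h1 hs fun g => DENS_deg t (hf g) (hf1 g))

end CenLoc
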