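import Pool.Agent.P.MP_2862dc_ag.Stmts

/-! More polynomials than variables are algebraically dependent. -/

namespace CenLoc

open MvPolynomial

theorem pf_DEP : StDEP := by
  intro ι κ _ _ θ hlt
  by_contra hA
  push Not at hA
  have hind : AlgebraicIndependent ℂ θ := by
    rw [algebraicIndependent_iff]
    intro p hp
    by_contra hp0
    exact hA p hp0 hp
  have h1 := hind.cardinalMk_le_trdeg
  rw [MvPolynomial.trdeg_of_isDomain, Cardinal.lift_id, Cardinal.mk_fintype,
    Cardinal.mk_fintype] at h1
  have h2 : Fintype.card ι ≤ Fintype.card κ := by exact_mod_cast h1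
  omega

end CenLoc
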