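import Pool.Agent.P.MP_2862dc_ag.Stmts

/-!
Differentiating a vanishing order estimate for a holomorphic function, by the Cauchy estimate.
-/

namespace CenLoc

open MvPolynomial Filter Topology Asymptotics

lemma DERO_cauchy (g : Pt → ℂ) (p : Pt) (N : ℕ) (i : Fin 2) (C ε : ℝ) (hC : 0 ≤ C)
    (hd : ∀ z, ‖z - p‖ < ε → DifferentiableAt ℂ g z)
    (hb : ∀ z, ‖z - p‖ < ε → ‖g z‖ ≤ C * ‖z - p‖ ^ (N + 1))
    (z : Pt) (ρ : ℝ) (hρ : 0 < ρ) (hz : ‖z - p‖ + ρ < ε) :
    ‖dP g i z‖ ≤ C * (‖z - p‖ + ρ) ^ (N + 1) / ρ := by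
  set v : Pt := Pi.single i 1 with hvdef
  have hv : ‖v‖ = 1 := by simp [hvdef, Pi.norm_single]
  have hn : ∀ t : ℂ, ‖t‖ ≤ ρ → ‖z + t • v - p‖ ≤ ‖z - p‖ + ρ := by
    intro t ht
    have h1 : z + t • v - p = (z - p) + t • v := by abel
    rw [h1]
    refine (norm_add_le _ _).trans ?_
    rw [norm_smul, hv, mul_one]
    linarith
  have hlin : ∀ t : ℂ, HasDerivAt (fun t : ℂ => z + t • v) v t := by
    intro t
    simpa using ((hasDerivAt_id t).smul_const v).const_add z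
  have hφd : ∀ t : ℂ, ‖t‖ ≤ ρ → DifferentiableAt ℂ (fun t : ℂ => g (z + t • v)) t := by
    intro t ht
    exact (hd _ ((hn t ht).trans_lt hz)).comp t (hlin t).differentiableAt
  have hz0 : DifferentiableAt ℂ g (z + (0 : ℂ) • v) := hd _ ((hn 0 (by simpa using hρ.le)).trans_lt hz)
  have hder : HasDerivAt (fun t : ℂ => g (z + t • v)) (dP g i z) 0 := by
    have := hz0.hasFDerivAt.comp_hasDerivAt (0 : ℂ) (hlin 0)
    simpa [dP, Function.comp_def, hvdef] using this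
  have hdc : DiffContOnCl ℂ (fun t : ℂ => g (z + t • v)) (Metric.ball 0 ρ) := by
    apply DifferentiableOn.diffContOnCl
    rw [closure_ball _ hρ.ne']
    intro t ht
    exact (hφd t (by simpa using ht)).differentiableWithinAt
  have hs : ∀ t ∈ Metric.sphere (0 : ℂ) ρ,
      ‖g (z + t • v)‖ ≤ C * (‖z - p‖ + ρ) ^ (N + 1) := by
    intro t ht
    have ht' : ‖t‖ ≤ ρ := by
      have : ‖t‖ = ρ := by simpa using ht
      exact this.le
    refine (hb _ ((hn t ht').trans_lt hz)).trans ?_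
    exact mul_le_mul_of_nonneg_left (pow_le_pow_left₀ (norm_nonneg _) (hn t ht') _) hC
  have := Complex.norm_deriv_le_of_forall_mem_sphere_norm_le hρ hdc hs
  rwa [hder.deriv] at this

theorem pf_DERO : StDERO := by
  intro g p N i hg hO
  obtain ⟨C, hC0, hC⟩ := hO.exists_nonneg
  have h1 : ∀ᶠ z in 𝓝 p, DifferentiableAt ℂ g z ∧ ‖g z‖ ≤ C * ‖z - p‖ ^ (N + 1) := by
    filter_upwards [hg.eventually_analyticAt, hC.bound] with z hz hz'
    exact ⟨hz.differentiableAt, by simpa using hz'⟩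
  obtain ⟨ε, hε, hball⟩ := Metric.eventually_nhds_iff.1 h1
  have hd : ∀ z, ‖z - p‖ < ε → DifferentiableAt ℂ g z := fun z hz =>
    (hball (by rwa [dist_eq_norm])).1
  have hb : ∀ z, ‖z - p‖ < ε → ‖g z‖ ≤ C * ‖z - p‖ ^ (N + 1) := fun z hz =>
    (hball (by rwa [dist_eq_norm])).2
  refine IsBigO.of_bound (C * 2 ^ (N + 1)) ?_
  filter_upwards [Metric.ball_mem_nhds p (half_pos hε)] with z hz
  have hz' : ‖z - p‖ < ε / 2 := by rwa [Metric.mem_ball, dist_eq_norm] at hz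
  rw [Real.norm_of_nonneg (pow_nonneg (norm_nonneg _) _)]
  rcases (norm_nonneg (z - p)).eq_or_lt with h0 | h0
  · have hlim : Tendsto (fun ρ : ℝ => C * ρ ^ N) (𝓝[>] 0) (𝓝 (C * (0 : ℝ) ^ N)) :=
      (((continuous_pow N).tendsto 0).const_mul C).mono_left nhdsWithin_le_nhds
    have hle : ‖dP g i z‖ ≤ C * (0 : ℝ) ^ N := by
      refine ge_of_tendsto hlim ?_
      filter_upwards [Ioo_mem_nhdsGT hε] with ρ hρ
      have := DERO_cauchy g p N i C ε hC0 hd hb z ρ hρ.1 (by rw [← h0, zero_add]; exact hρ.2)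
      rw [← h0, zero_add, pow_succ, ← mul_assoc, mul_div_assoc, div_self hρ.1.ne', mul_one] at this
      exact this
    rw [← h0]
    refine hle.trans ?_
    have h2 : (1 : ℝ) ≤ 2 ^ (N + 1) := one_le_pow₀ (by norm_num)
    have h3 : (0 : ℝ) ≤ 0 ^ N := pow_nonneg le_rfl _
    have h4 : C ≤ C * 2 ^ (N + 1) := le_mul_of_one_le_right hC0 h2
    exact mul_le_mul_of_nonneg_right h4 h3
  · have := DERO_cauchy g p N i C ε hC0 hd hb z ‖z - p‖ h0 (by linarith)
    refine this.trans (le_of_eq ?_)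
    rw [← two_mul, mul_pow]
    field_simp
    ring

end CenLoc
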