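import Pool.Agent.P.MP_2862dc_ag.Stmts

/-!
Tangent vectors to a set of matrices of bounded rank.
-/

namespace CenLoc

open MvPolynomial Matrix

lemma DET_c1_one {R k : Type} [CommRing R] [CommRing k] (D : Der R k) : D.c1 1 = 0 := by
  have h := D.leib 1 1
  simp only [mul_one, map_one, one_mul] at h
  exact left_eq_add.mp h

lemma DET_c1_sign {R k : Type} [CommRing R] [CommRing k] (D : Der R k) (n : ℕ) (x : R) :
    D.c1 ((-1) ^ n * x) = (-1) ^ n * D.c1 x := by
  rcases Nat.even_or_odd n with h | h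
  · simp [h.neg_one_pow]
  · simp [h.neg_one_pow]

/-- Derivative of a determinant whose first row and column vanish at the base point. -/
lemma DET_c1_det {R k : Type} [CommRing R] [CommRing k] (D : Der R k) (r : ℕ)
    (N : Matrix (Fin (r + 1)) (Fin (r + 1)) R) (hrow : ∀ j, D.c0 (N 0 j) = 0)
    (hcol : ∀ i, D.c0 (N i 0) = 0) :
    D.c1 N.det = D.c1 (N 0 0) * ((N.submatrix Fin.succ Fin.succ).map D.c0).det := by
  rw [Matrix.det_succ_row_zero, map_sum, Fin.sum_univ_succ]
  have h2 : ∑ j : Fin r, D.c1 ((-1) ^ ((j.succ : Fin (r + 1)) : ℕ) * N 0 j.succ *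
      (N.submatrix Fin.succ j.succ.succAbove).det) = 0 := by
    refine Finset.sum_eq_zero fun j _ => ?_
    rw [mul_assoc, DET_c1_sign, D.leib, hrow, zero_mul, zero_add, RingHom.map_det]
    have h0 : ∃ j0 : Fin r, j.succ.succAbove j0 = 0 := by
      cases r with
      | zero => exact j.elim0
      | succ r => exact ⟨0, Fin.succ_succAbove_zero j⟩
    obtain ⟨j0, hj0⟩ := h0
    rw [Matrix.det_eq_zero_of_column_eq_zero j0, mul_zero, mul_zero]
    intro i
    simp [hj0, hcol]
  rw [h2, add_zero, mul_assoc, DET_c1_sign, D.leib, hrow, zero_mul, zero_add, RingHom.map_det]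
  simp

lemma DET_c1_C {ι : Type} [Fintype ι] (y v : ι → ℂ) (c : ℂ) :
    (Der.pt y v).c1 (C c) = 0 := by
  simp [Der.pt]

lemma DET_c0 {ι : Type} [Fintype ι] (y v : ι → ℂ) (Φ : MvPolynomial ι ℂ) :
    (Der.pt y v).c0 Φ = eval y Φ := by
  simp [Der.pt, aeval_eq_eval]

lemma DET_c1 {ι : Type} [Fintype ι] (y v : ι → ℂ) (Φ : MvPolynomial ι ℂ) :
    (Der.pt y v).c1 Φ = ∑ i, eval y (pderiv i Φ) * v i := by
  simp [Der.pt, aeval_eq_eval]

/-- A matrix of rank `r` has an invertible `r × r` compression. -/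
lemma DET_frame {J : Type} [Fintype J] (My : Matrix J J ℂ) :
    ∃ (L : Matrix (Fin My.rank) J ℂ) (A : Matrix J (Fin My.rank) ℂ), L * My * A = 1 := by
  classical
  let p : Submodule ℂ (J → ℂ) := LinearMap.range My.mulVecLin
  let b : Module.Basis (Fin My.rank) ℂ p := Module.finBasisOfFinrankEq ℂ p rfl
  obtain ⟨g, hg⟩ := p.subtype.exists_leftInverse_of_injective p.ker_subtype
  have ha : ∀ j, ∃ a : J → ℂ, My.mulVec a = (b j : J → ℂ) := fun j => (b j).2
  choose a ha using ha
  refine ⟨LinearMap.toMatrix' (b.equivFun.toLinearMap ∘ₗ g), Matrix.of fun q j => a j q, ?_⟩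
  ext i j
  have h1 : (LinearMap.toMatrix' (b.equivFun.toLinearMap ∘ₗ g) * My *
      Matrix.of fun q j => a j q) i j =
      ((LinearMap.toMatrix' (b.equivFun.toLinearMap ∘ₗ g) * My).mulVec (a j)) i := by
    simp [Matrix.mul_apply, Matrix.mulVec, dotProduct]
  have h2 : g (b j : J → ℂ) = b j := by
    have := LinearMap.congr_fun hg (b j)
    simpa using this
  rw [h1, ← Matrix.mulVec_mulVec, ha, LinearMap.toMatrix'_mulVec]
  simp [h2, Matrix.one_apply, Finsupp.single_apply, eq_comm]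

theorem pf_DET : StDET := by
  intro ι J _ _ Z M ρ y v x hZ hρ hv hx
  classical
  set My : Matrix J J ℂ := M.map (eval y) with hMy
  set w : J → ℂ := (M.map (Der.pt y v).c1).mulVec x with hw
  by_contra hne
  have hnot : w ∉ LinearMap.range My.mulVecLin := by
    rintro ⟨x', hx'⟩
    exact hne ⟨x', hx'.symm⟩
  obtain ⟨f, hf, hker⟩ := Submodule.exists_le_ker_of_notMem hnot
  obtain ⟨L, A, hLA⟩ := DET_frame My
  let l0 : J → ℂ := fun p => f (Pi.single p 1)
  have hl0 : ∀ u : J → ℂ, ∑ p, l0 p * u p = f u := by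
    intro u
    conv_rhs => rw [pi_eq_sum_univ' u]
    simp [l0, mul_comm, Pi.single_apply, Pi.single]
  let Lm : Matrix (Fin (My.rank + 1)) J ℂ := Matrix.of (Fin.cons l0 (fun i => L i))
  let Am : Matrix J (Fin (My.rank + 1)) ℂ := Matrix.of fun q => Fin.cons (x q) (A q)
  let Nn : Matrix (Fin (My.rank + 1)) (Fin (My.rank + 1)) (MvPolynomial ι ℂ) :=
    Lm.map (C : ℂ → MvPolynomial ι ℂ) * M * Am.map (C : ℂ → MvPolynomial ι ℂ)
  have hev : ∀ z : ι → ℂ, Nn.map (eval z) = Lm * M.map (eval z) * Am := by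
    intro z
    ext i j
    simp [Nn, Matrix.mul_apply]
  have hvan : ∀ z ∈ Z, eval z Nn.det = 0 := by
    intro z hz
    rw [RingHom.map_det, RingHom.mapMatrix_apply, hev]
    by_contra hd
    have hu : IsUnit (Lm * M.map (eval z) * Am) :=
      (Matrix.isUnit_iff_isUnit_det _).2 (isUnit_iff_ne_zero.2 hd)
    have h1 := Matrix.rank_of_isUnit _ hu
    have h2 := (Matrix.rank_mul_le_left (Lm * M.map (eval z)) Am).trans
      (Matrix.rank_mul_le_right Lm (M.map (eval z)))
    have h3 := hZ z hz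
    rw [Fintype.card_fin] at h1
    omega
  have hc1 : (Der.pt y v).c1 Nn.det = 0 := by
    rw [DET_c1]; exact hv _ hvan
  have hent : ∀ i j, (Der.pt y v).c0 (Nn i j) = (Lm * My * Am) i j := by
    intro i j
    rw [DET_c0]
    exact congrFun (congrFun (hev y) i) j
  have hrow : ∀ j, (Der.pt y v).c0 (Nn 0 j) = 0 := by
    intro j
    rw [hent, Matrix.mul_assoc, Matrix.mul_apply]
    have h1 : f (My.mulVec fun q => Am q j) = 0 := hker ⟨_, rfl⟩
    rw [← hl0] at h1
    rw [← h1]
    refine Finset.sum_congr rfl fun p _ => ?_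
    simp [Lm, Matrix.mul_apply, Matrix.mulVec, dotProduct]
  have hcol : ∀ i, (Der.pt y v).c0 (Nn i 0) = 0 := by
    intro i
    rw [hent, Matrix.mul_assoc, Matrix.mul_apply]
    refine Finset.sum_eq_zero fun p _ => ?_
    have h1 := congrFun hx p
    have h2 : (My * Am) p 0 = My.mulVec x p := by
      simp [Am, Matrix.mul_apply, Matrix.mulVec, dotProduct]
    rw [h2, h1]; simp
  have hblock : (Nn.submatrix Fin.succ Fin.succ).map (Der.pt y v).c0 = 1 := by
    rw [← hLA]
    ext i j
    rw [Matrix.map_apply, Matrix.submatrix_apply, hent]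
    simp [Lm, Am, Matrix.mul_apply]
  have h00 : (Der.pt y v).c1 (Nn 0 0) = f w := by
    rw [← hl0]
    simp only [Nn, Matrix.mul_assoc]
    rw [Matrix.mul_apply, map_sum]
    refine Finset.sum_congr rfl fun p _ => ?_
    rw [(Der.pt y v).leib, Matrix.map_apply, DET_c1_C, zero_mul, add_zero, DET_c0, eval_C,
      Matrix.mul_apply, map_sum]
    congr 1
    rw [hw, Matrix.mulVec, dotProduct]
    refine Finset.sum_congr rfl fun q _ => ?_
    rw [(Der.pt y v).leib, Matrix.map_apply, DET_c1_C, mul_zero, zero_add, DET_c0, eval_C]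
    simp [Am]
  rw [DET_c1_det _ _ _ hrow hcol, hblock, Matrix.det_one, mul_one, h00] at hc1
  exact hf hc1

end CenLoc
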