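import Pool.Agent.P.MP_2862dc_ag.Basic

/-! The dimension of the tangent space of the logarithmic family. -/

namespace CenLoc

open MvPolynomial

noncomputable section
variable {k : Type} [Field k] {G : Type} [Fintype G] [DecidableEq G]

/-- The part without constant term of the polynomial number `g`. -/
def DIMTL_h (dd : G → ℕ) (x : Idx dd → k) (g : G) : Pol k :=
  polyOf fun m : Mon (dd g) => if m.1 = 0 then 0 else x ⟨g, m⟩

omit [Fintype G] [DecidableEq G] in
lemma DIMTL_h_add (dd : G → ℕ) (x y : Idx dd → k) (g : G) :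
    DIMTL_h dd (x + y) g = DIMTL_h dd x g + DIMTL_h dd y g := by
  rw [DIMTL_h, DIMTL_h, DIMTL_h, ← polyOf_add]
  congr 1
  funext m
  simp only [Pi.add_apply]
  split_ifs <;> simp

omit [Fintype G] [DecidableEq G] in
lemma DIMTL_h_smul (dd : G → ℕ) (r : k) (x : Idx dd → k) (g : G) :
    DIMTL_h dd (r • x) g = r • DIMTL_h dd x g := by
  rw [DIMTL_h, DIMTL_h, ← polyOf_smul]
  congr 1
  funext m
  simp only [Pi.smul_apply]
  split_ifs <;> simp

/-- A parametrisation of the tangent space. -/
def DIMTL_tl (dd : G → ℕ) (f : G → Pol k) (lam : G → k) :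
    (Idx dd → k) →ₗ[k] Pol k × Pol k where
  toFun x := ∑ g, tv f lam g (DIMTL_h dd x g) + ∑ g, x ⟨g, ⟨0, by simp⟩⟩ • lg f g
  map_add' x y := by
    simp only [DIMTL_h_add, tv_add, Pi.add_apply, add_smul, Finset.sum_add_distrib]
    abel
  map_smul' r x := by
    simp only [DIMTL_h_smul, tv_smul, Pi.smul_apply, smul_add, Finset.smul_sum, smul_assoc,
      RingHom.id_apply]

lemma DIMTL_le (dd : G → ℕ) (f : G → Pol k) (lam : G → k)
    (hd : ∀ g, (f g).totalDegree ≤ dd g) (h1 : ∀ g, coeff 0 (f g) = 1) :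
    InTL dd f lam ≤ LinearMap.range (DIMTL_tl dd f lam) := by
  rintro u ⟨h, μ, hh, rfl⟩
  let x : Idx dd → k := fun i =>
    if i.2.1 = 0 then (∑ j, coeff 0 (h j)) * lam i.1 + μ i.1
    else coeff i.2.1 (h i.1 - coeff 0 (h i.1) • f i.1)
  have e1 : ∀ g, DIMTL_h dd x g = h g - coeff 0 (h g) • f g := by
    intro g
    have hdeg : (h g - coeff 0 (h g) • f g).totalDegree ≤ dd g :=
      (totalDegree_sub _ _).trans (max_le (hh g) ((totalDegree_smul_le _ _).trans (hd g)))
    rw [← polyOf_coeff hdeg, DIMTL_h]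
    congr 1
    funext m
    split_ifs with hm
    · rw [hm]; simp [h1 g]
    · simp only [x, if_neg hm]
  have e2 : ∀ g, tv f lam g (h g) = tv f lam g (DIMTL_h dd x g) + coeff 0 (h g) • om f lam := by
    intro g
    rw [e1, ← tv_self f lam g, ← tv_smul, ← tv_add, sub_add_cancel]
  refine ⟨x, ?_⟩
  show ∑ g, tv f lam g (DIMTL_h dd x g) + ∑ g, x ⟨g, ⟨0, by simp⟩⟩ • lg f g = _
  simp only [e2, Finset.sum_add_distrib, ← Finset.sum_smul]
  simp only [x, if_true, add_smul, Finset.sum_add_distrib, mul_smul, ← Finset.smul_sum, ← om_eq]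
  abel

end

theorem pf_DIMTL : StDIMTL := by
  intro k _ G _ _ d dd f lam hd h1
  have hinj : Function.Injective (formAt d (0 : Fin 2 → k)) := by
    intro a b hab
    apply form_injective
    have : trP 0 (form a) = trP 0 (form b) := hab
    rwa [trP_zero, trP_zero] at this
  have hmem : ∀ η ∈ TL d dd f lam 0, formAt d (0 : Fin 2 → k) η ∈
      LinearMap.range (DIMTL_tl dd f lam) := fun η hη => DIMTL_le dd f lam hd h1 hη
  have h2 : Function.Injective ((formAt d (0 : Fin 2 → k)).restrict hmem) := by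
    intro a b hab
    exact Subtype.ext (hinj (congrArg Subtype.val hab))
  refine (LinearMap.finrank_le_finrank_of_injective h2).trans ?_
  refine (LinearMap.finrank_range_le _).trans ?_
  rw [Module.finrank_fintype_fun_eq_card]

end CenLoc
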