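import Pool.Agent.P.MP_2862dc_ag.Basic

namespace CenLoc

open MvPolynomial

section
variable {k : Type} [Field k]

/-- Restriction to the line `1 + a x + b y = 0`, where `a u + b v = 1`. -/
noncomputable def DIV_rho (a b u v : k) : Pol k →ₐ[k] Polynomial k :=
  aeval ![Polynomial.C (-u) + Polynomial.C b * Polynomial.X,
    Polynomial.C (-v) - Polynomial.C a * Polynomial.X]

lemma DIV_rho_X0 (a b u v : k) :
    DIV_rho a b u v (X 0) = Polynomial.C (-u) + Polynomial.C b * Polynomial.X := by
  simp [DIV_rho]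

lemma DIV_rho_X1 (a b u v : k) :
    DIV_rho a b u v (X 1) = Polynomial.C (-v) - Polynomial.C a * Polynomial.X := by
  simp [DIV_rho]

lemma DIV_rho_C (a b u v c : k) : DIV_rho a b u v (C c) = Polynomial.C c := by
  simp [DIV_rho]

lemma DIV_ker {a b u v : k} (h : a * u + b * v = 1) (r : Pol k) :
    (1 + C a * X 0 + C b * X 1 : Pol k) ∣
      r - Polynomial.aeval (C v * X 0 - C u * X 1 : Pol k) (DIV_rho a b u v r) := by
  have hC : (C a * C u + C b * C v : Pol k) = 1 := by
    rw [← map_mul, ← map_mul, ← map_add, h, map_one]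
  have hX : ∀ j : Fin 2, (1 + C a * X 0 + C b * X 1 : Pol k) ∣
      X j - Polynomial.aeval (C v * X 0 - C u * X 1 : Pol k) (DIV_rho a b u v (X j)) := by
    intro j
    fin_cases j
    · refine ⟨C u, ?_⟩
      simp only [Fin.zero_eta, DIV_rho_X0, map_add, map_mul, Polynomial.aeval_C,
        Polynomial.aeval_X, algebraMap_eq, map_neg]
      linear_combination (-X 0 : Pol k) * hC
    · refine ⟨C v, ?_⟩
      simp only [Fin.mk_one, DIV_rho_X1, map_sub, map_mul, Polynomial.aeval_C,
        Polynomial.aeval_X, algebraMap_eq, map_neg]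
      linear_combination (-X 1 : Pol k) * hC
  induction r using MvPolynomial.induction_on with
  | C c => simp
  | add p q hp hq =>
    rw [map_add, map_add, add_sub_add_comm]
    exact dvd_add hp hq
  | mul_X p j hp =>
    rw [map_mul, map_mul]
    have e : ∀ x y x' y' : Pol k, x * y - x' * y' = (x - x') * y + x' * (y - y') := by
      intros; ring
    rw [e]
    exact dvd_add (hp.mul_right _) ((hX j).mul_left _)

lemma DIV_deriv (a b u v : k) (r : Pol k) :
    DIV_rho a b u v (wedge (ham r) (C b, -C a)) = Polynomial.derivative (DIV_rho a b u v r) := by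
  have e : ∀ r : Pol k, wedge (ham r) (C b, -C a) = C b * pderiv 0 r - C a * pderiv 1 r := by
    intro r
    simp only [wedge, ham]
    ring
  rw [e]
  induction r using MvPolynomial.induction_on with
  | C c => simp
  | add p q hp hq =>
    rw [map_add (DIV_rho a b u v), map_add Polynomial.derivative, ← hp, ← hq, ← map_add]
    congr 1
    simp only [map_add]
    ring
  | mul_X p j hp =>
    rw [map_mul (DIV_rho a b u v), Polynomial.derivative_mul, ← hp]
    fin_cases j
    · simp [DIV_rho_X0]
      ring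
    · simp [DIV_rho_X1]
      ring

lemma DIV_pow (y : k) (n : ℕ) (s : Polynomial k) :
    (Polynomial.X - Polynomial.C y) *
        Polynomial.derivative ((Polynomial.X - Polynomial.C y) ^ n * s) =
      (Polynomial.X - Polynomial.C y) ^ n *
        (Polynomial.C (n : k) * s + (Polynomial.X - Polynomial.C y) * Polynomial.derivative s) := by
  rw [Polynomial.derivative_mul, Polynomial.derivative_X_sub_C_pow]
  cases n with
  | zero => simp
  | succ n =>
    simp only [Nat.add_sub_cancel, map_natCast]
    ring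

/-- A polynomial solution of a first order equation with a nonresonant singular point is zero. -/
lemma DIV_ode {lam mu β y : k} {P S R : Polynomial k} (hβ : β ≠ 0) (hP : P.eval y ≠ 0)
    (hS : S.eval y = mu * P.eval y * β) (hres : ∀ n : ℕ, (n : k) * lam + mu ≠ 0)
    (h : Polynomial.C lam * (Polynomial.C β * (Polynomial.X - Polynomial.C y) * P) *
      Polynomial.derivative R + R * S = 0) : R = 0 := by
  by_contra hR
  obtain ⟨s, hs, hnd⟩ := Polynomial.exists_eq_pow_rootMultiplicity_mul_and_not_dvd R hR y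
  generalize R.rootMultiplicity y = n at hs
  have hsy : s.eval y ≠ 0 := fun h0 => hnd (Polynomial.dvd_iff_isRoot.2 h0)
  have h1 : (Polynomial.X - Polynomial.C y) ^ n *
      (Polynomial.C lam * Polynomial.C β * P * (Polynomial.C (n : k) * s +
        (Polynomial.X - Polynomial.C y) * Polynomial.derivative s) + s * S) = 0 := by
    have h2 := DIV_pow y n s
    rw [← hs] at h2
    rw [← h]
    linear_combination (-(Polynomial.C lam * Polynomial.C β * P)) * h2 - S * hs
  have h3 := (mul_eq_zero.1 h1).resolve_left (pow_ne_zero _ (Polynomial.X_sub_C_ne_zero y))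
  have h4 := congrArg (Polynomial.eval y) h3
  simp only [Polynomial.eval_add, Polynomial.eval_mul, Polynomial.eval_C, Polynomial.eval_sub,
    Polynomial.eval_X, sub_self, zero_mul, add_zero, Polynomial.eval_zero, hS] at h4
  have h5 : ((n : k) * lam + mu) * (β * P.eval y * s.eval y) = 0 := by linear_combination h4
  exact mul_ne_zero (hres n) (mul_ne_zero (mul_ne_zero hβ hP) hsy) h5

end

theorem pf_DIV (hLB : StLB) : StDIV := by
  intro k G I _ _ _ _ _ _ L hL i r hdvd
  obtain ⟨-, -, -, -, -, -, -, -, htv, -, -⟩ := hLB k G I L hL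
  obtain ⟨m0, hm0⟩ : ∃ m0, L.grp m0 ≠ L.grp i := by
    obtain ⟨g, g', hgg⟩ := hL.two
    by_cases h : g = L.grp i
    · obtain ⟨m, hm⟩ := hL.surj g'
      exact ⟨m, by rw [hm, ← h]; exact hgg.symm⟩
    · obtain ⟨m, hm⟩ := hL.surj g
      exact ⟨m, by rw [hm]; exact h⟩
  have hA : ∀ m, m ∈ (L.fib (L.grp i))ᶜ ↔ L.grp m ≠ L.grp i := by
    intro m
    simp [Lines.fib]
  have hne : ∀ m, L.grp m ≠ L.grp i → m ≠ i := fun m hm h => hm (h ▸ rfl)
  have hβ : L.br m0 i ≠ 0 := hL.br_ne m0 i (hne m0 hm0)
  obtain ⟨u, v, huv⟩ : ∃ u v : k, L.a i * u + L.b i * v = 1 := by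
    refine ⟨-L.b m0 / L.br m0 i, L.a m0 / L.br m0 i, ?_⟩
    field_simp
    simp only [Lines.br]
    ring
  have hrho : ∀ m, DIV_rho (L.a i) (L.b i) u v (L.l m) =
      Polynomial.C (1 - L.a m * u - L.b m * v) + Polynomial.C (L.br m i) * Polynomial.X := by
    intro m
    simp only [Lines.l, Lines.br, map_add, map_mul, map_one, map_sub, map_neg, DIV_rho_C,
      DIV_rho_X0, DIV_rho_X1]
    ring
  have hi0 : DIV_rho (L.a i) (L.b i) u v (L.l i) = 0 := by
    rw [hrho, L.br_self, show 1 - L.a i * u - L.b i * v = 0 by linear_combination -huv]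
    simp
  suffices hR : DIV_rho (L.a i) (L.b i) u v r = 0 by
    have := DIV_ker huv r
    rw [hR, map_zero, sub_zero] at this
    exact this
  have hder : DIV_rho (L.a i) (L.b i) u v (wedge (ham r) (ham (L.l i))) =
      Polynomial.derivative (DIV_rho (L.a i) (L.b i) u v r) := by
    rw [L.ham_l, DIV_deriv]
  have hC := DIV_rho_C (L.a i) (L.b i) u v
  generalize DIV_rho (L.a i) (L.b i) u v = ρ at hrho hi0 hder hC ⊢
  have heq : ρ (wedge (tv L.f L.lam (L.grp i) r) (ham (L.l i))) = 0 := by
    obtain ⟨w, hw⟩ := hdvd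
    rw [hw, map_mul, hi0, zero_mul]
  rw [htv, wedge_add_left, wedge_smul_left, wedge_smul_left, wedge_sum_left] at heq
  simp only [wedge_smul_left, L.wedge_ham_l, map_add, map_mul, map_sum, map_prod, hder,
    hC] at heq
  obtain ⟨y, hy⟩ : ∃ y : k, ρ (L.l m0) =
      Polynomial.C (L.br m0 i) * (Polynomial.X - Polynomial.C y) := by
    refine ⟨-(1 - L.a m0 * u - L.b m0 * v) / L.br m0 i, ?_⟩
    rw [hrho, mul_sub, ← map_mul, mul_div_cancel₀ _ hβ, map_neg]
    ring
  have hy0 : (ρ (L.l m0)).eval y = 0 := by rw [hy]; simp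
  have hm0A := (hA m0).2 hm0
  rw [← Finset.mul_prod_erase _ _ hm0A, hy] at heq
  refine DIV_ode (mu := L.mu m0) hβ ?_ ?_ ?_ heq
  · rw [Polynomial.eval_prod, Finset.prod_ne_zero_iff]
    intro n hn h0
    obtain ⟨hn1, hn2⟩ := Finset.mem_erase.1 hn
    have hD := hL.D_ne i m0 n (hne m0 hm0).symm hn1.symm (hne n ((hA n).1 hn2)).symm
    have h1 := congrArg (fun x => (ρ x).eval y) (L.br_rel i m0 n)
    simp only [map_add, map_mul, hC, hi0, Polynomial.eval_add, Polynomial.eval_mul,
      Polynomial.eval_C, hy0, h0, mul_zero, Polynomial.eval_zero, add_zero] at h1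
    exact hD h1.symm
  · rw [Polynomial.eval_finsetSum, Finset.sum_eq_single m0]
    · simp only [Polynomial.eval_mul, Polynomial.eval_C]
    · intro m hm hmm
      rw [Polynomial.eval_mul, Polynomial.eval_mul, Polynomial.eval_prod,
        Finset.prod_eq_zero (Finset.mem_erase.2 ⟨hmm.symm, hm0A⟩) hy0, mul_zero, zero_mul]
    · intro h
      exact absurd hm0A h
  · intro n hn
    have h1 := hL.indep
      (fun g => (if g = L.grp i then (n : ℤ) else 0) + if g = L.grp m0 then 1 else 0) (by
        simp only [Int.cast_add, add_mul, Finset.sum_add_distrib, Int.cast_ite, Int.cast_natCast,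
          Int.cast_zero, Int.cast_one, ite_mul, zero_mul, Finset.sum_ite_eq', Finset.mem_univ,
          if_true, one_mul]
        exact hn) (L.grp m0)
    simp [hm0] at h1

end CenLoc
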