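import Pool.Agent.P.MP_2862dc_ag.Basic

/-! Derivative of a logarithmic form in a family. -/

namespace CenLoc

open MvPolynomial

section
variable {R k : Type} [CommRing R] [CommRing k] (D : Der R k)

lemma DLOG_prod {ι : Type} [DecidableEq ι] (s : Finset ι) (a : ι → Pol R) :
    D.p1 (∏ i ∈ s, a i) = ∑ i ∈ s, D.p1 (a i) * ∏ j ∈ s.erase i, map D.c0 (a j) := by
  induction s using Finset.induction_on with
  | empty => simp [D.p1_one]
  | insert i s hi ih =>
    rw [Finset.prod_insert hi, Finset.sum_insert hi, Finset.erase_insert hi, D.p1_mul, ih,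
      Finset.mul_sum, add_comm, map_prod]
    congr 1
    refine Finset.sum_congr rfl fun j hj => ?_
    have hij : i ≠ j := fun h => hi (h ▸ hj)
    rw [Finset.erase_insert_of_ne hij, Finset.prod_insert fun h => hi (Finset.mem_of_mem_erase h)]
    ring

lemma DLOG_smul (c : Pol R) (u : Pol R × Pol R) :
    D.p1P (c • u) = map D.c0 c • D.p1P u + D.p1 c • mapP D.c0 u := by
  ext1 <;> simp [Der.p1P, mapP, D.p1_mul]

lemma DLOG_ham (a : Pol R) : D.p1P (ham a) = ham (D.p1 a) := by
  simp [Der.p1P, ham, D.p1_pderiv, D.p1_neg]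

lemma DLOG_sum {ι : Type} (s : Finset ι) (u : ι → Pol R × Pol R) :
    D.p1P (∑ i ∈ s, u i) = ∑ i ∈ s, D.p1P (u i) := by
  ext1 <;> simp [Der.p1P, Prod.fst_sum, Prod.snd_sum, D.p1_sum]

end

theorem pf_DLOG : StDLOG := by
  intro R k _ _ D G _ _ f lam
  refine ⟨?_, DLOG_prod D _ f⟩
  have e : ∀ g, D.p1P (lam g • lg f g) =
      (C (D.c0 (lam g)) * ∏ j ∈ Finset.univ.erase g, map D.c0 (f j)) • ham (D.p1 (f g)) +
      ∑ j ∈ Finset.univ.erase g, D.p1 (f j) • (C (D.c0 (lam g)) *
        ∏ m ∈ (Finset.univ.erase j).erase g, map D.c0 (f m)) • ham (map D.c0 (f g)) +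
      D.c1 (lam g) • lg (fun j => map D.c0 (f j)) g := by
    intro g
    rw [smul_eq_C_smul, DLOG_smul, mapP_lg, D.p1_C, ← smul_eq_C_smul, map_C]
    congr 1
    rw [lg, DLOG_smul, DLOG_ham, mapP_ham, DLOG_prod, smul_add, smul_smul, map_prod,
      Finset.sum_smul, Finset.smul_sum]
    congr 1
    refine Finset.sum_congr rfl fun j _ => ?_
    rw [smul_smul, smul_smul, Finset.erase_right_comm]
    congr 1
    ring
  rw [om_eq, DLOG_sum]
  simp only [e, tv, Finset.sum_add_distrib, Finset.smul_sum]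
  congr 2
  refine Finset.sum_comm' fun g j => ?_
  simp [eq_comm]

end CenLoc
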