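import Pool.Agent.P.MP_2862dc_ag.Basic

namespace CenLoc

open MvPolynomial

lemma EPS_nak {O M : Type} [CommRing O] [IsNoetherianRing O] [AddCommGroup M] [Module O M]
    [Module.Finite O M] (x : O) (A B : Submodule O M)
    (h : ∀ η ∈ A, ∃ η1 ∈ B, ∃ η2 ∈ A, η = η1 + x • η2) :
    ∃ r : O, r - 1 ∈ Ideal.span {x} ∧ ∀ η ∈ A, r • η ∈ B := by
  obtain ⟨r, hr, h0⟩ := Submodule.exists_sub_one_mem_and_smul_eq_zero_of_fg_of_le_smul
    (Ideal.span {x}) (A.map B.mkQ) (IsNoetherian.noetherian _) (by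
      rintro _ ⟨η, hη, rfl⟩
      obtain ⟨η1, h1, η2, h2, rfl⟩ := h η hη
      have e : B.mkQ η1 = 0 := (Submodule.Quotient.mk_eq_zero B).mpr h1
      rw [map_add, e, zero_add, map_smul]
      exact Submodule.smul_mem_smul (Ideal.mem_span_singleton_self x) ⟨η2, h2, rfl⟩)
  refine ⟨r, hr, fun η hη => ?_⟩
  have := h0 _ ⟨η, hη, rfl⟩
  rw [← map_smul] at this
  exact (Submodule.Quotient.mk_eq_zero B).mp this

lemma EPS_form_smul {R : Type} [CommRing R] {d : ℕ} (r : R) (η : Fin 2 × Mon d → R) :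
    form (r • η) = r • form η := by
  have : trP 0 (form (r • η)) = r • trP 0 (form η) := (formAt d (0 : Fin 2 → R)).map_smul r η
  rwa [trP_zero, trP_zero] at this

section
variable {O K : Type} [CommRing O] [IsDomain O] [Field K] [Algebra O K] [IsFractionRing O K]

lemma EPS_clear {W : Type} [Fintype W] (η : W → K) (a : Pol K) :
    ∃ (b : O) (η' : W → O) (a' : Pol O), b ≠ 0 ∧
      (fun w => algebraMap O K (η' w)) = algebraMap O K b • η ∧
      map (algebraMap O K) a' = algebraMap O K b • a := by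
  classical
  obtain ⟨b, hb⟩ := IsLocalization.exist_integer_multiples (nonZeroDivisors O)
    ((Finset.univ : Finset W).disjSum a.support) (Sum.elim η fun m => coeff m a)
  have h : ∀ i, ∃ y : O, i ∈ (Finset.univ : Finset W).disjSum a.support →
      algebraMap O K y = algebraMap O K b * Sum.elim η (fun m => coeff m a) i := by
    intro i
    by_cases hi : i ∈ (Finset.univ : Finset W).disjSum a.support
    · obtain ⟨y, hy⟩ := hb i hi
      exact ⟨y, fun _ => by rw [hy, Algebra.smul_def]⟩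
    · exact ⟨0, fun h => absurd h hi⟩
  choose y hy using h
  refine ⟨b, fun w => y (Sum.inl w), ∑ m ∈ a.support, monomial m (y (Sum.inr m)),
    nonZeroDivisors.coe_ne_zero b, ?_, ?_⟩
  · funext w
    exact hy (Sum.inl w) (by simp)
  · conv_rhs => rw [a.as_sum, Finset.smul_sum]
    rw [map_sum]
    refine Finset.sum_congr rfl fun m hm => ?_
    rw [map_monomial, smul_monomial, hy (Sum.inr m) (by simpa using hm)]
    rfl

lemma EPS_desc {G : Type} [Fintype G] [DecidableEq G] (d N : ℕ) (dd : G → ℕ) (f : G → Pol O)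
    (lam : G → O) (r : O) (hr : r ≠ 0) (h : ∀ η ∈ TN d N f lam 0, r • η ∈ TL d dd f lam 0) :
    TN d N (fun g => map (algebraMap O K) (f g)) (fun g => algebraMap O K (lam g)) 0 ≤
      TL d dd (fun g => map (algebraMap O K) (f g)) (fun g => algebraMap O K (lam g)) 0 := by
  intro η hη
  have inj : Function.Injective (algebraMap O K) := IsFractionRing.injective O K
  rw [mem_TN, trP_zero] at hη
  obtain ⟨a, ha⟩ := hη
  obtain ⟨b, η', a', hb, e1, e2⟩ := EPS_clear (O := O) η a
  have h1 : η' ∈ TN d N f lam 0 := by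
    rw [mem_TN, trP_zero]
    refine ⟨a', mem_mI_pow.mpr fun m hm => inj ?_⟩
    rw [← coeff_map, map_zero, map_sub, map_mul, map_wedge, map_act, mapP_form, mapP_om, e1, e2,
      map_prod, EPS_form_smul, wedge_smul_left']
    have := mem_mI_pow.mp (Ideal.mul_mem_left _ (C (algebraMap O K b)) ha) m hm
    rw [← this]
    congr 1
    simp only [act, smul_eq_C_mul, Derivation.leibniz, pderiv_C, smul_eq_mul, mul_zero, add_zero]
    ring
  have h2 := h η' h1
  rw [mem_TL, trP_zero] at h2
  obtain ⟨t, μ, ht, e⟩ := h2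
  have hc : algebraMap O K r * algebraMap O K b ≠ 0 :=
    mul_ne_zero ((map_ne_zero_iff _ inj).mpr hr) ((map_ne_zero_iff _ inj).mpr hb)
  rw [← Submodule.smul_mem_iff _ hc, mem_TL, trP_zero]
  refine ⟨fun g => map (algebraMap O K) (t g), fun g => algebraMap O K (μ g),
    fun g => (totalDegree_map_le' _ _).trans (ht g), ?_⟩
  have e' := congrArg (mapP (algebraMap O K)) e
  rw [EPS_form_smul, mapP_smul', mapP_form, e1, ← EPS_form_smul, smul_smul] at e'
  rw [e']
  simp only [mapP_add, mapP_sum, mapP_tv, mapP_smul', mapP_lg]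

end

theorem pf_EPS (hLB : StLB) (hFE : StFE) (hSTEP : StSTEP) (hDIMTL : StDIMTL) : StEPS := by
  intro k G I _ _ _ _ _ _ L hG hI
  have : CharZero k := charZero_of_injective_algebraMap (algebraMap ℂ k).injective
  obtain ⟨j, hj⟩ := hG.surj.hasRightInverse
  obtain ⟨hN, hf, -, hl, -⟩ := hFE k G I L hG j hj
  obtain ⟨hmu, -, -, -, -, -, -, -, -, -, hjac⟩ := hLB k G I L hG
  obtain ⟨N, hS⟩ := hSTEP k G I L hG hI j hj
  obtain ⟨r, hr, h⟩ := EPS_nak _ _ _ hS
  have hr0 : r ≠ 0 := by
    rintro rfl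
    rw [Ideal.mem_span_singleton, Polynomial.X_dvd_iff] at hr
    simp at hr
  have inj : Function.Injective (algebraMap (Polynomial k) (FractionRing (Polynomial k))) :=
    IsFractionRing.injective _ _
  have hN' := hN.map (algebraMap (Polynomial k) (FractionRing (Polynomial k)))
  refine ⟨FractionRing (Polynomial k), inferInstance, inferInstance, _, _, N, hN', fun g => ?_,
    ?_, ?_⟩
  · refine (map_ne_zero_iff _ inj).mpr fun h0 => ?_
    have h1 := hl g
    rw [h0, map_zero] at h1
    have h2 := hmu (j g)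
    rw [Lines.mu, hj g] at h2
    exact h2 h1.symm
  · rw [← mapP_om, jac_mapP]
    refine (map_ne_zero_iff _ inj).mpr fun h0 => hjac ?_
    have h1 := jac_mapP (Der.eps k).c0 (om (L.fE j) L.lamE)
    rw [h0, map_zero, mapP_om] at h1
    simp only [hf, hl] at h1
    exact h1
  · exact (Submodule.finrank_mono (EPS_desc _ N L.dd _ _ r hr0 h)).trans
      (hDIMTL _ G _ L.dd _ _ hN'.deg hN'.one)

end CenLoc
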