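import Pool.Agent.P.MP_2862dc_ag.Basic

/-!
A relatively exact form has vanishing Melnikov integral.
-/

namespace CenLoc

open MvPolynomial Filter Topology

lemma EXACT_circ (r : ℂ) (θ : ℝ) :
    HasDerivAt (fun t : ℝ => (![r * Real.cos t, r * Real.sin t] : Pt))
      (![-(r * Real.sin θ), r * Real.cos θ] : Pt) θ := by
  rw [hasDerivAt_pi]
  intro i
  fin_cases i
  · have := ((Real.hasDerivAt_cos θ).ofReal_comp).const_mul r
    simpa using this
  · have := ((Real.hasDerivAt_sin θ).ofReal_comp).const_mul r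
    simpa using this

lemma EXACT_norm (r : ℂ) (θ : ℝ) : ‖(![r * Real.cos θ, r * Real.sin θ] : Pt)‖ ≤ ‖r‖ := by
  rw [pi_norm_le_iff_of_nonneg (norm_nonneg r)]
  intro i
  fin_cases i
  · simp only [Fin.zero_eta, Matrix.cons_val_zero, norm_mul, Complex.norm_real, Real.norm_eq_abs]
    exact mul_le_of_le_one_right (norm_nonneg r) (Real.abs_cos_le_one θ)
  · simp only [Fin.mk_one, Matrix.cons_val_one, Matrix.cons_val_zero, norm_mul, Complex.norm_real,
      Real.norm_eq_abs]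
    exact mul_le_of_le_one_right (norm_nonneg r) (Real.abs_sin_le_one θ)

lemma EXACT_comp {g : Pt → ℂ} {γ : ℝ → Pt} {θ : ℝ} {k P Q : ℂ} (hg : AnalyticAt ℂ g (γ θ))
    (hγ : HasDerivAt γ (k • (![P, Q] : Pt)) θ) :
    HasDerivAt (fun t => g (γ t)) (k * (P * dP g 0 (γ θ) + Q * dP g 1 (γ θ))) θ := by
  have h := (hg.differentiableAt.hasFDerivAt.restrictScalars ℝ).comp_hasDerivAt θ hγ
  refine HasDerivAt.congr_deriv h ?_
  rw [ContinuousLinearMap.coe_restrictScalars', fderiv_eq_dP]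
  simp
  ring

theorem pf_EXACT (hSP : StSP) (hXI : StXI) (hFI : StFI) : StEXACT := by
  intro u v p c F a hJ hF hcl ha hw
  have hs := hSP u p c hJ
  obtain ⟨κ, -, -, hκ⟩ := hXI u p c hs
  have hfi := hFI u p c F hs hF hcl
  have hG : AnalyticAt ℂ (fun x => c.s x / eval x F) p := c.s_an.div (analyticAt_eval F p) hF
  have hz := (ha.eventually_analyticAt.and hG.eventually_analyticAt).and (hfi.and hw)
  have hχ : Tendsto c.χ (𝓝 0) (𝓝 p) := by
    have := c.χ_an.continuousAt.tendsto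
    rwa [c.χ_zero] at this
  have hall := (c.χ_an.eventually_analyticAt.and hκ).and (hχ.eventually hz)
  obtain ⟨ε, hε, hb⟩ := Metric.eventually_nhds_iff.1 hall
  filter_upwards [Metric.ball_mem_nhds (0 : ℂ) hε] with r hr
  have hr' : ‖r‖ < ε := by simpa using hr
  have hθ := fun θ : ℝ => hb (y := ![r * Real.cos θ, r * Real.sin θ])
    (by rw [dist_zero_right]; exact (EXACT_norm r θ).trans_lt hr')
  have hγ : ∀ θ : ℝ, HasDerivAt (c.cyc r) (κ ![r * Real.cos θ, r * Real.sin θ] •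
      (![eval (c.cyc r θ) u.1, eval (c.cyc r θ) u.2] : Pt)) θ := fun θ => by
    have h := ((hθ θ).1.1.differentiableAt.hasFDerivAt.restrictScalars ℝ).comp_hasDerivAt θ
      (EXACT_circ r θ)
    refine HasDerivAt.congr_deriv h ?_
    rw [ContinuousLinearMap.coe_restrictScalars']
    exact (hθ θ).1.2
  have hG0 : ∀ θ : ℝ, HasDerivAt (fun t => c.s (c.cyc r t) / eval (c.cyc r t) F) 0 θ := fun θ => by
    have h := EXACT_comp (g := fun x => c.s x / eval x F) (hθ θ).2.1.2 (hγ θ)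
    have h0 := (hθ θ).2.2.1
    have e : c.χ ![r * Real.cos θ, r * Real.sin θ] = c.cyc r θ := rfl
    rw [e] at h0
    rwa [h0, mul_zero] at h
  have hconst : ∀ θ : ℝ, c.s (c.cyc r θ) / eval (c.cyc r θ) F =
      c.s (c.cyc r 0) / eval (c.cyc r 0) F := fun θ =>
    is_const_of_deriv_eq_zero (fun t => (hG0 t).differentiableAt) (fun t => (hG0 t).deriv) θ 0
  have hA := fun θ : ℝ => EXACT_comp (g := a) (hθ θ).2.1.1 (hγ θ)
  have hint : ∀ θ : ℝ, (eval (c.cyc r θ) v.1 * deriv (fun t => c.cyc r t 1) θ -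
      eval (c.cyc r θ) v.2 * deriv (fun t => c.cyc r t 0) θ) / c.s (c.cyc r θ) =
      (c.s (c.cyc r 0) / eval (c.cyc r 0) F)⁻¹ * (κ ![r * Real.cos θ, r * Real.sin θ] *
        (eval (c.cyc r θ) u.1 * dP a 0 (c.cyc r θ) +
          eval (c.cyc r θ) u.2 * dP a 1 (c.cyc r θ))) := fun θ => by
    have h0 := (hθ θ).2.2.2
    have e : c.χ ![r * Real.cos θ, r * Real.sin θ] = c.cyc r θ := rfl
    rw [e] at h0
    simp only [wedge, map_sub, map_mul] at h0
    rw [(hasDerivAt_pi.1 (hγ θ) 1).deriv, (hasDerivAt_pi.1 (hγ θ) 0).deriv, ← hconst θ, inv_div]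
    simp only [Pi.smul_apply, smul_eq_mul, Matrix.cons_val_one, Matrix.cons_val_zero]
    rw [div_eq_mul_inv, div_eq_mul_inv]
    linear_combination (κ ![r * Real.cos θ, r * Real.sin θ] * (c.s (c.cyc r θ))⁻¹) * h0
  rw [Chart.mel]
  simp only [hint]
  rw [intervalIntegral.integral_const_mul]
  apply mul_eq_zero_of_right
  by_cases hI : IntervalIntegrable (fun θ : ℝ => κ ![r * Real.cos θ, r * Real.sin θ] *
        (eval (c.cyc r θ) u.1 * dP a 0 (c.cyc r θ) +
          eval (c.cyc r θ) u.2 * dP a 1 (c.cyc r θ))) MeasureTheory.volume 0 (2 * Real.pi)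
  · rw [intervalIntegral.integral_eq_sub_of_hasDerivAt (fun θ _ => hA θ) hI]
    simp [Chart.cyc]
  · exact intervalIntegral.integral_undef hI

end CenLoc
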