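import Pool.Agent.P.MP_2862dc_ag.Stmts

/-! Existence of a sufficiently general line arrangement over a field of fractions. -/

namespace CenLoc

variable {k G I : Type} [Field k] [DecidableEq I]

theorem EXL_theta_zero (L : Lines k G I) (s : I → k) {i j m : I}
    (h : ¬(i ≠ j ∧ j ≠ m ∧ i ≠ m)) : L.theta s i j m = 0 := by
  have : L.D i j m = 0 := by
    by_cases h1 : i = j
    · subst h1; simp only [Lines.D, Lines.br]; ring
    by_cases h2 : j = m
    · subst h2; simp only [Lines.D, Lines.br]; ring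
    by_cases h3 : i = m
    · subst h3; simp only [Lines.D, Lines.br]; ring
    exact absurd ⟨h1, h2, h3⟩ h
  rw [Lines.theta, this, div_zero]

omit [DecidableEq I] in
theorem EXL_theta_cyc (L : Lines k G I) (s : I → k) (i j m : I) :
    L.theta s j m i = L.theta s i j m := by
  simp only [Lines.theta, Lines.D]
  congr 1 <;> ring

omit [DecidableEq I] in
theorem EXL_theta_swap (L : Lines k G I) (s : I → k) (i j m : I) :
    L.theta s i m j = L.theta s i j m := by
  simp only [Lines.theta, Lines.D, Lines.br]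
  rw [← neg_div_neg_eq]
  congr 1 <;> ring

/-- The six orderings of a triple. -/
def EXL_six (x y w : I) : Finset (I × I × I) :=
  {(x, y, w), (y, w, x), (w, x, y), (x, w, y), (w, y, x), (y, x, w)}

theorem EXL_sum_six {x y w : I} (h1 : x ≠ y) (h2 : y ≠ w) (h3 : x ≠ w) (r : I × I × I → k) :
    ∑ t ∈ EXL_six x y w, r t =
      r (x, y, w) + r (y, w, x) + r (w, x, y) + r (x, w, y) + r (w, y, x) + r (y, x, w) := by
  have h1' := h1.symm
  have h2' := h2.symm
  have h3' := h3.symm
  unfold EXL_six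
  rw [Finset.sum_insert (by simp [*]), Finset.sum_insert (by simp [*]),
    Finset.sum_insert (by simp [*]), Finset.sum_insert (by simp [*]),
    Finset.sum_insert (by simp [*]), Finset.sum_singleton]
  ring

theorem EXL_mem_six {x y w : I} (h1 : x ≠ y) (h2 : y ≠ w) (h3 : x ≠ w) {i j m : I} :
    (i, j, m) ∈ EXL_six x y w ↔
      (i ≠ j ∧ j ≠ m ∧ i ≠ m) ∧ ({i, j, m} : Finset I) = {x, y, w} := by
  constructor
  · intro h
    simp only [EXL_six, Finset.mem_insert, Finset.mem_singleton, Prod.mk.injEq] at h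
    rcases h with ⟨rfl, rfl, rfl⟩ | ⟨rfl, rfl, rfl⟩ | ⟨rfl, rfl, rfl⟩ | ⟨rfl, rfl, rfl⟩ |
      ⟨rfl, rfl, rfl⟩ | ⟨rfl, rfl, rfl⟩ <;>
    exact ⟨⟨by tauto, by tauto, by tauto⟩, by ext; simp only [Finset.mem_insert,
      Finset.mem_singleton] <;> tauto⟩
  · rintro ⟨⟨e1, e2, e3⟩, h⟩
    have hi : i ∈ ({x, y, w} : Finset I) := h ▸ by simp
    have hj : j ∈ ({x, y, w} : Finset I) := h ▸ by simp
    have hm : m ∈ ({x, y, w} : Finset I) := h ▸ by simp
    simp only [Finset.mem_insert, Finset.mem_singleton] at hi hj hm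
    rcases hi with rfl | rfl | rfl <;> rcases hj with rfl | rfl | rfl <;>
      rcases hm with rfl | rfl | rfl <;> simp_all [EXL_six]

theorem EXL_theta_six (L : Lines k G I) (s : I → k) {x y w i j m : I}
    (h : (i, j, m) ∈ EXL_six x y w) : L.theta s i j m = L.theta s x y w := by
  simp only [EXL_six, Finset.mem_insert, Finset.mem_singleton, Prod.mk.injEq] at h
  rcases h with ⟨rfl, rfl, rfl⟩ | ⟨rfl, rfl, rfl⟩ | ⟨rfl, rfl, rfl⟩ | ⟨rfl, rfl, rfl⟩ |
    ⟨rfl, rfl, rfl⟩ | ⟨rfl, rfl, rfl⟩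
  · rfl
  · exact EXL_theta_cyc L s _ _ _
  · exact (EXL_theta_cyc L s _ _ _).symm
  · exact EXL_theta_swap L s _ _ _
  · exact (EXL_theta_swap L s _ _ _).symm.trans (EXL_theta_cyc L s _ _ _).symm
  · exact (EXL_theta_swap L s _ _ _).symm.trans (EXL_theta_cyc L s _ _ _)

theorem pf_EXL (hVAL : StVAL) (hEXR : StEXR) : StEXL := by
  intro G I _ _ _ _ grp hsurj htwo hthree
  obtain ⟨R, _, _, _, _, a, b, lam, br, D, hbr, hD, hbr0, hD0, hca, hcb, hh, hind, hres⟩ :=
    hEXR G I grp hsurj hthree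
  let K := FractionRing R
  let φ : R →+* K := algebraMap R K
  have hφ : Function.Injective φ := IsFractionRing.injective R K
  have hC : ∀ c : ℂ, algebraMap ℂ K c = φ (algebraMap ℂ R c) := fun c =>
    IsScalarTower.algebraMap_apply ℂ R K c
  let L : Lines K G I := ⟨grp, fun i => φ (a i), fun i => φ (b i), fun g => algebraMap ℂ K (lam g)⟩
  have eb : ∀ i j, L.br i j = φ (br i j) := fun i j => by
    simp only [Lines.br, L, hbr, map_sub, map_mul]
  have eD : ∀ i j m, L.D i j m = φ (D i j m) := fun i j m => by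
    simp only [Lines.D, eb, hD, map_add]
  have em : ∀ (i : I) (c : R), L.mu i * φ c = φ (lam (grp i) • c) := fun i c => by
    rw [Algebra.smul_def, map_mul, ← hC]; rfl
  refine ⟨K, inferInstance, inferInstance, L, rfl, ?_, fun h4 x y w h1 h2 h3 => ?_⟩
  · refine ⟨fun i j h => ?_, fun i j m h h' h'' => ?_, ?_, ?_, ?_, fun n hn => hind n ?_, hsurj,
      htwo, hthree⟩
    · rw [eb]; exact (map_ne_zero_iff φ hφ).2 (hbr0 i j h)
    · rw [eD]; exact (map_ne_zero_iff φ hφ).2 (hD0 i j m h h' h'')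
    · rw [← map_zero φ, ← hca, map_sum]
      exact Finset.sum_congr rfl fun i _ => em i _
    · rw [← map_zero φ, ← hcb, map_sum]
      exact Finset.sum_congr rfl fun i _ => em i _
    · have := (map_ne_zero_iff φ hφ).2 hh
      simp only [map_sub, map_mul, map_pow, map_sum, ← em] at this
      simpa only [mul_assoc] using this
    · apply (algebraMap ℂ K).injective
      rw [map_zero, ← hn, map_sum]
      exact Finset.sum_congr rfl fun g _ => by rw [map_mul, map_intCast]
  obtain ⟨hp, hdiv, δ0, s, ha, hb, hc, hN⟩ := hres h4 x y w h1 h2 h3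
  have hδb : ∀ i j, δ0 (br i j) = (s i + s j) * br i j := fun i j => by
    simp only [hbr, map_sub, Derivation.leibniz, smul_eq_mul, ha, hb]; ring
  have hnd : ¬D x y w ∣ δ0 (D x y w) := fun h => hN <| by
    have e : s x * br y w + s y * br w x + s w * br x y =
        (s x + s y + s w) * D x y w - δ0 (D x y w) := by
      simp only [hD, map_add, hδb]; ring
    rw [e]
    exact dvd_sub (Dvd.intro_left _ rfl) h
  let _ : Algebra ℚ R := ((algebraMap ℂ R).comp (algebraMap ℚ ℂ)).toAlgebra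
  obtain ⟨δ, hδ, hval⟩ := hVAL R K (D x y w) δ0 hp hnd
  refine ⟨δ, fun i => φ (s i), ⟨fun i => ?_, fun i => ?_, fun g => ?_⟩, fun κ r hr hκ => ?_⟩
  · exact (hδ (a i)).trans (by rw [ha, map_mul])
  · exact (hδ (b i)).trans (by rw [hb, map_mul])
  · exact (congrArg δ (hC _)).trans ((hδ _).trans (by rw [hc, map_zero]))
  have eθ : ∀ i j m, L.theta (fun i => φ (s i)) i j m =
      φ (-(s i * br j m + s j * br m i + s m * br i j)) / φ (D i j m) := fun i j m => by
    simp only [Lines.theta, eb, eD, map_neg, map_add, map_mul]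
  let P : I × I × I → Prop := fun t =>
    (t.1 ≠ t.2.1 ∧ t.2.1 ≠ t.2.2 ∧ t.1 ≠ t.2.2) ∧ t ∉ EXL_six x y w
  refine hval (I × I × I) κ _ (fun t => if P t then r t.1 t.2.1 t.2.2 else 0)
    (-(s x * br y w + s y * br w x + s w * br x y))
    (fun t => -(s t.1 * br t.2.1 t.2.2 + s t.2.1 * br t.2.2 t.1 + s t.2.2 * br t.1 t.2.1))
    (fun t => if P t then D t.1 t.2.1 t.2.2 else 1) (by simp only [map_add, hr, add_zero])
    (fun t => ?_) (fun h => hN (dvd_neg.1 h)) (fun t => ?_) ?_
  · split_ifs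
    · exact hr _ _ _
    · exact map_zero δ
  · split_ifs with h
    · exact fun h' => h.2 ((EXL_mem_six h1 h2 h3).2 ⟨h.1, hdiv _ _ _ h.1.1 h.1.2.1 h.1.2.2 h'⟩)
    · exact hp.not_dvd_one
  · rw [hκ, ← EXL_sum_six h1 h2 h3 fun t => r t.1 t.2.1 t.2.2, ← eθ, Finset.sum_mul,
      ← Finset.sum_ite_mem_eq (EXL_six x y w), ← Finset.sum_add_distrib,
      Fintype.sum_prod_type]
    refine Finset.sum_congr rfl fun i _ => ?_
    rw [Fintype.sum_prod_type]
    refine Finset.sum_congr rfl fun j _ => Finset.sum_congr rfl fun m _ => ?_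
    by_cases h6 : (i, j, m) ∈ EXL_six x y w
    · rw [if_pos h6, if_neg (fun h : P (i, j, m) => h.2 h6), zero_mul, add_zero,
        EXL_theta_six L _ h6]
    · rw [if_neg h6, zero_add]
      by_cases hd : i ≠ j ∧ j ≠ m ∧ i ≠ m
      · rw [if_pos (show P (i, j, m) from ⟨hd, h6⟩), if_pos (show P (i, j, m) from ⟨hd, h6⟩), eθ]
      · rw [if_neg (fun h : P (i, j, m) => hd h.1), zero_mul, EXL_theta_zero L _ hd, mul_zero]

end CenLoc
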