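import Pool.Agent.P.MP_2862dc_ag.Stmts

/-!
A universal arrangement of lines over a polynomial ring.
-/

namespace CenLoc

open MvPolynomial

noncomputable section

lemma EXR_lam (G : Type) [Fintype G] [DecidableEq G] :
    ∃ lam : G → ℂ, ∀ n : G → ℤ, ∑ g, (n g : ℂ) * lam g = 0 → ∀ g, n g = 0 := by
  obtain ⟨e, he⟩ := exists_injective_nat G
  have ht := transcendental_liouvilleNumber (le_refl 2)
  refine ⟨fun g => ((liouvilleNumber (2 : ℕ) ^ e g : ℝ) : ℂ), fun n hn g => ?_⟩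
  have h1 : ∑ g, (n g : ℝ) * liouvilleNumber (2 : ℕ) ^ e g = 0 := by
    have : ((∑ g, (n g : ℝ) * liouvilleNumber (2 : ℕ) ^ e g : ℝ) : ℂ) = 0 := by
      rw [← hn]; push_cast; rfl
    exact_mod_cast this
  have h2 := (transcendental_iff.1 ht) (∑ g, Polynomial.monomial (e g) (n g)) (by
    rw [map_sum, ← h1]
    refine Finset.sum_congr rfl fun g _ => ?_
    simp [Polynomial.aeval_monomial])
  have h3 := congrArg (fun p => Polynomial.coeff p (e g)) h2
  simp only [Polynomial.finsetSum_coeff, Polynomial.coeff_monomial, he.eq_iff,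
    Finset.sum_ite_eq', Finset.mem_univ, if_true, Polynomial.coeff_zero] at h3
  exact h3

lemma EXR_sum_ne {G I : Type} [Fintype G] [DecidableEq G] (grp : I → G) (lam : G → ℂ)
    (hl : ∀ n : G → ℤ, ∑ g, (n g : ℂ) * lam g = 0 → ∀ g, n g = 0) (S : Finset I)
    (hS : S.Nonempty) : ∑ i ∈ S, lam (grp i) ≠ 0 := by
  intro h0
  obtain ⟨i0, hi0⟩ := hS
  have h1 : ∑ g, (((S.filter fun i => grp i = g).card : ℤ) : ℂ) * lam g = 0 := by
    rw [← h0, ← Finset.sum_fiberwise S grp]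
    refine Finset.sum_congr rfl fun g _ => ?_
    rw [Finset.sum_congr rfl (g := fun _ => lam g)]
    · simp
    · intro i hi
      rw [(Finset.mem_filter.1 hi).2]
  have h2 := hl _ h1 (grp i0)
  have h3 : (S.filter fun i => grp i = grp i0).card = 0 := by exact_mod_cast h2
  rw [Finset.card_eq_zero] at h3
  have : i0 ∈ S.filter fun i => grp i = grp i0 := Finset.mem_filter.2 ⟨hi0, rfl⟩
  rw [h3] at this
  simp at this

section Poly
variable {I : Type} [Fintype I] [DecidableEq I]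

/-- The recentered coordinates. -/
def EXR_c (μ : I → ℂ) (c : Fin 2) (i : I) : MvPolynomial (I × Fin 2) ℂ :=
  X (i, c) - C (∑ j, μ j)⁻¹ * ∑ j, C (μ j) * X (j, c)

def EXR_br (μ : I → ℂ) (i j : I) : MvPolynomial (I × Fin 2) ℂ :=
  EXR_c μ 0 i * EXR_c μ 1 j - EXR_c μ 0 j * EXR_c μ 1 i

def EXR_D (μ : I → ℂ) (i j m : I) : MvPolynomial (I × Fin 2) ℂ :=
  EXR_br μ j m + EXR_br μ m i + EXR_br μ i j

omit [DecidableEq I] in
lemma EXR_D_eq (μ : I → ℂ) (i j m : I) : EXR_D μ i j m =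
    (X (j, 1) - X (m, 1)) * X (i, 0) +
      (X (j, 0) * X (m, 1) - X (m, 0) * X (j, 1) + X (m, 0) * X (i, 1) - X (j, 0) * X (i, 1)) := by
  simp only [EXR_D, EXR_br, EXR_c]; ring

/-- The configuration with `u` at `(1,0)`, `v` at `(0,1)` and the rest at the origin. -/
def EXR_P (u v : I) : I × Fin 2 → ℂ := fun p =>
  if p.2 = 0 then (if p.1 = u then 1 else 0) else (if p.1 = v then 1 else 0)

lemma EXR_ev0 (μ : I → ℂ) (u v t : I) : eval (EXR_P u v) (EXR_c μ 0 t) =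
    (if t = u then 1 else 0) - (∑ j, μ j)⁻¹ * μ u := by
  simp [EXR_c, EXR_P]

lemma EXR_ev1 (μ : I → ℂ) (u v t : I) : eval (EXR_P u v) (EXR_c μ 1 t) =
    (if t = v then 1 else 0) - (∑ j, μ j)⁻¹ * μ v := by
  simp [EXR_c, EXR_P]

lemma EXR_third (h : 3 ≤ Fintype.card I) (i j : I) : ∃ m, m ≠ i ∧ m ≠ j := by
  by_contra hc
  push Not at hc
  have : (Finset.univ : Finset I) ⊆ {i, j} := by
    intro m _
    by_cases hm : m = i
    · simp [hm]
    · simp [hc m hm]
  have h1 := Finset.card_le_card this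
  have h2 : ({i, j} : Finset I).card ≤ 2 := Finset.card_le_two
  rw [Finset.card_univ] at h1
  omega

lemma EXR_fourth (h : 4 ≤ Fintype.card I) (i j k : I) : ∃ m, m ≠ i ∧ m ≠ j ∧ m ≠ k := by
  by_contra hc
  push Not at hc
  have : (Finset.univ : Finset I) ⊆ {i, j, k} := by
    intro m _
    by_cases hm : m = i
    · simp [hm]
    · by_cases hm' : m = j
      · simp [hm']
      · simp [hc m hm hm']
  have h1 := Finset.card_le_card this
  have h2 : ({i, j, k} : Finset I).card ≤ 3 := Finset.card_le_three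
  rw [Finset.card_univ] at h1
  omega

variable {μ : I → ℂ}

lemma EXR_br_ne (hμ : ∀ S : Finset I, S.Nonempty → ∑ i ∈ S, μ i ≠ 0) (h : 3 ≤ Fintype.card I)
    {i j : I} (hij : i ≠ j) : EXR_br μ i j ≠ 0 := by
  obtain ⟨m, hmi, hmj⟩ := EXR_third h i j
  have hL : ∑ j, μ j ≠ 0 := hμ _ ⟨i, Finset.mem_univ _⟩
  have hm : μ m ≠ 0 := by simpa using hμ {m} (by simp)
  intro h0
  have h1 := congrArg (eval (EXR_P j m)) h0
  simp only [EXR_br, map_sub, map_mul, EXR_ev0, EXR_ev1, if_neg hij, if_neg hmi.symm,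
    if_neg hmj.symm, if_true, map_zero] at h1
  have h2 : (∑ j, μ j)⁻¹ * μ m = 0 := by linear_combination h1
  exact mul_ne_zero (inv_ne_zero hL) hm h2

lemma EXR_D_P {i j m : I} (hij : i ≠ j) (hjm : j ≠ m) (him : i ≠ m) :
    eval (EXR_P i j) (EXR_D μ i j m) = 1 := by
  rw [EXR_D_eq]
  simp [EXR_P, hij, hij.symm, hjm.symm, him.symm]

lemma EXR_D_ne {i j m : I} (hij : i ≠ j) (hjm : j ≠ m) (him : i ≠ m) : EXR_D μ i j m ≠ 0 := by
  intro h0
  have := EXR_D_P (μ := μ) hij hjm him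
  rw [h0] at this
  simp at this

omit [DecidableEq I] in
lemma EXR_crit (hL : ∑ j, μ j ≠ 0) (c : Fin 2) : ∑ i, μ i • EXR_c μ c i = 0 := by
  simp only [EXR_c, smul_eq_C_mul, mul_sub, Finset.sum_sub_distrib, ← Finset.sum_mul,
    ← map_sum]
  rw [← mul_assoc, ← map_mul, mul_inv_cancel₀ hL]
  simp

lemma EXR_hess (hμ : ∀ S : Finset I, S.Nonempty → ∑ i ∈ S, μ i ≠ 0) (h : 3 ≤ Fintype.card I) :
    (∑ i, μ i • EXR_c μ 0 i ^ 2) * (∑ i, μ i • EXR_c μ 1 i ^ 2) -
      (∑ i, μ i • (EXR_c μ 0 i * EXR_c μ 1 i)) ^ 2 ≠ 0 := by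
  have hne : Nonempty I := Fintype.card_pos_iff.1 (by omega)
  obtain ⟨u⟩ := hne
  obtain ⟨v, hvu, -⟩ := EXR_third h u u
  obtain ⟨m, hmu, hmv⟩ := EXR_third h u v
  have hL : ∑ j, μ j ≠ 0 := hμ _ ⟨u, Finset.mem_univ _⟩
  have hu : μ u ≠ 0 := by simpa using hμ {u} (by simp)
  have hv : μ v ≠ 0 := by simpa using hμ {v} (by simp)
  have hr : ∑ j, μ j - μ u - μ v ≠ 0 := by
    have h1 := hμ ((Finset.univ.erase u).erase v) ⟨m, by simp [hmu, hmv]⟩
    rw [Finset.sum_erase_eq_sub (by simp [hvu]), Finset.sum_erase_eq_sub (by simp)] at h1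
    exact h1
  intro h0
  have h1 := congrArg (eval (EXR_P u v)) h0
  simp only [map_sub, map_mul, map_pow, map_sum, smul_eq_C_mul, eval_C, EXR_ev0, EXR_ev1,
    map_zero] at h1
  set L := ∑ j, μ j with hLdef
  have e1 : ∀ (w : I) (α : ℂ), ∑ t, μ t * ((if t = w then (1 : ℂ) else 0) - α) ^ 2 =
      μ w - 2 * α * μ w + α ^ 2 * L := by
    intro w α
    have : ∀ t, μ t * ((if t = w then (1 : ℂ) else 0) - α) ^ 2 =
        (if t = w then μ w - 2 * α * μ w else 0) + α ^ 2 * μ t := by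
      intro t
      split_ifs with ht
      · subst ht; ring
      · ring
    simp only [this, Finset.sum_add_distrib, Finset.sum_ite_eq', Finset.mem_univ, if_true,
      ← Finset.mul_sum, ← hLdef]
  have e2 : ∀ α β : ℂ, ∑ t, μ t * (((if t = u then (1 : ℂ) else 0) - α) *
      ((if t = v then (1 : ℂ) else 0) - β)) = -(β * μ u) - α * μ v + α * β * L := by
    intro α β
    have : ∀ t, μ t * (((if t = u then (1 : ℂ) else 0) - α) *
        ((if t = v then (1 : ℂ) else 0) - β)) =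
        (if t = u then -(β * μ u) else 0) + (if t = v then -(α * μ v) else 0) + α * β * μ t := by
      intro t
      split_ifs with ht ht' ht'
      · exact absurd (ht'.symm.trans ht) hvu
      · subst ht; ring
      · subst ht'; ring
      · ring
    simp only [this, Finset.sum_add_distrib, Finset.sum_ite_eq', Finset.mem_univ, if_true,
      ← Finset.mul_sum, ← hLdef]
    ring
  rw [e1, e1, e2] at h1
  have h2 : μ u * μ v * (L - μ u - μ v) * L⁻¹ = 0 := by
    rw [← h1]; field_simp; ring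
  exact mul_ne_zero (mul_ne_zero (mul_ne_zero hu hv) hr) (inv_ne_zero hL) h2

omit [Fintype I] [DecidableEq I] in
lemma EXR_nv_X {p q : I × Fin 2} (h : p ≠ q) :
    p ∉ (X q : MvPolynomial (I × Fin 2) ℂ).vars := by
  simp [vars_X, h]

omit [Fintype I] in
lemma EXR_nv_add {p : I × Fin 2} {f g : MvPolynomial (I × Fin 2) ℂ} (hf : p ∉ f.vars)
    (hg : p ∉ g.vars) : p ∉ (f + g).vars := fun h => by
  rcases Finset.mem_union.1 (vars_add_subset f g h) with h | h
  exacts [hf h, hg h]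

omit [Fintype I] in
lemma EXR_nv_sub {p : I × Fin 2} {f g : MvPolynomial (I × Fin 2) ℂ} (hf : p ∉ f.vars)
    (hg : p ∉ g.vars) : p ∉ (f - g).vars := fun h => by
  rcases Finset.mem_union.1 (vars_sub_subset f (q := g) h) with h | h
  exacts [hf h, hg h]

omit [Fintype I] in
lemma EXR_nv_mul {p : I × Fin 2} {f g : MvPolynomial (I × Fin 2) ℂ} (hf : p ∉ f.vars)
    (hg : p ∉ g.vars) : p ∉ (f * g).vars := fun h => by
  rcases Finset.mem_union.1 (vars_mul f g h) with h | h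
  exacts [hf h, hg h]

lemma EXR_prime {x y w : I} (hxy : x ≠ y) (hyw : y ≠ w) (hxw : x ≠ w) :
    Prime (EXR_D μ x y w) := by
  rw [EXR_D_eq]
  have hlin : Irreducible (X (y, 1) - X (w, 1) : MvPolynomial (I × Fin 2) ℂ) := by
    have := irreducible_mul_X_add (1 : MvPolynomial (I × Fin 2) ℂ) (-X (w, 1)) (y, 1) one_ne_zero
      (by simp) (by rw [vars_neg]; exact EXR_nv_X (by simp [hyw])) isRelPrime_one_left
    rwa [one_mul, ← sub_eq_add_neg] at this
  apply Irreducible.prime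
  apply irreducible_mul_X_add _ _ _ hlin.ne_zero
  · exact EXR_nv_sub (EXR_nv_X (by simp)) (EXR_nv_X (by simp))
  · refine EXR_nv_sub (EXR_nv_add (EXR_nv_sub (EXR_nv_mul ?_ ?_) (EXR_nv_mul ?_ ?_))
      (EXR_nv_mul ?_ ?_)) (EXR_nv_mul ?_ ?_) <;> apply EXR_nv_X <;> simp [hxy, hxw]
  · rw [hlin.isRelPrime_iff_not_dvd]
    rintro ⟨q, hq⟩
    have h1 := congrArg (eval (EXR_P y x)) hq
    simp [EXR_P, hyw.symm, hxy.symm, hxw.symm] at h1

lemma EXR_dvd {x y w i j m : I} (hxy : x ≠ y) (hyw : y ≠ w) (hxw : x ≠ w) (hij : i ≠ j)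
    (hjm : j ≠ m) (him : i ≠ m) (hd : EXR_D μ x y w ∣ EXR_D μ i j m) :
    ({i, j, m} : Finset I) = {x, y, w} := by
  by_contra hne
  have hc1 : ({i, j, m} : Finset I).card = 3 := Finset.card_eq_three.2 ⟨i, j, m, hij, him, hjm, rfl⟩
  have hc2 : ({x, y, w} : Finset I).card = 3 := Finset.card_eq_three.2 ⟨x, y, w, hxy, hxw, hyw, rfl⟩
  have hns : ¬ ({x, y, w} : Finset I) ⊆ {i, j, m} := fun hs =>
    hne (Finset.eq_of_subset_of_card_le hs (by omega)).symm
  obtain ⟨t, ht, htn⟩ := Finset.not_subset.1 hns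
  simp only [Finset.mem_insert, Finset.mem_singleton, not_or] at ht htn
  obtain ⟨hti, htj, htm⟩ := htn
  have key : ∀ t' : I, eval (fun p : I × Fin 2 => if p.1 = t then EXR_P i j (t', p.2)
      else EXR_P i j p) (EXR_D μ x y w) = 0 → False := by
    intro t' h0
    obtain ⟨q, hq⟩ := hd
    have h1 := congrArg (eval (fun p : I × Fin 2 => if p.1 = t then EXR_P i j (t', p.2)
      else EXR_P i j p)) hq
    rw [map_mul, h0, zero_mul, EXR_D_eq] at h1
    have h2 := EXR_D_P (μ := μ) hij hjm him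
    rw [EXR_D_eq] at h2
    simp only [map_add, map_sub, map_mul, eval_X, if_neg (Ne.symm hti), if_neg (Ne.symm htj),
      if_neg (Ne.symm htm)] at h1 h2
    rw [h1] at h2
    exact zero_ne_one h2
  rcases ht with rfl | rfl | rfl
  · apply key y
    rw [EXR_D_eq]
    simp only [map_add, map_sub, map_mul, eval_X, if_neg hxy.symm, if_neg hxw.symm, if_true]
    ring
  · apply key x
    rw [EXR_D_eq]
    simp only [map_add, map_sub, map_mul, eval_X, if_neg hxy, if_neg hyw.symm, if_true]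
    ring
  · apply key x
    rw [EXR_D_eq]
    simp only [map_add, map_sub, map_mul, eval_X, if_neg hxw, if_neg hyw, if_true]
    ring

/-- The scaling factors. -/
def EXR_s (μ : I → ℂ) (x y w : I) (i : I) : MvPolynomial (I × Fin 2) ℂ :=
  (if i = x then C (μ x)⁻¹ * EXR_br μ y w else 0) + (if i = y then C (μ y)⁻¹ * EXR_br μ w x else 0)
    + (if i = w then C (μ w)⁻¹ * EXR_br μ x y else 0)

def EXR_del (μ : I → ℂ) (x y w : I) :
    Derivation ℂ (MvPolynomial (I × Fin 2) ℂ) (MvPolynomial (I × Fin 2) ℂ) :=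
  mkDerivation ℂ fun p => EXR_s μ x y w p.1 * EXR_c μ p.2 p.1

lemma EXR_del_c (hμ : ∀ i, μ i ≠ 0) (x y w : I) (c : Fin 2) (i : I) :
    EXR_del μ x y w (EXR_c μ c i) = EXR_s μ x y w i * EXR_c μ c i := by
  have hX : ∀ j, EXR_del μ x y w (X (j, c)) = EXR_s μ x y w j * EXR_c μ c j := fun j =>
    mkDerivation_X ℂ _ (j, c)
  have hs : ∑ j, C (μ j) * (EXR_s μ x y w j * EXR_c μ c j) = 0 := by
    have h1 : ∀ (t : I) (f : MvPolynomial (I × Fin 2) ℂ),
        ∑ j, C (μ j) * ((if j = t then C (μ t)⁻¹ * f else 0) * EXR_c μ c j) = f * EXR_c μ c t := by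
      intro t f
      rw [Finset.sum_eq_single t]
      · rw [if_pos rfl, ← mul_assoc, ← mul_assoc, ← map_mul, mul_inv_cancel₀ (hμ t)]
        simp
      · intro j _ hj
        simp [hj]
      · simp
    simp only [EXR_s, add_mul, mul_add, Finset.sum_add_distrib, h1]
    fin_cases c
    · simp only [EXR_br, Fin.zero_eta]; ring
    · simp only [EXR_br, Fin.mk_one]; ring
  have hC : ∀ (r : ℂ) (f : MvPolynomial (I × Fin 2) ℂ),
      EXR_del μ x y w (C r * f) = C r * EXR_del μ x y w f := by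
    intro r f
    rw [← smul_eq_C_mul, Derivation.map_smul, smul_eq_C_mul]
  conv_lhs => rw [EXR_c]
  rw [map_sub, hX, hC, map_sum]
  simp only [hC, hX, hs]
  simp

lemma EXR_ndvd (hμ : ∀ S : Finset I, S.Nonempty → ∑ i ∈ S, μ i ≠ 0) (h : 4 ≤ Fintype.card I)
    {x y w : I} (hxy : x ≠ y) (hyw : y ≠ w) (hxw : x ≠ w) :
    ¬ EXR_D μ x y w ∣ EXR_s μ x y w x * EXR_br μ y w + EXR_s μ x y w y * EXR_br μ w x +
      EXR_s μ x y w w * EXR_br μ x y := by
  obtain ⟨m, hmx, hmy, hmw⟩ := EXR_fourth h x y w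
  have hL : ∑ j, μ j ≠ 0 := hμ _ ⟨x, Finset.mem_univ _⟩
  have h1 : ∀ t, μ t ≠ 0 := fun t => by simpa using hμ {t} (by simp)
  have h2 : μ x + μ w ≠ 0 := by
    have := hμ {x, w} (by simp)
    rwa [Finset.sum_pair hxw] at this
  rintro ⟨q, hq⟩
  have h3 := congrArg (eval (EXR_P y m)) hq
  have h4 : eval (EXR_P y m) (EXR_D μ x y w) = 0 := by
    rw [EXR_D_eq]
    simp [EXR_P, hxy, hyw.symm, hmx.symm, hmy.symm, hmw.symm]
  rw [map_mul, h4, zero_mul] at h3
  simp only [EXR_s, EXR_br, map_add, map_sub, map_mul, EXR_ev0, EXR_ev1, if_neg hxy, if_neg hxw,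
    if_neg hyw, if_neg hxy.symm, if_neg hxw.symm, if_neg hyw.symm, if_neg hmx.symm,
    if_neg hmy.symm, if_neg hmw.symm, if_true, map_zero, eval_C] at h3
  have h5 : ((∑ j, μ j)⁻¹ * μ m) ^ 2 * ((μ x + μ w) * ((μ x)⁻¹ * (μ w)⁻¹)) = 0 := by
    rw [← h3]
    have := h1 x
    have := h1 w
    field_simp
    ring
  exact mul_ne_zero (pow_ne_zero 2 (mul_ne_zero (inv_ne_zero hL) (h1 m)))
    (mul_ne_zero h2 (mul_ne_zero (inv_ne_zero (h1 x)) (inv_ne_zero (h1 w)))) h5

end Poly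

theorem pf_EXR : StEXR := by
  intro G I _ _ _ _ grp _ h3
  obtain ⟨lam, hl⟩ := EXR_lam G
  have hμ := EXR_sum_ne grp lam hl
  have hne : Nonempty I := Fintype.card_pos_iff.1 (by omega)
  have hL : ∑ j, lam (grp j) ≠ 0 := hμ _ Finset.univ_nonempty
  have h1 : ∀ t, lam (grp t) ≠ 0 := fun t => by simpa using hμ {t} (by simp)
  refine ⟨MvPolynomial (I × Fin 2) ℂ, inferInstance, inferInstance, inferInstance, inferInstance,
    EXR_c (fun i => lam (grp i)) 0, EXR_c (fun i => lam (grp i)) 1, lam,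
    EXR_br (fun i => lam (grp i)), EXR_D (fun i => lam (grp i)), fun _ _ => rfl, fun _ _ _ => rfl,
    fun i j hij => EXR_br_ne hμ h3 hij, fun i j m hij hjm him => EXR_D_ne hij hjm him,
    EXR_crit hL 0, EXR_crit hL 1, EXR_hess hμ h3, hl, fun h4 x y w hxy hyw hxw =>
      ⟨EXR_prime hxy hyw hxw, fun i j m hij hjm him hd => EXR_dvd hxy hyw hxw hij hjm him hd,
        (EXR_del (fun i => lam (grp i)) x y w).restrictScalars ℤ,
        EXR_s (fun i => lam (grp i)) x y w, fun i => EXR_del_c h1 x y w 0 i,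
        fun i => EXR_del_c h1 x y w 1 i, fun c => ?_, EXR_ndvd hμ h4 hxy hyw hxw⟩⟩
  exact (EXR_del (fun i => lam (grp i)) x y w).map_algebraMap c

end

end CenLoc
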