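import Pool.Agent.P.MP_2862dc_ag.Basic

/-! The first order condition in power series. -/

namespace CenLoc

open MvPolynomial

lemma FA_core {k : Type} [CommRing k] (h ζ U : Ser k × Ser k) (F T Gs H1 a0 a1 : Ser k)
    (hM : Morse h) (hζ : dvgS ζ = 0) (hFT : F * T = 1)
    (E0 : wedge (F • ζ) (F • h) = F * wedge (hamS a0) (F • h))
    (E1 : wedge U (F • h) + wedge (F • ζ) (F • (hamS H1 + Gs • h)) =
      F * Gs * wedge (hamS a0) (F • h) + F * wedge (hamS a0) (F • (hamS H1 + Gs • h)) +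
        F * wedge (hamS a1) (F • h)) :
    ∃ B, dvgS (T • U - Gs • ζ) = wedge (hamS B) h := by
  simp only [wedge_smul_left, wedge_smul_right, wedge_add_right] at E0 E1
  have e0 : wedge ζ h = wedge (hamS a0) h := by
    linear_combination T ^ 2 * E0 - (F * T + 1) * (wedge ζ h - wedge (hamS a0) h) * hFT
  obtain ⟨B0, hB0⟩ := hM.kos (ζ - hamS a0) (by
    rw [wedge_comm, wedge_sub_left, e0, sub_self, neg_zero])
  have e1 : wedge ζ (hamS H1) - wedge (hamS a0) (hamS H1) = -(B0 * wedge (hamS H1) h) := by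
    rw [← wedge_sub_left, hB0, wedge_smul_left, wedge_comm h, mul_neg]
  have e2 : T * wedge U h + wedge ζ (hamS H1) + Gs * wedge ζ h =
      2 * Gs * wedge (hamS a0) h + wedge (hamS a0) (hamS H1) + wedge (hamS a1) h := by
    linear_combination T ^ 2 * E1 - (T * wedge U h + (F * T + 1) * (wedge ζ (hamS H1) +
      Gs * wedge ζ h - 2 * Gs * wedge (hamS a0) h - wedge (hamS a0) (hamS H1) -
      wedge (hamS a1) h)) * hFT
  obtain ⟨B1, hB1⟩ := hM.kos (T • U - Gs • ζ - hamS a1 - B0 • hamS H1) (by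
    rw [wedge_comm, neg_eq_zero]
    simp only [wedge_sub_left, wedge_smul_left]
    linear_combination e2 - e1 - 2 * Gs * e0)
  have d0 : wedge (hamS B0) h = 0 := by
    have := congrArg dvgS hB0
    rw [dvgS_sub, hζ, dvgS_hamS, dvgS_smul, hM.closed] at this
    linear_combination -this
  obtain ⟨b, hb⟩ := hM.kos (hamS B0) (by rw [wedge_comm, d0, neg_zero])
  have d1 : wedge (hamS b) h = 0 := by
    have := congrArg dvgS hb
    rw [dvgS_hamS, dvgS_smul, hM.closed] at this
    linear_combination -this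
  refine ⟨B1 - b * H1, ?_⟩
  have := congrArg dvgS hB1
  rw [dvgS_sub, dvgS_sub, dvgS_hamS, dvgS_smul B0, dvgS_hamS, dvgS_smul B1, hM.closed, hb,
    wedge_smul_left, wedge_comm h] at this
  rw [hamS_sub, hamS_mul, wedge_sub_left, wedge_add_left, wedge_smul_left, wedge_smul_left, d1]
  linear_combination this

section
variable {k G I : Type} [Field k] [Fintype G] [DecidableEq G] [Fintype I] [DecidableEq I]
  (L : Lines k G I)

omit [Fintype G] [DecidableEq G] [Fintype I] [DecidableEq I] in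
lemma FA_prod_mul (s : Finset I) :
    ((∏ i ∈ s, L.l i : Pol k) : Ser k) * ∏ i ∈ s, L.t i = 1 := by
  rw [coeS_prod, ← Finset.prod_mul_distrib]
  exact Finset.prod_eq_one fun i _ => L.l_mul_t i

omit [Fintype G] in
lemma FA_pert (j : G → I) (hj : ∀ g, L.grp (j g) = g) (g : G) :
    (L.pert j g : Ser k) = (L.f g : Ser k) * L.pertS j g := by
  have hm : j g ∈ L.fib g := by simp [Lines.fib, hj]
  rw [Lines.pert, Lines.pertS, coeS_sum, Finset.mul_sum]
  refine Finset.sum_congr rfl fun i hi => ?_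
  rw [Lines.f, ← Finset.mul_prod_erase _ L.l hm, ← Finset.mul_prod_erase _ L.l hi]
  simp only [MvPolynomial.coe_mul, coeS_sub, MvPolynomial.coe_one]
  have h1 := L.l_mul_t i
  have h2 := L.l_mul_t (j g)
  generalize ((∏ m ∈ ((L.fib g).erase (j g)).erase i, L.l m : Pol k) : Ser k) = P
  linear_combination (-P * (L.l (j g) : Ser k) * (L.t (j g) - 1)) * h1 -
    P * (1 - (L.l i : Ser k)) * h2

omit [Fintype G] in
lemma FA_pert_mul (j : G → I) (hj : ∀ g, L.grp (j g) = g) (g : G) :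
    (L.pert j g : Ser k) * ∏ i ∈ L.fib g, L.t i = L.pertS j g := by
  have hf : (L.f g : Ser k) * ∏ i ∈ L.fib g, L.t i = 1 := FA_prod_mul L _
  rw [FA_pert L j hj]
  linear_combination L.pertS j g * hf

end

theorem pf_FA (hLB : StLB) (hLS : StLS) (hNULL : StNULL) : StFA := by
  intro k G I _ _ _ _ _ _ L hG j hj c u1 a0 a1 E0 E1
  obtain ⟨-, -, -, -, -, hprod, -⟩ := hLB k G I L hG
  obtain ⟨hM, hζ, hFζ, hFh, -, -, htv⟩ := hLS k G I L hG
  obtain ⟨-, -, -, -, -, hN⟩ := hNULL k L.h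
  have hT : coeP (∑ g, tv L.f L.lam g (L.pert j g)) = ((∏ i, L.l i : Pol k) : Ser k) •
      (hamS (∑ g, L.lam g • L.pertS j g) + (∑ g, L.pertS j g) • L.h) := by
    rw [coeP_sum, hamS_sum, Finset.sum_smul, ← Finset.sum_add_distrib, Finset.smul_sum]
    refine Finset.sum_congr rfl fun g _ => ?_
    rw [htv, FA_pert_mul L j hj, hamS_smul]
  have hF1 : ((∑ g, L.pert j g * ∏ m ∈ Finset.univ.erase g, L.f m : Pol k) : Ser k) =
      ((∏ i, L.l i : Pol k) : Ser k) * ∑ g, L.pertS j g := by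
    rw [coeS_sum, Finset.mul_sum]
    refine Finset.sum_congr rfl fun g _ => ?_
    rw [← hprod, ← Finset.mul_prod_erase _ L.f (Finset.mem_univ g), MvPolynomial.coe_mul,
      MvPolynomial.coe_mul, FA_pert L j hj]
    ring
  rw [coe_wedge, actS_eq_wedge, hprod, ← hFζ, ← hFh] at E0
  rw [MvPolynomial.coe_add, coe_wedge, coe_wedge, hF1, hT, hprod, actS_eq_wedge, actS_eq_wedge,
    actS_eq_wedge, ← hFζ, ← hFh] at E1
  obtain ⟨B, hB⟩ := FA_core L.h (L.zeta c) (coeP u1) _ (∏ i, L.t i) _ _ a0 a1 hM (hζ c)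
    (FA_prod_mul L _) E0 E1
  rw [hB]
  exact hN B

end CenLoc
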