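import Pool.Agent.P.MP_2862dc_ag.Basic

/-! The double pole part of the first order condition. -/

namespace CenLoc

open MvPolynomial

/-- The divergence as a linear map. -/
noncomputable def FB_dv (k : Type) [CommRing k] : (Ser k × Ser k) →ₗ[k] Ser k where
  toFun := dvgS
  map_add' := dvgS_add
  map_smul' := dvgS_smul'

section
variable {k G I : Type} [Field k] (L : Lines k G I)

/-- Divergence of `φ dl_m`. -/
noncomputable def FB_P (m : I) : Ser k →ₗ[k] Ser k where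
  toFun φ := dvgS (φ • hamS (L.l m : Ser k))
  map_add' a b := by rw [add_smul, dvgS_add]
  map_smul' c a := by rw [smul_assoc, dvgS_smul']; rfl

lemma FB_P_apply (m : I) (φ : Ser k) : FB_P L m φ = dvgS (φ • hamS (L.l m : Ser k)) := rfl

lemma FB_P_eq (m : I) (φ : Ser k) : FB_P L m φ = wedge (hamS φ) (hamS (L.l m : Ser k)) := by
  rw [FB_P_apply, dvgS_smul, dvgS_hamS, mul_zero, zero_add]

lemma FB_P_mul (m : I) (φ ψ : Ser k) :
    FB_P L m (φ * ψ) = φ * FB_P L m ψ + ψ * FB_P L m φ := by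
  simp only [FB_P_eq, hamS_mul, wedge_add_left, wedge_smul_left]

lemma FB_P_t (m i : I) : FB_P L m (L.t i) = -(L.t i ^ 2 * MvPowerSeries.C (L.br i m)) := by
  rw [FB_P_eq, L.hamS_t, wedge_smul_left, L.wedge_hamS_l, neg_mul]

lemma FB_P_self (m : I) : FB_P L m (L.t m) = 0 := by
  rw [FB_P_t, L.br_self, map_zero, mul_zero, neg_zero]

/-- Divergences of pairs with simple poles. -/
noncomputable def FB_W : Submodule k (Ser k) := (L.A1.prod L.A1).map (FB_dv k)

lemma FB_P_mem (m : I) {φ : Ser k} (hφ : φ ∈ L.A1) : FB_P L m φ ∈ FB_W L := by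
  refine ⟨φ • hamS (L.l m : Ser k), ?_, rfl⟩
  rw [L.hamS_l]
  constructor
  · have := L.A1.smul_mem (L.b m) hφ
    rw [MvPowerSeries.smul_eq_C_mul, mul_comm] at this
    exact this
  · have := L.A1.neg_mem (L.A1.smul_mem (L.a m) hφ)
    rw [MvPowerSeries.smul_eq_C_mul, mul_comm, ← mul_neg] at this
    exact this

lemma FB_t_mem (i : I) : L.t i ∈ L.A1 := Submodule.subset_span (Or.inl ⟨i, rfl⟩)

lemma FB_tt_E {i j : I} (h : i ≠ j) : L.t i * L.t j ∈ L.E :=
  Submodule.subset_span ⟨i, j, h, rfl⟩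

lemma FB_E_le : L.E ≤ L.A1 := Submodule.span_mono fun _ hx => Or.inr hx

lemma FB_ttt_E {i j m : I} (hij : i ≠ j) (hjm : j ≠ m) (him : i ≠ m) (hD : L.D i j m ≠ 0)
    (h3 : L.D i j m • (L.t i * L.t j * L.t m) = L.e i j + L.e j m + L.e m i) :
    L.t i * L.t j * L.t m ∈ L.E := by
  rw [← L.E.smul_mem_iff hD, h3]
  exact L.E.add_mem (L.E.add_mem (L.E.smul_mem _ (FB_tt_E L hij))
    (L.E.smul_mem _ (FB_tt_E L hjm))) (L.E.smul_mem _ (FB_tt_E L him.symm))

lemma FB_left {i j : I} (hij : i ≠ j) :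
    FB_P L i ((L.t i - 1) * (L.t j - 1) * L.t i) + FB_P L j (L.t i * L.t j ^ 2) ∈ FB_W L := by
  have e : FB_P L i ((L.t i - 1) * (L.t j - 1) * L.t i) + FB_P L j (L.t i * L.t j ^ 2) =
      FB_P L i (L.t i - L.t i * L.t j) := by
    have e1 : (L.t i - 1) * (L.t j - 1) * L.t i =
        L.t i * L.t i * L.t j - L.t i * L.t i + (L.t i - L.t i * L.t j) := by ring
    rw [e1, map_add, map_sub, pow_two]
    simp only [FB_P_mul, FB_P_self]
    rw [FB_P_t, FB_P_t, L.br_comm j i, map_neg]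
    ring
  rw [e]
  exact FB_P_mem L i (L.A1.sub_mem (FB_t_mem L i) (FB_E_le L (FB_tt_E L hij)))

lemma FB_right {i j : I} (hij : i ≠ j) :
    FB_P L j ((L.t i - 1) * (L.t j - 1) * L.t j) - FB_P L j (L.t i * L.t j ^ 2) ∈ FB_W L := by
  have e : FB_P L j ((L.t i - 1) * (L.t j - 1) * L.t j) - FB_P L j (L.t i * L.t j ^ 2) =
      FB_P L j (L.t j - L.t i * L.t j) := by
    have e1 : (L.t i - 1) * (L.t j - 1) * L.t j =
        L.t i * L.t j ^ 2 - L.t j * L.t j + (L.t j - L.t i * L.t j) := by ring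
    rw [e1, map_add, map_sub, FB_P_mul L j (L.t j) (L.t j), FB_P_self]
    ring
  rw [e]
  exact FB_P_mem L j (L.A1.sub_mem (FB_t_mem L j) (FB_E_le L (FB_tt_E L hij)))

lemma FB_other {i j m : I} (hjm : j ≠ m) (him : i ≠ m) (h : L.t i * L.t j * L.t m ∈ L.E) :
    FB_P L m ((L.t i - 1) * (L.t j - 1) * L.t m) ∈ FB_W L := by
  have e1 : (L.t i - 1) * (L.t j - 1) * L.t m =
      L.t i * L.t j * L.t m - L.t i * L.t m - L.t j * L.t m + L.t m := by ring
  rw [e1]
  exact FB_P_mem L m (L.A1.add_mem (L.A1.sub_mem (L.A1.sub_mem (FB_E_le L h)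
    (FB_E_le L (FB_tt_E L him))) (FB_E_le L (FB_tt_E L hjm))) (FB_t_mem L m))

/-- Divergences of the double pole forms along `l j`, plus logarithmic 2-forms. -/
noncomputable def FB_V (j : I) : Submodule k (Ser k) := (L.B' j).map (FB_dv k) ⊔ L.E

lemma FB_V_two {j m : I} (h : m ≠ j) (hb : L.br m j ≠ 0) : L.t m * L.t j ^ 2 ∈ FB_V L j := by
  rw [← (FB_V L j).smul_mem_iff hb]
  refine Submodule.mem_sup_left ⟨(L.t j * L.t m) • hamS (L.l m : Ser k),
    Submodule.subset_span ⟨m, h, rfl⟩, ?_⟩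
  change FB_P L m (L.t j * L.t m) = _
  rw [FB_P_mul, FB_P_self, FB_P_t, L.br_comm j m, map_neg, MvPowerSeries.smul_eq_C_mul]
  ring

lemma FB_V_three {i j m : I} (hij : i ≠ j) (hjm : j ≠ m) (him : i ≠ m) (hD : L.D i j m ≠ 0)
    (hb : L.br i j ≠ 0) (hb' : L.br m j ≠ 0)
    (h3 : L.D i j m • (L.t i * L.t j * L.t m) = L.e i j + L.e j m + L.e m i) :
    L.t i * L.t j ^ 2 * L.t m ∈ FB_V L j := by
  have hE := FB_ttt_E L hij hjm him hD h3
  rw [← (FB_V L j).smul_mem_iff hD]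
  have e : L.D i j m • (L.t i * L.t j ^ 2 * L.t m) = L.br i j • (L.t i * L.t j ^ 2) +
      L.br j m • (L.t m * L.t j ^ 2) + L.br m i • (L.t i * L.t j * L.t m) := by
    simp only [Lines.e, MvPowerSeries.smul_eq_C_mul] at h3 ⊢
    linear_combination L.t j * h3
  rw [e]
  exact (FB_V L j).add_mem ((FB_V L j).add_mem ((FB_V L j).smul_mem _ (FB_V_two L hij hb))
    ((FB_V L j).smul_mem _ (FB_V_two L hjm.symm hb')))
    ((FB_V L j).smul_mem _ (Submodule.mem_sup_right hE))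

variable [Fintype I]

lemma FB_dvg_zeta (φ : Ser k) (c : I → k) :
    dvgS (φ • L.zeta c) = ∑ m, c m • FB_P L m (φ * L.t m) := by
  rw [Lines.zeta, Finset.smul_sum, dvgS_sum]
  refine Finset.sum_congr rfl fun m _ => ?_
  rw [smul_smul, mul_smul_comm, ← map_smul, FB_P_apply]

lemma FB_wedge_h (φ : Ser k) (j : I) :
    wedge L.h (φ • hamS (L.l j : Ser k)) = ∑ m, (L.mu m * L.br m j) • (φ * L.t m) := by
  rw [Lines.h, Lines.zeta, wedge_sum_left]
  refine Finset.sum_congr rfl fun m _ => ?_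
  rw [wedge_smul_left, wedge_smul_right, L.wedge_hamS_l]
  simp only [MvPowerSeries.smul_eq_C_mul, map_mul]
  ring

variable [DecidableEq I]

lemma FB_one {i j : I} (hij : i ≠ j) (c : I → k)
    (h : ∀ m, j ≠ m → i ≠ m → L.t i * L.t j * L.t m ∈ L.E) :
    dvgS (((L.t i - 1) * (L.t j - 1)) • L.zeta c) +
      (c i - c j) • FB_P L j (L.t i * L.t j ^ 2) ∈ FB_W L := by
  have hj : j ∈ Finset.univ.erase i := Finset.mem_erase.mpr ⟨hij.symm, Finset.mem_univ j⟩
  rw [FB_dvg_zeta, ← Finset.add_sum_erase _ _ (Finset.mem_univ i), ← Finset.add_sum_erase _ _ hj]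
  have h1 := (FB_W L).smul_mem (c i) (FB_left L hij)
  have h2 := (FB_W L).smul_mem (c j) (FB_right L hij)
  have h3 : ∑ m ∈ (Finset.univ.erase i).erase j,
      c m • FB_P L m ((L.t i - 1) * (L.t j - 1) * L.t m) ∈ FB_W L := by
    refine (FB_W L).sum_mem fun m hm => (FB_W L).smul_mem _ ?_
    have hjm : j ≠ m := (Finset.ne_of_mem_erase hm).symm
    have him : i ≠ m := (Finset.ne_of_mem_erase (Finset.mem_of_mem_erase hm)).symm
    exact FB_other L hjm him (h m hjm him)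
  have h4 := (FB_W L).add_mem ((FB_W L).add_mem h1 h2) h3
  refine (congrArg (· ∈ FB_W L) ?_).mp h4
  rw [smul_add, smul_sub, sub_smul]
  abel

lemma FB_two {i j : I} (hmu : L.mu i = L.mu j)
    (h : ∀ m, j ≠ m → i ≠ m → L.t i * L.t j ^ 2 * L.t m ∈ FB_V L j) :
    L.mu j • FB_P L j (L.t i * L.t j ^ 2) +
      wedge L.h ((L.t i * L.t j ^ 2) • hamS (L.l j : Ser k)) ∈ FB_V L j := by
  rw [FB_wedge_h, ← Finset.add_sum_erase _ _ (Finset.mem_univ i), ← add_assoc]
  have e : L.mu j • FB_P L j (L.t i * L.t j ^ 2) +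
      (L.mu i * L.br i j) • (L.t i * L.t j ^ 2 * L.t i) = 0 := by
    rw [pow_two, hmu]
    simp only [FB_P_mul, FB_P_self]
    rw [FB_P_t]
    simp only [MvPowerSeries.smul_eq_C_mul, map_mul]
    ring
  rw [e, zero_add]
  refine (FB_V L j).sum_mem fun m hm => ?_
  by_cases hjm : j = m
  · rw [← hjm, L.br_self, mul_zero, zero_smul]; exact (FB_V L j).zero_mem
  · exact (FB_V L j).smul_mem _ (h m hjm (Finset.ne_of_mem_erase hm).symm)

end

theorem pf_FB (hLS : StLS) : StFB := by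
  intro k G I _ _ _ _ _ _ L hG j hj c
  obtain ⟨-, -, -, -, -, h3, -⟩ := hLS k G I L hG
  constructor
  · have key : dvgS ((∑ g, L.pertS j g) • L.zeta c) + dvgS (∑ g,
        ((∑ i ∈ (L.fib g).erase (j g), (c i - c (j g)) • L.t i) * L.t (j g) ^ 2) •
          hamS (L.l (j g) : Ser k)) ∈ FB_W L := by
      rw [Finset.sum_smul, dvgS_sum, dvgS_sum, ← Finset.sum_add_distrib]
      refine (FB_W L).sum_mem fun g _ => ?_
      rw [Lines.pertS, Finset.sum_smul, dvgS_sum, ← FB_P_apply, Finset.sum_mul, map_sum,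
        ← Finset.sum_add_distrib]
      refine (FB_W L).sum_mem fun i hi => ?_
      have hij : i ≠ j g := Finset.ne_of_mem_erase hi
      rw [smul_mul_assoc, map_smul]
      exact FB_one L hij c fun m hjm him =>
        FB_ttt_E L hij hjm him (hG.D_ne _ _ _ hij hjm him) (h3 _ _ _ hij hjm him)
    obtain ⟨u, hu, e⟩ := (FB_W L).neg_mem key
    refine ⟨u, hu.1, hu.2, ?_⟩
    change dvgS u = _ at e
    rw [dvgS_add, dvgS_neg, e]
    ring
  · intro g κ
    have key : L.lam g • dvgS (((∑ i ∈ (L.fib g).erase (j g), κ i • L.t i) * L.t (j g) ^ 2) •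
          hamS (L.l (j g) : Ser k)) +
        wedge L.h (((∑ i ∈ (L.fib g).erase (j g), κ i • L.t i) * L.t (j g) ^ 2) •
          hamS (L.l (j g) : Ser k)) ∈ FB_V L (j g) := by
      rw [← FB_P_apply, Finset.sum_mul, map_sum, Finset.sum_smul, wedge_sum_right,
        Finset.smul_sum, ← Finset.sum_add_distrib]
      refine (FB_V L (j g)).sum_mem fun i hi => ?_
      have hij : i ≠ j g := Finset.ne_of_mem_erase hi
      have hg : L.grp i = g := by simpa [Lines.fib] using Finset.mem_of_mem_erase hi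
      have hl : L.lam g = L.mu (j g) := by rw [Lines.mu, hj]
      rw [smul_mul_assoc, map_smul, smul_assoc, wedge_smul_right', smul_comm, ← smul_add, hl]
      refine (FB_V L (j g)).smul_mem _ (FB_two L (by rw [Lines.mu, Lines.mu, hg, hj]) ?_)
      exact fun m hjm him => FB_V_three L hij hjm him (hG.D_ne _ _ _ hij hjm him)
        (hG.br_ne _ _ hij) (hG.br_ne _ _ hjm.symm) (h3 _ _ _ hij hjm him)
    obtain ⟨y, ⟨χ, hχ, rfl⟩, w, hw, e⟩ := Submodule.mem_sup.mp key
    exact ⟨χ, hχ, w, hw, e.symm⟩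

end CenLoc
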