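import Pool.Agent.P.MP_2862dc_ag.Basic

/-! The double pole part of the first order condition forces the coefficients to vanish. -/

namespace CenLoc

open MvPolynomial Filter Topology

section
variable {k G I : Type} [Field k] [Fintype I] [DecidableEq I] (L : Lines k G I)

omit [Fintype I] [DecidableEq I] in
lemma FC_prod_lt (A : Finset I) : ((∏ i ∈ A, L.l i : Pol k) : Ser k) * ∏ i ∈ A, L.t i = 1 := by
  rw [coeS_prod, ← Finset.prod_mul_distrib]
  exact Finset.prod_eq_one fun i _ => L.l_mul_t i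

omit [Fintype I] in
lemma FC_prod_t (A : Finset I) {i : I} (hi : i ∈ A) :
    ((∏ m ∈ A, L.l m : Pol k) : Ser k) * L.t i = ((∏ m ∈ A.erase i, L.l m : Pol k) : Ser k) := by
  rw [← Finset.mul_prod_erase A _ hi, MvPolynomial.coe_mul, mul_right_comm, L.l_mul_t, one_mul]

omit [Fintype I] in
lemma FC_erase_t (A : Finset I) {i : I} (hi : i ∈ A) :
    ((∏ m ∈ A.erase i, L.l m : Pol k) : Ser k) * ∏ m ∈ A, L.t m = L.t i := by
  rw [← FC_prod_t L A hi, mul_right_comm, FC_prod_lt, one_mul]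

lemma FC_span (j : I) (χ : Ser k × Ser k) (hχ : χ ∈ L.B' j) :
    ∃ σ : Pol k × Pol k, ((∏ i, L.l i : Pol k) : Ser k) • χ = coeP σ ∧
      ∀ i, i ≠ j → L.l i ∣ wedge σ (ham (L.l i)) := by
  induction hχ using Submodule.span_induction with
  | mem x hx =>
    obtain ⟨m, hm, rfl⟩ := hx
    refine ⟨(∏ n ∈ (Finset.univ.erase j).erase m, L.l n) • ham (L.l m), ?_, fun i hi => ?_⟩
    · rw [coeP_smul, coeP_ham, smul_smul, ← mul_assoc, FC_prod_t L _ (Finset.mem_univ j),
        FC_prod_t L _ (Finset.mem_erase.mpr ⟨hm, Finset.mem_univ m⟩)]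
    · rw [wedge_smul_left]
      by_cases h : i = m
      · rw [h, wedge_self, mul_zero]; exact dvd_zero _
      · exact (Finset.dvd_prod_of_mem _ (by simp [h, hi])).mul_right _
  | zero => exact ⟨0, by simp [coeP_zero], fun i _ => by simp [wedge]⟩
  | add x y _ _ hx hy =>
    obtain ⟨σ, h1, h2⟩ := hx
    obtain ⟨τ, h3, h4⟩ := hy
    refine ⟨σ + τ, by rw [smul_add, h1, h3, coeP_add], fun i hi => ?_⟩
    rw [wedge_add_left]; exact dvd_add (h2 i hi) (h4 i hi)
  | smul a x _ hx =>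
    obtain ⟨σ, h1, h2⟩ := hx
    refine ⟨a • σ, by rw [smul_comm, h1, coeP_smul'], fun i hi => ?_⟩
    rw [smul_eq_C_smul, wedge_smul_left]; exact (h2 i hi).mul_left _

lemma FC_lg (c : I → k) (i : I) : L.l i ∣ wedge (∑ m, c m • lg L.l m) (ham (L.l i)) := by
  rw [wedge_sum_left]
  refine Finset.dvd_sum fun m _ => ?_
  rw [smul_eq_C_smul, wedge_smul_left, lg, wedge_smul_left]
  refine Dvd.dvd.mul_left ?_ _
  by_cases h : i = m
  · rw [h, wedge_self, mul_zero]; exact dvd_zero _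
  · exact (Finset.dvd_prod_of_mem _ (by simp [h])).mul_right _

omit [Fintype I] [DecidableEq I] in
lemma FC_d_mul_t (j : I) (x : Ser k) :
    wedge (hamS (x * L.t j)) (hamS (L.l j : Ser k)) =
      L.t j * wedge (hamS x) (hamS (L.l j : Ser k)) := by
  rw [hamS_mul, wedge_add_left, wedge_smul_left, wedge_smul_left, L.hamS_t, wedge_smul_left,
    wedge_self]
  ring

lemma FC_wedge_h (j : I) (β : Ser k × Ser k) :
    wedge β L.h = L.mu j • (L.t j * wedge β (hamS (L.l j : Ser k))) +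
      ∑ m ∈ Finset.univ.erase j, L.mu m • (L.t m * wedge β (hamS (L.l m : Ser k))) := by
  rw [Finset.add_sum_erase _ (fun m => L.mu m • (L.t m * wedge β (hamS (L.l m : Ser k))))
    (Finset.mem_univ j), Lines.h, Lines.zeta, wedge_sum_right]
  refine Finset.sum_congr rfl fun m _ => ?_
  rw [wedge_smul_right, smul_mul_assoc]

end

theorem pf_FC (hLB : StLB) (hLS : StLS) (hDEC : StDEC) (hHG : StHG) (hDIV : StDIV)
    (hLDV : StLDV) : StFC := by
  intro k G I _ _ _ _ _ _ L hL j κ c χ w hχ hw h1 h2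
  have _ := hLB
  obtain ⟨hM, hz, hFz, -, -, -, htv⟩ := hLS k G I L hL
  obtain ⟨-, -, hd3, hd4, hd5⟩ := hDEC k G I L hL
  obtain ⟨hv1, -, hv3⟩ := hLDV k G I L hL
  set g := L.grp j with hg
  set A := (L.fib g).erase j with hA
  set F : Ser k := ((∏ i, L.l i : Pol k) : Ser k) with hF
  have hjf : j ∈ L.fib g := by simp [Lines.fib, hg]
  have hmu : L.mu j = L.lam g := rfl
  have hcancel : ∀ x y : Ser k × Ser k, F • x = F • y → x = y := by
    intro x y h
    have := congrArg (fun z => (∏ i, L.t i) • z) h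
    have e : (∏ i, L.t i) * F = 1 := by rw [mul_comm, hF, FC_prod_lt]
    simpa only [smul_smul, e, one_smul] using this
  have hfib : ∏ i ∈ L.fib g, L.t i = (∏ i ∈ A, L.t i) * L.t j :=
    (Finset.prod_erase_mul _ _ hjf).symm
  obtain ⟨σ0, hσ0, hdiv0⟩ := FC_span L j χ hχ
  obtain ⟨σ1, hdeg, hσ1⟩ := hd3 j χ (Submodule.mem_sup_left hχ)
  have e01 : σ1 = σ0 := coeP_injective (hσ1.symm.trans hσ0)
  subst e01
  have hν : F • (χ - L.zeta c) = coeP (σ1 - ∑ i, c i • lg L.l i) := by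
    rw [smul_sub, coeP_sub, hσ1, hFz]
  obtain ⟨r, -, hr⟩ := hHG k G I L hL g _ (χ - L.zeta c) (hdeg.sub (hd4 c)) hν (by
    rw [dvgS_sub, hz, sub_zero, wedge_sub_right, ← h2, hmu]; ring)
  obtain ⟨w0, hw0⟩ := hv1 A r fun i hi => by
    have hi' : L.grp i = g := by simpa [Lines.fib] using Finset.mem_of_mem_erase hi
    refine hDIV k G I L hL i r ?_
    rw [hi', ← hr, wedge_sub_left]
    exact dvd_sub (hdiv0 i (Finset.ne_of_mem_erase hi)) (FC_lg L c i)
  have hU : (r : Ser k) * ∏ i ∈ L.fib g, L.t i = w0 * L.t j := by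
    rw [hw0, hfib, MvPolynomial.coe_mul]
    linear_combination (w0 * L.t j) * FC_prod_lt L A
  have hχ2 : dvgS χ = wedge (hamS ((w0 : Ser k) * L.t j)) L.h := by
    rw [hr, htv, hU] at hν
    have := congrArg dvgS (hcancel _ _ hν)
    rwa [dvgS_sub, hz, sub_zero, dvgS_add, dvgS_smul', dvgS_hamS, dvgS_smul, hM.closed, smul_zero,
      zero_add, mul_zero, zero_add] at this
  set As := ∑ i ∈ A, κ i • L.t i with hAs
  set Lam := wedge L.h (hamS (L.l j : Ser k)) with hLam
  set ρ := ∑ m ∈ Finset.univ.erase j,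
    L.mu m • (L.t m * wedge (hamS (w0 : Ser k)) (hamS (L.l m : Ser k))) with hρ
  have hlt := L.l_mul_t j
  have key : L.t j * (L.lam g • wedge (hamS (As - (w0 : Ser k))) (hamS (L.l j : Ser k)) +
      (As - w0) * Lam) = ρ + L.l j * w := by
    rw [hχ2, dvgS_smul, dvgS_hamS, pow_two, ← mul_assoc, FC_d_mul_t, FC_d_mul_t, wedge_smul_right,
      hamS_mul, wedge_add_left, wedge_smul_left, wedge_smul_left, L.hamS_t, wedge_smul_left,
      wedge_comm (hamS (L.l j : Ser k)) L.h, FC_wedge_h L j (hamS (w0 : Ser k)), ← hLam, ← hρ,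
      hmu] at h1
    rw [hamS_sub, wedge_sub_left]
    simp only [Algebra.smul_def] at h1 ⊢
    linear_combination (L.l j : Ser k) * h1 -
      (L.t j * (algebraMap k (Ser k) (L.lam g) *
        (wedge (hamS As) (hamS (L.l j : Ser k)) - wedge (hamS (w0 : Ser k)) (hamS (L.l j : Ser k))) +
          (As - w0) * Lam) - ρ) * hlt
  set r2 : Pol k := ∑ i ∈ A, C (κ i) * ∏ m ∈ A.erase i, L.l m - w0 * ∏ i ∈ A, L.l i with hr2
  have hU2 : (r2 : Ser k) * ∏ i ∈ L.fib g, L.t i = (As - w0) * L.t j := by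
    rw [hfib, ← mul_assoc, hr2, coeS_sub, sub_mul, MvPolynomial.coe_mul, mul_assoc (w0 : Ser k),
      FC_prod_lt, mul_one, coeS_sum, Finset.sum_mul]
    congr 2
    refine Finset.sum_congr rfl fun i hi => ?_
    rw [← smul_eq_C_mul, coeS_smul, smul_mul_assoc, FC_erase_t L A hi]
  obtain ⟨σw, hσw⟩ := hd5 w hw
  have hFρ : F * ρ = ((L.l j * ∑ m ∈ Finset.univ.erase j,
      L.mu m • ((∏ n ∈ (Finset.univ.erase m).erase j, L.l n) * wedge (ham w0) (ham (L.l m))) :
        Pol k) : Ser k) := by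
    rw [hρ, Finset.mul_sum, Finset.mul_sum, coeS_sum]
    refine Finset.sum_congr rfl fun m hm => ?_
    rw [mul_smul_comm, mul_smul_comm, coeS_smul, ← mul_assoc, ← mul_assoc, hF,
      FC_prod_t L _ (Finset.mem_univ m), Finset.mul_prod_erase _ _ (Finset.mem_erase.mpr
        ⟨(Finset.ne_of_mem_erase hm).symm, Finset.mem_univ j⟩), MvPolynomial.coe_mul, coe_wedge,
      coeP_ham, coeP_ham]
  refine hv3 A j κ w0 (Finset.notMem_erase j _) (hDIV k G I L hL j r2 ?_)
  refine ⟨(∑ m ∈ Finset.univ.erase j,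
      L.mu m • ((∏ n ∈ (Finset.univ.erase m).erase j, L.l n) * wedge (ham w0) (ham (L.l m)))) +
        σw, MvPolynomial.coe_injective _ _ ?_⟩
  rw [mul_add, MvPolynomial.coe_add, ← hFρ, MvPolynomial.coe_mul, ← hσw, coe_wedge, htv, hU2,
    coeP_ham, wedge_smul_left, wedge_add_left, wedge_smul_left', wedge_smul_left, FC_d_mul_t,
    ← hLam]
  simp only [Algebra.smul_def] at key ⊢
  linear_combination F * key

end CenLoc
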