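import Pool.Agent.P.MP_2862dc_ag.Basic

/-!
The smoothed family is normalised and specialises to the arrangement.
-/

namespace CenLoc

open MvPolynomial

section
variable {k G I : Type} [Field k] [Fintype G] [DecidableEq G] [Fintype I] [DecidableEq I]

omit [Fintype G] in
lemma FE_coeff (L : Lines k G I) (j : G → I) (g : G) (m : Fin 2 →₀ ℕ) :
    coeff m (L.fE j g) =
      Polynomial.C (coeff m (L.f g)) + Polynomial.X * Polynomial.C (coeff m (L.pert j g)) := by
  simp [Lines.fE, coeff_map]

omit [Fintype G] [DecidableEq G] [Fintype I] [DecidableEq I] in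
lemma FE_one_sub (L : Lines k G I) (i : I) :
    1 - L.l i ∈ mI k ^ 1 ∧ (1 - L.l i).totalDegree ≤ 1 := by
  constructor
  · rw [pow_one, mem_mI, coeff_sub, L.coeff_zero_l]
    simp
  · exact (totalDegree_sub _ _).trans (max_le (by simp) (L.totalDegree_l_le i))

omit [Fintype G] in
lemma FE_pert_mem (L : Lines k G I) (j : G → I) (g : G) : L.pert j g ∈ mI k ^ 2 :=
  Ideal.sum_mem _ fun i _ => Ideal.mul_mem_right _ _
    (mul_mem_mI_pow (FE_one_sub L i).1 (FE_one_sub L (j g)).1)

omit [Fintype G] in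
lemma FE_pert_deg (L : Lines k G I) (j : G → I) (hj : ∀ g, L.grp (j g) = g) (g : G) :
    (L.pert j g).totalDegree ≤ L.dd g := by
  refine totalDegree_finsetSum_le fun i hi => ?_
  have h1 : j g ∈ L.fib g := by simp [Lines.fib, hj]
  have h2 := Finset.card_erase_add_one h1
  have h3 := Finset.card_erase_add_one hi
  have h4 := totalDegree_prod_le (((L.fib g).erase (j g)).erase i) L.l (fun _ => 1)
    fun m _ => L.totalDegree_l_le m
  rw [Finset.sum_const, smul_eq_mul, mul_one] at h4
  have h5 := (totalDegree_mul (1 - L.l i) (1 - L.l (j g))).trans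
    (add_le_add (FE_one_sub L i).2 (FE_one_sub L (j g)).2)
  have h6 := (totalDegree_mul _ _).trans (add_le_add h5 h4)
  rw [Lines.dd]
  omega

end

theorem pf_FE (hLB : StLB) : StFE := by
  intro k G I _ _ _ _ _ _ L hL j hj
  obtain ⟨-, -, -, -, -, -, -, -, -, hN, -⟩ := hLB k G I L hL
  have hlow : ∀ g (m : Fin 2 →₀ ℕ), m.degree < 2 → coeff m (L.fE j g) =
      Polynomial.C (coeff m (L.f g)) := fun g m hm => by
    rw [FE_coeff, mem_mI_pow.1 (FE_pert_mem L j g) m hm, map_zero, mul_zero, add_zero]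
  refine ⟨⟨fun g => ?_, fun g => ?_, fun i => ?_⟩, fun g => ?_, fun g => ?_, fun g => ?_,
    fun g => ?_⟩
  · refine totalDegree_le_iff.2 fun m hm => ?_
    rw [FE_coeff, totalDegree_le_iff.1 (hN.deg g) m hm,
      totalDegree_le_iff.1 (FE_pert_deg L j hj g) m hm]
    simp
  · rw [hlow g 0 (by simp), hN.one, map_one]
  · have := congrArg (Polynomial.C : k →+* Polynomial k) (hN.crit i)
    rw [map_sum, map_zero] at this
    rw [← this]
    refine Finset.sum_congr rfl fun g _ => ?_
    rw [hlow g _ (by simp), map_mul, Lines.lamE]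
  · ext m
    rw [coeff_map, FE_coeff, Der.eps_c0]
    simp
  · ext m
    rw [Der.coeff_p1, FE_coeff, Der.eps_c1]
    simp [Polynomial.coeff_C]
  · simp [Der.eps_c0, Lines.lamE]
  · simp [Der.eps_c1, Lines.lamE, Polynomial.coeff_C]

end CenLoc
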