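import Pool.Agent.P.MP_2862dc_ag.Stmts

/-! The quotient `s / F` is a first integral near the center. -/

namespace CenLoc

open MvPolynomial Filter Topology

/-- The linear form with the given coefficients. -/
noncomputable def FI_lin (a b : ℂ) : Pt →L[ℂ] ℂ :=
  a • (ContinuousLinearMap.proj (R := ℂ) (φ := fun _ : Fin 2 => ℂ) 0 : Pt →L[ℂ] ℂ) +
    b • (ContinuousLinearMap.proj (R := ℂ) (φ := fun _ : Fin 2 => ℂ) 1 : Pt →L[ℂ] ℂ)

lemma FI_lin_apply (a b : ℂ) (v : Pt) : FI_lin a b v = a * v 0 + b * v 1 := by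
  simp [FI_lin]

lemma FI_hasFDerivAt (g : Pol ℂ) (z : Pt) :
    HasFDerivAt (fun x : Pt => eval x g)
      (FI_lin (eval z (pderiv 0 g)) (eval z (pderiv 1 g))) z := by
  induction g using MvPolynomial.induction_on with
  | C a =>
    simp only [eval_C]
    refine (hasFDerivAt_const a z).congr_fderiv ?_
    refine ContinuousLinearMap.ext fun v => ?_
    simp [FI_lin_apply]
  | add p q hp hq =>
    simp only [map_add]
    refine (hp.fun_add hq).congr_fderiv ?_
    refine ContinuousLinearMap.ext fun v => ?_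
    simp only [FI_lin_apply, add_apply]
    ring
  | mul_X p n hp =>
    have h2 : HasFDerivAt (fun x : Pt => x n)
        (ContinuousLinearMap.proj (R := ℂ) (φ := fun _ : Fin 2 => ℂ) n) z :=
      hasFDerivAt_apply n z
    have h3 := hp.fun_mul h2
    simp only [map_mul, eval_X]
    refine h3.congr_fderiv ?_
    refine ContinuousLinearMap.ext fun v => ?_
    fin_cases n <;>
      simp [FI_lin_apply, Derivation.leibniz, pderiv_X] <;> ring

lemma FI_dP_eval (g : Pol ℂ) (i : Fin 2) (z : Pt) :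
    dP (fun x : Pt => eval x g) i z = eval z (pderiv i g) := by
  unfold dP
  rw [(FI_hasFDerivAt g z).fderiv]
  fin_cases i <;> simp [FI_lin_apply]

lemma FI_dP_mul {a b : Pt → ℂ} {z : Pt} (ha : DifferentiableAt ℂ a z)
    (hb : DifferentiableAt ℂ b z) (i : Fin 2) :
    dP (fun x => a x * b x) i z = dP a i z * b z + a z * dP b i z := by
  unfold dP
  rw [fderiv_fun_mul ha hb]
  simp
  ring

lemma FI_dP_congr {a b : Pt → ℂ} {z : Pt} (h : a =ᶠ[𝓝 z] b) (i : Fin 2) :
    dP a i z = dP b i z := by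
  unfold dP
  rw [h.fderiv_eq]

lemma FI_dP_an {f : Pt → ℂ} {z : Pt} (hf : AnalyticAt ℂ f z) (i : Fin 2) :
    AnalyticAt ℂ (dP f i) z := by
  have h := (ContinuousLinearMap.apply ℂ ℂ (Pi.single i (1 : ℂ) : Pt)).analyticAt
    (fderiv ℂ f z)
  exact h.comp hf.fderiv

lemma FI_dP_dP {f : Pt → ℂ} {z : Pt} (hf : AnalyticAt ℂ f z) (i j : Fin 2) :
    dP (dP f i) j z = fderiv ℂ (fderiv ℂ f) z (Pi.single j 1) (Pi.single i 1) := by
  have hd : DifferentiableAt ℂ (fderiv ℂ f) z := hf.fderiv.differentiableAt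
  have : dP f i = fun x => (fderiv ℂ f x) (Pi.single i 1) := rfl
  rw [this]
  unfold dP
  rw [fderiv_clm_apply hd (differentiableAt_const _)]
  simp

lemma FI_symm {f : Pt → ℂ} {z : Pt} (hf : AnalyticAt ℂ f z) :
    dP (dP f 1) 0 z = dP (dP f 0) 1 z := by
  rw [FI_dP_dP hf, FI_dP_dP hf]
  have h : IsSymmSndFDerivAt ℂ f z :=
    (hf.contDiffAt (n := ⊤)).isSymmSndFDerivAt (by simp)
  exact h _ _

lemma FI_sqs_an {ψ : Pt → Pt} {p : Pt} (h : AnalyticAt ℂ ψ p) : AnalyticAt ℂ (sqs ψ) p := by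
  have h0 : ∀ i : Fin 2, AnalyticAt ℂ (fun z => ψ z i) p := fun i =>
    ((ContinuousLinearMap.proj (R := ℂ) (φ := fun _ : Fin 2 => ℂ) i).analyticAt (ψ p)).comp h
  exact ((h0 0).pow 2).add ((h0 1).pow 2)

theorem pf_FI : StFI := by
  intro u p c F _ hF hdiv
  have hf := (FI_sqs_an c.ψ_an).eventually_analyticAt
  have hs := c.s_an.eventually_analyticAt
  have hfac := c.fac.eventually_nhds
  have hFc : ContinuousAt (fun x : Pt => eval x F) p := (FI_hasFDerivAt F p).continuousAt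
  have hF' : ∀ᶠ z in 𝓝 p, eval z F ≠ 0 := hFc.eventually_ne hF
  filter_upwards [hf, hs, hfac, hF'] with z hf hs hfac hFz
  have hP : (fun x : Pt => eval x u.1) =ᶠ[𝓝 z] fun x => c.s x * dP (sqs c.ψ) 1 x :=
    hfac.mono fun x hx => hx.1
  have hQ : (fun x : Pt => eval x (-u.2)) =ᶠ[𝓝 z] fun x => c.s x * dP (sqs c.ψ) 0 x :=
    hfac.mono fun x hx => by simpa using hx.2
  have hP0 := hP.eq_of_nhds
  have hQ0 := hQ.eq_of_nhds
  have hPx := FI_dP_congr hP 0
  have hQy := FI_dP_congr hQ 1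
  rw [FI_dP_eval, FI_dP_mul hs.differentiableAt (FI_dP_an hf _).differentiableAt] at hPx hQy
  have hsym := FI_symm hf
  have hev := congrArg (eval z) hdiv
  simp only [dvg, wedge, ham, map_mul, map_add, map_sub, map_neg] at hev hQy hQ0 hP0
  have hFd : DifferentiableAt ℂ (fun x : Pt => eval x F) z := (FI_hasFDerivAt F z).differentiableAt
  have hq : DifferentiableAt ℂ (fun x : Pt => c.s x / eval x F) z :=
    by
      simp only [div_eq_mul_inv]
      exact hs.differentiableAt.fun_mul (hFd.fun_inv hFz)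
  have hFn : ∀ᶠ x in 𝓝 z, eval x F ≠ 0 := hFd.continuousAt.eventually_ne hFz
  have hmul : c.s =ᶠ[𝓝 z] fun x => (c.s x / eval x F) * eval x F :=
    hFn.mono fun x hx => by field_simp
  have hd : ∀ i : Fin 2, dP c.s i z = dP (fun x => c.s x / eval x F) i z * eval z F +
      c.s z / eval z F * eval z (pderiv i F) := fun i => by
    rw [FI_dP_congr hmul i, FI_dP_mul hq hFd, FI_dP_eval]
  have h0 := hd 0
  have h1 := hd 1
  have hs0 : c.s z = c.s z / eval z F * eval z F := by field_simp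
  set q := c.s z / eval z F
  apply mul_left_cancel₀ hFz
  linear_combination (-eval z u.1) * h0 - eval z u.2 * h1 + q * hev
    + (eval z (pderiv 0 u.1) + eval z (pderiv 1 u.2)) * hs0
    - c.s z * hPx + c.s z * hQy - c.s z * c.s z * hsym
    + dP c.s 0 z * hP0 - dP c.s 1 z * hQ0

end CenLoc
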