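import Pool.Agent.P.MP_2862dc_ag.Stmts

/-! Finiteness of the common zeros over the space of forms, away from the resultant of the top
degree parts. -/

namespace CenLoc

open MvPolynomial

noncomputable section

section
variable {R : Type} [CommRing R]

lemma FIN_coeff_zero {g : Pol R} {e : ℕ} (hg : g.totalDegree ≤ e) {s : Fin 2 →₀ ℕ}
    (hs : e < s.degree) : coeff s g = 0 :=
  coeff_eq_zero_of_totalDegree_lt (lt_of_le_of_lt hg hs)

lemma FIN_deg_le {g : Pol R} {e : ℕ} (h : ∀ s : Fin 2 →₀ ℕ, e < s.degree → coeff s g = 0) :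
    g.totalDegree ≤ e := by
  apply Finset.sup_le
  intro s hs
  by_contra hlt
  exact (mem_support_iff.mp hs) (h s (not_le.mp hlt))

lemma FIN_coeff_polyOf {e : ℕ} (c : Mon e → R) (s : Fin 2 →₀ ℕ) :
    coeff s (polyOf c) = if h : s.degree ≤ e then c ⟨s, h⟩ else 0 := by
  classical
  simp only [polyOf, coeff_sum, coeff_monomial]
  split_ifs with h
  · rw [Finset.sum_eq_single (⟨s, h⟩ : Mon e)]
    · simp
    · intro b _ hb
      rw [if_neg]
      intro hh
      exact hb (Subtype.ext hh)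
    · simp
  · refine Finset.sum_eq_zero fun b _ => ?_
    rw [if_neg]
    intro hh
    exact h (hh ▸ b.2)

lemma FIN_polyOf_deg {e : ℕ} (c : Mon e → R) : (polyOf c).totalDegree ≤ e :=
  FIN_deg_le fun s hs => by rw [FIN_coeff_polyOf, dif_neg (not_le.mpr hs)]

lemma FIN_polyOf_coeff {e : ℕ} {g : Pol R} (hg : g.totalDegree ≤ e) :
    polyOf (fun m : Mon e => coeff m.1 g) = g := by
  ext s
  rw [FIN_coeff_polyOf]
  split_ifs with h
  · rfl
  · exact (FIN_coeff_zero hg (not_le.mp h)).symm

lemma FIN_low {g : Pol R} {d : ℕ} (hg : g.totalDegree ≤ d) (hd : 1 ≤ d) :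
    (g - homogeneousComponent d g).totalDegree ≤ d - 1 := by
  refine FIN_deg_le fun s hs => ?_
  rw [coeff_sub, coeff_homogeneousComponent]
  split_ifs with h
  · exact sub_self _
  · rw [FIN_coeff_zero hg (by omega), sub_self]

lemma FIN_hc_mul {A B : Pol R} {a b : ℕ} (ha : A.totalDegree ≤ a) (hb : B.totalDegree ≤ b) :
    homogeneousComponent (a + b) (A * B) =
      homogeneousComponent a A * homogeneousComponent b B := by
  classical
  ext s
  rw [coeff_homogeneousComponent, coeff_mul, coeff_mul]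
  split_ifs with h
  · refine Finset.sum_congr rfl fun x hx => ?_
    have hx' : x.1.degree + x.2.degree = a + b := by
      rw [← h, ← Finset.HasAntidiagonal.mem_antidiagonal.mp hx, map_add]
    rw [coeff_homogeneousComponent, coeff_homogeneousComponent]
    rcases lt_trichotomy x.1.degree a with h1 | h1 | h1
    · rw [FIN_coeff_zero hb (s := x.2) (by omega)]; simp
    · rw [if_pos h1, if_pos (by omega)]
    · rw [FIN_coeff_zero ha h1]; simp
  · refine (Finset.sum_eq_zero fun x hx => ?_).symm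
    have hx' : x.1.degree + x.2.degree = s.degree := by
      rw [← Finset.HasAntidiagonal.mem_antidiagonal.mp hx, map_add]
    rw [coeff_homogeneousComponent, coeff_homogeneousComponent]
    by_cases h1 : x.1.degree = a
    · rw [if_neg (show ¬ x.2.degree = b by omega), mul_zero]
    · rw [if_neg h1, zero_mul]

lemma FIN_map_hc {R' : Type} [CommRing R'] (φ : R →+* R') (n : ℕ) (g : Pol R) :
    map φ (homogeneousComponent n g) = homogeneousComponent n (map φ g) := by
  ext s
  rw [coeff_map, coeff_homogeneousComponent, coeff_homogeneousComponent, coeff_map]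
  split_ifs <;> simp

lemma FIN_map_polyOf {R' : Type} [CommRing R'] (φ : R →+* R') {e : ℕ} (c : Mon e → R) :
    map φ (polyOf c) = polyOf fun m => φ (c m) := by
  simp [polyOf, map_monomial]

end

lemma FIN_form1 {d : ℕ} (ω : Fin 2 × Mon d → ℂ) :
    map (eval ω) (form (d := d) (X : Fin 2 × Mon d → MvPolynomial (Fin 2 × Mon d) ℂ)).1 =
      (form ω).1 := by
  simp [form, FIN_map_polyOf]

lemma FIN_form2 {d : ℕ} (ω : Fin 2 × Mon d → ℂ) :
    map (eval ω) (form (d := d) (X : Fin 2 × Mon d → MvPolynomial (Fin 2 × Mon d) ℂ)).2 =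
      (form ω).2 := by
  simp [form, FIN_map_polyOf]

/-- Reduction of a monomial modulo `P, Q`. -/
lemma FIN_red {R : Type} [CommRing R] {d : ℕ} (hd : 1 ≤ d) (P Q : Pol R) (Δ : R)
    (hP : P.totalDegree ≤ d) (hQ : Q.totalDegree ≤ d)
    (h : ∀ m : Fin 2 →₀ ℕ, m.degree = 2 * d - 1 →
      ∃ A B : Pol R, A.IsHomogeneous (d - 1) ∧ B.IsHomogeneous (d - 1) ∧
        monomial m Δ = A * homogeneousComponent d P + B * homogeneousComponent d Q)
    (m : Fin 2 →₀ ℕ) (hm : m.degree ≤ 2 * d - 1) :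
    ∃ g A B : Pol R, g.totalDegree ≤ 2 * d - 2 ∧ monomial m Δ = g + A * P + B * Q := by
  rcases eq_or_lt_of_le hm with h1 | h1
  · obtain ⟨A, B, hA, hB, hE⟩ := h m h1
    refine ⟨-(A * (P - homogeneousComponent d P) + B * (Q - homogeneousComponent d Q)), A, B,
      ?_, by rw [hE]; ring⟩
    rw [totalDegree_neg]
    refine (totalDegree_add _ _).trans (max_le ?_ ?_)
    · have := add_le_add hA.totalDegree_le (FIN_low hP hd)
      exact (totalDegree_mul _ _).trans (this.trans (by omega))
    · have := add_le_add hB.totalDegree_le (FIN_low hQ hd)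
      exact (totalDegree_mul _ _).trans (this.trans (by omega))
  · refine ⟨monomial m Δ, 0, 0, ?_, by simp⟩
    refine (totalDegree_monomial_le m Δ).trans ?_
    have : (m.sum fun _ => id) = m.degree := rfl
    omega

/-- Integrality of the coordinates of the common zeros. -/
lemma FIN_int {R : Type} [CommRing R] {d : ℕ} (hd : 1 ≤ d) (P Q : Pol R) (Δ : R)
    (hP : P.totalDegree ≤ d) (hQ : Q.totalDegree ≤ d)
    (h : ∀ m : Fin 2 →₀ ℕ, m.degree = 2 * d - 1 →
      ∃ A B : Pol R, A.IsHomogeneous (d - 1) ∧ B.IsHomogeneous (d - 1) ∧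
        monomial m Δ = A * homogeneousComponent d P + B * homogeneousComponent d Q)
    (i : Fin 2) :
    ∃ μ : Polynomial R, μ.Monic ∧ ∀ (φ : R →+* ℂ) (p : Pt), eval p (map φ P) = 0 →
      eval p (map φ Q) = 0 → μ.eval₂ φ (φ Δ * p i) = 0 := by
  classical
  have hred : ∀ m : Mon (2 * d - 2), ∃ g A B : Pol R, g.totalDegree ≤ 2 * d - 2 ∧
      monomial (m.1 + Finsupp.single i 1) Δ = g + A * P + B * Q := by
    intro m
    refine FIN_red hd P Q Δ hP hQ h _ ?_
    have := m.2
    rw [map_add, Finsupp.degree_single]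
    omega
  choose g A B hg hE using hred
  let T : Matrix (Mon (2 * d - 2)) (Mon (2 * d - 2)) R := Matrix.of fun m m' => coeff m'.1 (g m)
  refine ⟨T.charpoly, T.charpoly_monic, fun φ p h1 h2 => ?_⟩
  rw [Polynomial.eval₂_eq_eval_map, ← Matrix.charpoly_map, Matrix.eval_charpoly,
    ← Matrix.exists_mulVec_eq_zero_iff]
  refine ⟨fun m => m.1.prod fun n e => p n ^ e, ?_, ?_⟩
  · intro h0
    have := congrFun h0 ⟨0, by simp⟩
    simp at this
  · funext m
    have h3 := congrArg (fun x => eval p (map φ x)) (hE m)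
    simp only [map_add, map_mul, h1, h2, mul_zero, add_zero, map_monomial, eval_monomial] at h3
    rw [← FIN_polyOf_coeff (hg m), FIN_map_polyOf] at h3
    simp only [polyOf, map_sum, eval_monomial] at h3
    rw [Finsupp.prod_add_index' (by simp) (fun a b c => pow_add _ _ _),
      Finsupp.prod_single_index (by simp), pow_one] at h3
    rw [Matrix.sub_mulVec]
    simp only [Matrix.scalar_apply, Pi.sub_apply, Matrix.mulVec_diagonal, Pi.zero_apply]
    simp only [Matrix.mulVec, dotProduct, Matrix.map_apply, T, Matrix.of_apply]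
    rw [← h3]
    ring

lemma FIN_top_dvd {E P : Pol ℂ} {d : ℕ} (hE : E ≠ 0) (hP : P.totalDegree ≤ d) (h : E ∣ P) :
    homogeneousComponent E.totalDegree E ∣ homogeneousComponent d P := by
  obtain ⟨P', rfl⟩ := h
  by_cases h0 : P' = 0
  · simp [h0]
  rcases eq_or_lt_of_le hP with h1 | h1
  · rw [← h1, totalDegree_mul_of_isDomain hE h0, FIN_hc_mul le_rfl le_rfl]
    exact dvd_mul_right _ _
  · rw [homogeneousComponent_eq_zero _ _ h1]
    exact dvd_zero _

lemma FIN_top_ne {E : Pol ℂ} (hE : E ≠ 0) : homogeneousComponent E.totalDegree E ≠ 0 := by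
  obtain ⟨s, hs, hs'⟩ := Finset.exists_mem_eq_sup E.support (support_nonempty.mpr hE)
    (fun s : Fin 2 →₀ ℕ => s.sum fun _ e => e)
  intro h0
  have h1 := congrArg (coeff s) h0
  have h2 : s.degree = E.totalDegree := hs'.symm
  rw [coeff_homogeneousComponent, if_pos h2, coeff_zero] at h1
  exact (mem_support_iff.mp hs) h1

lemma FIN_XX (n : ℕ) : IsRelPrime ((X 0 : Pol ℂ) ^ n) ((X 1 : Pol ℂ) ^ n) := by
  have h : IsRelPrime (X 0 : Pol ℂ) (X 1 : Pol ℂ) := by
    rw [(X_prime (R := ℂ) (i := (0 : Fin 2))).irreducible.isRelPrime_iff_not_dvd, X_dvd_X]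
    simp
  exact h.pow

lemma FIN_cop {d : ℕ} (P Q : Pol ℂ) (δ : ℂ) (hδ : δ ≠ 0)
    (hP : P.totalDegree ≤ d) (hQ : Q.totalDegree ≤ d) (n : ℕ)
    (h : ∀ j : Fin 2, ∃ A B : Pol ℂ, monomial (Finsupp.single j n) δ =
      A * homogeneousComponent d P + B * homogeneousComponent d Q) :
    IsRelPrime P Q ∧ max P.totalDegree Q.totalDegree = d := by
  have hne : ¬ (homogeneousComponent d P = 0 ∧ homogeneousComponent d Q = 0) := by
    rintro ⟨h1, h2⟩
    obtain ⟨A, B, hE⟩ := h 0
    rw [h1, h2, mul_zero, mul_zero, add_zero, monomial_eq_zero] at hE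
    exact hδ hE
  constructor
  · intro E h1 h2
    have hE : E ≠ 0 := by
      rintro rfl
      rw [zero_dvd_iff] at h1 h2
      exact hne ⟨by simp [h1], by simp [h2]⟩
    have hT : ∀ j : Fin 2, homogeneousComponent E.totalDegree E ∣ (X j : Pol ℂ) ^ n := by
      intro j
      obtain ⟨A, B, hm⟩ := h j
      have h3 : homogeneousComponent E.totalDegree E ∣ monomial (Finsupp.single j n) δ := by
        rw [hm]
        exact dvd_add ((FIN_top_dvd hE hP h1).mul_left _) ((FIN_top_dvd hE hQ h2).mul_left _)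
      have h4 : (X j : Pol ℂ) ^ n = C δ⁻¹ * monomial (Finsupp.single j n) δ := by
        rw [C_mul_monomial, inv_mul_cancel₀ hδ, X_pow_eq_monomial]
      rw [h4]
      exact h3.mul_left _
    have hu := FIN_XX n (hT 0) (hT 1)
    have h5 := (isUnit_iff_totalDegree_of_isReduced.mp hu).2
    rw [(homogeneousComponent_isHomogeneous _ _).totalDegree (FIN_top_ne hE)] at h5
    rw [h5, homogeneousComponent_zero, ← totalDegree_eq_zero_iff_eq_C.mp h5] at hu
    exact hu
  · refine le_antisymm (max_le hP hQ) ?_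
    by_contra hlt
    rw [not_le, max_lt_iff] at hlt
    exact hne ⟨homogeneousComponent_eq_zero _ _ hlt.1, homogeneousComponent_eq_zero _ _ hlt.2⟩

theorem pf_FIN (hSYL : StSYL) : StFIN := by
  intro d hd
  obtain ⟨Δ, h1, h2⟩ := hSYL d hd
  refine ⟨Δ, fun i => ?_, fun ω hω => ?_, h2⟩
  · obtain ⟨μ, hμ, h3⟩ := FIN_int hd _ _ Δ (FIN_polyOf_deg _) (FIN_polyOf_deg _) h1 i
    refine ⟨μ, hμ, fun ω p hp hq => h3 (eval ω) p ?_ ?_⟩
    · rw [← FIN_form1] at hp; exact hp
    · rw [← FIN_form2] at hq; exact hq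
  · refine FIN_cop _ _ (eval ω Δ) hω (FIN_polyOf_deg _) (FIN_polyOf_deg _) (2 * d - 1) fun j => ?_
    obtain ⟨A, B, -, -, hE⟩ := h1 (Finsupp.single j (2 * d - 1)) (Finsupp.degree_single _ _)
    refine ⟨map (eval ω) A, map (eval ω) B, ?_⟩
    have h4 := congrArg (map (eval ω)) hE
    rw [map_monomial, map_add, map_mul, map_mul, FIN_map_hc, FIN_map_hc, FIN_form1,
      FIN_form2] at h4
    exact h4

end

end CenLoc
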