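import Pool.Agent.P.MP_2862dc_ag.Basic

namespace CenLoc

open MvPolynomial

section FINT
variable {R : Type} [CommRing R]

lemma FINT_coeff_pderiv (i : Fin 2) (g : Pol R) :
    coeff 0 (pderiv i g) = coeff (Finsupp.single i 1) g := by
  rw [coeff_pderiv]; simp

lemma FINT_sq {H : Pol R} (h0 : H ∈ mI R) (h : ∀ i, pderiv i H ∈ mI R) : H ∈ mI R ^ 2 := by
  refine mem_mI_pow.mpr fun m hm => ?_
  have hd : m.degree = m 0 + m 1 := by
    rw [Finsupp.degree_eq_sum, Fin.sum_univ_two]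
  by_cases h1 : m 0 = 1
  · have : m = Finsupp.single 0 1 := by
      ext i; fin_cases i <;> simp <;> omega
    rw [this, ← FINT_coeff_pderiv]; exact mem_mI.mp (h 0)
  by_cases h2 : m 1 = 1
  · have : m = Finsupp.single 1 1 := by
      ext i; fin_cases i <;> simp <;> omega
    rw [this, ← FINT_coeff_pderiv]; exact mem_mI.mp (h 1)
  have : m = 0 := by
    ext i; fin_cases i <;> simp <;> omega
  rw [this]; exact mem_mI.mp h0

lemma FINT_sum {G : Type} [Fintype G] [DecidableEq G] {dd : G → ℕ} {f : G → Pol R} {lam : G → R}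
    (h : Nrm dd f lam) (i : Fin 2) :
    ∑ g, C (lam g) * (∏ j ∈ Finset.univ.erase g, f j) * pderiv i (f g) ∈ mI R ^ 1 := by
  rw [pow_one, mem_mI, coeff_sum, ← h.crit i]
  refine Finset.sum_congr rfl fun g _ => ?_
  rw [← constantCoeff_eq, map_mul, map_mul, constantCoeff_C, constantCoeff_eq,
    coeff_zero_prod _ _ fun j _ => h.one j, mul_one, FINT_coeff_pderiv]

lemma FINT_wedge_left {N : ℕ} {u : Pol R × Pol R} (hu : OrdP N u) (v : Pol R × Pol R) :
    wedge u v ∈ mI R ^ N :=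
  Ideal.sub_mem _ (Ideal.mul_mem_right _ _ hu.1) (Ideal.mul_mem_right _ _ hu.2)

lemma FINT_wedge_right {N : ℕ} (u : Pol R × Pol R) {v : Pol R × Pol R} (hv : OrdP N v) :
    wedge u v ∈ mI R ^ N :=
  Ideal.sub_mem _ (Ideal.mul_mem_left _ _ hv.2) (Ideal.mul_mem_left _ _ hv.1)

end FINT

theorem pf_FINT (hLOG : StLOG) : StFINT := by
  intro R _ _ G _ _ dd f lam M h
  have hF : coeff 0 (∏ g, f g) = 1 := coeff_zero_prod _ _ fun g _ => h.one g
  have h1 : OrdP 1 (om f lam) := ⟨FINT_sum h 1, neg_mem (FINT_sum h 0)⟩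
  refine ⟨h1, ?_, ?_⟩
  · rw [← mem_mI, ← pow_one (mI R)]
    refine mem_mI_pow_of_mul hF ?_
    rw [om_closed]
    exact FINT_wedge_right _ h1
  obtain ⟨H, hH, hO⟩ := hLOG R G f lam (M + 1) h.one
  have hM : OrdP M ((∏ g, f g) • ham H - om f lam) :=
    ⟨mI_pow_mono (Nat.le_succ M) hO.1, mI_pow_mono (Nat.le_succ M) hO.2⟩
  have e1 : ((∏ g, f g) • ham H - om f lam).1 = (∏ g, f g) * pderiv 1 H - (om f lam).1 := rfl
  have e2 : ((∏ g, f g) • ham H - om f lam).2 = (∏ g, f g) * -pderiv 0 H - (om f lam).2 := rfl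
  refine ⟨H, FINT_sq hH fun i => ?_, hM, ?_, fun h2 h3 => ⟨?_, ?_⟩⟩
  · rw [← pow_one (mI R)]
    refine mem_mI_pow_of_mul hF ?_
    fin_cases i
    · have := Ideal.add_mem _ (mI_pow_mono (Nat.le_add_left 1 M) hO.2) h1.2
      rw [e2, sub_add_cancel, mul_neg] at this
      exact neg_mem_iff.mp this
    · have := Ideal.add_mem _ (mI_pow_mono (Nat.le_add_left 1 M) hO.1) h1.1
      rw [e1, sub_add_cancel] at this
      exact this
  · refine mem_mI_pow_of_mul hF ?_
    have := FINT_wedge_left hM (om f lam)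
    rwa [wedge_sub_left, wedge_self, sub_zero, wedge_smul_left, ← act_eq_wedge] at this
  · have := Ideal.sub_mem _ (Ideal.mul_mem_left _ (∏ g, f g) (pderiv_mem_mI_pow h3 1))
      (mI_pow_mono h2 hM.1)
    rwa [e1, sub_sub_cancel] at this
  · have := Ideal.sub_mem _ (Ideal.mul_mem_left _ (∏ g, f g) (neg_mem (pderiv_mem_mI_pow h3 0)))
      (mI_pow_mono h2 hM.2)
    rwa [e2, sub_sub_cancel] at this

end CenLoc
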