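import Pool.Agent.P.MP_2862dc_ag.Stmts

namespace CenLoc

open MvPolynomial

/-- Vanishing below degree `N`. -/
def FORM_Van {k : Type} [Field k] (N : ℕ) (a : Ser k) : Prop :=
  ∀ m : Fin 2 →₀ ℕ, m.degree < N → MvPowerSeries.coeff m a = 0

lemma FORM_add {k : Type} [Field k] {N : ℕ} {a b : Ser k} (ha : FORM_Van N a)
    (hb : FORM_Van N b) : FORM_Van N (a + b) := fun m hm => by
  rw [map_add, ha m hm, hb m hm, add_zero]

lemma FORM_mul {k : Type} [Field k] {N : ℕ} (a : Ser k) {b : Ser k} (hb : FORM_Van N b) :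
    FORM_Van N (a * b) := fun m hm => by
  classical
  rw [MvPowerSeries.coeff_mul]
  refine Finset.sum_eq_zero fun p hp => ?_
  have h1 : p.1 + p.2 = m := Finset.HasAntidiagonal.mem_antidiagonal.1 hp
  have h2 : p.1.degree + p.2.degree = m.degree := by rw [← h1, map_add]
  rw [hb p.2 (by omega), mul_zero]

lemma FORM_der {k : Type} [Field k] {N : ℕ} {a : Ser k} (ha : FORM_Van (N + 1) a) (i : Fin 2) :
    FORM_Van N (MvPowerSeries.pderiv k i a) := fun m hm => by
  rw [MvPowerSeries.coeff_pderiv, ha _ (by rw [map_add, Finsupp.degree_single]; omega), zero_mul]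

lemma FORM_act {k : Type} [Field k] {N : ℕ} (u : Ser k × Ser k) {a : Ser k}
    (ha : FORM_Van (N + 1) a) : FORM_Van N (actS u a) :=
  FORM_add (FORM_mul _ (FORM_der ha 0)) (FORM_mul _ (FORM_der ha 1))

lemma FORM_coe_act {k : Type} [Field k] (u : Pol k × Pol k) (a : Pol k) :
    actS (coeP u) (a : Ser k) = ((act u a : Pol k) : Ser k) := by
  simp [actS, act, coeP, MvPowerSeries.pderiv_coe]

lemma FORM_act_add {k : Type} [Field k] (u : Ser k × Ser k) (a b : Ser k) :
    actS u (a + b) = actS u a + actS u b := by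
  simp only [actS, map_add]
  ring

lemma FORM_act_smul {k : Type} [Field k] (u : Ser k × Ser k) (r : k) (a : Ser k) :
    actS u (r • a) = r • actS u a := by
  simp only [actS, Derivation.map_smul, smul_add, mul_smul_comm]

lemma FORM_close {k : Type} [Field k] {N : ℕ} {g h : Pol k} (H : g - h ∈ mI k ^ N)
    (m : Fin 2 →₀ ℕ) (hm : m.degree < N) :
    MvPowerSeries.coeff m (h : Ser k) = MvPowerSeries.coeff m (g : Ser k) := by
  have h1 := (mem_pow_idealOfVars_iff' N _).1 H m hm
  rw [coeff_sub, sub_eq_zero] at h1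
  rw [MvPolynomial.coeff_coe, MvPolynomial.coeff_coe, h1]

/-- The linear system. -/
noncomputable def FORM_T {k : Type} [Field k] (u0 u1 : Ser k × Ser k) (F0 F1 : Ser k) :
    (Bool → Ser k) →ₗ[k] (Bool → Ser k) where
  toFun a j := match j with
    | false => F0 * actS u0 (a false)
    | true => F1 * actS u0 (a false) + F0 * actS u1 (a false) + F0 * actS u0 (a true)
  map_add' a b := by
    funext j
    cases j <;> simp only [Pi.add_apply, FORM_act_add] <;> ring
  map_smul' r a := by
    funext j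
    cases j <;>
      simp only [Pi.smul_apply, FORM_act_smul, RingHom.id_apply, smul_add, mul_smul_comm]

lemma FORM_two (hLC : StLC) (k : Type) [Field k] (ω0 ω1 : Pol k × Pol k) (F0 F1 g0 g1 : Pol k)
    (H : ∀ N, ∃ a0 a1 : Pol k, g0 - F0 * act ω0 a0 ∈ mI k ^ N ∧
      g1 - (F1 * act ω0 a0 + F0 * act ω1 a0 + F0 * act ω0 a1) ∈ mI k ^ N) :
    ∃ a0 a1 : Ser k, (g0 : Ser k) = (F0 : Ser k) * actS (coeP ω0) a0 ∧
      (g1 : Ser k) = (F1 : Ser k) * actS (coeP ω0) a0 + (F0 : Ser k) * actS (coeP ω1) a0 +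
        (F0 : Ser k) * actS (coeP ω0) a1 := by
  obtain ⟨a, ha⟩ := hLC k Bool Bool (FORM_T (coeP ω0) (coeP ω1) F0 F1)
    (fun j => match j with
      | false => (g0 : Ser k)
      | true => (g1 : Ser k))
    (fun N => ⟨N + 1, fun a ha j => by
      have h0 : FORM_Van (N + 1) (a false) := ha false
      have h1 : FORM_Van (N + 1) (a true) := ha true
      cases j
      · exact FORM_mul _ (FORM_act _ h0)
      · exact FORM_add (FORM_add (FORM_mul _ (FORM_act _ h0)) (FORM_mul _ (FORM_act _ h0)))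
          (FORM_mul _ (FORM_act _ h1))⟩)
    (fun N => by
      obtain ⟨a0, a1, h0, h1⟩ := H N
      refine ⟨fun j => match j with
        | false => (a0 : Ser k)
        | true => (a1 : Ser k), fun j m hm => ?_⟩
      cases j
      · have h2 := FORM_close h0 m hm
        rw [coe_mul, ← FORM_coe_act] at h2
        exact h2
      · have h2 := FORM_close h1 m hm
        rw [coe_add, coe_add, coe_mul, coe_mul, coe_mul, ← FORM_coe_act, ← FORM_coe_act,
          ← FORM_coe_act] at h2
        exact h2)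
  exact ⟨a false, a true, (congrFun ha false).symm, (congrFun ha true).symm⟩

theorem pf_FORM (hLC : StLC) : StFORM := by
  intro k _ ω0 ω1 F0 F1 g0 g1
  refine ⟨fun H => ?_, FORM_two hLC k ω0 ω1 F0 F1 g0 g1⟩
  obtain ⟨a0, _, h, _⟩ := FORM_two hLC k ω0 0 F0 0 g0 0 fun N => by
    obtain ⟨a, ha⟩ := H N
    exact ⟨a, 0, ha, by simp [act]⟩
  exact ⟨a0, h⟩

end CenLoc
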