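import Pool.Agent.P.MP_2862dc_ag.Basic

/-! First order rigidity in power series, from the reduction lemmas. -/

namespace CenLoc

open MvPolynomial

theorem pf_FT (hPF : StPF) (hDEC : StDEC) (hRED : StRED) (hFB : StFB) (hFC : StFC) : StFT := by
  intro k G I _ _ _ _ _ _ L hG hI j hj c u1 hdeg hN i
  obtain ⟨⟨u, hu1, hu2, hdv⟩, hFB2⟩ := hFB k G I L hG j hj c
  choose χ' hχ' w hw hrel using fun g => hFB2 g (fun i => c i - c (j g))
  obtain ⟨hD1, hD2, -⟩ := hDEC k G I L hG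
  have h3 := hG.three
  have hA1 : ((∏ i, L.t i) • coeP u1 + u).1 ∈ L.A1 := by
    have h := hPF k G I L hG u1.1 (by have := hdeg.1; omega)
    have e : ((∏ i, L.t i) • coeP u1 + u).1 = (u1.1 : Ser k) * ∏ i, L.t i + u.1 := by
      simp [coeP, mul_comm]
    rw [e]
    exact L.A1.add_mem h hu1
  have hA2 : ((∏ i, L.t i) • coeP u1 + u).2 ∈ L.A1 := by
    have h := hPF k G I L hG u1.2 (by have := hdeg.2; omega)
    have e : ((∏ i, L.t i) • coeP u1 + u).2 = (u1.2 : Ser k) * ∏ i, L.t i + u.2 := by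
      simp [coeP, mul_comm]
    rw [e]
    exact L.A1.add_mem h hu2
  obtain ⟨χ0, hχ0, hU⟩ := hD1 _ hA1 hA2
  have hmu : ∀ g, L.mu (j g) = L.lam g := fun g => by simp [Lines.mu, hj]
  have h1 : ∀ g, L.lam g • dvgS (∑ m ∈ L.fib g, χ0 m) + wedge L.h (∑ m ∈ L.fib g, χ0 m) ∈ L.E := by
    intro g
    rw [dvgS_sum, wedge_sum_right, Finset.smul_sum, ← Finset.sum_add_distrib]
    refine L.E.sum_mem fun m hm => ?_
    have hm' : L.mu m = L.lam g := by
      have : L.grp m = g := by simpa [Lines.fib] using hm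
      simp [Lines.mu, this]
    rw [← hm']
    exact hD2 m _ (hχ0 m)
  have h2 : ∀ g, L.lam g • dvgS (χ' g) + wedge L.h (χ' g) ∈ L.E := by
    intro g
    rw [← hmu g]
    exact hD2 (j g) _ (Submodule.mem_sup_left (hχ' g))
  have hsum : ∑ g, ∑ m ∈ L.fib g, χ0 m = (∏ i, L.t i) • coeP u1 + u := by
    rw [hU]
    exact Finset.sum_fiberwise Finset.univ L.grp χ0
  have hN' : Null L.h (Polynomial.C (dvgS (∑ g, ∑ m ∈ L.fib g, χ0 m +
      ∑ g, ((∑ i ∈ (L.fib g).erase (j g), (c i - c (j g)) • L.t i) * L.t (j g) ^ 2) •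
        hamS (L.l (j g) : Ser k)))) := by
    rw [hsum, add_assoc, dvgS_add, ← hdv, ← dvgS_add, ← sub_eq_add_neg]
    exact hN
  obtain ⟨c', hc'⟩ := (hRED k G I L hG hI).2 _ _ χ' w h1 h2 hw hrel hN' (L.grp i)
  by_cases hi : i = j (L.grp i)
  · exact congrArg c hi
  · have hrel' := hrel (L.grp i)
    have key := hFC k G I L hG (j (L.grp i)) (fun m => c m - c (j (L.grp i))) c' (χ' (L.grp i))
      (w (L.grp i)) (hχ' _) (hw _) (by rw [hmu, hj]; exact hrel') (by rw [hmu]; exact hc') i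
      (by simp [Lines.fib, hj, hi])
    exact sub_eq_zero.mp key

end CenLoc
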