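import Pool.Agent.P.MP_2862dc_ag.Basic

/-! Generic sharpness of the formal condition. -/

namespace CenLoc

open MvPolynomial Filter Topology

lemma GEN_jet_add {R : Type} [CommRing R] (N : ℕ) (a b : Pol R) :
    jet N (a + b) = jet N a + jet N b := by
  funext m; simp [jet]

lemma GEN_jet_sub {R : Type} [CommRing R] (N : ℕ) (a b : Pol R) :
    jet N (a - b) = jet N a - jet N b := by
  funext m; simp [jet]

lemma GEN_polyOf_single {R : Type} [CommRing R] {N : ℕ} (a : Mon N) :
    polyOf (Pi.single a (1 : R) : Mon N → R) = monomial a.1 1 := by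
  classical
  ext m
  rw [coeff_polyOf, coeff_monomial]
  split_ifs with h1 h2 h2
  · have : (⟨m, h1⟩ : Mon N) = a := Subtype.ext h2.symm
    rw [this]; simp
  · rw [Pi.single_eq_of_ne]
    intro h; exact h2 (by rw [← h])
  · exact absurd (h2 ▸ a.2) h1
  · rfl

lemma GEN_span {K : Type} [Field K] (N : ℕ) (u : Pol K × Pol K) :
    Submodule.span K (Set.range fun a : Mon N => jet N (act u (monomial a.1 1))) =
      LinearMap.range (Lmap N u) := by
  classical
  rw [← Submodule.map_top, ← (Pi.basisFun K (Mon N)).span_eq, Submodule.map_span,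
    ← Set.range_comp]
  congr 2
  funext a
  simp only [Function.comp, Pi.basisFun_apply]
  change _ = jet N (act u (polyOf _))
  rw [GEN_polyOf_single]

lemma GEN_act_sub {R : Type} [CommRing R] (u : Pol R × Pol R) (a b : Pol R) :
    act u (a - b) = act u a - act u b := by
  simp [act]; ring

lemma GEN_act_smul {R : Type} [CommRing R] (F : Pol R) (u : Pol R × Pol R) (a : Pol R) :
    act (F • u) a = F * act u a := by
  simp [act]; ring

/-- The linear map sending a form to the jet of its wedge with a fixed form. -/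
noncomputable def GEN_W {R : Type} [CommRing R] (d N : ℕ) (p : Fin 2 → R) (u : Pol R × Pol R) :
    (Fin 2 × Mon d → R) →ₗ[R] (Mon N → R) where
  toFun η := jet N (wedge (formAt d p η) u)
  map_add' a b := by rw [map_add, wedge_add_left, GEN_jet_add]
  map_smul' r a := by
    rw [map_smul, wedge_smul_left']
    funext m; simp [jet]

lemma GEN_comap {K G : Type} [Field K] [Fintype G] [DecidableEq G] (d N : ℕ) (f : G → Pol K)
    (lam : G → K) (p : Fin 2 → K) (h : OrdP 1 (om f lam)) :
    (LinearMap.range (Lmap N ((∏ g, f g) • om f lam))).comap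
      (Fintype.linearCombination K fun b : Fin 2 × Mon d =>
        jet N (wedge (trP p (form (Pi.single b 1))) (om f lam))) = TN d (N + 1) f lam p := by
  classical
  have e : (Fintype.linearCombination K fun b : Fin 2 × Mon d =>
      jet N (wedge (trP p (form (Pi.single b 1))) (om f lam))) = GEN_W d N p (om f lam) := by
    refine (Pi.basisFun K _).ext fun b => ?_
    rw [Pi.basisFun_apply, Fintype.linearCombination_apply_single, one_smul]
    rfl
  rw [e]
  ext η
  rw [Submodule.mem_comap, mem_TN, mem_InT, LinearMap.mem_range]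
  constructor
  · rintro ⟨c, hc⟩
    refine ⟨polyOf c, ?_⟩
    rw [← jet_eq_zero_iff, GEN_jet_sub, ← GEN_act_smul, sub_eq_zero]
    exact hc.symm
  · rintro ⟨a, ha⟩
    refine ⟨jet N a, ?_⟩
    have h2 := Ideal.add_mem _ ha (Ideal.mul_mem_left _ (∏ g, f g)
      (act_mem_mI_pow h (sub_polyOf_jet N a)))
    rw [GEN_act_sub, mul_sub, sub_add_sub_cancel, ← jet_eq_zero_iff, GEN_jet_sub,
      ← GEN_act_smul, sub_eq_zero] at h2
    exact h2.symm

lemma GEN_jac_zero {R : Type} [CommRing R] {u : Pol R × Pol R} (h : OrdP 2 u) : jac u = 0 := by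
  have h1 : ∀ i, pderiv i u.1 ∈ mI R := fun i => by
    simpa using pderiv_mem_mI_pow (N := 1) h.1 i
  rw [jac, ← mem_mI]
  exact Ideal.sub_mem _ (Ideal.mul_mem_right _ _ (h1 0)) (Ideal.mul_mem_right _ _ (h1 1))

lemma GEN_unit {R : Type} [CommRing R] {u : Pol R × Pol R} {F : Pol R} (hF : coeff 0 F = 1)
    (h : OrdP 1 u) : OrdP 1 (F • u) ∧ coeff 0 (dvg (F • u)) = coeff 0 (dvg u) ∧
      jac (F • u) = jac u := by
  have h1 : constantCoeff u.1 = 0 := mem_mI.mp (by simpa using h.1)
  have h2 : constantCoeff u.2 = 0 := mem_mI.mp (by simpa using h.2)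
  have hF' : constantCoeff F = 1 := hF
  refine ⟨⟨Ideal.mul_mem_left _ _ h.1, Ideal.mul_mem_left _ _ h.2⟩, ?_, ?_⟩
  · simp [dvg, ← constantCoeff_eq, h1, h2, hF']
  · simp [jac, jacP, ← constantCoeff_eq, h1, h2, hF']

/-- The rank of the operator on jets at a nondegenerate normalised point. -/
lemma GEN_rank (hRKLE : StRKLE) (hRKGE : StRKGE) (hFINT : StFINT) {K G : Type} [Field K]
    [CharZero K] [Fintype G] [DecidableEq G] {dd : G → ℕ} {f : G → Pol K} {lam : G → K}
    (hN : Nrm dd f lam) (hj : jac (om f lam) ≠ 0) (N : ℕ) :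
    OrdP 1 (om f lam) ∧
      Module.finrank K (LinearMap.range (Lmap N ((∏ g, f g) • om f lam))) =
        Fintype.card (Mon N) - (N / 2 + 1) := by
  obtain ⟨h1, h2, H, hH2, -, hH, hH3⟩ := hFINT K G dd f lam (N + 4) hN
  have hF : coeff 0 (∏ g, f g) = 1 := coeff_zero_prod _ _ fun g _ => hN.one g
  obtain ⟨k1, k2, k3⟩ := GEN_unit hF h1
  have hH3' : H ∉ mI K ^ 3 := fun h => hj (GEN_jac_zero (hH3 (by omega) h))
  have hact : act ((∏ g, f g) • om f lam) H ∈ mI K ^ (N + 4) := by
    rw [GEN_act_smul]; exact Ideal.mul_mem_left _ _ hH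
  have a1 := hRKLE K _ H N k1 hH2 hH3' (mI_pow_mono (by omega) hact)
  have a2 := hRKGE K _ H N k1 (k2.trans h2) (k3 ▸ hj) hH2 hH3' hact
  exact ⟨h1, by omega⟩

theorem pf_GEN (hSEMI : StSEMI) (hRKLE : StRKLE) (hRKGE : StRKGE) (hFINT : StFINT) : StGEN := by
  classical
  intro G _ _ dd g0 d h1 K _ _ τ0 N hp0 hj0 hT
  have : CharZero K := charZero_of_injective_algebraMap (algebraMap ℂ K).injective
  set U := MvPolynomial (Idx dd) ℂ with hU
  let omU : Pol U × Pol U := om (yf g0 X) (ylam g0 X)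
  let FU : Pol U := ∏ g, yf g0 X g
  let l : Mon N → Mon N → U := fun a => jet N (act (FU • omU) (monomial a.1 1))
  let α : Fin 2 × Mon d → Mon N → U := fun w =>
    jet N (wedge (trP (yp g0 X) (form (Pi.single w 1))) omU)
  have hom : ∀ (k : Type) [Field k] [Algebra ℂ k] (τ : Idx dd → k),
      mapP (aeval τ : U →ₐ[ℂ] k).toRingHom omU = om (yf g0 τ) (ylam g0 τ) := by
    intro k _ _ τ
    rw [mapP_om]
    congr 1
    · funext g; exact map_aeval_yf g0 τ g
    · funext g; exact aeval_ylam g0 τ g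
  have hl : ∀ (k : Type) [Field k] [Algebra ℂ k] (τ : Idx dd → k),
      (fun a => fun j => (aeval τ : U →ₐ[ℂ] k).toRingHom (l a j)) = fun a : Mon N =>
        jet N (act ((∏ g, yf g0 τ g) • om (yf g0 τ) (ylam g0 τ)) (monomial a.1 1)) := by
    intro k _ _ τ
    funext a j
    simp only [l, jet]
    rw [← coeff_map, map_act, mapP_smul, hom, map_monomial, map_one, map_prod]
    congr 3
    exact Finset.prod_congr rfl fun g _ => map_aeval_yf g0 τ g
  have hα : ∀ (k : Type) [Field k] [Algebra ℂ k] (τ : Idx dd → k),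
      (fun b => fun j => (aeval τ : U →ₐ[ℂ] k).toRingHom (α b j)) = fun b : Fin 2 × Mon d =>
        jet N (wedge (trP (yp g0 τ) (form (Pi.single b 1))) (om (yf g0 τ) (ylam g0 τ))) := by
    intro k _ _ τ
    funext b j
    simp only [α, jet]
    rw [← coeff_map, map_wedge, mapP_trP, hom, mapP_form]
    congr 4
    · funext i; exact aeval_yp g0 τ i
    · funext w
      by_cases hw : w = b
      · subst hw; simp
      · simp [Pi.single_eq_of_ne hw]
  have hjac : ∀ (k : Type) [Field k] [Algebra ℂ k] (τ : Idx dd → k),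
      (aeval τ : U →ₐ[ℂ] k).toRingHom (jac omU) = jac (om (yf g0 τ) (ylam g0 τ)) := by
    intro k _ _ τ
    rw [← jac_mapP, hom]
  obtain ⟨o0, r0⟩ := GEN_rank hRKLE hRKGE hFINT (nrm_y g0 h1 τ0) hj0 N
  obtain ⟨Ψ, hΨ, hgen⟩ := hSEMI U K (aeval τ0 : U →ₐ[ℂ] K).toRingHom (Mon N) (Fin 2 × Mon d)
    (Mon N) l α (Fintype.card (Mon N) - (N / 2 + 1)) (Fintype.card (Idx dd))
    (by rw [hl, GEN_span, r0])
    (by
      rw [hl, hα, GEN_span, GEN_comap d N _ _ _ o0, hp0]
      refine le_trans (Submodule.finrank_mono ?_) hT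
      exact Submodule.comap_mono (InT_anti (Nat.le_succ N) _ _))
  refine ⟨Ψ * jac omU, ?_, fun τ hτ => ?_⟩
  · refine mul_ne_zero (fun h => hΨ (by rw [h, map_zero])) fun h => hj0 ?_
    rw [← hjac, h, map_zero]
  · have he : ∀ x : U, eval τ x = (aeval τ : U →ₐ[ℂ] ℂ).toRingHom x := fun x => by
      simp
    rw [he, map_mul, mul_ne_zero_iff, hjac] at hτ
    obtain ⟨o, r⟩ := GEN_rank hRKLE hRKGE hFINT (nrm_y g0 h1 τ) hτ.2 N
    refine ⟨hτ.2, ?_⟩
    have := hgen _ hτ.1 (by rw [hl, GEN_span, r])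
    rwa [hl, hα, GEN_span, GEN_comap d N _ _ _ o] at this

end CenLoc
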