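import Pool.Agent.P.MP_2862dc_ag.Basic

/-! Gauss-Manin connection on logarithmic 2-forms. -/

namespace CenLoc

open MvPolynomial Filter Topology

section
variable {k G I : Type} [Field k]

lemma GM_zero (δ : Derivation ℤ k k) : serMap δ (0 : Ser k) = 0 := by
  funext m
  exact map_zero δ

lemma GM_sum (δ : Derivation ℤ k k)
    (hadd : ∀ a b : Ser k, serMap δ (a + b) = serMap δ a + serMap δ b)
    {ι : Type} (s : Finset ι) (a : ι → Ser k) :
    serMap δ (∑ i ∈ s, a i) = ∑ i ∈ s, serMap δ (a i) := by
  classical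
  induction s using Finset.induction_on with
  | empty => simpa using GM_zero δ
  | insert i s hi ih => rw [Finset.sum_insert hi, Finset.sum_insert hi, hadd, ih]

lemma GM_coe_l (L : Lines k G I) (i : I) : (L.l i : Ser k) =
    1 + MvPowerSeries.C (L.a i) * MvPowerSeries.X 0 +
      MvPowerSeries.C (L.b i) * MvPowerSeries.X 1 := by
  simp [Lines.l]

lemma GM_theta (L : Lines k G I) (s : I → k) (i j m : I) (h : i = j ∨ j = m ∨ i = m) :
    L.theta s i j m = 0 := by
  have : L.D i j m = 0 := by
    rcases h with rfl | rfl | rfl <;> simp [Lines.D, Lines.br]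
  rw [Lines.theta, this, div_zero]

end

theorem pf_GM (hNULL : StNULL) (hCONN : StCONN) (hLS : StLS) : StGM := by
  intro k G I _ _ _ _ _ _ L hL δ s hM
  obtain ⟨hadd, hmul, hC, hX, -, -⟩ := hCONN k δ
  obtain ⟨-, -, -, -, h5, -⟩ := hNULL k L.h
  obtain ⟨-, -, -, -, -, hD, -⟩ := hLS k G I L hL
  have hone : serMap δ (1 : Ser k) = 0 := by
    have := hC 1
    simpa using this
  have hmu : ∀ i, δ (L.mu i) = 0 := fun i => hM.dlam _
  have hbr : ∀ i j, δ (L.br i j) = (s i + s j) * L.br i j := by
    intro i j
    simp only [Lines.br, map_sub, Derivation.leibniz, hM.da, hM.db, smul_eq_mul]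
    ring
  have hl : ∀ i, serMap δ (L.l i : Ser k) = MvPowerSeries.C (s i) * ((L.l i : Ser k) - 1) := by
    intro i
    rw [GM_coe_l]
    simp only [hadd, hmul, hone, hC, hX, hM.da, hM.db, map_mul]
    ring
  have ht : ∀ i, serMap δ (L.t i) = -(MvPowerSeries.C (s i) * (L.t i - L.t i ^ 2)) := by
    intro i
    have h1 := hmul (L.l i : Ser k) (L.t i)
    rw [L.l_mul_t, hone, hl] at h1
    have h2 := L.l_mul_t i
    linear_combination (-L.t i) * h1 - (serMap δ (L.t i) + MvPowerSeries.C (s i) * L.t i) * h2
  have hneg : ∀ c : k, -(MvPowerSeries.C c : Ser k) = MvPowerSeries.C (-c) := fun c => by simp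
  refine ⟨?_, fun j m => ?_⟩
  · rw [hamS_neg, hamS_sum]
    simp only [hamS_smul, L.hamS_t]
    simp only [Lines.h, Lines.zeta, L.hamS_l, Prod.fst_sum, Prod.snd_sum,
      GM_sum δ hadd, Prod.smul_fst, Prod.smul_snd, smul_eq_mul, hneg,
      MvPowerSeries.smul_eq_C_mul, hmul, hC, hmu, ht, map_neg δ, hM.da, hM.db]
    ext1
    · simp only [Prod.fst_neg, Prod.fst_sum, Prod.smul_fst, smul_eq_mul,
        MvPowerSeries.smul_eq_C_mul, ← Finset.sum_neg_distrib]
      refine Finset.sum_congr rfl fun i _ => ?_
      simp only [map_mul, map_zero]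
      ring
    · simp only [Prod.snd_neg, Prod.snd_sum, Prod.smul_snd, smul_eq_mul,
        MvPowerSeries.smul_eq_C_mul, ← Finset.sum_neg_distrib]
      refine Finset.sum_congr rfl fun i _ => ?_
      simp only [map_mul, map_zero, map_neg]
      ring
  · have he : serMap δ (L.e j m) =
        (MvPowerSeries.C (s j) * L.t j + MvPowerSeries.C (s m) * L.t m) * L.e j m := by
      simp only [Lines.e, MvPowerSeries.smul_eq_C_mul, hmul, hC, ht, hbr, map_mul, map_add]
      ring
    have hdv : ∀ x y : I, dvgS ((L.t x * L.t y) • hamS (L.l y : Ser k)) =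
        -(L.t x ^ 2 * L.t y * MvPowerSeries.C (L.br x y)) := by
      intro x y
      rw [dvgS_smul, dvgS_hamS, hamS_mul, L.hamS_t, L.hamS_t, wedge_add_left]
      simp only [wedge_smul_left, L.wedge_hamS_l, L.br_self, map_zero]
      ring
    have hw : ∀ x y : I, wedge L.h ((L.t x * L.t y) • hamS (L.l y : Ser k)) =
        ∑ i, MvPowerSeries.C (L.mu i) * L.t i * (L.t x * L.t y) * MvPowerSeries.C (L.br i y) := by
      intro x y
      rw [Lines.h, Lines.zeta, wedge_sum_left]
      refine Finset.sum_congr rfl fun i _ => ?_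
      rw [wedge_smul_left, wedge_smul_right, L.wedge_hamS_l, MvPowerSeries.smul_eq_C_mul]
      ring
    have key : ∀ i, -((L.mu i * s i) • L.t i) * L.e j m -
        (L.mu i * L.theta s i j m) • (L.e i j + L.e j m + L.e m i) =
        (-s j) • (MvPowerSeries.C (L.mu i) * L.t i * (L.t j * L.t m) *
          MvPowerSeries.C (L.br i m)) +
        s m • (MvPowerSeries.C (L.mu i) * L.t i * (L.t m * L.t j) *
          MvPowerSeries.C (L.br i j)) := by
      intro i
      by_cases hij : i = j
      · rw [GM_theta L s i j m (Or.inl hij)]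
        subst hij
        simp only [Lines.e, MvPowerSeries.smul_eq_C_mul, L.br_self, map_mul, map_zero, map_neg]
        ring
      by_cases hjm : j = m
      · rw [GM_theta L s i j m (Or.inr (Or.inl hjm))]
        subst hjm
        simp only [Lines.e, MvPowerSeries.smul_eq_C_mul, L.br_self, map_mul, map_zero, map_neg]
        ring
      by_cases him : i = m
      · rw [GM_theta L s i j m (Or.inr (Or.inr him))]
        subst him
        simp only [Lines.e, MvPowerSeries.smul_eq_C_mul, L.br_self, map_mul, map_zero, map_neg,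
          L.br_comm i j]
        ring
      rw [← hD i j m hij hjm him, smul_smul, mul_assoc (L.mu i), Lines.theta,
        div_mul_cancel₀ _ (hL.D_ne i j m hij hjm him)]
      simp only [Lines.e, MvPowerSeries.smul_eq_C_mul, map_mul, map_neg, map_add,
        L.br_comm m i]
      ring
    have h := h5 ((-s j) • ((L.t j * L.t m) • hamS (L.l m : Ser k)) +
      s m • ((L.t m * L.t j) • hamS (L.l j : Ser k)))
    convert h using 1
    rw [add_sub_assoc, mul_assoc, ← mul_sub, ← Polynomial.C_mul, ← Polynomial.C_sub]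
    congr 2
    · rw [he, dvgS_add, dvgS_smul', dvgS_smul', hdv, hdv]
      simp only [Lines.e, MvPowerSeries.smul_eq_C_mul, map_neg, L.br_comm m j]
      ring
    · congr 1
      rw [wedge_add_right, wedge_smul_right' (-s j), wedge_smul_right' (s m), hw, hw,
        Finset.smul_sum,
        Finset.smul_sum, ← Finset.sum_add_distrib, ← Finset.sum_neg_distrib, Finset.sum_mul,
        ← Finset.sum_sub_distrib]
      exact Finset.sum_congr rfl fun i _ => key i

end CenLoc
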