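import Pool.Agent.P.MP_2862dc_ag.Stmts

/-!
Generic smoothness of the image of a generically immersive polynomial map.
-/

namespace CenLoc

open MvPolynomial

lemma GS_X {ι : Type} [Fintype ι] (y v : ι → ℂ) (n : ι) :
    ∑ i, eval y (pderiv i (X n : MvPolynomial ι ℂ)) * v i = v n := by
  classical
  rw [Finset.sum_eq_single n]
  · simp
  · intro b _ hb
    rw [pderiv_X_of_ne hb.symm]; simp
  · simp

lemma GS_mul {ι : Type} [Fintype ι] (y v : ι → ℂ) (p q : MvPolynomial ι ℂ) :
    ∑ i, eval y (pderiv i (p * q)) * v i =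
      eval y p * ∑ i, eval y (pderiv i q) * v i + eval y q * ∑ i, eval y (pderiv i p) * v i := by
  simp only [Derivation.leibniz, smul_eq_mul, map_add, map_mul, Finset.mul_sum,
    ← Finset.sum_add_distrib]
  exact Finset.sum_congr rfl fun u _ => by ring

lemma GS_ren {α ι : Type} [Fintype α] [Fintype ι] (r : α → ι) (y v : ι → ℂ)
    (Γ : MvPolynomial α ℂ) :
    ∑ i, eval y (pderiv i (rename r Γ)) * v i =
      ∑ o, eval (y ∘ r) (pderiv o Γ) * (v ∘ r) o := by
  induction Γ using MvPolynomial.induction_on with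
  | C a => simp
  | add p q hp hq =>
    simp only [map_add, add_mul, Finset.sum_add_distrib]
    rw [hp, hq]
  | mul_X p n hp =>
    rw [map_mul, rename_X, GS_mul, GS_mul, GS_X, GS_X, hp, eval_rename, eval_X, eval_X]
    rfl

lemma GS_eval_aeval {α κ : Type} (τ : κ → ℂ) (g : α → MvPolynomial κ ℂ) (Γ : MvPolynomial α ℂ) :
    eval τ (aeval g Γ) = eval (fun o => aeval τ (g o)) Γ := by
  have h := congrArg (fun φ : MvPolynomial α ℂ →ₐ[ℂ] ℂ => φ Γ) (comp_aeval (f := g) (aeval τ))
  simpa [aeval_eq_eval] using h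

theorem pf_GS (hJIND : StJIND) (hALG : StALG) (hCHAIN : StCHAIN) : StGS := by
  intro ι κ _ _ _ θ e hdet
  have hind := hJIND κ (fun u => θ (e u)) hdet
  choose Γ hΓ0 hΓ1 using (hALG κ _ hind).1
  refine ⟨Matrix.det (Matrix.of fun u u' => pderiv u (θ (e u'))) *
    ∏ w, aeval (fun o : Option κ => o.elim (θ w) fun u => θ (e u)) (pderiv none (Γ (θ w))),
    mul_ne_zero hdet (Finset.prod_ne_zero_iff.2 fun w _ => hΓ1 _), ?_⟩
  intro τ hτ
  rw [map_mul, map_prod] at hτ
  have hd := left_ne_zero_of_mul hτ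
  have hp := Finset.prod_ne_zero_iff.1 (right_ne_zero_of_mul hτ)
  set M : Matrix κ κ ℂ := Matrix.of fun u' u => aeval τ (pderiv u (θ (e u'))) with hM
  have hMd : M.det ≠ 0 := by
    rw [RingHom.map_det] at hd
    rw [← Matrix.det_transpose]
    convert hd using 2
    ext u u'
    simp [hM, aeval_eq_eval]
  have hMe : ∀ t u, dmap θ τ t (e u) = M.mulVec t u := fun t u => rfl
  have hunit : IsUnit M := (Matrix.isUnit_iff_isUnit_det M).2 (isUnit_iff_ne_zero.2 hMd)
  have hinj : Function.Injective M.mulVec := Matrix.mulVec_injective_iff_isUnit.2 hunit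
  have hsurj : Function.Surjective M.mulVec := Matrix.mulVec_surjective_iff_isUnit.2 hunit
  refine ⟨fun t t' htt => hinj (funext fun u => by rw [← hMe, ← hMe, htt]), fun v hv => ?_⟩
  obtain ⟨t, ht⟩ := hsurj (fun u => v (e u))
  refine ⟨t, ?_⟩
  have hlin : ∀ Φ : MvPolynomial ι ℂ, aeval θ Φ = 0 →
      ∑ i, eval (fun i => aeval τ (θ i)) (pderiv i Φ) * (v - dmap θ τ t) i = 0 := by
    intro Φ hΦ
    have h1 := hCHAIN ℂ ι κ θ τ t Φ
    rw [hΦ, map_zero] at h1
    have h2 : ∑ i, eval (fun i => aeval τ (θ i)) (pderiv i Φ) * dmap θ τ t i = 0 := by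
      rw [h1]
      simp only [Der.pt, AddMonoidHom.coe_mk, ZeroHom.coe_mk]
      rfl
    simp only [Pi.sub_apply, mul_sub, Finset.sum_sub_distrib]
    rw [hv Φ hΦ, h2, sub_zero]
  have hze : ∀ u, (v - dmap θ τ t) (e u) = 0 := by
    intro u
    rw [Pi.sub_apply, hMe, ht, sub_self]
  funext w
  have hcomp : (θ ∘ fun o : Option κ => o.elim w e) =
      fun o : Option κ => o.elim (θ w) fun u => θ (e u) := by
    funext o; cases o <;> rfl
  have h1 := hlin (rename (fun o : Option κ => o.elim w e) (Γ (θ w))) (by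
    rw [aeval_rename, hcomp]; exact hΓ0 _)
  rw [GS_ren, Fintype.sum_option] at h1
  have h2 : ∑ u : κ, eval ((fun i => aeval τ (θ i)) ∘ fun o : Option κ => o.elim w e)
      (pderiv (some u) (Γ (θ w))) *
      ((v - dmap θ τ t) ∘ fun o : Option κ => o.elim w e) (some u) = 0 :=
    Finset.sum_eq_zero fun u _ => by
      have : ((v - dmap θ τ t) ∘ fun o : Option κ => o.elim w e) (some u) = 0 := hze u
      rw [this, mul_zero]
  rw [h2, add_zero] at h1
  have h3 := hp w (Finset.mem_univ w)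
  rw [GS_eval_aeval] at h3
  have h4 : ((fun i => aeval τ (θ i)) ∘ fun o : Option κ => o.elim w e) =
      fun o : Option κ => aeval τ (o.elim (θ w) fun u => θ (e u)) := by
    funext o; cases o <;> rfl
  rw [h4] at h1
  have h5 : (v - dmap θ τ t) w = 0 := (mul_eq_zero.1 h1).resolve_left h3
  exact (sub_eq_zero.1 h5).symm

end CenLoc
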