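import Pool.Agent.P.MP_2862dc_ag.Basic

/-! Solutions of the cohomological equation attached to one group of lines. -/

namespace CenLoc

open MvPolynomial

lemma HG_prod_erase {I M : Type} [DecidableEq I] [CommMonoid M] (A : Finset I) (l : I → M)
    (i : A) : ∏ m ∈ (Finset.univ : Finset A).erase i, l m = ∏ m ∈ A.erase i, l m := by
  have : A.erase i = ((Finset.univ : Finset A).erase i).map (Function.Embedding.subtype _) := by
    rw [Finset.map_erase, Finset.univ_eq_attach, Finset.attach_map_val]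
    rfl
  rw [this, Finset.prod_map]
  rfl

section
variable {k G I : Type} [Field k] [Fintype G] [DecidableEq G] [Fintype I] [DecidableEq I]

omit [Fintype G] [DecidableEq G] [Fintype I] in
lemma HG_mul_t (L : Lines k G I) (A : Finset I) {i : I} (hi : i ∈ A) :
    ((∏ m ∈ A, L.l m : Pol k) : Ser k) * L.t i = ((∏ m ∈ A.erase i, L.l m : Pol k) : Ser k) := by
  rw [← Finset.mul_prod_erase A _ hi, MvPolynomial.coe_mul, mul_right_comm, L.l_mul_t, one_mul]

omit [Fintype G] [DecidableEq G] in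
lemma HG_ser (L : Lines k G I) (lam : k) (σ : Pol k × Pol k) (ν : Ser k × Ser k)
    (h1 : ((∏ i, L.l i : Pol k) : Ser k) • ν = coeP σ)
    (h2 : lam • dvgS ν + wedge L.h ν = 0) :
    lam • ((dvg σ : Pol k) : Ser k) +
      ∑ i, (L.mu i - lam) • (L.t i * ((wedge (ham (L.l i)) σ : Pol k) : Ser k)) = 0 := by
  have hF : hamS ((∏ i, L.l i : Pol k) : Ser k) =
      ((∏ i, L.l i : Pol k) : Ser k) • ∑ i, L.t i • hamS (L.l i : Ser k) := by
    rw [← coeP_ham, ham_prod, coeP_sum, Finset.smul_sum]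
    refine Finset.sum_congr rfl fun i _ => ?_
    rw [coeP_smul, coeP_ham, smul_smul, HG_mul_t L _ (Finset.mem_univ i)]
  have e1 : ((dvg σ : Pol k) : Ser k) = ((∏ i, L.l i : Pol k) : Ser k) * dvgS ν +
      ∑ i, L.t i * ((wedge (ham (L.l i)) σ : Pol k) : Ser k) := by
    rw [coe_dvg, ← h1, dvgS_smul, hF, wedge_smul_left, ← wedge_smul_right, h1, wedge_sum_left]
    congr 1
    refine Finset.sum_congr rfl fun i _ => ?_
    rw [wedge_smul_left, coe_wedge, coeP_ham]
  have e2 : ((∏ i, L.l i : Pol k) : Ser k) * wedge L.h ν =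
      ∑ i, L.mu i • (L.t i * ((wedge (ham (L.l i)) σ : Pol k) : Ser k)) := by
    rw [← wedge_smul_right, h1, Lines.h, Lines.zeta, wedge_sum_left]
    refine Finset.sum_congr rfl fun i _ => ?_
    rw [wedge_smul_left, coe_wedge, coeP_ham, smul_mul_assoc]
  have e3 := congrArg (fun x => ((∏ i, L.l i : Pol k) : Ser k) * x) h2
  simp only [mul_add, mul_zero, mul_smul_comm] at e3
  simp only [sub_smul, Finset.sum_sub_distrib, ← Finset.smul_sum]
  rw [← e2, e1, smul_add, ← e3]
  ring

omit [Fintype G] in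
lemma HG_pol (L : Lines k G I) (g : G) (σ : Pol k × Pol k) (ν : Ser k × Ser k)
    (h1 : ((∏ i, L.l i : Pol k) : Ser k) • ν = coeP σ)
    (h2 : L.lam g • dvgS ν + wedge L.h ν = 0) :
    C (L.lam g) * (∏ i ∈ (L.fib g)ᶜ, L.l i) * dvg σ +
      ∑ i ∈ (L.fib g)ᶜ, C (L.mu i - L.lam g) * (∏ m ∈ ((L.fib g)ᶜ).erase i, L.l m) *
        wedge (ham (L.l i)) σ = 0 := by
  have h := HG_ser L (L.lam g) σ ν h1 h2
  rw [← Finset.sum_subset (Finset.subset_univ (L.fib g)ᶜ) fun i _ hi => by
    have : L.grp i = g := by simpa [Lines.fib] using hi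
    simp [Lines.mu, this]] at h
  have h3 := congrArg (fun x => ((∏ i ∈ (L.fib g)ᶜ, L.l i : Pol k) : Ser k) * x) h
  simp only [mul_add, mul_zero, Finset.mul_sum] at h3
  apply MvPolynomial.coe_injective
  rw [MvPolynomial.coe_add, coeS_sum, MvPolynomial.coe_zero, ← h3]
  congr 1
  · rw [mul_assoc, ← smul_eq_C_mul, coeS_smul, MvPolynomial.coe_mul, mul_smul_comm]
  · refine Finset.sum_congr rfl fun i hi => ?_
    rw [mul_assoc, ← smul_eq_C_mul, coeS_smul, MvPolynomial.coe_mul, mul_smul_comm, ← mul_assoc,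
      HG_mul_t L _ hi]

lemma HG_sum_ne (L : Lines k G I) (hL : L.Gen) (h1 : ∀ g, 1 ≤ L.dd g) (g : G) (n : ℕ) :
    (n : k) * L.lam g + ∑ i ∈ (L.fib g)ᶜ, (L.mu i - L.lam g) ≠ 0 := by
  intro h
  have a : ∀ g', ∑ i ∈ L.fib g', L.mu i = (L.dd g' : k) * L.lam g' := fun g' => by
    rw [Finset.sum_congr rfl (g := fun _ => L.lam g') fun i hi => by
      have : L.grp i = g' := by simpa [Lines.fib] using hi
      simp [Lines.mu, this]]
    simp [Lines.dd]
  have b : ∑ i, L.mu i = ∑ g', (L.dd g' : k) * L.lam g' := by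
    rw [← Finset.sum_fiberwise Finset.univ L.grp]
    exact Finset.sum_congr rfl fun g' _ => a g'
  have c := Finset.sum_add_sum_compl (L.fib g) L.mu
  have key := hL.indep
    (fun g' => (L.dd g' : ℤ) + if g' = g then (n : ℤ) - ((L.fib g)ᶜ).card - L.dd g else 0) (by
      have e : ∀ g', ((((L.dd g' : ℤ) +
          if g' = g then (n : ℤ) - ((L.fib g)ᶜ).card - L.dd g else 0 : ℤ) : k)) * L.lam g' =
          (L.dd g' : k) * L.lam g' +
            if g' = g then ((n : k) - ((L.fib g)ᶜ).card - L.dd g) * L.lam g else 0 := fun g' => by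
        split_ifs with hg
        · subst hg; push_cast; ring
        · simp
      simp only [e, Finset.sum_add_distrib, Finset.sum_ite_eq', Finset.mem_univ, if_true]
      rw [Finset.sum_sub_distrib, Finset.sum_const, nsmul_eq_mul] at h
      rw [← b, ← c, a]
      linear_combination h)
  obtain ⟨x, y, hxy⟩ := hL.two
  obtain ⟨g', hg'⟩ : ∃ g', g' ≠ g := by
    by_cases hx : x = g
    · exact ⟨y, fun hy => hxy (hx.trans hy.symm)⟩
    · exact ⟨x, hx⟩
  have := key g'
  have h2 := h1 g'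
  simp only [if_neg hg'] at this
  omega

end

theorem pf_HG (hLB : StLB) (hHONE : StHONE) : StHG := by
  intro k G I _ _ _ _ _ _ L hL g σ ν hσ h1 h2
  obtain ⟨-, -, hlam, -, hdd, -, -, -, htv, -, -⟩ := hLB k G I L hL
  have h3 := hL.three
  have hp := HG_pol L g σ ν h1 h2
  have hmem : ∀ i : ((L.fib g)ᶜ : Finset I), L.grp i ≠ g := fun i => by
    simpa [Lines.fib] using i.2
  obtain ⟨r, hr, hσr⟩ := hHONE k ((L.fib g)ᶜ : Finset I) (fun i => L.a i) (fun i => L.b i)
    (fun i => L.mu i - L.lam g) (L.lam g) (fun i => L.l i) σ (Fintype.card I - 1)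
    (fun i => rfl)
    (fun i => by
      have : Nontrivial I := Fintype.one_lt_card_iff_nontrivial.mp (by omega)
      obtain ⟨j, hj⟩ := exists_ne (i : I)
      have := hL.br_ne i j hj.symm
      by_contra hc
      push Not at hc
      exact this (by simp [Lines.br, hc.1, hc.2]))
    (fun i j hij => hL.br_ne i j fun h => hij (Subtype.ext h))
    (fun i => sub_ne_zero.mpr (hlam _ _ (hmem i)))
    (fun n _ => by
      rw [Finset.sum_coe_sort (L.fib g)ᶜ fun i => L.mu i - L.lam g]
      exact HG_sum_ne L hL hdd g n)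
    hσ
    (by
      simp only [HG_prod_erase]
      rw [Finset.prod_coe_sort (L.fib g)ᶜ L.l, Finset.sum_coe_sort (L.fib g)ᶜ fun i =>
        C (L.mu i - L.lam g) * (∏ m ∈ ((L.fib g)ᶜ).erase i, L.l m) * wedge (ham (L.l i)) σ]
      exact hp)
  refine ⟨r, ?_, ?_⟩
  · rcases hr with rfl | hr
    · simp
    · have := Finset.card_add_card_compl (L.fib g)
      rw [Fintype.card_coe] at hr
      unfold Lines.dd
      omega
  · simp only [HG_prod_erase] at hσr
    rw [Finset.prod_coe_sort (L.fib g)ᶜ L.l, Finset.sum_coe_sort (L.fib g)ᶜ fun i =>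
      (C (L.mu i - L.lam g) * ∏ m ∈ ((L.fib g)ᶜ).erase i, L.l m) • ham (L.l i)] at hσr
    rw [hσr, htv, ham_mul, ham_prod, smul_eq_C_smul, smul_add, smul_smul, add_assoc,
      smul_comm (C (L.lam g) : Pol k) r, ← smul_add, Finset.smul_sum, ← Finset.sum_add_distrib]
    congr 2
    refine Finset.sum_congr rfl fun i _ => ?_
    rw [smul_smul, ← add_smul, map_sub]
    congr 1
    ring

end CenLoc
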