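import Pool.Agent.P.MP_2862dc_ag.Basic

/-! Vanishing of a twisted first cohomology of a generic line arrangement, polynomial form. -/

namespace CenLoc

open MvPolynomial

noncomputable section

section Top
variable {k : Type} [Field k]

/-- `A` has degree at most `a` and `A'` is its part of degree `a`. -/
def HONE_Top (a : ℕ) (A A' : Pol k) : Prop :=
  A.totalDegree ≤ a ∧ homogeneousComponent a A = A'

lemma HONE_hc_mul {A B : Pol k} {a b : ℕ} (ha : A.totalDegree ≤ a) (hb : B.totalDegree ≤ b) :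
    homogeneousComponent (a + b) (A * B) =
      homogeneousComponent a A * homogeneousComponent b B := by
  classical
  ext s
  rw [coeff_homogeneousComponent, coeff_mul, coeff_mul]
  split_ifs with h
  · refine Finset.sum_congr rfl fun x hx => ?_
    have hx' : x.1.degree + x.2.degree = a + b := by
      rw [← h, ← Finset.HasAntidiagonal.mem_antidiagonal.mp hx, map_add]
    rw [coeff_homogeneousComponent, coeff_homogeneousComponent]
    rcases lt_trichotomy x.1.degree a with h1 | h1 | h1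
    · rw [totalDegree_le_iff.mp hb x.2 (by omega)]; simp
    · rw [if_pos h1, if_pos (by omega)]
    · rw [totalDegree_le_iff.mp ha _ h1]; simp
  · refine (Finset.sum_eq_zero fun x hx => ?_).symm
    have hx' : x.1.degree + x.2.degree = s.degree := by
      rw [← Finset.HasAntidiagonal.mem_antidiagonal.mp hx, map_add]
    rw [coeff_homogeneousComponent, coeff_homogeneousComponent]
    by_cases h1 : x.1.degree = a
    · rw [if_neg (show ¬ x.2.degree = b by omega), mul_zero]
    · rw [if_neg h1, zero_mul]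

lemma HONE_hom {a : ℕ} {A : Pol k} (h : A.IsHomogeneous a) : HONE_Top a A A :=
  ⟨h.totalDegree_le, homogeneousComponent_eq_self h⟩

lemma HONE_C (c : k) : HONE_Top 0 (C c : Pol k) (C c) := HONE_hom (isHomogeneous_C _ c)

lemma HONE_X (j : Fin 2) : HONE_Top 1 (X j : Pol k) (X j) := HONE_hom (isHomogeneous_X k j)

lemma HONE_mul {a b : ℕ} {A A' B B' : Pol k} (h : HONE_Top a A A') (h' : HONE_Top b B B') :
    HONE_Top (a + b) (A * B) (A' * B') :=
  ⟨(totalDegree_mul _ _).trans (add_le_add h.1 h'.1), by rw [HONE_hc_mul h.1 h'.1, h.2, h'.2]⟩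

lemma HONE_add {a : ℕ} {A A' B B' : Pol k} (h : HONE_Top a A A') (h' : HONE_Top a B B') :
    HONE_Top a (A + B) (A' + B') :=
  ⟨(totalDegree_add _ _).trans (max_le h.1 h'.1), by rw [map_add, h.2, h'.2]⟩

lemma HONE_neg {a : ℕ} {A A' : Pol k} (h : HONE_Top a A A') : HONE_Top a (-A) (-A') :=
  ⟨by rw [totalDegree_neg]; exact h.1, by rw [map_neg, h.2]⟩

lemma HONE_sub {a : ℕ} {A A' B B' : Pol k} (h : HONE_Top a A A') (h' : HONE_Top a B B') :
    HONE_Top a (A - B) (A' - B') := by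
  rw [sub_eq_add_neg, sub_eq_add_neg]; exact HONE_add h (HONE_neg h')

lemma HONE_cast {a b : ℕ} {A A' : Pol k} (h : HONE_Top a A A') (e : a = b) : HONE_Top b A A' :=
  e ▸ h

lemma HONE_sum {ι : Type} {a : ℕ} (s : Finset ι) {A A' : ι → Pol k}
    (h : ∀ i ∈ s, HONE_Top a (A i) (A' i)) : HONE_Top a (∑ i ∈ s, A i) (∑ i ∈ s, A' i) := by
  classical
  induction s using Finset.induction_on with
  | empty => exact ⟨by simp, by simp⟩
  | insert i s hi ih =>
    rw [Finset.sum_insert hi, Finset.sum_insert hi]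
    exact HONE_add (h i (Finset.mem_insert_self _ _))
      (ih fun j hj => h j (Finset.mem_insert_of_mem hj))

lemma HONE_prod {ι : Type} (s : Finset ι) {A A' : ι → Pol k}
    (h : ∀ i ∈ s, HONE_Top 1 (A i) (A' i)) : HONE_Top s.card (∏ i ∈ s, A i) (∏ i ∈ s, A' i) := by
  classical
  induction s using Finset.induction_on with
  | empty => simpa using HONE_C (k := k) 1
  | insert i s hi ih =>
    rw [Finset.prod_insert hi, Finset.prod_insert hi, Finset.card_insert_of_notMem hi, add_comm]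
    exact HONE_mul (h i (Finset.mem_insert_self _ _))
      (ih fun j hj => h j (Finset.mem_insert_of_mem hj))

lemma HONE_pderiv {a : ℕ} {A A' : Pol k} (h : HONE_Top (a + 1) A A') (i : Fin 2) :
    HONE_Top a (pderiv i A) (pderiv i A') := by
  refine ⟨totalDegree_pderiv_le h.1 i, ?_⟩
  ext s
  rw [← h.2, coeff_homogeneousComponent, coeff_pderiv, coeff_pderiv, coeff_homogeneousComponent,
    map_add, Finsupp.degree_single]
  by_cases hs : s.degree = a
  · rw [if_pos hs, if_pos (by omega)]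
  · rw [if_neg hs, if_neg (by omega), zero_mul]

lemma HONE_Xd {a : ℕ} {A A' : Pol k} (h : HONE_Top a A A') (j i : Fin 2) :
    HONE_Top a (X j * pderiv i A) (X j * pderiv i A') := by
  cases a with
  | zero =>
    have h1 : A = C (coeff 0 A) := totalDegree_eq_zero_iff_eq_C.mp (Nat.le_zero.mp h.1)
    have h2 : A' = C (coeff 0 A) := by rw [← h.2, homogeneousComponent_zero]
    rw [h2, h1]
    exact ⟨by simp, by simp⟩
  | succ a => exact HONE_cast (HONE_mul (HONE_X j) (HONE_pderiv h i)) (add_comm _ _)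

lemma HONE_low {a : ℕ} {A : Pol k} (h : HONE_Top a A 0) (s : Fin 2 →₀ ℕ) (hs : a ≤ s.degree) :
    coeff s A = 0 := by
  rcases eq_or_lt_of_le hs with h1 | h1
  · have := congrArg (coeff s) h.2
    rwa [coeff_homogeneousComponent, if_pos h1.symm, coeff_zero] at this
  · exact totalDegree_le_iff.mp h.1 s h1

/-- The cofactor of a homogeneous factor of a homogeneous polynomial. -/
lemma HONE_cof {n d : ℕ} {P r : Pol k} (hP : P.IsHomogeneous n) (h : (P * r).IsHomogeneous d) :
    ∃ r0 : Pol k, P * r = P * r0 ∧ (r0 = 0 ∨ ∃ s, s + n = d ∧ r0.IsHomogeneous s) := by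
  refine ⟨∑ j ∈ Finset.range (r.totalDegree + 1),
    if d = n + j then homogeneousComponent j r else 0, ?_, ?_⟩
  · rw [← homogeneousComponent_eq_self h]
    conv_lhs => rw [← sum_homogeneousComponent r]
    rw [Finset.mul_sum, map_sum, Finset.mul_sum]
    refine Finset.sum_congr rfl fun j _ => ?_
    rw [homogeneousComponent_of_mem (hP.mul (homogeneousComponent_isHomogeneous j r))]
    split_ifs <;> simp
  · by_cases hn : n ≤ d
    · refine Or.inr ⟨d - n, by omega, IsHomogeneous.sum _ _ _ fun j _ => ?_⟩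
      split_ifs with hj
      · have : d - n = j := by omega
        rw [this]; exact homogeneousComponent_isHomogeneous j r
      · exact isHomogeneous_zero _ _ _
    · exact Or.inl (Finset.sum_eq_zero fun j _ => if_neg (by omega))

end Top

section Main
variable {k I : Type} [Field k] [Fintype I] [DecidableEq I]

/-- The twisted differential on functions. -/
def HONE_T (lam : k) (ν : I → k) (l : I → Pol k) (r : Pol k) : Pol k × Pol k :=
  lam • ham ((∏ i, l i) * r) + r • om l ν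

/-- The twisted differential on 1-forms. -/
def HONE_E (lam : k) (ν : I → k) (l : I → Pol k) (σ : Pol k × Pol k) : Pol k :=
  C lam * (∏ i, l i) * dvg σ + wedge (om l ν) σ

variable (lam : k) (ν : I → k)

lemma HONE_om (l : I → Pol k) :
    om l ν = ∑ i, (C (ν i) * ∏ m ∈ Finset.univ.erase i, l m) • ham (l i) := by
  rw [om_eq]
  exact Finset.sum_congr rfl fun i _ => by rw [smul_eq_C_smul, lg, smul_smul]

lemma HONE_ET (l : I → Pol k) (r : Pol k) : HONE_E lam ν l (HONE_T lam ν l r) = 0 := by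
  have h := om_closed l ν
  rw [HONE_E, HONE_T, smul_eq_C_smul, dvg_add, dvg_smul, dvg_smul, dvg_ham, ham_C, ham_mul]
  simp only [wedge, Prod.fst_zero, Prod.snd_zero, Prod.fst_add, Prod.snd_add, Prod.smul_fst,
    Prod.smul_snd, smul_eq_mul] at h ⊢
  linear_combination C lam * r * h

lemma HONE_E_sub (l : I → Pol k) (σ τ : Pol k × Pol k) :
    HONE_E lam ν l (σ - τ) = HONE_E lam ν l σ - HONE_E lam ν l τ := by
  simp only [HONE_E, dvg, wedge, Prod.fst_sub, Prod.snd_sub, map_sub]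
  ring

lemma HONE_T_add (l : I → Pol k) (r r' : Pol k) :
    HONE_T lam ν l (r + r') = HONE_T lam ν l r + HONE_T lam ν l r' := by
  simp only [HONE_T, mul_add, ham_add, smul_add, add_smul]
  abel

lemma HONE_T_zero (l : I → Pol k) : HONE_T lam ν l 0 = 0 := by
  simp [HONE_T, ham_zero]

lemma HONE_top_om {l L : I → Pol k} (hl : ∀ i, HONE_Top 1 (l i) (L i)) {s d : ℕ} {c c' : Pol k}
    (hc : HONE_Top s c c') (hd : s + Fintype.card I = d + 1) :
    HONE_Top d (c * (om l ν).1) (c' * (om L ν).1) ∧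
      HONE_Top d (c * (om l ν).2) (c' * (om L ν).2) := by
  have key : ∀ j : Fin 2, HONE_Top d
      (c * ∑ i, C (ν i) * (∏ m ∈ Finset.univ.erase i, l m) * pderiv j (l i))
      (c' * ∑ i, C (ν i) * (∏ m ∈ Finset.univ.erase i, L m) * pderiv j (L i)) := by
    intro j
    rw [Finset.mul_sum, Finset.mul_sum]
    refine HONE_sum _ fun i _ => HONE_cast (HONE_mul hc (HONE_mul (HONE_mul (HONE_C (ν i))
      (HONE_prod _ fun m _ => hl m)) (HONE_pderiv (a := 0) (hl i) j))) ?_
    have h1 : 0 < Fintype.card I := Fintype.card_pos_iff.mpr ⟨i⟩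
    rw [Finset.card_erase_of_mem (Finset.mem_univ i), Finset.card_univ]
    omega
  refine ⟨key 1, ?_⟩
  simp only [om, mul_neg]
  exact HONE_neg (key 0)

lemma HONE_top_E {l L : I → Pol k} (hl : ∀ i, HONE_Top 1 (l i) (L i)) {m : ℕ}
    {σ st : Pol k × Pol k} (h1 : HONE_Top m σ.1 st.1) (h2 : HONE_Top m σ.2 st.2)
    (h : HONE_E lam ν l σ = 0) : HONE_E lam ν L st = 0 := by
  have e : ∀ (l : I → Pol k) (σ : Pol k × Pol k), X 0 * HONE_E lam ν l σ =
      C lam * (∏ i, l i) * (X 0 * pderiv 0 σ.1 + X 0 * pderiv 1 σ.2) +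
        (X 0 * (om l ν).1 * σ.2 - X 0 * (om l ν).2 * σ.1) := by
    intro l σ
    simp only [HONE_E, dvg, wedge]
    ring
  have ho := HONE_top_om ν hl (HONE_X 0) (d := Fintype.card I) (add_comm _ _)
  have hP : HONE_Top (Fintype.card I) (C lam * ∏ i, l i) (C lam * ∏ i, L i) :=
    HONE_cast (HONE_mul (HONE_C lam) (HONE_prod _ fun i _ => hl i)) (by simp)
  have h3 := HONE_add (HONE_mul hP (HONE_add (HONE_Xd h1 0 0) (HONE_Xd h2 0 1)))
    (HONE_sub (HONE_mul ho.1 h2) (HONE_mul ho.2 h1))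
  rw [← e, ← e, h, mul_zero] at h3
  have h4 := h3.2
  rw [map_zero] at h4
  exact (mul_eq_zero.mp h4.symm).resolve_left (X_ne_zero 0)

lemma HONE_top_T {l L : I → Pol k} (hl : ∀ i, HONE_Top 1 (l i) (L i)) {s m : ℕ} {r : Pol k}
    (hr : r.IsHomogeneous s) (hd : s + Fintype.card I = m + 1) :
    HONE_Top m (HONE_T lam ν l r).1 (HONE_T lam ν L r).1 ∧
      HONE_Top m (HONE_T lam ν l r).2 (HONE_T lam ν L r).2 := by
  have ho := HONE_top_om ν hl (HONE_hom hr) hd
  have hP : HONE_Top (m + 1) ((∏ i, l i) * r) ((∏ i, L i) * r) :=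
    HONE_cast (HONE_mul (HONE_prod _ fun i _ => hl i) (HONE_hom hr))
      (by rw [Finset.card_univ]; omega)
  simp only [HONE_T, ham, Prod.fst_add, Prod.snd_add, Prod.smul_fst, Prod.smul_snd, smul_eq_mul,
    smul_eq_C_mul]
  exact ⟨HONE_add (HONE_cast (HONE_mul (HONE_C lam) (HONE_pderiv hP 1)) (zero_add _)) ho.1,
    HONE_add (HONE_cast (HONE_mul (HONE_C lam) (HONE_neg (HONE_pderiv hP 0))) (zero_add _)) ho.2⟩

lemma HONE_lin_hom (a b : k) : (C a * X 0 + C b * X 1 : Pol k).IsHomogeneous 1 :=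
  (isHomogeneous_C_mul_X a 0).add (isHomogeneous_C_mul_X b 1)

lemma HONE_lin_ne {a b : k} (h : a ≠ 0 ∨ b ≠ 0) : (C a * X 0 + C b * X 1 : Pol k) ≠ 0 := by
  intro h0
  have h1 := congrArg (eval ![1, 0]) h0
  have h2 := congrArg (eval ![0, 1]) h0
  simp at h1 h2
  tauto

lemma HONE_lin_prime {a b : k} (h : a ≠ 0 ∨ b ≠ 0) : Prime (C a * X 0 + C b * X 1 : Pol k) := by
  refine (irreducible_of_totalDegree_eq_one ((HONE_lin_hom a b).totalDegree (HONE_lin_ne h))
    fun x hx => ?_).prime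
  refine isUnit_iff_ne_zero.mpr fun h0 => HONE_lin_ne h ?_
  ext s
  exact zero_dvd_iff.mp (h0 ▸ hx s)

lemma HONE_lin_ndvd {a b a' b' : k} (h : a * b' - a' * b ≠ 0) :
    ¬ (C a * X 0 + C b * X 1 : Pol k) ∣ C a' * X 0 + C b' * X 1 := by
  intro hd
  have h1 := map_dvd (eval ![-b, a]) hd
  simp only [map_add, map_mul, eval_C, eval_X, Matrix.cons_val_zero, Matrix.cons_val_one] at h1
  have h2 : a * -b + b * a = 0 := by ring
  rw [h2, zero_dvd_iff] at h1
  exact h (by linear_combination h1)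

/-- The homogeneous case. -/
lemma HONE_core [CharZero k] (a b : I → k) (L : I → Pol k)
    (hL : ∀ i, L i = C (a i) * X 0 + C (b i) * X 1) (h0 : ∀ i, a i ≠ 0 ∨ b i ≠ 0)
    (hij : ∀ i j, i ≠ j → a i * b j - a j * b i ≠ 0) (hν : ∀ i, ν i ≠ 0) {m : ℕ}
    (hκ : ((m + 1 : ℕ) : k) * lam + ∑ i, ν i ≠ 0) {st : Pol k × Pol k}
    (h1 : st.1.IsHomogeneous m) (h2 : st.2.IsHomogeneous m) (h : HONE_E lam ν L st = 0) :
    ∃ r : Pol k, (r = 0 ∨ ∃ s, s + Fintype.card I = m + 1 ∧ r.IsHomogeneous s) ∧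
      st = HONE_T lam ν L r := by
  have hp : ∀ i, Prime (L i) := fun i => by rw [hL]; exact HONE_lin_prime (h0 i)
  have hnd : ∀ i j, i ≠ j → ¬ L i ∣ L j := fun i j hne => by
    rw [hL, hL]; exact HONE_lin_ndvd (hij i j hne)
  have hLh : ∀ i, (L i).IsHomogeneous 1 := fun i => by rw [hL]; exact HONE_lin_hom _ _
  have e1 := h1.sum_X_mul_pderiv
  have e2 := h2.sum_X_mul_pderiv
  simp only [Fin.sum_univ_two, nsmul_eq_mul] at e1 e2
  set P : Pol k := ∏ i, L i with hP
  set W := om L ν with hW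
  set φ : Pol k := st.1 * X 1 - st.2 * X 0 with hφ
  set κ : k := ((m + 1 : ℕ) : k) * lam + ∑ i, ν i with hκd
  have hW1 : W.1 = ∑ i, C (ν i) * (∏ j ∈ Finset.univ.erase i, L j) * C (b i) := by
    simp only [hW, om]
    exact Finset.sum_congr rfl fun i _ => by rw [hL i]; simp
  have hW2 : W.2 = -∑ i, C (ν i) * (∏ j ∈ Finset.univ.erase i, L j) * C (a i) := by
    simp only [hW, om]
    congr 1
    exact Finset.sum_congr rfl fun i _ => by rw [hL i]; simp
  have hWR : W.1 * X 1 - W.2 * X 0 = C (∑ i, ν i) * P := by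
    rw [hW1, hW2, neg_mul, sub_neg_eq_add, Finset.sum_mul, Finset.sum_mul, map_sum, Finset.sum_mul,
      ← Finset.sum_add_distrib]
    refine Finset.sum_congr rfl fun i _ => ?_
    rw [hP, ← Finset.mul_prod_erase _ L (Finset.mem_univ i), hL i]
    ring
  have hCκ : (C κ : Pol k) = ((m : Pol k) + 1) * C lam + C (∑ i, ν i) := by
    simp [hκd]
  have hE : C lam * P * (pderiv 0 st.1 + pderiv 1 st.2) + (W.1 * st.2 - W.2 * st.1) = 0 := h
  have d1 : pderiv 1 φ = pderiv 1 st.1 * X 1 + st.1 - pderiv 1 st.2 * X 0 := by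
    simp [hφ]; ring
  have d0 : pderiv 0 φ = pderiv 0 st.1 * X 1 - pderiv 0 st.2 * X 0 - st.2 := by
    simp [hφ]; ring
  have k1 : P * (C κ * st.1) = C lam * P * pderiv 1 φ + φ * W.1 := by
    rw [hCκ, d1, hφ]
    linear_combination X 0 * hE - C lam * P * e1 - st.1 * hWR
  have k2 : P * (C κ * st.2) = C lam * P * -pderiv 0 φ + φ * W.2 := by
    rw [hCκ, d0, hφ]
    linear_combination X 1 * hE - C lam * P * e2 - st.2 * hWR
  have hdiv : ∀ i, L i ∣ φ := by
    intro i
    have hiP : L i ∣ P := Finset.dvd_prod_of_mem L (Finset.mem_univ i)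
    have key : ∀ c : I → k, c i ≠ 0 →
        L i ∣ φ * ∑ j, C (ν j) * (∏ m ∈ Finset.univ.erase j, L m) * C (c j) → L i ∣ φ := by
      intro c hc hd
      rw [← Finset.add_sum_erase _ _ (Finset.mem_univ i), mul_add] at hd
      have h3 : L i ∣ φ * ∑ j ∈ Finset.univ.erase i,
          C (ν j) * (∏ m ∈ Finset.univ.erase j, L m) * C (c j) := by
        refine Dvd.dvd.mul_left (Finset.dvd_sum fun j hj => ?_) _
        refine Dvd.dvd.mul_right (Dvd.dvd.mul_left (Finset.dvd_prod_of_mem L ?_) _) _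
        exact Finset.mem_erase.mpr ⟨(Finset.ne_of_mem_erase hj).symm, Finset.mem_univ i⟩
      have h4 := (dvd_add_left h3).mp hd
      have hu : ∀ x : k, x ≠ 0 → ¬ L i ∣ C x := fun x hx hh =>
        (hp i).not_isUnit (isUnit_of_dvd_unit hh ((isUnit_iff_ne_zero.mpr hx).map C))
      rcases (hp i).dvd_or_dvd h4 with h5 | h5
      · exact h5
      rcases (hp i).dvd_or_dvd h5 with h6 | h6
      · rcases (hp i).dvd_or_dvd h6 with h7 | h7
        · exact absurd h7 (hu _ (hν i))
        · obtain ⟨j, hj, h8⟩ := ((hp i).dvd_finsetProd_iff _).mp h7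
          exact absurd h8 (hnd i j (Finset.ne_of_mem_erase hj).symm)
      · exact absurd h6 (hu _ hc)
    rcases h0 i with h3 | h3
    · refine key a h3 ?_
      have : φ * ∑ j, C (ν j) * (∏ m ∈ Finset.univ.erase j, L m) * C (a j) =
          P * (C lam * -pderiv 0 φ - C κ * st.2) := by
        rw [hW2] at k2
        linear_combination k2
      rw [this]
      exact hiP.mul_right _
    · refine key b h3 ?_
      have : φ * ∑ j, C (ν j) * (∏ m ∈ Finset.univ.erase j, L m) * C (b j) =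
          P * (C κ * st.1 - C lam * pderiv 1 φ) := by
        rw [hW1] at k1
        linear_combination -k1
      rw [this]
      exact hiP.mul_right _
  obtain ⟨r1, hr1⟩ : P ∣ φ := Fintype.prod_dvd_of_isRelPrime
    (fun i j hne => (hp i).irreducible.isRelPrime_iff_not_dvd.mpr (hnd i j hne)) hdiv
  have hPh : P.IsHomogeneous (Fintype.card I) := by
    simpa using IsHomogeneous.prod Finset.univ L (fun _ => 1) fun i _ => hLh i
  have hφh : φ.IsHomogeneous (m + 1) :=
    (h1.mul (isHomogeneous_X k 1)).sub (h2.mul (isHomogeneous_X k 0))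
  obtain ⟨r0, hr0, hr⟩ := HONE_cof hPh (hr1 ▸ hφh)
  have hφ0 : φ = P * r0 := hr1.trans hr0
  have hP0 : P ≠ 0 := Finset.prod_ne_zero_iff.mpr fun i _ => (hp i).ne_zero
  have hinv : (C κ⁻¹ : Pol k) * C κ = 1 := by rw [← map_mul, inv_mul_cancel₀ hκ, map_one]
  have hdd : ∀ j : Fin 2, pderiv j (P * (C κ⁻¹ * r0)) = C κ⁻¹ * pderiv j φ := by
    intro j
    rw [mul_left_comm, ← hφ0, pderiv_C_mul]
  refine ⟨C κ⁻¹ * r0, ?_, ?_⟩
  · rcases hr with hr | ⟨s, hs, hr⟩
    · exact Or.inl (by rw [hr, mul_zero])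
    · exact Or.inr ⟨s, hs, by simpa using (isHomogeneous_C _ κ⁻¹).mul hr⟩
  · have q1 : C κ * st.1 = C lam * pderiv 1 φ + r0 * W.1 :=
      mul_left_cancel₀ hP0 (by rw [k1]; nth_rewrite 2 [hφ0]; ring)
    have q2 : C κ * st.2 = C lam * -pderiv 0 φ + r0 * W.2 :=
      mul_left_cancel₀ hP0 (by rw [k2]; nth_rewrite 2 [hφ0]; ring)
    ext1
    · simp only [HONE_T, ham, Prod.fst_add, Prod.smul_fst, smul_eq_mul, smul_eq_C_mul, ← hP, ← hW,
        hdd]
      linear_combination C κ⁻¹ * q1 - st.1 * hinv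
    · simp only [HONE_T, ham, Prod.snd_add, Prod.smul_snd, smul_eq_mul, smul_eq_C_mul, ← hP, ← hW,
        hdd]
      linear_combination C κ⁻¹ * q2 - st.2 * hinv

lemma HONE_ind [CharZero k] (a b : I → k) (l : I → Pol k)
    (hl : ∀ i, l i = 1 + C (a i) * X 0 + C (b i) * X 1) (h0 : ∀ i, a i ≠ 0 ∨ b i ≠ 0)
    (hij : ∀ i j, i ≠ j → a i * b j - a j * b i ≠ 0) (hν : ∀ i, ν i ≠ 0)
    (hκ : ∀ n : ℕ, 1 ≤ n → (n : k) * lam + ∑ i, ν i ≠ 0) (e : ℕ) :
    ∀ σ : Pol k × Pol k, (∀ s : Fin 2 →₀ ℕ, e ≤ s.degree → coeff s σ.1 = 0) →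
      (∀ s : Fin 2 →₀ ℕ, e ≤ s.degree → coeff s σ.2 = 0) → HONE_E lam ν l σ = 0 →
      ∃ r : Pol k, (r = 0 ∨ r.totalDegree + Fintype.card I ≤ e) ∧ σ = HONE_T lam ν l r := by
  have hT : ∀ i, HONE_Top 1 (l i) (C (a i) * X 0 + C (b i) * X 1) := by
    intro i
    have h1 : HONE_Top 1 (1 : Pol k) 0 := ⟨by simp, homogeneousComponent_eq_zero _ _ (by simp)⟩
    have h2 := HONE_add h1 (HONE_hom (HONE_lin_hom (a i) (b i)))
    rwa [zero_add, ← add_assoc, ← hl i] at h2
  induction e with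
  | zero =>
    intro σ h1 h2 _
    refine ⟨0, Or.inl rfl, ?_⟩
    rw [HONE_T_zero]
    ext s
    · exact h1 s (Nat.zero_le _)
    · exact h2 s (Nat.zero_le _)
  | succ m ih =>
    intro σ h1 h2 h
    have t1 : HONE_Top m σ.1 (homogeneousComponent m σ.1) := ⟨totalDegree_le_iff.mpr h1, rfl⟩
    have t2 : HONE_Top m σ.2 (homogeneousComponent m σ.2) := ⟨totalDegree_le_iff.mpr h2, rfl⟩
    have h3 := HONE_top_E lam ν hT
      (st := (homogeneousComponent m σ.1, homogeneousComponent m σ.2)) t1 t2 h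
    obtain ⟨r0, hr0, h4⟩ := HONE_core lam ν a b _ (fun _ => rfl) h0 hij hν (hκ (m + 1) (by omega))
      (homogeneousComponent_isHomogeneous m σ.1) (homogeneousComponent_isHomogeneous m σ.2) h3
    have h5 : HONE_Top m (HONE_T lam ν l r0).1 (homogeneousComponent m σ.1) ∧
        HONE_Top m (HONE_T lam ν l r0).2 (homogeneousComponent m σ.2) := by
      have f1 := congrArg Prod.fst h4
      have f2 := congrArg Prod.snd h4
      simp only at f1 f2
      rw [f1, f2]
      rcases hr0 with hr0 | ⟨s, hs, hr0⟩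
      · rw [hr0, HONE_T_zero, HONE_T_zero]
        exact ⟨⟨by simp, by simp⟩, ⟨by simp, by simp⟩⟩
      · exact HONE_top_T lam ν hT hr0 hs
    have h6 := HONE_sub t1 h5.1
    have h7 := HONE_sub t2 h5.2
    rw [sub_self] at h6 h7
    obtain ⟨r1, hr1, h8⟩ := ih (σ - HONE_T lam ν l r0) (HONE_low h6) (HONE_low h7)
      (by rw [HONE_E_sub, h, HONE_ET, sub_self])
    refine ⟨r0 + r1, ?_, by rw [HONE_T_add, ← h8, add_sub_cancel]⟩
    have h9 := totalDegree_add r0 r1
    rcases hr0 with hr0 | ⟨s, hs, hr0⟩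
    · rw [hr0, zero_add]
      exact hr1.imp id fun hh => by omega
    · have h10 := hr0.totalDegree_le
      rcases hr1 with hr1 | hr1
      · rw [hr1, add_zero]
        exact Or.inr (by omega)
      · exact Or.inr (by omega)

end Main

theorem pf_HONE : StHONE := by
  intro k I _ _ _ _ a b ν lam l σ e hl h0 hij hν hκ hd h
  obtain ⟨r, hr, h1⟩ := HONE_ind lam ν a b l hl h0 hij hν hκ (e + 1) σ
    (totalDegree_le_iff.mp hd.1) (totalDegree_le_iff.mp hd.2) (by
      rw [HONE_E, HONE_om, wedge_sum_left, ← h]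
      congr 1
      exact Finset.sum_congr rfl fun i _ => wedge_smul_left _ _ _)
  exact ⟨r, hr, by rw [h1, HONE_T, HONE_om]⟩

end

end CenLoc
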