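import Pool.Agent.P.MP_2862dc_ag.Basic

/-! Injectivity of the formal local class on logarithmic 2-forms. -/

namespace CenLoc

open MvPolynomial Filter Topology

section
variable {k G I : Type} [Field k] [Fintype G] [DecidableEq G] [Fintype I] [DecidableEq I]
  (L : Lines k G I)

omit [Fintype G] [DecidableEq G] [Fintype I] [DecidableEq I] in
lemma INJ_e_anti (i j : I) : L.e i j = -L.e j i := by
  unfold Lines.e
  rw [L.br_comm i j, neg_smul, mul_comm (L.t i)]

omit [Fintype G] [DecidableEq G] [DecidableEq I] in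
lemma INJ_coeff (v : I × I → Polynomial k) (n : ℕ) :
    (L.rho v).coeff n = ∑ p : I × I, (v p).coeff n • L.e p.1 p.2 := by
  unfold Lines.rho
  rw [Polynomial.finsetSum_coeff]
  refine Finset.sum_congr rfl fun p _ => ?_
  rw [Polynomial.coeff_mul_C, Polynomial.coeff_map, Algebra.smul_def]

omit [Fintype G] [DecidableEq G] [DecidableEq I] in
lemma INJ_eval (v : I × I → Polynomial k) (z : k) :
    (L.rho v).eval (MvPowerSeries.C z) = ∑ p : I × I, (v p).eval z • L.e p.1 p.2 := by
  unfold Lines.rho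
  rw [Polynomial.eval_finsetSum]
  refine Finset.sum_congr rfl fun p _ => ?_
  have h : (MvPowerSeries.C z : Ser k) = algebraMap k (Ser k) z := rfl
  rw [Polynomial.eval_mul, Polynomial.eval_C, h, Polynomial.eval_map, Polynomial.eval₂_at_apply,
    Algebra.smul_def]

omit [Fintype G] [DecidableEq G] [DecidableEq I] in
lemma INJ_rho_add (v w : I × I → Polynomial k) : L.rho (v + w) = L.rho v + L.rho w := by
  unfold Lines.rho
  rw [← Finset.sum_add_distrib]
  refine Finset.sum_congr rfl fun p _ => ?_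
  rw [Pi.add_apply, Polynomial.map_add, add_mul]

omit [Fintype G] [DecidableEq G] [DecidableEq I] in
lemma INJ_rho_smul (r : Polynomial k) (v : I × I → Polynomial k) :
    L.rho (r • v) = r.map (algebraMap k (Ser k)) * L.rho v := by
  unfold Lines.rho
  rw [Finset.mul_sum]
  refine Finset.sum_congr rfl fun p _ => ?_
  rw [Pi.smul_apply, smul_eq_mul, Polynomial.map_mul, mul_assoc]

omit [Fintype G] [DecidableEq G] [DecidableEq I] in
lemma INJ_rho_zero : L.rho 0 = 0 := by
  unfold Lines.rho
  simp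

omit [Fintype G] [DecidableEq G] [DecidableEq I] in
lemma INJ_rho_C (v : I × I → k) :
    L.rho (fun p => Polynomial.C (v p)) = Polynomial.C (∑ p : I × I, v p • L.e p.1 p.2) := by
  unfold Lines.rho
  rw [map_sum]
  refine Finset.sum_congr rfl fun p _ => ?_
  rw [Polynomial.map_C, ← Polynomial.C_mul, Algebra.smul_def]

omit [Fintype G] [DecidableEq G] [DecidableEq I] in
lemma INJ_anti [CharZero k] (v : I × I → k) (c : I → k)
    (h : ∀ i j, v (i, j) - v (j, i) = L.mu i * c j - L.mu j * c i) :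
    ∑ p : I × I, v p • L.e p.1 p.2 = ∑ i, ∑ j, (L.mu i * c j) • L.e i j := by
  have h1 : ∑ i, ∑ j, (v (i, j) - L.mu i * c j) • L.e i j =
      -∑ i, ∑ j, (v (i, j) - L.mu i * c j) • L.e i j := by
    conv_lhs => rw [Finset.sum_comm]
    rw [← Finset.sum_neg_distrib]
    refine Finset.sum_congr rfl fun i _ => ?_
    rw [← Finset.sum_neg_distrib]
    refine Finset.sum_congr rfl fun j _ => ?_
    have h2 : v (j, i) - L.mu j * c i = v (i, j) - L.mu i * c j := by
      linear_combination -h i j
    rw [h2, INJ_e_anti L j i, smul_neg]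
  have h2 : (2 : k) • ∑ i, ∑ j, (v (i, j) - L.mu i * c j) • L.e i j = 0 := by
    rw [two_smul]
    exact add_eq_zero_iff_eq_neg.2 h1
  have h3 := (smul_eq_zero.1 h2).resolve_left two_ne_zero
  simp only [sub_smul, Finset.sum_sub_distrib] at h3
  rw [Fintype.sum_prod_type]
  exact sub_eq_zero.1 h3

omit [Fintype G] [DecidableEq G] in
lemma INJ_span (hbr : ∀ i j, i ≠ j → L.br i j ≠ 0) {x : Ser k} (hx : x ∈ L.E) :
    ∃ w : I × I → k, x = ∑ p : I × I, w p • L.e p.1 p.2 := by
  induction hx using Submodule.span_induction with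
  | mem x hx =>
    obtain ⟨i, j, hij, rfl⟩ := hx
    refine ⟨Pi.single (i, j) (L.br i j)⁻¹, ?_⟩
    rw [Finset.sum_eq_single (i, j)]
    · rw [Pi.single_eq_same]
      unfold Lines.e
      rw [smul_smul, inv_mul_cancel₀ (hbr i j hij), one_smul]
    · intro p _ hp
      rw [Pi.single_eq_of_ne hp, zero_smul]
    · simp
  | zero => exact ⟨0, by simp⟩
  | add x y _ _ hx hy =>
    obtain ⟨w, rfl⟩ := hx
    obtain ⟨w', rfl⟩ := hy
    exact ⟨w + w', by simp only [Pi.add_apply, add_smul, Finset.sum_add_distrib]⟩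
  | smul a x _ hx =>
    obtain ⟨w, rfl⟩ := hx
    exact ⟨a • w, by simp only [Pi.smul_apply, smul_eq_mul, Finset.smul_sum, smul_smul]⟩

omit [Fintype G] [DecidableEq G] in
lemma INJ_write (hbr : ∀ i j, i ≠ j → L.br i j ≠ 0) (ρ : Polynomial (Ser k))
    (hρ : ∀ n, ρ.coeff n ∈ L.E) : ∃ v, ρ = L.rho v := by
  choose w hw using fun n => INJ_span L hbr (hρ n)
  refine ⟨fun p => ∑ n ∈ ρ.support, Polynomial.monomial n (w n p), ?_⟩
  ext1 n
  rw [INJ_coeff]
  simp only [Polynomial.finsetSum_coeff, Polynomial.coeff_monomial, Finset.sum_ite_eq']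
  by_cases h : n ∈ ρ.support
  · simp only [h, if_true]
    exact hw n
  · simp only [h, if_false, zero_smul, Finset.sum_const_zero]
    exact Polynomial.notMem_support_iff.1 h

omit [Fintype G] [DecidableEq G] [Fintype I] [DecidableEq I] in
lemma INJ_t_ne (i : I) : MvPowerSeries.constantCoeff (L.t i) ≠ 0 := by
  intro h
  have h1 := congrArg MvPowerSeries.constantCoeff (L.l_mul_t i)
  rw [map_mul, h, mul_zero, map_one] at h1
  exact zero_ne_one h1

end

lemma INJ_xi_eval {k I : Type} [Field k] [DecidableEq I] (mu : I → k) (x y w : I)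
    (v : I × I → Polynomial k) (h : ∀ n, xi mu x y w (fun p => (v p).coeff n) = 0) (z : k) :
    xi mu x y w (fun p => (v p).eval z) = 0 := by
  have h1 : Polynomial.C (mu x) * (v (y, w) - v (w, y)) + Polynomial.C (mu y) * (v (w, x) - v (x, w))
      + Polynomial.C (mu w) * (v (x, y) - v (y, x)) = 0 := by
    ext n
    have h2 := h n
    simp only [xi] at h2
    simp only [Polynomial.coeff_add, Polynomial.coeff_C_mul, Polynomial.coeff_sub,
      Polynomial.coeff_zero]
    exact h2
  have h2 := congrArg (Polynomial.eval z) h1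
  simp only [Polynomial.eval_add, Polynomial.eval_mul, Polynomial.eval_C, Polynomial.eval_sub,
    Polynomial.eval_zero] at h2
  exact h2

theorem pf_INJ (hLB : StLB) (hLS : StLS) (hNULL : StNULL) (hLEAD : StLEAD) (hIRR : StIRR)
    (hINJA : StINJA) (hINJB : StINJB) : StINJ := by
  intro k G I _ _ _ _ _ _ L hG hRes ρ hρ hN z0
  obtain ⟨hmu, hsum, -⟩ := hLB k G I L hG
  obtain ⟨hM, hcl, -, -, hw, -⟩ := hLS k G I L hG
  obtain ⟨n0, nadd, nmul, nX, nd, -⟩ := hNULL k L.h
  obtain ⟨-, irr2⟩ := hIRR k I L.mu hmu hsum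
  let K : Submodule (Polynomial k) (I × I → Polynomial k) :=
    { carrier := {v | Null L.h (L.rho v)}
      add_mem' := by
        intro v w hv hw'
        show Null L.h (L.rho (v + w))
        rw [INJ_rho_add]
        exact nadd _ _ hv hw'
      zero_mem' := by
        show Null L.h (L.rho 0)
        rw [INJ_rho_zero]
        exact n0
      smul_mem' := by
        intro r v hv
        show Null L.h (L.rho (r • v))
        rw [INJ_rho_smul]
        exact nmul _ _ hv }
  have hK : ∀ v, v ∈ K ↔ Null L.h (L.rho v) := fun v => Iff.rfl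
  have key : ∀ v : I × I → k, (∀ x y w, x ≠ y → y ≠ w → x ≠ w → xi L.mu x y w v = 0) →
      ∃ c : I → k, ∑ p : I × I, v p • L.e p.1 p.2 = wedge L.h (L.zeta c) := by
    intro v hv
    obtain ⟨c, hc⟩ := irr2 v hv
    exact ⟨c, by rw [hw c, INJ_anti L v c hc]⟩
  have main := hINJB k I L.mu hmu hsum K ?_ ?_ ?_ ?_
  · obtain ⟨v, rfl⟩ := INJ_write L hG.br_ne ρ hρ
    rw [INJ_eval]
    exact key _ fun x y w h1 h2 h3 =>
      INJ_xi_eval L.mu x y w v (fun n => main v ((hK v).2 hN) n x y w h1 h2 h3) z0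
  · intro v hv
    obtain ⟨c, hc⟩ := key v hv
    rw [hK, INJ_rho_C, hc]
    have h1 := nd (L.zeta c)
    rw [hcl c, map_zero, zero_add] at h1
    exact nX _ h1
  · intro v hv
    rw [hK, INJ_rho_smul, Polynomial.map_X] at hv
    exact nX _ hv
  · intro h4 x y w h1 h2 h3
    obtain ⟨δ, s, hmov, hr⟩ := hRes h4 x y w h1 h2 h3
    exact ⟨δ, L.theta s, fun i => hmov.dlam _, fun v hv => hINJA k G I L hG δ s hmov v hv, hr⟩
  · intro r hr hall
    have hnt : Nontrivial I := Fintype.one_lt_card_iff_nontrivial.1 (by have := hG.three; omega)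
    obtain ⟨i, j, hij⟩ := exists_pair_ne I
    have h1 := (hK _).1 (hall fun p => Polynomial.C ((Pi.single (i, j) 1 : I × I → k) p))
    have h2 : ∑ p : I × I, (Pi.single (i, j) 1 : I × I → k) p • L.e p.1 p.2 = L.e i j := by
      rw [Finset.sum_eq_single (i, j)]
      · rw [Pi.single_eq_same, one_smul]
      · intro p _ hp
        rw [Pi.single_eq_of_ne hp, zero_smul]
      · simp
    rw [INJ_rho_smul, INJ_rho_C, h2] at h1
    have h3 := hLEAD k L.h hM _ r.natDegree h1
      ((Polynomial.natDegree_mul_C_le _ _).trans Polynomial.natDegree_map_le)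
    rw [Polynomial.coeff_mul_C, Polynomial.coeff_map, ← Algebra.smul_def] at h3
    unfold Lines.e at h3
    rw [smul_smul, Algebra.smul_def, map_mul, map_mul MvPowerSeries.constantCoeff (L.t i)] at h3
    have h4 : MvPowerSeries.constantCoeff (algebraMap k (Ser k) (r.coeff r.natDegree * L.br i j)) =
        r.coeff r.natDegree * L.br i j := MvPowerSeries.constantCoeff_C _
    rw [h4] at h3
    exact mul_ne_zero (mul_ne_zero (Polynomial.leadingCoeff_ne_zero.2 hr) (hG.br_ne i j hij))
      (mul_ne_zero (INJ_t_ne L i) (INJ_t_ne L j)) h3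

end CenLoc
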