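import Pool.Agent.P.MP_2862dc_ag.Stmts

/-! The limit at `z = 0` of a saturated subconnection. -/

namespace CenLoc

open Polynomial

section
variable {k : Type} [Field k] {I : Type} [Fintype I] [DecidableEq I]

/-- Constant terms of the elements of `K`. -/
def INJB_K0 (K : Submodule (Polynomial k) (I × I → Polynomial k)) : Submodule k (I × I → k) where
  carrier := {u | ∃ v ∈ K, ∀ p, (v p).coeff 0 = u p}
  add_mem' := by
    rintro u u' ⟨v, hv, h⟩ ⟨v', hv', h'⟩
    exact ⟨v + v', K.add_mem hv hv', fun p => by simp [h p, h' p]⟩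
  zero_mem' := ⟨0, K.zero_mem, fun p => by simp⟩
  smul_mem' := by
    rintro c u ⟨v, hv, h⟩
    exact ⟨(Polynomial.C c : Polynomial k) • v, K.smul_mem _ hv, fun p => by simp [h p]⟩

omit [Fintype I] [DecidableEq I] in
theorem INJB_smul_div (v : I × I → Polynomial k) (h : ∀ p, (v p).coeff 0 = 0) :
    (Polynomial.X : Polynomial k) • (fun p => (v p).divX) = v := by
  funext p
  have := Polynomial.X_mul_divX_add (v p)
  rw [h p, map_zero, add_zero] at this
  simpa using this

theorem INJB_coeff_map (δ : Derivation ℤ k k) (g : Polynomial k) (n : ℕ) :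
    (∑ m ∈ g.support, Polynomial.monomial m (δ (g.coeff m))).coeff n = δ (g.coeff n) := by
  rw [Polynomial.finsetSum_coeff]
  simp only [Polynomial.coeff_monomial]
  rw [Finset.sum_ite_eq' g.support n fun m => δ (g.coeff m)]
  split_ifs with h
  · rfl
  · rw [Polynomial.notMem_support_iff.1 h, map_zero]

theorem INJB_conn0 (δ : Derivation ℤ k k) (mu : I → k) (θ : I → I → I → k)
    (v : I × I → Polynomial k) (p : I × I) :
    (conn δ mu θ v p).coeff 0 = δ ((v p).coeff 0) := by
  simp only [conn, Polynomial.coeff_add, INJB_coeff_map, Polynomial.coeff_X_mul_zero, add_zero]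

theorem INJB_conn1 (δ : Derivation ℤ k k) (mu : I → k) (θ : I → I → I → k)
    (v : I × I → Polynomial k) (p : I × I) :
    (conn δ mu θ v p).coeff 1 = δ ((v p).coeff 1) +
      ∑ i, ∑ j, ∑ m, mu i * θ i j m * tri (k := k) i j m p * (v (j, m)).coeff 0 := by
  simp only [conn, Polynomial.coeff_add, INJB_coeff_map]
  rw [show (1 : ℕ) = 0 + 1 from rfl, Polynomial.coeff_X_mul]
  simp only [Polynomial.finsetSum_coeff, Polynomial.coeff_C_mul]

theorem INJB_dot (ψ : I × I → k) (i j m : I) :
    ∑ p, ψ p * tri (k := k) i j m p = ψ (i, j) + ψ (j, m) + ψ (m, i) := by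
  simp [tri, mul_add, Finset.sum_add_distrib, Pi.single_apply]

omit [Fintype I] in
theorem INJB_symm (x y w a b : I) :
    (tri (k := k) x y w + tri (k := k) x w y : I × I → k) (a, b) =
      (tri (k := k) x y w + tri (k := k) x w y : I × I → k) (b, a) := by
  have h : ∀ c d : I, (Pi.single (c, d) (1 : k) : I × I → k) (b, a) =
      (Pi.single (d, c) (1 : k) : I × I → k) (a, b) := by
    intro c d
    simp [Pi.single_apply, and_comm]
  simp only [tri, Pi.add_apply, h]
  ring

theorem INJB_tri (hCONST : StCONST) (mu : I → k)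
    (K : Submodule (Polynomial k) (I × I → Polynomial k))
    (h1 : ∀ v : I × I → k, (∀ x y w, x ≠ y → y ≠ w → x ≠ w → xi mu x y w v = 0) →
      (fun p => Polynomial.C (v p)) ∈ K)
    (h2 : ∀ v : I × I → Polynomial k, (Polynomial.X : Polynomial k) • v ∈ K → v ∈ K)
    (x y w : I) (δ : Derivation ℤ k k) (θ : I → I → I → k) (hmu : ∀ i, δ (mu i) = 0)
    (hconn : ∀ v ∈ K, conn δ mu θ v ∈ K)
    (hres : ∀ (κ : k) (r : I → I → I → k), (∀ i j m, δ (r i j m) = 0) →
      δ κ = ∑ i, ∑ j, ∑ m, r i j m * θ i j m →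
        r x y w + r y w x + r w x y + r x w y + r w y x + r y x w = 0)
    (hex : ∃ v ∈ INJB_K0 K, xi mu x y w v ≠ 0) : tri x y w ∈ INJB_K0 K := by
  have hst : ∀ u ∈ INJB_K0 K, (fun p => δ (u p)) ∈ INJB_K0 K := by
    rintro u ⟨v, hv, h⟩
    exact ⟨conn δ mu θ v, hconn v hv, fun p => by rw [INJB_conn0, h p]⟩
  obtain ⟨hspan, hdual⟩ := hCONST k (I × I) δ (INJB_K0 K) hst
  obtain ⟨v0, hv0, hd0, hx0⟩ : ∃ v0 ∈ INJB_K0 K, (∀ p, δ (v0 p) = 0) ∧ xi mu x y w v0 ≠ 0 := by
    by_contra hc
    push Not at hc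
    obtain ⟨u, hu, hne⟩ := hex
    refine hne ?_
    refine Submodule.span_induction (p := fun u _ => xi mu x y w u = 0) ?_ ?_ ?_ ?_ (hspan hu)
    · rintro u ⟨a, b⟩
      exact hc u a b
    · simp [xi]
    · intro a b _ _ ha hb
      simp only [xi, Pi.add_apply] at ha hb ⊢
      linear_combination ha + hb
    · intro c a _ ha
      simp only [xi, Pi.smul_apply, smul_eq_mul] at ha ⊢
      linear_combination c * ha
  obtain ⟨v, hv, hv0'⟩ := hv0
  have hz : ∀ p, (conn δ mu θ v p).coeff 0 = 0 := fun p => by rw [INJB_conn0, hv0' p, hd0 p]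
  have hdiv : (fun p => (conn δ mu θ v p).divX) ∈ K :=
    h2 _ (by rw [INJB_smul_div _ hz]; exact hconn v hv)
  have hu1 : (fun p => δ ((v p).coeff 1) +
      ∑ i, ∑ j, ∑ m, mu i * θ i j m * tri (k := k) i j m p * v0 (j, m)) ∈ INJB_K0 K :=
    ⟨_, hdiv, fun p => by
      rw [Polynomial.coeff_divX, zero_add, INJB_conn1]
      simp only [hv0']⟩
  by_contra hn
  obtain ⟨ψ, hψd, hψ0, hψ1⟩ := hdual _ hn
  have hsym : tri (k := k) x y w + tri x w y ∈ INJB_K0 K := by
    refine ⟨_, h1 (tri (k := k) x y w + tri x w y) fun a b c _ _ _ => ?_, fun p => by simp⟩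
    unfold xi
    rw [INJB_symm (k := k) x y w b c, INJB_symm (k := k) x y w c a,
      INJB_symm (k := k) x y w a b]
    ring
  have hT := hψ0 _ hsym
  simp only [Pi.add_apply, mul_add, Finset.sum_add_distrib, INJB_dot] at hT
  rw [INJB_dot] at hψ1
  have hk := hψ0 _ hu1
  have hr := hres (∑ p, ψ p * (v p).coeff 1)
    (fun i j m => -(mu i * v0 (j, m) * (ψ (i, j) + ψ (j, m) + ψ (m, i)))) (by
      intro i j m
      simp [Derivation.leibniz, hmu, hd0, hψd]) (by
      have e1 : δ (∑ p, ψ p * (v p).coeff 1) = ∑ p, ψ p * δ ((v p).coeff 1) := by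
        rw [map_sum]
        refine Finset.sum_congr rfl fun p _ => ?_
        simp [Derivation.leibniz, hψd]
      have e2 : ∑ p, ψ p * ∑ i, ∑ j, ∑ m, mu i * θ i j m * tri (k := k) i j m p * v0 (j, m) =
          ∑ i, ∑ j, ∑ m, mu i * v0 (j, m) * (ψ (i, j) + ψ (j, m) + ψ (m, i)) * θ i j m := by
        simp only [Finset.mul_sum]
        rw [Finset.sum_comm]
        refine Finset.sum_congr rfl fun i _ => ?_
        rw [Finset.sum_comm]
        refine Finset.sum_congr rfl fun j _ => ?_
        rw [Finset.sum_comm]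
        refine Finset.sum_congr rfl fun m _ => ?_
        rw [← INJB_dot, Finset.mul_sum, Finset.sum_mul]
        exact Finset.sum_congr rfl fun p _ => by ring
      simp only [mul_add, Finset.sum_add_distrib] at hk
      rw [e2] at hk
      rw [e1]
      simp only [neg_mul, Finset.sum_neg_distrib]
      linear_combination hk)
  refine mul_ne_zero hψ1 hx0 ?_
  unfold xi
  linear_combination (-1 : k) * hr -
    (mu x * v0 (w, y) + mu w * v0 (y, x) + mu y * v0 (x, w)) * hT

end

theorem pf_INJB (hCONST : StCONST) (hIRR : StIRR) : StINJB := by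
  intro k _ _ I _ _ mu hmu hsum K h1 h2 h3 h4
  have hN : ∀ u ∈ INJB_K0 K, ∀ x y w, x ≠ y → y ≠ w → x ≠ w → xi mu x y w u = 0 := by
    by_contra hc
    push Not at hc
    have htop : INJB_K0 K = ⊤ := by
      refine (hIRR k I mu hmu hsum).1 (INJB_K0 K) (fun v hv => ⟨_, h1 v hv, fun p => by simp⟩)
        hc fun hcard x y w hxy hyw hxw hex => ?_
      obtain ⟨δ, θ, a, b, c⟩ := h3 hcard x y w hxy hyw hxw
      exact INJB_tri hCONST mu K h1 h2 x y w δ θ a b c hex
    have hle : (⊤ : Submodule (Polynomial k) (I × I → Polynomial k)) ≤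
        K ⊔ (Ideal.span {(Polynomial.X : Polynomial k)}) • ⊤ := by
      intro v _
      have hv : (fun p => (v p).coeff 0) ∈ INJB_K0 K := htop ▸ Submodule.mem_top
      obtain ⟨v', hv', h⟩ := hv
      have e : v = v' + (Polynomial.X : Polynomial k) • fun p => ((v - v') p).divX := by
        rw [INJB_smul_div (v - v') fun p => by simp [h p]]
        abel
      rw [e]
      exact Submodule.add_mem_sup hv'
        (Submodule.smul_mem_smul (Ideal.mem_span_singleton_self _) Submodule.mem_top)
    obtain ⟨r, hr1, hr2⟩ := Submodule.exists_sub_one_mem_and_smul_le_of_fg_of_le_sup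
      (I := Ideal.span {(Polynomial.X : Polynomial k)}) (N := K) (N' := ⊤) (P := ⊤)
      Module.Finite.fg_top le_rfl hle
    refine h4 r ?_ fun v => hr2 (Submodule.smul_mem_pointwise_smul v r ⊤ Submodule.mem_top)
    rintro rfl
    rw [Ideal.mem_span_singleton, Polynomial.X_dvd_iff] at hr1
    simp at hr1
  intro v hv n
  induction n generalizing v with
  | zero => exact hN _ ⟨v, hv, fun _ => rfl⟩
  | succ n ih =>
    have h0 := h1 _ (hN _ ⟨v, hv, fun _ => rfl⟩)
    have hs : (fun p => ((v - fun p => Polynomial.C ((v p).coeff 0)) p).divX) ∈ K :=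
      h2 _ (by
        rw [INJB_smul_div _ fun p => by simp]
        exact K.sub_mem hv h0)
    intro x y w a b c
    have := ih _ hs x y w a b c
    simpa [Polynomial.coeff_divX, Polynomial.coeff_C] using this

end CenLoc
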