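import Pool.Agent.P.MP_2862dc_ag.Stmts

namespace CenLoc

section IRR
variable {k I : Type} [Field k] [DecidableEq I]

lemma IRR_tri_apply (x y w p q : I) : tri (k := k) x y w (p, q) =
    (if p = x ∧ q = y then 1 else 0) + (if p = y ∧ q = w then 1 else 0) +
      (if p = w ∧ q = x then 1 else 0) := by
  simp [tri, Pi.single_apply, Prod.ext_iff]

omit [DecidableEq I] in
lemma IRR_N0 (mu c : I → k) (v : I × I → k)
    (h : ∀ i j, v (i, j) - v (j, i) = mu i * c j - mu j * c i) (x y w : I) :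
    xi mu x y w v = 0 := by
  simp only [xi, h]; ring

omit [DecidableEq I] in
lemma IRR_sym (mu : I → k) (v : I × I → k) (h : ∀ i j, v (i, j) = v (j, i)) (x y w : I) :
    xi mu x y w v = 0 :=
  IRR_N0 mu 0 v (fun i j => by simp [h i j]) x y w

lemma IRR_all (mu : I → k) (v : I × I → k)
    (h : ∀ x y w, x ≠ y → y ≠ w → x ≠ w → xi mu x y w v = 0) (x y w : I) :
    xi mu x y w v = 0 := by
  by_cases h1 : x = y
  · subst h1; simp only [xi]; ring
  by_cases h2 : y = w
  · subst h2; simp only [xi]; ring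
  by_cases h3 : x = w
  · subst h3; simp only [xi]; ring
  exact h x y w h1 h2 h3

lemma IRR_second (mu : I → k) (hmu : ∀ i, mu i ≠ 0) (v : I × I → k)
    (h : ∀ x y w, x ≠ y → y ≠ w → x ≠ w → xi mu x y w v = 0) :
    ∃ c : I → k, ∀ i j, v (i, j) - v (j, i) = mu i * c j - mu j * c i := by
  rcases isEmpty_or_nonempty I with hI | ⟨⟨a⟩⟩
  · exact ⟨0, fun i => isEmptyElim i⟩
  refine ⟨fun j => (v (a, j) - v (j, a)) / mu a, fun i j => ?_⟩
  have h1 := IRR_all mu v h a i j
  have h2 := hmu a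
  simp only [xi] at h1
  field_simp
  linear_combination h1

lemma IRR_cyc (x y w : I) : tri (k := k) y w x = tri x y w := by
  simp only [tri]; abel

lemma IRR_swap_sym (x y w i j : I) :
    (tri x y w + tri x w y : I × I → k) (i, j) = (tri x y w + tri x w y : I × I → k) (j, i) := by
  simp only [Pi.add_apply, IRR_tri_apply, and_comm (a := j = _)]
  ring

lemma IRR_deg_sym (x w i j : I) : tri (k := k) x x w (i, j) = tri (k := k) x x w (j, i) := by
  simp only [IRR_tri_apply, and_comm (a := j = _)]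
  ring

lemma IRR_xi_self (mu : I → k) {x y w : I} (h1 : x ≠ y) (h2 : y ≠ w) (h3 : x ≠ w) :
    xi mu x y w (tri x y w) = mu x + mu y + mu w := by
  simp [xi, IRR_tri_apply, h1, h2, h3, h1.symm, h2.symm, h3.symm]

lemma IRR_xi_new (mu : I → k) {x y w z : I} (h1 : x ≠ y) (h2 : y ≠ w) (h3 : x ≠ w)
    (h4 : z ≠ x) (h5 : z ≠ y) (h6 : z ≠ w) : xi mu x y z (tri x y w) = mu z := by
  simp [xi, IRR_tri_apply, h1, h2, h3, h1.symm, h4, h5, h6]

omit [DecidableEq I] in
lemma IRR_xi_sub (mu : I → k) (x y w : I) (v t : I × I → k) (r : k) :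
    xi mu x y w (v - r • t) = xi mu x y w v - r * xi mu x y w t := by
  simp only [xi, Pi.sub_apply, Pi.smul_apply, smul_eq_mul]; ring

lemma IRR_card4 [Fintype I] {x y w z : I} (h1 : x ≠ y) (h2 : y ≠ w) (h3 : x ≠ w)
    (h4 : z ≠ x) (h5 : z ≠ y) (h6 : z ≠ w) : 4 ≤ Fintype.card I := by
  have h : ({z, x, y, w} : Finset I).card = 4 := by
    rw [Finset.card_insert_of_notMem (by simp [h4, h5, h6]),
      Finset.card_insert_of_notMem (by simp [h1, h3]), Finset.card_pair h2]
  rw [← h]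
  exact Finset.card_le_univ _

/-- A matrix with zero row and column sums is a combination of triangles. -/
lemma IRR_expand [Fintype I] (a : I) (u : I × I → k) (hr : ∀ i, ∑ j, u (i, j) = 0)
    (hc : ∀ j, ∑ i, u (i, j) = 0) : ∑ j, ∑ m, u (j, m) • tri (k := k) a j m = u := by
  funext ⟨p, q⟩
  simp only [Finset.sum_apply, Pi.smul_apply, smul_eq_mul, IRR_tri_apply, mul_add,
    Finset.sum_add_distrib]
  have e1 : ∑ j, ∑ m, u (j, m) * (if p = a ∧ q = j then (1 : k) else 0) = 0 := by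
    refine Finset.sum_eq_zero fun j _ => ?_
    rw [← Finset.sum_mul, hr, zero_mul]
  have e2 : ∑ j, ∑ m, u (j, m) * (if p = j ∧ q = m then (1 : k) else 0) = u (p, q) := by
    rw [Finset.sum_eq_single p, Finset.sum_eq_single q]
    · simp
    · intro m _ hm
      simp [Ne.symm hm]
    · simp
    · intro j _ hj
      simp [Ne.symm hj]
    · simp
  have e3 : ∑ j, ∑ m, u (j, m) * (if p = m ∧ q = a then (1 : k) else 0) = 0 := by
    rw [Finset.sum_comm]
    refine Finset.sum_eq_zero fun m _ => ?_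
    rw [← Finset.sum_mul, hc, zero_mul]
  rw [e1, e2, e3, zero_add, add_zero]

lemma IRR_top [CharZero k] [Fintype I] (mu : I → k) (hs : ∑ i, mu i ≠ 0) (a : I)
    (U : Submodule k (I × I → k)) (h0 : ∀ v, (∀ x y w, xi mu x y w v = 0) → v ∈ U)
    (ht : ∀ x y w, tri (k := k) x y w ∈ U) : U = ⊤ := by
  refine eq_top_iff.2 fun v _ => ?_
  obtain ⟨c, hc⟩ : ∃ c : I → k, ∀ j, c j * ∑ i, mu i = ∑ i, (v (i, j) - v (j, i)) :=
    ⟨fun j => (∑ i, (v (i, j) - v (j, i))) / ∑ i, mu i, fun j => div_mul_cancel₀ _ hs⟩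
  have hc0 : ∑ j, c j = 0 := by
    refine mul_right_cancel₀ hs ?_
    rw [Finset.sum_mul, zero_mul]
    simp only [hc, Finset.sum_sub_distrib]
    rw [Finset.sum_comm, sub_self]
  obtain ⟨u, hu⟩ : ∃ u : I × I → k, ∀ i j,
      u (i, j) = v (i, j) - v (j, i) - (mu i * c j - mu j * c i) :=
    ⟨fun p => v (p.1, p.2) - v (p.2, p.1) - (mu p.1 * c p.2 - mu p.2 * c p.1), fun _ _ => rfl⟩
  have hcol : ∀ j, ∑ i, u (i, j) = 0 := by
    intro j
    simp only [hu]
    rw [Finset.sum_sub_distrib, ← hc, Finset.sum_sub_distrib, ← Finset.sum_mul, ← Finset.mul_sum,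
      hc0]
    ring
  have hrow : ∀ i, ∑ j, u (i, j) = 0 := by
    intro i
    have : ∀ j, u (i, j) = -u (j, i) := fun j => by rw [hu, hu]; ring
    simp only [this, Finset.sum_neg_distrib, hcol, neg_zero]
  have huU : u ∈ U := by
    rw [← IRR_expand a u hrow hcol]
    exact U.sum_mem fun j _ => U.sum_mem fun m _ => U.smul_mem _ (ht a j m)
  have hv : v - (1 / 2 : k) • u ∈ U := by
    refine h0 _ (IRR_N0 mu c _ fun i j => ?_)
    simp only [Pi.sub_apply, Pi.smul_apply, smul_eq_mul, hu]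
    ring
  have := U.add_mem hv (U.smul_mem (1 / 2 : k) huU)
  rwa [sub_add_cancel] at this

end IRR

theorem pf_IRR : StIRR := by
  intro k _ _ I _ _ mu hmu hs
  refine ⟨fun U h0 hex h4 => ?_, IRR_second mu hmu⟩
  obtain ⟨v, hv, x, y, w, h1, h2, h3, hxi⟩ := hex
  have h0' : ∀ v, (∀ x y w, xi mu x y w v = 0) → v ∈ U :=
    fun v h => h0 v fun x y w _ _ _ => h x y w
  have cyc : ∀ x y w : I, tri (k := k) x y w ∈ U → tri (k := k) y w x ∈ U :=
    fun x y w h => by rwa [IRR_cyc]
  have swap : ∀ x y w : I, tri (k := k) x y w ∈ U → tri (k := k) x w y ∈ U := by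
    intro x y w h
    have := U.sub_mem (h0' _ (IRR_sym mu _ (IRR_swap_sym x y w))) h
    rwa [add_sub_cancel_left] at this
  have deg : ∀ x w : I, tri (k := k) x x w ∈ U :=
    fun x w => h0' _ (IRR_sym mu _ (IRR_deg_sym x w))
  have rep : ∀ x y w z : I, x ≠ y → y ≠ w → x ≠ w → tri (k := k) x y w ∈ U →
      tri (k := k) x y z ∈ U := by
    intro x y w z h1 h2 h3 h
    by_cases h4' : z = x
    · subst h4'; exact cyc _ _ _ (deg z y)
    by_cases h5 : z = y
    · subst h5; exact cyc _ _ _ (cyc _ _ _ (deg z x))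
    by_cases h6 : z = w
    · subst h6; exact h
    refine h4 (IRR_card4 h1 h2 h3 h4' h5 h6) x y z h1 (Ne.symm h5) (Ne.symm h4') ⟨_, h, ?_⟩
    rw [IRR_xi_new mu h1 h2 h3 h4' h5 h6]
    exact hmu z
  have one : tri (k := k) x y w ∈ U := by
    by_cases hc : 4 ≤ Fintype.card I
    · exact h4 hc x y w h1 h2 h3 ⟨v, hv, hxi⟩
    have hall : ∀ z : I, z = x ∨ z = y ∨ z = w := by
      intro z
      by_contra hz
      push Not at hz
      exact hc (IRR_card4 h1 h2 h3 hz.1 hz.2.1 hz.2.2)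
    have hsum : ∑ i, mu i = mu x + mu y + mu w := by
      have e : (Finset.univ : Finset I) = {x, y, w} := by
        ext z; simpa using hall z
      rw [e, Finset.sum_insert (by simp [h1, h3]), Finset.sum_pair h2, add_assoc]
    rw [hsum] at hs
    obtain ⟨r, hr⟩ : ∃ r : k, r * (mu x + mu y + mu w) = xi mu x y w v :=
      ⟨_, div_mul_cancel₀ _ hs⟩
    have hr0 : r ≠ 0 := by
      rintro rfl
      exact hxi (by rw [← hr, zero_mul])
    obtain ⟨t, ht⟩ : ∃ t, t = v - r • tri (k := k) x y w := ⟨_, rfl⟩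
    have hz : xi mu x y w t = 0 := by
      rw [ht, IRR_xi_sub, IRR_xi_self mu h1 h2 h3, hr, sub_self]
    have htU : t ∈ U := by
      refine h0' t fun a b c => ?_
      simp only [xi] at hz ⊢
      rcases hall a with rfl | rfl | rfl <;> rcases hall b with rfl | rfl | rfl <;>
        rcases hall c with rfl | rfl | rfl <;>
        first
          | ring1
          | linear_combination hz
          | linear_combination -hz
    have h5 := U.sub_mem hv htU
    rw [ht, sub_sub_cancel] at h5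
    exact (U.smul_mem_iff hr0).1 h5
  refine IRR_top mu hs x U h0' fun a b c => ?_
  by_cases hab : a = b
  · subst hab; exact deg a c
  obtain ⟨y', w', g1, g2, g3, g⟩ : ∃ y' w' : I, a ≠ y' ∧ y' ≠ w' ∧ a ≠ w' ∧
      tri (k := k) a y' w' ∈ U := by
    by_cases e1 : a = x
    · subst e1; exact ⟨y, w, h1, h2, h3, one⟩
    by_cases e2 : a = y
    · subst e2; exact ⟨w, x, h2, h3.symm, e1, cyc _ _ _ one⟩
    exact ⟨x, y, e1, h1, e2, cyc _ _ _ (cyc _ _ _ (rep x y w a h1 h2 h3 one))⟩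
  by_cases e : b = y'
  · subst e; exact rep a b w' c g1 g2 g3 g
  exact rep a b y' c hab e g1 (swap _ _ _ (rep a y' w' b g1 g2 g3 g))

end CenLoc
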