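import Pool.Agent.P.MP_2862dc_ag.Basic

/-!
The parametrisation of logarithmic forms with a marked critical point is an immersion at a generic
line arrangement.
-/

namespace CenLoc

open MvPolynomial Filter Topology

lemma JACL_single {m : Fin 2 →₀ ℕ} (h : m.degree = 1) : ∃ i, m = Finsupp.single i 1 := by
  have hd : m 0 + m 1 = 1 := by
    rw [Finsupp.degree_eq_sum, Fin.sum_univ_two] at h
    exact h
  by_cases h0 : m 0 = 1
  · refine ⟨0, ?_⟩
    ext i
    fin_cases i
    · simpa using h0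
    · simp; omega
  · refine ⟨1, ?_⟩
    ext i
    fin_cases i
    · simp; omega
    · simp; omega

/-- Moving the marked point: the constant term of the derivative of a recentered polynomial. -/
lemma JACL_shift {R k : Type} [CommRing R] [CommRing k] (D : Der R k) (p : Fin 2 → R)
    (hp : ∀ i, D.c0 (p i) = 0) (a : Pol R) (ha : D.p1 a = 0) (h0 : coeff 0 (tr p a) = 0) :
    D.c1 (p 0) * coeff 0 (pderiv 0 (map D.c0 a)) + D.c1 (p 1) * coeff 0 (pderiv 1 (map D.c0 a)) =
      0 := by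
  have e : (fun i => D.c0 (p i)) = 0 := funext hp
  have h := congrArg (coeff 0) (D.p1_tr p a)
  rw [D.coeff_p1, h0, map_zero, e, ha, map_zero, zero_add, tr_zero, Fin.sum_univ_two, coeff_add,
    coeff_C_mul, coeff_C_mul] at h
  exact h.symm

lemma JACL_yext {k G : Type} [CommRing k] [Algebra ℂ k] [Fintype G] {dd : G → ℕ}
    (τ v : Idx dd → k) (g : G) (m : Mon (dd g)) :
    (Der.pt τ v).c1 (yext (X : Idx dd → MvPolynomial (Idx dd) ℂ) g m.1) = v ⟨g, m⟩ := by
  rw [yext, dif_pos m.2, Der.pt_c1_X]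

theorem pf_JACL (hDPI : StDPI) (hKER : StKER) (hLB : StLB) (hFINT : StFINT) : StJACL := by
  intro k G I _ _ _ _ _ _ L g0 τ hL hf hlam hp
  have : CharZero k := charZero_of_injective_algebraMap (algebraMap ℂ k).injective
  obtain ⟨hmu, -, -, hcard, h1, -, -, -, -, -, hjac⟩ := hLB k G I L hL
  have hs : ∑ g, L.dd g = Fintype.card I - 1 + 1 := by
    have := hL.three
    omega
  refine (injective_iff_map_eq_zero _).2 fun v hv => ?_
  have hF : yF g0 τ = L.f := by
    funext g
    rw [yF, hp, neg_zero, tr_zero, hf]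
  have hc0 : ∀ i, (Der.pt τ v).c0 (yp g0 X i) = 0 := fun i => by
    rw [Der.pt_c0, aeval_yp, hp]; rfl
  have hform0 : form (0 : Fin 2 × Mon (Fintype.card I - 1) → k) = 0 :=
    Prod.ext polyOf_zero polyOf_zero
  have hU : (Der.pt τ v).p1P (om (yF g0 X) (ylam g0 X)) = 0 := by
    rw [← form_ypi g0 h1 hs, Der.p1P_form, ← hform0, ← hv]
    rfl
  have hmap : mapP (Der.pt τ v).c0 (om (yF g0 X) (ylam g0 X)) = om L.f L.lam := by
    rw [mapP_om, ← hF, ← hlam]
    congr 1
    · funext g; exact map_aeval_yF g0 τ g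
    · funext g; exact aeval_ylam g0 τ g
  have hord := (hFINT _ G L.dd _ _ 0 (nrm_y g0 h1 (X : Idx L.dd → MvPolynomial _ ℂ))).1
  rw [← trP_om_yF, OrdP, pow_one, mem_mI, mem_mI] at hord
  have e1 := JACL_shift (Der.pt τ v) (yp g0 X) hc0 _ (congrArg Prod.fst hU) hord.1
  have e2 := JACL_shift (Der.pt τ v) (yp g0 X) hc0 _ (congrArg Prod.snd hU) hord.2
  have m1 : map (Der.pt τ v).c0 (om (yF g0 X) (ylam g0 X)).1 = (om L.f L.lam).1 :=
    congrArg Prod.fst hmap
  have m2 : map (Der.pt τ v).c0 (om (yF g0 X) (ylam g0 X)).2 = (om L.f L.lam).2 :=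
    congrArg Prod.snd hmap
  rw [m1] at e1
  rw [m2] at e2
  have hj : jac (om L.f L.lam) =
      coeff 0 (pderiv 0 (om L.f L.lam).1) * coeff 0 (pderiv 1 (om L.f L.lam).2) -
        coeff 0 (pderiv 1 (om L.f L.lam).1) * coeff 0 (pderiv 0 (om L.f L.lam).2) := by
    simp only [jac, jacP, ← constantCoeff_eq, map_sub, map_mul]
  have hdp : ∀ i, (Der.pt τ v).c1 (yp g0 X i) = 0 := by
    intro i
    refine (mul_eq_zero.mp ?_).resolve_right hjac
    rw [hj]
    fin_cases i
    · simp only [Fin.zero_eta]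
      linear_combination coeff 0 (pderiv 1 (om L.f L.lam).2) * e1 -
        coeff 0 (pderiv 1 (om L.f L.lam).1) * e2
    · simp only [Fin.mk_one]
      linear_combination coeff 0 (pderiv 0 (om L.f L.lam).1) * e2 -
        coeff 0 (pderiv 0 (om L.f L.lam).2) * e1
  have hFf : ∀ g, (Der.pt τ v).p1 (yF g0 X g) = (Der.pt τ v).p1 (yf g0 X g) := by
    intro g
    have e : (fun i => (Der.pt τ v).c0 ((-yp g0 X) i)) = 0 := by
      funext i
      rw [Pi.neg_apply, map_neg, hc0, neg_zero]; rfl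
    rw [yF, Der.p1_tr, e, tr_zero]
    simp [hdp]
  have hd := (hDPI G L.dd g0 _ h1 hs k τ v).1
  rw [hv, hform0, hF, hlam] at hd
  simp only [hFf] at hd
  obtain ⟨hr, hμ⟩ := hKER k G I L hL (fun g => (Der.pt τ v).p1 (yf g0 X g))
    (fun g => (Der.pt τ v).c1 (ylam g0 X g))
    (fun g => (Der.totalDegree_p1_le _ _).trans (totalDegree_polyOf_le _))
    (fun g => by rw [Der.coeff_p1, (nrm_y g0 h1 X).one g, Der.c1_one]) hd.symm
  have hr' : ∀ g, (Der.pt τ v).p1 (yf g0 X g) = 0 := fun g => congrFun hr g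
  have hμ' : ∀ g, (Der.pt τ v).c1 (ylam g0 X g) = 0 := fun g => congrFun hμ g
  have h00 : (Der.pt τ v).c1 (yext (X : Idx L.dd → MvPolynomial _ ℂ) g0 0) = 0 := by
    have := hμ' g0
    rwa [ylam, ynu, if_pos rfl, mul_one] at this
  have hne : (Der.pt τ v).c0 (yext (X : Idx L.dd → MvPolynomial _ ℂ) g0 0) ≠ 0 := by
    have e := aeval_ylam g0 τ g0
    rw [hlam, ylam, ynu, if_pos rfl, mul_one] at e
    rw [Der.pt_c0, e]
    obtain ⟨i, hi⟩ := hL.surj g0
    rw [← hi]
    exact hmu i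
  funext ⟨g, m⟩
  rw [Pi.zero_apply, ← JACL_yext τ v g m]
  by_cases hm : m.1 = 0
  · rw [hm]
    by_cases hg : g = g0
    · rwa [← hg] at h00
    · have := hμ' g
      rw [ylam, ynu, if_neg hg, Der.leib, h00, zero_mul, add_zero] at this
      exact (mul_eq_zero.mp this).resolve_left hne
  · by_cases hg : g = g0 ∧ m.1.degree = 1
    · obtain ⟨i, hi⟩ := JACL_single hg.2
      have e := hdp i
      rw [yp, ← hg.1] at e
      rw [hi]
      exact e
    · have := congrArg (coeff m.1) (hr' g)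
      rwa [Der.coeff_p1, coeff_yf g0 X g m.1 m.2, ycf, if_neg hm, if_neg hg, coeff_zero] at this

end CenLoc
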