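import Pool.Agent.P.MP_2862dc_ag.Stmts

/-! Taylor jets of analytic functions on the plane are polynomials. -/

namespace CenLoc

open MvPolynomial Filter Topology Asymptotics

theorem JET_diag {n : ℕ} (q : ContinuousMultilinearMap ℂ (fun _ : Fin n => Pt) ℂ) :
    ∃ T : Pol ℂ, ∀ y : Pt, q (fun _ => y) = eval y T := by
  refine ⟨∑ r : Fin n → Fin 2, C (q (fun j => Pi.single (r j) 1)) * ∏ j, X (r j), fun y => ?_⟩
  have hy : (fun _ : Fin n => y) = fun _ : Fin n => ∑ i : Fin 2, y i • (Pi.single i (1 : ℂ) : Pt) := by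
    funext _
    funext k
    fin_cases k <;> simp
  rw [hy, q.map_sum (fun (_ : Fin n) (i : Fin 2) => y i • (Pi.single i (1 : ℂ) : Pt))]
  rw [map_sum]
  refine Finset.sum_congr rfl fun r _ => ?_
  rw [q.map_smul_univ]
  simp [mul_comm]

theorem pf_JET : StJET := by
  intro g p N hg
  obtain ⟨q, hq⟩ := hg
  choose T hT using fun n => JET_diag (q n)
  refine ⟨∑ n ∈ Finset.range N, T n, ?_⟩
  have h1 := hq.isBigO_sub_partialSum_pow N
  have h2 : Tendsto (fun z : Pt => z - p) (𝓝 p) (𝓝 0) := by
    have : Tendsto (fun z : Pt => z - p) (𝓝 p) (𝓝 (p - p)) :=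
      (continuous_id.sub continuous_const).tendsto p
    simpa using this
  have h3 := h1.comp_tendsto h2
  refine h3.congr_left fun z => ?_
  simp only [Function.comp_apply, add_sub_cancel, FormalMultilinearSeries.partialSum, map_sum, hT]

end CenLoc
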