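import Pool.Agent.P.MP_2862dc_ag.Stmts

/-!
Polynomials with nonzero Jacobian determinant are algebraically independent.
-/

namespace CenLoc

open MvPolynomial

theorem JIND_chain {κ : Type} [Fintype κ] [DecidableEq κ] (π : κ → MvPolynomial κ ℂ) (u : κ)
    (A : MvPolynomial κ ℂ) :
    pderiv u (aeval π A) = ∑ v, pderiv u (π v) * aeval π (pderiv v A) := by
  induction A using MvPolynomial.induction_on with
  | C a => simp
  | add p q hp hq => simp only [map_add, hp, hq, mul_add, Finset.sum_add_distrib]
  | mul_X p i hp =>
    have e : ∀ v, pderiv u (π v) * aeval π (pderiv v (p * X i)) =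
        pderiv u (π v) * aeval π (pderiv v p) * π i
          + if v = i then aeval π p * pderiv u (π i) else 0 := by
      intro v
      rw [pderiv_mul, map_add, map_mul, map_mul, aeval_X]
      by_cases h : v = i
      · subst h
        rw [pderiv_X_self, if_pos rfl, map_one]
        ring
      · rw [pderiv_X_of_ne (Ne.symm h), if_neg h, map_zero]
        ring
    rw [map_mul, aeval_X, pderiv_mul, hp, Finset.sum_congr rfl fun v _ => e v,
      Finset.sum_add_distrib, Finset.sum_mul]
    simp

theorem JIND_aux {κ : Type} [Fintype κ] [DecidableEq κ] (π : κ → MvPolynomial κ ℂ)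
    (h : Matrix.det (Matrix.of fun u u' => pderiv u (π u')) ≠ 0) (n : ℕ) :
    ∀ A : MvPolynomial κ ℂ, aeval π A = 0 →
      (∀ m : κ →₀ ℕ, n ≤ m.degree → coeff m A = 0) → A = 0 := by
  induction n with
  | zero => exact fun A _ hA => MvPolynomial.ext _ _ fun m => hA m (Nat.zero_le _)
  | succ n ih =>
    intro A h0 hA
    have h1 : (fun v => aeval π (pderiv v A)) = 0 := by
      refine Matrix.eq_zero_of_mulVec_eq_zero h (funext fun u => ?_)
      have := JIND_chain π u A
      rw [h0, map_zero] at this
      exact this.symm
    have h2 : ∀ v, pderiv v A = 0 := fun v => ih _ (congrFun h1 v) fun m hm => by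
      rw [coeff_pderiv, hA _ (by rw [map_add, Finsupp.degree_single]; omega), zero_mul]
    have h3 : A = C (coeff 0 A) := by
      refine MvPolynomial.ext _ _ fun m => ?_
      rw [coeff_C]
      by_cases hm : 0 = m
      · rw [if_pos hm, ← hm]
      · rw [if_neg hm]
        obtain ⟨v, hv⟩ : ∃ v, m v ≠ 0 := by
          by_contra hc
          push Not at hc
          exact hm (Finsupp.ext hc).symm
        have e : m - Finsupp.single v 1 + Finsupp.single v 1 = m :=
          tsub_add_cancel_of_le (Finsupp.single_le_iff.2 (Nat.one_le_iff_ne_zero.2 hv))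
        have h4 := coeff_pderiv (i := v) A (m - Finsupp.single v 1)
        rw [h2 v, coeff_zero, e] at h4
        exact (mul_eq_zero.1 h4.symm).resolve_right (Nat.cast_add_one_ne_zero _)
    rw [h3, aeval_C, algebraMap_eq, C_eq_zero] at h0
    rw [h3, h0, C_0]

theorem pf_JIND : StJIND := by
  intro κ _ _ π h
  rw [algebraicIndependent_iff]
  intro A hA
  refine JIND_aux π h (A.totalDegree + 1) A hA fun m hm => ?_
  exact coeff_eq_zero_of_totalDegree_lt hm

end CenLoc
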