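import Pool.Agent.P.MP_2862dc_ag.Basic

/-! The differential of the logarithmic family is injective on normalised directions. -/

namespace CenLoc

open MvPolynomial

lemma KER_dvd {k G I : Type} [Field k] [DecidableEq I] (L : Lines k G I) (A : Finset I) {i : I}
    (hi : i ∈ A) (c : I → Pol k) :
    L.l i ∣ wedge (∑ m ∈ A, (c m * ∏ n ∈ A.erase m, L.l n) • ham (L.l m)) (ham (L.l i)) := by
  rw [wedge_sum_left]
  refine Finset.dvd_sum fun m _ => ?_
  rw [wedge_smul_left]
  by_cases h : m = i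
  · rw [h, wedge_self, mul_zero]; exact dvd_zero _
  · exact ((Finset.dvd_prod_of_mem _ (Finset.mem_erase.mpr ⟨Ne.symm h, hi⟩)).mul_left _).mul_right _

theorem pf_KER (hLB : StLB) (hDIV : StDIV) (hLDV : StLDV) : StKER := by
  intro k G I _ _ _ _ _ _ L hL r μ hdeg h0 hsum
  obtain ⟨-, -, -, -, -, -, -, hlg, htv, hN, -⟩ := hLB k G I L hL
  obtain ⟨hd1, hd2, hd3⟩ := hLDV k G I L hL
  have hlg' : ∑ g, μ g • lg L.f g =
      ∑ m, (C (μ (L.grp m)) * ∏ n ∈ Finset.univ.erase m, L.l n) • ham (L.l m) := by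
    rw [← hlg μ]
    exact Finset.sum_congr rfl fun m _ => by rw [smul_eq_C_smul, lg, smul_smul]
  have hli : ∀ i, L.l i ∣ r (L.grp i) := by
    intro i
    refine hDIV k G I L hL i _ ?_
    have e : tv L.f L.lam (L.grp i) (r (L.grp i)) =
        0 - (∑ g ∈ Finset.univ.erase (L.grp i), tv L.f L.lam g (r g) + ∑ g, μ g • lg L.f g) := by
      rw [← hsum, ← Finset.add_sum_erase _ _ (Finset.mem_univ (L.grp i))]; abel
    rw [e, wedge_sub_left, wedge_add_left, hlg', wedge_sum_left]
    refine dvd_sub (by simp [wedge]) (dvd_add (Finset.dvd_sum fun g hg => ?_)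
      (KER_dvd L _ (Finset.mem_univ i) _))
    have hi : i ∈ (L.fib g)ᶜ := by
      simpa [Lines.fib] using (Finset.ne_of_mem_erase hg).symm
    rw [htv, wedge_add_left, wedge_smul_left, wedge_smul_left]
    exact dvd_add (((Finset.dvd_prod_of_mem _ hi).mul_left _).mul_right _)
      ((KER_dvd L _ hi _).mul_left _)
  have hr : r = 0 := by
    funext g
    obtain ⟨q, hq⟩ : L.f g ∣ r g := hd1 _ _ fun i hi => by
      have : L.grp i = g := by simpa [Lines.fib] using hi
      exact this ▸ hli i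
    by_contra hne
    have hq0 : q ≠ 0 := fun h => hne (by rw [hq, h, mul_zero]; rfl)
    have hf0 : L.f g ≠ 0 := fun h => hne (by rw [hq, h, zero_mul]; rfl)
    have h1 := hdeg g
    rw [hq, totalDegree_mul_of_isDomain hf0 hq0, Lines.f, hd2, Lines.dd] at h1
    have h2 : q = C (coeff 0 q) := totalDegree_eq_zero_iff_eq_C.mp (by omega)
    have h3 := h0 g
    rw [hq, ← constantCoeff_eq, map_mul, constantCoeff_eq, hN.one, one_mul] at h3
    exact hq0 (by rw [h2, h3, C_0])
  refine ⟨hr, ?_⟩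
  subst hr
  simp only [Pi.zero_apply, tv_zero, Finset.sum_const_zero, zero_add] at hsum
  rw [hlg'] at hsum
  funext g
  obtain ⟨i, rfl⟩ := hL.surj g
  obtain ⟨j, hj⟩ : ∃ j, j ≠ i := Fintype.exists_ne_of_one_lt_card (by have := hL.three; omega) i
  have h1 := congrArg (fun u => wedge u (ham (L.l j))) hsum
  simp only [wedge_sum_left, wedge_smul_left, Lines.wedge_ham_l] at h1
  rw [← Finset.add_sum_erase _ _ (Finset.mem_univ j), L.br_self, C_0, mul_zero, zero_add] at h1
  have h2 : L.l j * ∑ m ∈ Finset.univ.erase j,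
      C (μ (L.grp m) * L.br m j) * ∏ n ∈ (Finset.univ.erase j).erase m, L.l n = 0 := by
    refine Eq.trans ?_ (h1.trans (by simp [wedge]))
    rw [Finset.mul_sum]
    refine Finset.sum_congr rfl fun m hm => ?_
    rw [← lg_mul L.l (Finset.ne_of_mem_erase hm), map_mul]; ring
  have hl0 : L.l j ≠ 0 := fun h => by simpa [h] using L.coeff_zero_l j
  have h3 := hd3 (Finset.univ.erase j) j (fun m => μ (L.grp m) * L.br m j) 0 (by simp)
    (by rw [(mul_eq_zero.mp h2).resolve_left hl0]; simp) i (by simpa using hj.symm)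
  exact (mul_eq_zero.mp h3).resolve_right (hL.br_ne i j hj.symm)

end CenLoc
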