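import Pool.Agent.P.MP_2862dc_ag.Basic

namespace CenLoc

open MvPolynomial

section
variable {k : Type} [Field k]

lemma KERN_hom_mem {g : Pol k} {j : ℕ} (h : g.IsHomogeneous j) : g ∈ mI k ^ j :=
  mem_mI_pow.mpr fun _ hm => h.coeff_eq_zero (ne_of_lt hm)

lemma KERN_hom_zero {g : Pol k} {j : ℕ} (h : g.IsHomogeneous j) (h' : g ∈ mI k ^ (j + 1)) :
    g = 0 := by
  ext m
  by_cases hm : m.degree = j
  · rw [coeff_zero]
    exact mem_mI_pow.mp h' m (by omega)
  · rw [coeff_zero]
    exact h.coeff_eq_zero hm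

lemma KERN_sub_hc {g : Pol k} {j : ℕ} (h : g ∈ mI k ^ j) :
    g - homogeneousComponent j g ∈ mI k ^ (j + 1) := by
  refine mem_mI_pow.mpr fun m hm => ?_
  rw [coeff_sub, coeff_homogeneousComponent]
  split_ifs with h1
  · exact sub_self _
  · rw [mem_mI_pow.mp h m (by omega), sub_zero]

lemma KERN_act2 {v : Pol k × Pol k} (hv : OrdP 2 v) {g : Pol k} {j : ℕ} (h : g ∈ mI k ^ j) :
    act v g ∈ mI k ^ (j + 1) := by
  cases j with
  | zero =>
    exact Ideal.add_mem _ (Ideal.mul_mem_right _ _ (mI_pow_mono (by omega) hv.1))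
      (Ideal.mul_mem_right _ _ (mI_pow_mono (by omega) hv.2))
  | succ j =>
    have e : j + 1 + 1 = 2 + j := by omega
    rw [e]
    exact Ideal.add_mem _ (mul_mem_mI_pow hv.1 (pderiv_mem_mI_pow h 0))
      (mul_mem_mI_pow hv.2 (pderiv_mem_mI_pow h 1))

lemma KERN_lin_hom (a b : k) : (C a * X 0 + C b * X 1 : Pol k).IsHomogeneous 1 :=
  (isHomogeneous_C_mul_X a 0).add (isHomogeneous_C_mul_X b 1)

lemma KERN_lin_hom' (a b : k) : (C a * X 0 - C b * X 1 : Pol k).IsHomogeneous 1 :=
  (isHomogeneous_C_mul_X a 0).sub (isHomogeneous_C_mul_X b 1)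

/-- The lowest part of an approximate first integral is a first integral of the linear part. -/
lemma KERN_hc {u u1 : Pol k × Pol k} (hu : OrdP 1 u) (h1 : u1.1.IsHomogeneous 1)
    (h2 : u1.2.IsHomogeneous 1) (hd : OrdP 2 (u - u1)) {g : Pol k} {j : ℕ} (hg : g ∈ mI k ^ j)
    (ha : act u g ∈ mI k ^ (j + 1)) : act u1 (homogeneousComponent j g) = 0 := by
  cases j with
  | zero => simp [act, homogeneousComponent_zero]
  | succ j =>
    have hh := homogeneousComponent_isHomogeneous (j + 1) g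
    have e : act u1 (homogeneousComponent (j + 1) g) = act u g -
        act (u - u1) (homogeneousComponent (j + 1) g) -
        act u (g - homogeneousComponent (j + 1) g) := by
      simp only [act, Prod.fst_sub, Prod.snd_sub, map_sub]
      ring
    refine KERN_hom_zero (j := j + 1) ?_ ?_
    · have p0 := h1.mul (hh.pderiv (i := 0))
      have p1 := h2.mul (hh.pderiv (i := 1))
      have e2 : 1 + (j + 1 - 1) = j + 1 := by omega
      rw [e2] at p0 p1
      exact p0.add p1
    · rw [e]
      exact Ideal.sub_mem _ (Ideal.sub_mem _ ha (KERN_act2 hd (KERN_hom_mem hh)))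
        (act_mem_mI_pow hu (KERN_sub_hc hg))

lemma KERN_deg_lt_two {m : Fin 2 →₀ ℕ} (hm : m.degree < 2) :
    m = 0 ∨ m = Finsupp.single 0 1 ∨ m = Finsupp.single 1 1 := by
  have h : m.degree = m 0 + m 1 := by
    rw [Finsupp.degree_eq_sum, Fin.sum_univ_two]
  rw [h] at hm
  have h0 : m 0 = 0 ∨ m 0 = 1 := by omega
  have h1 : m 1 = 0 ∨ m 1 = 1 := by omega
  rcases h0 with h0 | h0 <;> rcases h1 with h1 | h1
  · left
    ext i
    fin_cases i <;> simp [h0, h1]
  · right; right
    ext i
    fin_cases i <;> simp [h0, h1]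
  · right; left
    ext i
    fin_cases i <;> simp [h0, h1]
  · omega

lemma KERN_sub_lin {g : Pol k} (hg : g ∈ mI k ^ 1) :
    g - (C (coeff (Finsupp.single 0 1) g) * X 0 + C (coeff (Finsupp.single 1 1) g) * X 1) ∈
      mI k ^ 2 := by
  classical
  have h01 : (Finsupp.single (0 : Fin 2) 1 : Fin 2 →₀ ℕ) ≠ Finsupp.single 1 1 := by
    intro h
    have := congrArg (fun m : Fin 2 →₀ ℕ => m 0) h
    simp at this
  refine mem_mI_pow.mpr fun m hm => ?_
  rcases KERN_deg_lt_two hm with rfl | rfl | rfl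
  · have := mem_mI_pow.mp hg 0 (by simp)
    simp [this]
  · simp [coeff_C_mul, coeff_X, h01.symm]
  · simp [coeff_C_mul, coeff_X, h01]

lemma KERN_coeff_zero_mul (a b : Pol k) : coeff 0 (a * b) = coeff 0 a * coeff 0 b := by
  rw [← constantCoeff_eq, map_mul]

lemma KERN_coeff_zero_pderiv (i : Fin 2) (a : Pol k) :
    coeff 0 (pderiv i a) = coeff (Finsupp.single i 1) a := by
  rw [coeff_pderiv]
  simp

lemma KERN_pow_sub {H H0 : Pol k} (hH : H ∈ mI k ^ 2) (h0 : H0 ∈ mI k ^ 2)
    (hd : H - H0 ∈ mI k ^ 3) (i : ℕ) :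
    H0 ^ i ∈ mI k ^ (2 * i) ∧ H ^ i - H0 ^ i ∈ mI k ^ (2 * i + 1) := by
  induction i with
  | zero => simp
  | succ i ih =>
    refine ⟨?_, ?_⟩
    · rw [pow_succ, mul_add, mul_one]
      exact mul_mem_mI_pow ih.1 h0
    · have e : H ^ (i + 1) - H0 ^ (i + 1) = (H ^ i - H0 ^ i) * H + H0 ^ i * (H - H0) := by ring
      rw [e]
      refine Ideal.add_mem _ ?_ ?_
      · exact mI_pow_mono (by omega) (mul_mem_mI_pow ih.2 hH)
      · exact mI_pow_mono (by omega) (mul_mem_mI_pow ih.1 hd)

lemma KERN_act_pow {u : Pol k × Pol k} {H : Pol k} {I : Ideal (Pol k)} (h : act u H ∈ I) (c : k)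
    (i : ℕ) : act u (C c * H ^ i) ∈ I := by
  have e : act u (C c * H ^ i) = (C c * (i : Pol k) * H ^ (i - 1)) * act u H := by
    simp only [act, Derivation.leibniz, Derivation.leibniz_pow, pderiv_C, smul_eq_mul,
      nsmul_eq_mul]
    ring
  rw [e]
  exact Ideal.mul_mem_left _ _ h

lemma KERN_act_sum {u : Pol k × Pol k} {H a : Pol k} {I : Ideal (Pol k)} (h : act u H ∈ I)
    (ha : act u a ∈ I) (c : ℕ → k) (n : ℕ) :
    act u (a - ∑ i ∈ Finset.range n, C (c i) * H ^ i) ∈ I := by
  induction n with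
  | zero => simpa using ha
  | succ n ih =>
    have e : act u (a - ∑ i ∈ Finset.range (n + 1), C (c i) * H ^ i) =
        act u (a - ∑ i ∈ Finset.range n, C (c i) * H ^ i) - act u (C (c n) * H ^ n) := by
      rw [Finset.sum_range_succ]
      simp only [act, map_sub, map_add]
      ring
    rw [e]
    exact Ideal.sub_mem _ ih (KERN_act_pow h _ _)

end

theorem pf_KERN (hLIN : StLIN) : StKERN := by
  intro k _ _ u H a N hu htr hjac hH2 hH3 hact ha
  set α := coeff (Finsupp.single 0 1) u.1 with hα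
  set β := coeff (Finsupp.single 1 1) u.1 with hβ
  set γ := coeff (Finsupp.single 0 1) u.2 with hγ
  have hδ : coeff (Finsupp.single 1 1) u.2 = -α := by
    rw [dvg, coeff_add, KERN_coeff_zero_pderiv, KERN_coeff_zero_pderiv] at htr
    linear_combination htr
  have hne : α ^ 2 + β * γ ≠ 0 := by
    intro h
    apply hjac
    rw [jac, jacP, coeff_sub, KERN_coeff_zero_mul, KERN_coeff_zero_mul, KERN_coeff_zero_pderiv,
      KERN_coeff_zero_pderiv, KERN_coeff_zero_pderiv, KERN_coeff_zero_pderiv, hδ]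
    linear_combination -h
  have hd : OrdP 2 (u - (C α * X 0 + C β * X 1, C γ * X 0 - C α * X 1)) := by
    refine ⟨KERN_sub_lin hu.1, ?_⟩
    have := KERN_sub_lin hu.2
    rw [hδ, map_neg, neg_mul, ← sub_eq_add_neg] at this
    exact this
  have key : ∀ (g : Pol k) (j : ℕ), g ∈ mI k ^ j → act u g ∈ mI k ^ (j + 1) →
      homogeneousComponent j g = 0 ∨ ∃ (i : ℕ) (c : k), j = 2 * i ∧
        homogeneousComponent j g =
          C c * (C γ * X 0 ^ 2 - C (2 * α) * X 0 * X 1 - C β * X 1 ^ 2) ^ i :=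
    fun g j hg hg' => hLIN k α β γ _ j hne (homogeneousComponent_isHomogeneous j g)
      (KERN_hc hu (KERN_lin_hom α β) (KERN_lin_hom' γ α) hd hg hg')
  set q : Pol k := C γ * X 0 ^ 2 - C (2 * α) * X 0 * X 1 - C β * X 1 ^ 2 with hq
  have hsub := KERN_sub_hc hH2
  have hH0 : homogeneousComponent 2 H ≠ 0 := by
    intro h
    rw [h, sub_zero] at hsub
    exact hH3 hsub
  obtain ⟨i0, c0, hi0, hc0⟩ := (key H 2 hH2 (mI_pow_mono (by omega) hact)).resolve_left hH0
  have hi1 : i0 = 1 := by omega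
  subst hi1
  rw [pow_one] at hc0
  have hc0ne : c0 ≠ 0 := by
    rintro rfl
    apply hH0
    rw [hc0, map_zero, zero_mul]
  have hpow := KERN_pow_sub hH2 (KERN_hom_mem (homogeneousComponent_isHomogeneous 2 H)) hsub
  have main : ∀ j, j ≤ N →
      ∃ c : ℕ → k, a - ∑ i ∈ Finset.range ((j + 1) / 2), C (c i) * H ^ i ∈ mI k ^ j := by
    intro j
    induction j with
    | zero => exact fun _ => ⟨0, by simp⟩
    | succ j ih =>
      intro hj
      obtain ⟨c, hc⟩ := ih (by omega)
      have hr := KERN_act_sum (I := mI k ^ (j + 1)) (mI_pow_mono (by omega) hact)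
        (mI_pow_mono hj ha) c ((j + 1) / 2)
      have hs := KERN_sub_hc hc
      have hk := key _ j hc hr
      rcases Nat.even_or_odd' j with ⟨i, rfl | rfl⟩
      · have e1 : (2 * i + 1) / 2 = i := by omega
        have e2 : (2 * i + 1 + 1) / 2 = i + 1 := by omega
        rw [e1] at hs hk
        obtain ⟨e, he⟩ : ∃ e : k, homogeneousComponent (2 * i)
            (a - ∑ l ∈ Finset.range i, C (c l) * H ^ l) =
              C e * homogeneousComponent 2 H ^ i := by
          rcases hk with h | ⟨i', c', h1, h2⟩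
          · exact ⟨0, by rw [h, map_zero, zero_mul]⟩
          · have : i' = i := by omega
            subst this
            refine ⟨c' / c0 ^ i', ?_⟩
            rw [h2, hc0, mul_pow, ← map_pow, ← mul_assoc, ← map_mul,
              div_mul_cancel₀ _ (pow_ne_zero _ hc0ne)]
        refine ⟨Function.update c i e, ?_⟩
        rw [e2, Finset.sum_range_succ, Function.update_self]
        have e3 : ∑ l ∈ Finset.range i, C (Function.update c i e l) * H ^ l =
            ∑ l ∈ Finset.range i, (C (c l) * H ^ l : Pol k) :=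
          Finset.sum_congr rfl fun l hl => by
            rw [Function.update_of_ne (ne_of_lt (Finset.mem_range.mp hl))]
        rw [e3]
        rw [he] at hs
        have := Ideal.sub_mem _ hs (Ideal.mul_mem_left _ (C e) (hpow i).2)
        convert this using 1
        ring
      · have e2 : (2 * i + 1 + 1 + 1) / 2 = (2 * i + 1 + 1) / 2 := by omega
        refine ⟨c, ?_⟩
        rw [e2]
        rcases hk with h | ⟨i', c', h1, -⟩
        · rwa [h, sub_zero] at hs
        · omega
  exact main N le_rfl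

end CenLoc
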