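import Pool.Agent.P.MP_2862dc_ag.Basic

/-! The algebraic input, assembled at a sufficiently general line arrangement. -/

namespace CenLoc

open MvPolynomial

/-- A finite type with a map to `G` whose fibres have prescribed sizes. -/
lemma KEY_types (G : Type) [Fintype G] [DecidableEq G] (dd : G → ℕ) :
    ∃ (I : Type) (_ : Fintype I) (_ : DecidableEq I) (grp : I → G),
      ∀ g, (Finset.univ.filter fun i => grp i = g).card = dd g := by
  refine ⟨Σ g : G, Fin (dd g), inferInstance, inferInstance, Sigma.fst, fun g => ?_⟩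
  have : (Finset.univ.filter fun i : Σ g : G, Fin (dd g) => i.1 = g) =
      Finset.univ.map ⟨fun x : Fin (dd g) => (⟨g, x⟩ : Σ g : G, Fin (dd g)),
        fun a b h => by simpa using h⟩ := by
    ext ⟨g', x⟩
    simp only [Finset.mem_filter, Finset.mem_univ, true_and, Finset.mem_map,
      Function.Embedding.coeFn_mk]
    constructor
    · rintro rfl; exact ⟨x, rfl⟩
    · rintro ⟨y, hy⟩; exact (congrArg Sigma.fst hy).symm
  rw [this]; simp

/-- An injective differential gives independent gradient vectors. -/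
lemma KEY_indep {ι κ k : Type} [Fintype κ] [Field k] [Algebra ℂ k]
    (θ : ι → MvPolynomial κ ℂ) (τ : κ → k) (h : Function.Injective (dmap θ τ)) :
    LinearIndependent k (fun u : κ => fun w : ι =>
      (aeval τ : MvPolynomial κ ℂ →ₐ[ℂ] k).toRingHom (pderiv u (θ w))) := by
  rw [Fintype.linearIndependent_iff]
  intro v hv u
  have h0 : dmap θ τ v = dmap θ τ 0 := by
    rw [map_zero]
    funext w
    have := congrFun hv w
    simp only [Finset.sum_apply, Pi.smul_apply, smul_eq_mul, Pi.zero_apply] at this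
    rw [dmap_apply, Der.pt_c1, Pi.zero_apply, ← this]
    exact Finset.sum_congr rfl fun u _ => mul_comm _ _
  exact congrFun (h h0) u

theorem pf_KEY (hEXL : StEXL) (hINJ : StINJ) (hEPS : StEPS) (hSURJ : StSURJ) (hGEN : StGEN)
    (hJACL : StJACL) (hLIS : StLIS) (hSYLL : StSYLL) (hLB : StLB) : StKEY := by
  intro G _ _ dd g0 d hd h2 h1 hs
  obtain ⟨I, _, _, grp, hgrp⟩ := KEY_types G dd
  have hcard : Fintype.card I = d + 1 := by
    rw [← hs, ← Finset.card_univ,
      Finset.card_eq_sum_card_fiberwise (f := grp) (t := Finset.univ) (fun _ _ => by simp)]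
    exact Finset.sum_congr rfl fun g _ => hgrp g
  have hsurj : Function.Surjective grp := fun g => by
    have : (Finset.univ.filter fun i => grp i = g).Nonempty :=
      Finset.card_pos.mp (by rw [hgrp g]; exact h1 g)
    obtain ⟨i, hi⟩ := this
    exact ⟨i, (Finset.mem_filter.mp hi).2⟩
  obtain ⟨k, _, _, L, hL, hG, hR⟩ := hEXL G I grp hsurj h2 (by omega)
  have : CharZero k := charZero_of_injective_algebraMap (algebraMap ℂ k).injective
  have hdd : L.dd = dd := by
    funext g
    rw [← hgrp g, ← hL]; rfl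
  subst hdd
  have hd' : d = Fintype.card I - 1 := by omega
  subst hd'
  have hI : L.Inj := hINJ k G I L hG hR
  obtain ⟨hmu, -, -, -, -, -, -, -, -, hN, -⟩ := hLB k G I L hG
  have hlam : L.lam g0 ≠ 0 := by
    obtain ⟨i, hi⟩ := hG.surj g0
    have := hmu i
    rwa [Lines.mu, hi] at this
  obtain ⟨τ, hf, hl, hp⟩ := hSURJ G L.dd g0 h1 k L.f L.lam 0 hN hlam
  refine ⟨?_, ?_, k, inferInstance, inferInstance, τ, ?_⟩
  · obtain ⟨K, _, _, f, lam, N, hNf, hlam', hj, hr⟩ := hEPS k G I L hG hI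
    obtain ⟨τ0, hf0, hl0, hp0⟩ := hSURJ G L.dd g0 h1 K f lam 0 hNf (hlam' g0)
    obtain ⟨Ψ, hΨ, hh⟩ := hGEN G L.dd g0 (Fintype.card I - 1) h1 K τ0 N hp0
      (by rw [hf0, hl0]; exact hj) (by rw [hf0, hl0]; exact hr)
    exact ⟨N, Ψ, hΨ, hh⟩
  · have hinj := hJACL k G I L g0 τ hG hf hl hp
    obtain ⟨e, he⟩ := hLIS (MvPolynomial (Idx L.dd) ℂ) k
      (aeval τ : MvPolynomial (Idx L.dd) ℂ →ₐ[ℂ] k).toRingHom (Idx L.dd)
      (Fin 2 × Mon (Fintype.card I - 1))
      (fun u w => pderiv u (piU (Fintype.card I - 1) L.dd g0 w)) (KEY_indep _ τ hinj)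
    refine ⟨e, fun h0 => he ?_⟩
    rw [h0, map_zero]
  · have hF : yF g0 τ = L.f := by
      funext g
      rw [yF, hp, neg_zero, tr_zero, hf]
    rw [form_ypi g0 h1 hs, hF, hl]
    exact hSYLL k G I L hG

end CenLoc
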