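import Pool.Agent.P.MP_2862dc_ag.Basic

/-! Equations of the set of pairs (form, center) vanish on the logarithmic chart. -/

namespace CenLoc

open MvPolynomial Filter Topology

lemma KILL_eval_aeval {ι κ : Type} (θ : ι → MvPolynomial κ ℂ) (τ : κ → ℂ)
    (Φ : MvPolynomial ι ℂ) : eval τ (aeval θ Φ) = eval (fun i => aeval τ (θ i)) Φ := by
  induction Φ using MvPolynomial.induction_on with
  | C c => simp
  | add p q hp hq => simp only [map_add, hp, hq]
  | mul_X p i hp => simp only [map_mul, hp, aeval_X, eval_X]; rfl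

lemma KILL_jac {G : Type} [Fintype G] [DecidableEq G] {dd : G → ℕ} (g0 : G) (τ : Idx dd → ℂ) :
    eval τ (jac (om (yf g0 (X : Idx dd → MvPolynomial (Idx dd) ℂ)) (ylam g0 X))) =
      jac (om (yf g0 τ) (ylam g0 τ)) := by
  have h := jac_mapP (aeval τ : MvPolynomial (Idx dd) ℂ →ₐ[ℂ] ℂ).toRingHom
    (om (yf g0 (X : Idx dd → MvPolynomial (Idx dd) ℂ)) (ylam g0 X))
  rw [mapP_om] at h
  have h1 : (fun j => map (aeval τ : MvPolynomial (Idx dd) ℂ →ₐ[ℂ] ℂ).toRingHom (yf g0 X j)) =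
      yf g0 τ := funext fun j => map_aeval_yf g0 τ j
  have h2 : (fun j => (aeval τ : MvPolynomial (Idx dd) ℂ →ₐ[ℂ] ℂ).toRingHom (ylam g0 X j)) =
      ylam g0 τ := by
    funext j
    rw [AlgHom.toRingHom_eq_coe, RingHom.coe_coe]
    exact aeval_ylam g0 τ j
  rw [h1, h2] at h
  rw [h]
  rfl

theorem pf_KILL (hMORSE : StMORSE) (hFINT : StFINT) : StKILL := by
  intro G _ _ dd g0 d h1 hs Δ hΔ hne hex
  have key : ∀ τ : Idx dd → ℂ, jac (om (yf g0 τ) (ylam g0 τ)) ≠ 0 →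
      IsCenter (form (ypi d g0 τ)) (yp g0 τ) ∧
        Nonempty (Chart (form (ypi d g0 τ)) (yp g0 τ)) := by
    intro τ hτ
    rw [form_ypi g0 h1 hs]
    have hO := (hFINT ℂ G dd (yf g0 τ) (ylam g0 τ) 0 (nrm_y g0 h1 τ)).1
    rw [← trP_om_yF g0 τ] at hO hτ
    rw [jac_trP] at hτ
    refine hMORSE G (yF g0 τ) (ylam g0 τ) (yp g0 τ) (eval_yF g0 τ) ?_ ?_ hτ
    · have h := hO.1
      rw [pow_one, mem_mI] at h
      rw [← coeff_zero_tr]; exact h
    · have h := hO.2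
      rw [pow_one, mem_mI] at h
      rw [← coeff_zero_tr]; exact h
  refine ⟨key, fun Φ hΦ => ?_⟩
  set J : MvPolynomial (Idx dd) ℂ :=
    jac (om (yf g0 (X : Idx dd → MvPolynomial (Idx dd) ℂ)) (ylam g0 X)) with hJ
  have hJ0 : J ≠ 0 := by
    obtain ⟨τ, hτ⟩ := hex
    intro h
    apply hτ
    rw [← KILL_jac g0 τ, ← hJ, h, map_zero]
  have hz : aeval (piT d dd g0) Φ * (J * aeval (piU d dd g0) Δ) = 0 := by
    apply MvPolynomial.funext
    intro τ
    rw [map_zero, map_mul, map_mul]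
    by_cases hj : eval τ J = 0
    · rw [hj, zero_mul, mul_zero]
    by_cases hd : eval τ (aeval (piU d dd g0) Δ) = 0
    · rw [hd, mul_zero, mul_zero]
    rw [hJ, KILL_jac] at hj
    rw [KILL_eval_aeval, funext (aeval_piU g0 d τ)] at hd
    rw [KILL_eval_aeval, aeval_piT g0 d τ, hΦ, zero_mul]
    simp only [cenPairs, Set.mem_ofPred_eq, Sum.elim_comp_inl, Sum.elim_comp_inr]
    exact ⟨(hΔ _ hd).1, (hΔ _ hd).2, (key τ hj).1⟩
  exact (mul_eq_zero.1 hz).resolve_right (mul_ne_zero hJ0 hne)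

end CenLoc
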