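import Pool.Agent.P.MP_2862dc_ag.Stmts

namespace CenLoc

open MvPolynomial

lemma KOS_div {k : Type} [Field k] {a b : Ser k}
    (h : MvPowerSeries.X 0 * a = MvPowerSeries.X 1 * b) :
    ∃ c : Ser k, a = MvPowerSeries.X 1 * c ∧ b = MvPowerSeries.X 0 * c := by
  have h1 : (MvPowerSeries.X 1 : Ser k) ∣ a := by
    rw [MvPowerSeries.X_dvd_iff]
    intro m hm
    have h2 : MvPowerSeries.coeff (Finsupp.single 0 1 + m) (MvPowerSeries.X 0 * a) =
        MvPowerSeries.coeff m a := by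
      rw [MvPowerSeries.X_def, MvPowerSeries.coeff_add_monomial_mul, one_mul]
    rw [← h2, h]
    refine MvPowerSeries.X_dvd_iff.1 (dvd_mul_right (MvPowerSeries.X 1 : Ser k) b) _ ?_
    simp [hm]
  obtain ⟨c, rfl⟩ := h1
  refine ⟨c, rfl, ?_⟩
  have h3 : (MvPowerSeries.X 1 : Ser k) ≠ 0 := by
    intro h0
    have := congrArg (MvPowerSeries.coeff (Finsupp.single (1 : Fin 2) 1)) h0
    simp [MvPowerSeries.coeff_X] at this
  apply mul_left_cancel₀ h3
  rw [← h]
  ring

lemma KOS_dec {k : Type} [Field k] {g : Pol k} (h : g ∈ mI k ^ 1) :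
    ∃ A B : Pol k, g = A * X 0 + B * X 1 := by
  rw [pow_one] at h
  obtain ⟨c, hc⟩ := Ideal.mem_span_range_iff_exists_fun.1 h
  exact ⟨c 0, c 1, by rw [← hc, Fin.sum_univ_two]⟩

theorem pf_KOS : StKOS := by
  intro k _ u hu hj β hβ
  obtain ⟨A, B, h1⟩ := KOS_dec hu.1
  obtain ⟨C', E, h2⟩ := KOS_dec hu.2
  have hD : jac u = constantCoeff (A * E - B * C') := by
    unfold jac jacP
    rw [h1, h2, ← constantCoeff_eq]
    simp [Derivation.leibniz, pderiv_X]
  have hU : IsUnit ((A * E - B * C' : Pol k) : Ser k) := by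
    rw [MvPowerSeries.isUnit_iff_constantCoeff, ← MvPowerSeries.coeff_zero_eq_constantCoeff_apply,
      MvPolynomial.coeff_coe, ← constantCoeff_eq, ← hD]
    exact hj.isUnit
  obtain ⟨D, hD'⟩ := hU.exists_left_inv
  have e1 : (coeP u).1 = (A : Ser k) * MvPowerSeries.X 0 + (B : Ser k) * MvPowerSeries.X 1 := by
    simp [coeP, h1]
  have e2 : (coeP u).2 = (C' : Ser k) * MvPowerSeries.X 0 + (E : Ser k) * MvPowerSeries.X 1 := by
    simp [coeP, h2]
  have e3 : ((A * E - B * C' : Pol k) : Ser k) = (A : Ser k) * E - (B : Ser k) * C' := by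
    have := map_sub (MvPolynomial.coeToMvPowerSeries.ringHom (σ := Fin 2) (R := k)) (A * E) (B * C')
    simpa using this
  rw [e3] at hD'
  unfold wedge at hβ
  rw [e1, e2] at hβ
  obtain ⟨c, hc1, hc2⟩ := KOS_div (a := (A : Ser k) * β.2 - (C' : Ser k) * β.1)
    (b := (E : Ser k) * β.1 - (B : Ser k) * β.2) (by linear_combination hβ)
  refine ⟨D * c, Prod.ext ?_ ?_⟩
  · rw [Prod.smul_fst, e1, smul_eq_mul]
    linear_combination (-β.1) * hD' + D * (B : Ser k) * hc1 + D * (A : Ser k) * hc2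
  · rw [Prod.smul_snd, e2, smul_eq_mul]
    linear_combination (-β.2) * hD' + D * (E : Ser k) * hc1 + D * (C' : Ser k) * hc2

end CenLoc
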