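import Pool.Agent.P.MP_2862dc_ag.Basic

namespace CenLoc

open MvPolynomial

section LB
variable {k G I : Type} [Field k] [Fintype G] [DecidableEq G] [Fintype I] [DecidableEq I]
  (L : Lines k G I)

/-- The lines belonging to a set of groups. -/
def LB_A (S : Finset G) : Finset I := Finset.univ.filter fun i => L.grp i ∈ S

omit [Fintype G] [DecidableEq I] in
lemma LB_prod (S : Finset G) : ∏ j ∈ S, L.f j = ∏ i ∈ LB_A L S, L.l i :=
  Finset.prod_fiberwise_eq_prod_filter _ _ _ _

omit [DecidableEq I] in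
lemma LB_A_univ : LB_A L Finset.univ = Finset.univ := by
  ext i; simp [LB_A]

lemma LB_A_erase (g : G) : LB_A L (Finset.univ.erase g) = (L.fib g)ᶜ := by
  ext i; simp [LB_A, Lines.fib]

omit [Fintype G] in
lemma LB_one (S : Finset G) (j : G) (hj : j ∈ S) :
    (∏ m ∈ S.erase j, L.f m) • ham (L.f j) =
      ∑ i ∈ L.fib j, (∏ n ∈ (LB_A L S).erase i, L.l n) • ham (L.l i) := by
  rw [LB_prod, Lines.f, ham_prod, Finset.smul_sum]
  refine Finset.sum_congr rfl fun i hi => ?_
  have hi' : L.grp i = j := by simpa [Lines.fib] using hi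
  rw [smul_smul, ← Finset.prod_union]
  · congr 2
    ext n
    simp only [LB_A, Lines.fib, Finset.mem_union, Finset.mem_filter, Finset.mem_univ, true_and,
      Finset.mem_erase]
    constructor
    · rintro (⟨h1, h2⟩ | ⟨h1, h2⟩)
      · exact ⟨fun h => h1 (h ▸ hi'), h2⟩
      · exact ⟨h1, h2 ▸ hj⟩
    · rintro ⟨h1, h2⟩
      by_cases h : L.grp n = j
      · exact Or.inr ⟨h1, h⟩
      · exact Or.inl ⟨h, h2⟩
  · rw [Finset.disjoint_left]
    intro n h1 h2
    simp only [LB_A, Lines.fib, Finset.mem_filter, Finset.mem_univ, true_and,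
      Finset.mem_erase] at h1 h2
    exact h1.1 h2.2

omit [Fintype G] in
lemma LB_sum (S : Finset G) (c : G → k) :
    ∑ j ∈ S, c j • ((∏ m ∈ S.erase j, L.f m) • ham (L.f j)) =
      ∑ i ∈ LB_A L S, c (L.grp i) • ((∏ n ∈ (LB_A L S).erase i, L.l n) • ham (L.l i)) := by
  rw [LB_A, ← Finset.sum_fiberwise_eq_sum_filter]
  refine Finset.sum_congr rfl fun j hj => ?_
  rw [LB_one L S j hj, Finset.smul_sum]
  refine Finset.sum_congr rfl fun i hi => ?_
  have hi' : L.grp i = j := by simpa [Lines.fib] using hi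
  rw [hi']
  rfl

lemma LB_lg (c : G → k) : ∑ i, c (L.grp i) • lg L.l i = ∑ g, c g • lg L.f g := by
  have := LB_sum L Finset.univ c
  rw [LB_A_univ] at this
  exact this.symm

lemma LB_om : om L.f L.lam = om L.l L.mu := by
  rw [om_eq, om_eq, ← LB_lg]
  rfl

lemma LB_tv (g : G) (r : Pol k) : tv L.f L.lam g r =
    (C (L.lam g) * ∏ m ∈ (L.fib g)ᶜ, L.l m) • ham r +
      r • ∑ m ∈ (L.fib g)ᶜ, (C (L.mu m) * ∏ n ∈ ((L.fib g)ᶜ).erase m, L.l n) • ham (L.l m) := by
  have h := LB_sum L (Finset.univ.erase g) L.lam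
  rw [LB_A_erase] at h
  rw [tv, LB_prod, LB_A_erase]
  congr 2
  simp only [smul_eq_C_smul, smul_smul] at h
  exact h

omit [Fintype G] [DecidableEq G] [Fintype I] [DecidableEq I] in
lemma LB_pderiv_l (i : I) (c : Fin 2) : pderiv c (L.l i) = C (![L.a i, L.b i] c) := by
  fin_cases c <;> simp [Lines.l]

omit [Fintype G] [DecidableEq G] [Fintype I] in
lemma LB_cc_prod (A : Finset I) (c : Fin 2) :
    constantCoeff (pderiv c (∏ j ∈ A, L.l j)) = ∑ j ∈ A, ![L.a j, L.b j] c := by
  induction A using Finset.induction_on with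
  | empty => simp
  | insert i A hi ih =>
    have h1 : constantCoeff (L.l i) = 1 := L.coeff_zero_l i
    have h2 : constantCoeff (∏ j ∈ A, L.l j) = 1 :=
      coeff_zero_prod _ _ fun j _ => L.coeff_zero_l j
    rw [Finset.prod_insert hi, Finset.sum_insert hi, Derivation.leibniz, map_add, smul_eq_mul,
      smul_eq_mul, map_mul, map_mul, ih, h1, h2, LB_pderiv_l, constantCoeff_C]
    ring

omit [Fintype G] [DecidableEq G] in
lemma LB_cc_sum (w : I → k) (hw : ∑ i, L.mu i * w i = 0) (c : Fin 2) :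
    constantCoeff (pderiv c (∑ i, C (L.mu i) * (∏ j ∈ Finset.univ.erase i, L.l j) * C (w i))) =
      -∑ i, L.mu i * ![L.a i, L.b i] c * w i := by
  have e : ∀ i, constantCoeff (pderiv c
      (C (L.mu i) * (∏ j ∈ Finset.univ.erase i, L.l j) * C (w i))) =
      (∑ j, ![L.a j, L.b j] c) * (L.mu i * w i) - L.mu i * ![L.a i, L.b i] c * w i := by
    intro i
    have : C (L.mu i) * (∏ j ∈ Finset.univ.erase i, L.l j) * C (w i) =
        C (L.mu i * w i) * ∏ j ∈ Finset.univ.erase i, L.l j := by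
      rw [map_mul]; ring
    rw [this, pderiv_C_mul, map_mul, constantCoeff_C, LB_cc_prod,
      ← Finset.add_sum_erase _ _ (Finset.mem_univ i)]
    ring
  rw [map_sum, map_sum, Finset.sum_congr rfl fun i _ => e i, Finset.sum_sub_distrib,
    ← Finset.mul_sum, hw]
  ring

lemma LB_jac (hL : L.Gen) : jac (om L.l L.mu) ≠ 0 := by
  have ha := LB_cc_sum L L.a hL.crit_a
  have hb := LB_cc_sum L L.b hL.crit_b
  have e : jac (om L.l L.mu) = (∑ i, L.mu i * L.a i ^ 2) * (∑ i, L.mu i * L.b i ^ 2) -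
      (∑ i, L.mu i * L.a i * L.b i) ^ 2 := by
    have e1 : ∑ i, L.mu i * L.a i * L.a i = ∑ i, L.mu i * L.a i ^ 2 :=
      Finset.sum_congr rfl fun i _ => by ring
    have e2 : ∑ i, L.mu i * L.b i * L.b i = ∑ i, L.mu i * L.b i ^ 2 :=
      Finset.sum_congr rfl fun i _ => by ring
    have e3 : ∑ i, L.mu i * L.b i * L.a i = ∑ i, L.mu i * L.a i * L.b i :=
      Finset.sum_congr rfl fun i _ => by ring
    rw [jac, ← constantCoeff_eq, jacP]
    simp only [om, LB_pderiv_l, map_sub, map_mul, map_neg, Matrix.cons_val_zero,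
      Matrix.cons_val_one]
    rw [ha 0, ha 1, hb 0, hb 1]
    simp only [Matrix.cons_val_zero, Matrix.cons_val_one, e1, e2, e3]
    ring
  rw [e]
  exact hL.hess

omit [DecidableEq I] in
lemma LB_fiber (w : I → k) : ∑ g, L.lam g * ∑ i ∈ L.fib g, w i = ∑ i, L.mu i * w i := by
  rw [← Finset.sum_fiberwise Finset.univ L.grp]
  refine Finset.sum_congr rfl fun g _ => ?_
  rw [Finset.mul_sum]
  refine Finset.sum_congr rfl fun i hi => ?_
  have hi' : L.grp i = g := by simpa [Lines.fib] using hi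
  rw [Lines.mu, hi']

lemma LB_nrm (hL : L.Gen) : Nrm L.dd L.f L.lam where
  deg g := by
    refine (totalDegree_prod_le _ _ (fun _ => 1) fun i _ => L.totalDegree_l_le i).trans ?_
    simp [Lines.dd]
  one g := coeff_zero_prod _ _ fun j _ => L.coeff_zero_l j
  crit c := by
    have e : ∀ g, coeff (Finsupp.single c 1) (L.f g) = ∑ i ∈ L.fib g, ![L.a i, L.b i] c := by
      intro g
      rw [← LB_cc_prod, constantCoeff_eq, coeff_pderiv]
      simp [Lines.f]
    simp only [e]
    rw [LB_fiber]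
    fin_cases c
    · simpa using hL.crit_a
    · simpa using hL.crit_b

lemma LB_dd (hL : L.Gen) (g : G) : 1 ≤ L.dd g := by
  obtain ⟨i, hi⟩ := hL.surj g
  exact Finset.card_pos.mpr ⟨i, by simp [Lines.fib, hi]⟩

lemma LB_lam (hL : L.Gen) (g : G) : L.lam g ≠ 0 := by
  intro h
  have := hL.indep (Pi.single g 1) (by
    rw [Finset.sum_eq_single g]
    · simp [h]
    · intro b _ hb; simp [hb]
    · simp) g
  simp at this

lemma LB_lam_ne (hL : L.Gen) (g g' : G) (hg : g ≠ g') : L.lam g ≠ L.lam g' := by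
  intro h
  have e : ∀ x : G, ∑ j, ((Pi.single x 1 : G → ℤ) j : k) * L.lam j = L.lam x := by
    intro x
    rw [Finset.sum_eq_single x]
    · simp
    · intro b _ hb; simp [hb]
    · simp
  have := hL.indep (Pi.single g 1 - Pi.single g' 1) (by
    simp only [Pi.sub_apply, Int.cast_sub, sub_mul, Finset.sum_sub_distrib, e, h, sub_self]) g
  simp [hg] at this

lemma LB_sum_mu (hL : L.Gen) : ∑ i, L.mu i ≠ 0 := by
  intro h
  have e := LB_fiber L fun _ => 1
  obtain ⟨g, -, -⟩ := hL.two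
  have := hL.indep (fun g => (L.dd g : ℤ)) (by
    simp only [mul_one, h, Finset.sum_const, nsmul_eq_mul] at e
    rw [← e]
    refine Finset.sum_congr rfl fun j _ => ?_
    simp [Lines.dd, mul_comm]) g
  have h1 := LB_dd L hL g
  omega

end LB

theorem pf_LB : StLB := by
  intro k G I _ _ _ _ _ _ L hL
  refine ⟨fun i => LB_lam L hL _, LB_sum_mu L hL, LB_lam_ne L hL, ?_, LB_dd L hL, ?_, LB_om L,
    LB_lg L, LB_tv L, LB_nrm L hL, ?_⟩
  · rw [← Finset.card_univ]
    exact (Finset.card_eq_sum_card_fiberwise (f := L.grp) (t := Finset.univ)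
      fun _ _ => Finset.mem_coe.mpr (Finset.mem_univ _)).symm
  · rw [LB_prod, LB_A_univ]
  · rw [LB_om]; exact LB_jac L hL

end CenLoc
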