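import Pool.Agent.P.MP_2862dc_ag.Stmts

/-!
Linear compactness of power series.
-/

namespace CenLoc

open MvPolynomial Filter Topology

/-- A functional on a product which only depends on finitely many coordinates is given by a
finitely supported row. -/
lemma LC_row {k A : Type} [Field k] (L : (A → k) →ₗ[k] k) (S : Finset A)
    (hL : ∀ v : A → k, (∀ a ∈ S, v a = 0) → L v = 0) :
    ∃ r : A →₀ k, ∀ v : A → k, L v = Finsupp.linearCombination k v r := by
  classical
  refine ⟨∑ a ∈ S, Finsupp.single a (L (Pi.single a 1)), fun v => ?_⟩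
  have h0 : L (v - ∑ a ∈ S, v a • (Pi.single a 1 : A → k)) = 0 := by
    apply hL
    intro a ha
    simp only [Pi.sub_apply, Finset.sum_apply, Pi.smul_apply, smul_eq_mul]
    rw [Finset.sum_eq_single a]
    · simp
    · intro b _ hb
      simp [Ne.symm hb]
    · intro h; exact absurd ha h
  rw [map_sub, sub_eq_zero] at h0
  rw [h0, map_sum, map_sum]
  refine Finset.sum_congr rfl fun a _ => ?_
  simp [mul_comm]

/-- A system of row finite linear equations is solvable once all finite subsystems are. -/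
lemma LC_abs {k A E : Type} [Field k] (L : E → (A → k) →ₗ[k] k) (c : E → k)
    (hL : ∀ e, ∃ S : Finset A, ∀ v : A → k, (∀ a ∈ S, v a = 0) → L e v = 0)
    (hc : ∀ F : Finset E, ∃ v : A → k, ∀ e ∈ F, L e v = c e) :
    ∃ v : A → k, ∀ e, L e v = c e := by
  classical
  have hr : ∀ e, ∃ r : A →₀ k, ∀ v : A → k, L e v = Finsupp.linearCombination k v r := by
    intro e
    obtain ⟨S, hS⟩ := hL e
    exact LC_row (L e) S hS
  choose r hr using hr
  let Rw : (E →₀ k) →ₗ[k] (A →₀ k) := Finsupp.linearCombination k r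
  let Cf : Module.Dual k (E →₀ k) := Finsupp.linearCombination k c
  have hker : Cf ∈ (LinearMap.ker Rw).dualAnnihilator := by
    rw [Submodule.mem_dualAnnihilator]
    intro y hy
    obtain ⟨v, hv⟩ := hc y.support
    have h1 : Cf y = Finsupp.linearCombination k v (Rw y) := by
      simp only [Cf, Rw, Finsupp.linearCombination_apply k (l := y), Finsupp.sum, map_sum,
        map_smul]
      refine Finset.sum_congr rfl fun e he => ?_
      rw [← hr e v, hv e he]
    rw [h1, LinearMap.mem_ker.mp hy, map_zero]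
  rw [← LinearMap.range_dualMap_eq_dualAnnihilator_ker] at hker
  obtain ⟨φ, hφ⟩ := hker
  refine ⟨fun a => φ (Finsupp.single a 1), fun e => ?_⟩
  have h2 : Finsupp.linearCombination k (fun a => φ (Finsupp.single a 1)) = φ := by
    ext a
    simp
  rw [hr e, h2]
  have h3 := LinearMap.congr_fun hφ (Finsupp.single e 1)
  simpa [Rw, Cf] using h3

/-- Families of series as functions on pairs. -/
def LC_toSer (k ι : Type) [Field k] : (ι × (Fin 2 →₀ ℕ) → k) →ₗ[k] (ι → Ser k) where
  toFun v i := fun m => v (i, m)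
  map_add' _ _ := rfl
  map_smul' _ _ := rfl

lemma LC_coeff_toSer {k ι : Type} [Field k] (v : ι × (Fin 2 →₀ ℕ) → k) (i : ι)
    (m : Fin 2 →₀ ℕ) : MvPowerSeries.coeff m (LC_toSer k ι v i) = v (i, m) := rfl

lemma LC_toSer_surj {k ι : Type} [Field k] (a : ι → Ser k) :
    LC_toSer k ι (fun w => MvPowerSeries.coeff w.2 (a w.1)) = a := rfl

theorem pf_LC : StLC := by
  intro k _ ι κ _ _ T b hT hb
  classical
  let L : κ × (Fin 2 →₀ ℕ) → (ι × (Fin 2 →₀ ℕ) → k) →ₗ[k] k := fun e =>
    (MvPowerSeries.coeff e.2) ∘ₗ (LinearMap.proj e.1) ∘ₗ T ∘ₗ LC_toSer k ι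
  have hLe : ∀ e v, L e v = MvPowerSeries.coeff e.2 (T (LC_toSer k ι v) e.1) := fun _ _ => rfl
  obtain ⟨v, hv⟩ := LC_abs L (fun e => MvPowerSeries.coeff e.2 (b e.1)) (by
    intro e
    obtain ⟨M, hM⟩ := hT (e.2.degree + 1)
    refine ⟨Finset.univ ×ˢ (Finsupp.finite_of_degree_le (σ := Fin 2) M).toFinset,
      fun v hv => ?_⟩
    rw [hLe]
    refine hM _ (fun i m hm => ?_) e.1 e.2 (Nat.lt_succ_self _)
    rw [LC_coeff_toSer]
    apply hv
    simp only [Finset.mem_product, Finset.mem_univ, Set.Finite.mem_toFinset, Set.mem_ofPred_eq,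
      true_and]
    exact hm.le) (by
    intro F
    obtain ⟨a, ha⟩ := hb (F.sup (fun e => e.2.degree) + 1)
    refine ⟨fun w => MvPowerSeries.coeff w.2 (a w.1), fun e he => ?_⟩
    rw [hLe, LC_toSer_surj]
    exact ha e.1 e.2 (Nat.lt_succ_of_le (Finset.le_sup (f := fun e => e.2.degree) he)))
  refine ⟨LC_toSer k ι v, ?_⟩
  funext j
  ext m
  exact hv (j, m)

end CenLoc
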