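import Pool.Agent.P.MP_2862dc_ag.Basic

namespace CenLoc

open MvPolynomial

set_option linter.unusedSectionVars false

section
variable {k G I : Type} [Field k] [Fintype G] [DecidableEq G] [Fintype I] [DecidableEq I]
  {L : Lines k G I}

lemma LDV_point (h : L.Gen) {i j : I} (hij : i ≠ j) :
    ∃ q : Fin 2 → k, eval q (L.l i) = 0 ∧ eval q (L.l j) = 0 ∧
      ∀ m, m ≠ i → m ≠ j → eval q (L.l m) ≠ 0 := by
  have hb := h.br_ne i j hij
  have h1 : eval ![(L.b i - L.b j) / L.br i j, (L.a j - L.a i) / L.br i j] (L.l i) = 0 := by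
    simp only [Lines.l, map_add, map_mul, map_one, eval_C, eval_X, Matrix.cons_val_zero,
      Matrix.cons_val_one]
    field_simp
    simp only [Lines.br]; ring
  have h2 : eval ![(L.b i - L.b j) / L.br i j, (L.a j - L.a i) / L.br i j] (L.l j) = 0 := by
    simp only [Lines.l, map_add, map_mul, map_one, eval_C, eval_X, Matrix.cons_val_zero,
      Matrix.cons_val_one]
    field_simp
    simp only [Lines.br]; ring
  refine ⟨_, h1, h2, fun m hmi hmj h3 => h.D_ne i j m hij hmj.symm hmi.symm ?_⟩
  have := congrArg (eval ![(L.b i - L.b j) / L.br i j, (L.a j - L.a i) / L.br i j])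
    (L.br_rel i j m)
  simp only [map_add, map_mul, h1, h2, h3, eval_C, mul_zero, add_zero] at this
  exact this.symm

lemma LDV_ne (i : I) : L.l i ≠ 0 := fun h0 => by
  have := L.coeff_zero_l i
  rw [h0] at this
  simp at this

lemma LDV_deg (h : L.Gen) (i : I) : (L.l i).totalDegree = 1 := by
  refine le_antisymm (L.totalDegree_l_le i) (Nat.one_le_iff_ne_zero.mpr fun h0 => ?_)
  obtain ⟨j, hj⟩ := Fintype.exists_ne_of_one_lt_card (by have := h.three; omega) i
  obtain ⟨q, hq, -, -⟩ := LDV_point h hj.symm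
  rw [totalDegree_eq_zero_iff_eq_C.mp h0, L.coeff_zero_l] at hq
  simp at hq

lemma LDV_irr (h : L.Gen) (i : I) : Irreducible (L.l i) :=
  irreducible_of_totalDegree_eq_one (LDV_deg h i) fun x hx => by
    have := hx 0
    rw [L.coeff_zero_l] at this
    exact isUnit_of_dvd_one this

lemma LDV_rel (h : L.Gen) {i j : I} (hij : i ≠ j) : IsRelPrime (L.l i) (L.l j) := by
  refine (LDV_irr h i).isRelPrime_iff_not_dvd.mpr fun hd => ?_
  have hc : ({i, j} : Finset I).card < (Finset.univ : Finset I).card := by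
    have h1 : ({i, j} : Finset I).card ≤ 2 := Finset.card_le_two
    have h2 := h.three
    rw [Finset.card_univ]; omega
  obtain ⟨m, -, hm⟩ := Finset.exists_mem_notMem_of_card_lt_card hc
  simp only [Finset.mem_insert, Finset.mem_singleton, not_or] at hm
  obtain ⟨q, hq, -, hq'⟩ := LDV_point h (Ne.symm hm.1)
  obtain ⟨c, hc⟩ := hd
  apply hq' j hij.symm (Ne.symm hm.2)
  rw [hc, map_mul, hq, zero_mul]

end

theorem pf_LDV : StLDV := by
  intro k G I _ _ _ _ _ _ L h
  refine ⟨fun A r hr => ?_, fun A => ?_, fun A j κ w hj hd i hi => ?_⟩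
  · exact Finset.prod_dvd_of_isRelPrime (fun i _ j _ hij => LDV_rel h hij) hr
  · induction A using Finset.induction_on with
    | empty => simp
    | insert i A hi ih =>
      rw [Finset.prod_insert hi, Finset.card_insert_of_notMem hi,
        totalDegree_mul_of_isDomain (LDV_ne i) (Finset.prod_ne_zero_iff.mpr fun m _ => LDV_ne m),
        LDV_deg h, ih, add_comm]
  · have hij : i ≠ j := fun e => hj (e ▸ hi)
    obtain ⟨q, h1, h2, h3⟩ := LDV_point h hij
    obtain ⟨c, hc⟩ := hd
    have e := congrArg (eval q) hc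
    have z : ∏ m ∈ A, eval q (L.l m) = 0 := Finset.prod_eq_zero hi h1
    simp only [map_sub, map_sum, map_mul, map_prod, eval_C, h2, z, zero_mul, mul_zero,
      sub_zero] at e
    rw [Finset.sum_eq_single_of_mem i hi] at e
    · refine (mul_eq_zero.mp e).resolve_right (Finset.prod_ne_zero_iff.mpr fun m hm => ?_)
      exact h3 m (Finset.ne_of_mem_erase hm) fun e' => hj (e' ▸ Finset.mem_of_mem_erase hm)
    · intro i' _ hne
      rw [Finset.prod_eq_zero (Finset.mem_erase.mpr ⟨hne.symm, hi⟩) h1, mul_zero]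

end CenLoc
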