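import Pool.Agent.P.MP_2862dc_ag.Stmts

/-! The leading coefficient of a null polynomial vanishes at the origin. -/

namespace CenLoc

noncomputable section

section
variable {k : Type} [Field k]

lemma LEAD_comm (a : Ser k) :
    MvPowerSeries.pderiv k 0 (MvPowerSeries.pderiv k 1 a) =
      MvPowerSeries.pderiv k 1 (MvPowerSeries.pderiv k 0 a) := by
  ext n
  simp only [MvPowerSeries.coeff_pderiv]
  rw [add_right_comm]
  simp only [Finsupp.coe_add, Pi.add_apply, ne_eq, zero_ne_one, not_false_eq_true,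
    Finsupp.single_eq_of_ne, one_ne_zero, add_zero]
  ring

lemma LEAD_dvg_zero : dvgS (0 : Ser k × Ser k) = 0 := by simp [dvgS]

lemma LEAD_wedge_zero (h : Ser k × Ser k) : wedge h (0 : Ser k × Ser k) = 0 := by simp [wedge]

lemma LEAD_dvg_sub (u : Ser k × Ser k) (c : Ser k) : dvgS (u - hamS c) = dvgS u := by
  simp only [dvgS, hamS, Prod.fst_sub, Prod.snd_sub, map_sub, map_neg, LEAD_comm]
  ring

lemma LEAD_wedge_sub (h u : Ser k × Ser k) (hc : dvgS h = 0) (c : Ser k) :
    wedge h (u - hamS c) = dvgS (c • h) + wedge h u := by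
  have h1 : MvPowerSeries.pderiv k 1 h.2 = -MvPowerSeries.pderiv k 0 h.1 := by
    have : MvPowerSeries.pderiv k 0 h.1 + MvPowerSeries.pderiv k 1 h.2 = 0 := hc
    linear_combination this
  simp only [dvgS, hamS, wedge, Prod.fst_sub, Prod.snd_sub, Prod.smul_fst, Prod.smul_snd,
    smul_eq_mul, Derivation.leibniz, h1]
  ring

lemma LEAD_main (h : Ser k × Ser k) (hm : Morse h) (ρ : Polynomial (Ser k)) (M : ℕ)
    (hd : ρ.natDegree ≤ M) (n : ℕ) :
    ∀ b : ℤ → Ser k × Ser k, (∀ j : ℤ, (M : ℤ) + n ≤ j → b j = 0) →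
      (∀ j : ℤ, (if 0 ≤ j then ρ.coeff j.toNat else 0) = dvgS (b j) + wedge h (b (j - 1))) →
      MvPowerSeries.constantCoeff (ρ.coeff M) = 0 := by
  induction n with
  | zero =>
    intro b hb he
    have h1 := he M
    rw [if_pos (by omega), Int.toNat_natCast, hb M (by omega), LEAD_dvg_zero, zero_add] at h1
    rw [h1]
    simp [wedge, hm.c1, hm.c2]
  | succ n ih =>
    intro b hb he
    have h1 := he ((M : ℤ) + n + 1)
    rw [if_pos (by omega), hb _ (by push_cast; omega), LEAD_dvg_zero, zero_add,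
      Polynomial.coeff_eq_zero_of_natDegree_lt (by omega), add_sub_cancel_right] at h1
    obtain ⟨c, hc⟩ := hm.kos _ h1.symm
    refine ih (fun j => if j = (M : ℤ) + n then 0 else
      if j = (M : ℤ) + n - 1 then b j - hamS c else b j) ?_ ?_
    · intro j hj
      by_cases h2 : j = (M : ℤ) + n
      · simp only [h2, if_true]
      · rw [if_neg h2, if_neg (by omega)]
        exact hb j (by push_cast; omega)
    · intro j
      rw [he j]
      by_cases h2 : j = (M : ℤ) + n
      · rw [if_pos h2, if_neg (by omega), if_pos (by omega), LEAD_dvg_zero, zero_add,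
          LEAD_wedge_sub h _ hm.closed, h2, hc]
      · rw [if_neg h2]
        by_cases h3 : j = (M : ℤ) + n - 1
        · rw [if_pos h3, if_neg (by omega), if_neg (by omega), LEAD_dvg_sub]
        · rw [if_neg h3]
          by_cases h4 : j = (M : ℤ) + n + 1
          · rw [if_pos (by omega), LEAD_wedge_zero, h4, add_sub_cancel_right, ← h1]
          · rw [if_neg (by omega), if_neg (by omega)]

end

theorem pf_LEAD : StLEAD := by
  intro k _ h hm ρ M hN hd
  obtain ⟨b, ⟨m, hb⟩, he⟩ := hN
  exact LEAD_main h hm ρ M hd (m + 1).toNat b (fun j hj => hb j (by omega)) he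

end

end CenLoc
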