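import Pool.Agent.P.MP_2862dc_ag.Basic

/-! Every logarithmic form with a singular point off the curves lifts to the chart. -/

namespace CenLoc

open MvPolynomial

section
variable {R : Type} [CommRing R] {G : Type} [Fintype G] [DecidableEq G]

lemma LIFT_lg_scale (c : G → R) (f : G → Pol R) (g : G) :
    lg (fun j => c j • f j) g = (∏ j, c j) • lg f g := by
  have h : ham (C (c g) * f g) = (C (c g) : Pol R) • ham (f g) := by
    rw [ham_mul, ham_C, smul_zero, add_zero]
  simp only [lg, smul_eq_C_mul, Finset.prod_mul_distrib]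
  rw [← Finset.mul_prod_erase _ c (Finset.mem_univ g), smul_eq_C_smul, h, smul_smul, smul_smul,
    ← map_prod, map_mul]
  congr 1
  ring

lemma LIFT_om_scale (c : G → R) (f : G → Pol R) (lam : G → R) :
    om (fun j => c j • f j) lam = om f fun g => lam g * ∏ j, c j := by
  simp only [om_eq, LIFT_lg_scale, smul_smul]

lemma LIFT_coeff_om {f : G → Pol R} (lam : G → R) (h : ∀ g, coeff 0 (f g) = 1) :
    coeff 0 (om f lam).1 = ∑ g, lam g * coeff (Finsupp.single 1 1) (f g) ∧
    coeff 0 (om f lam).2 = -∑ g, lam g * coeff (Finsupp.single 0 1) (f g) := by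
  have key : ∀ i : Fin 2, coeff 0 (∑ g, C (lam g) * (∏ j ∈ Finset.univ.erase g, f j) *
      pderiv i (f g)) = ∑ g, lam g * coeff (Finsupp.single i 1) (f g) := by
    intro i
    rw [coeff_sum]
    refine Finset.sum_congr rfl fun g _ => ?_
    rw [← constantCoeff_eq, map_mul, map_mul, constantCoeff_C, constantCoeff_eq,
      coeff_zero_prod _ _ fun j _ => h j, coeff_pderiv]
    simp
  exact ⟨key 1, by rw [← key 0]; simp only [om, coeff_neg]⟩

end

theorem pf_LIFT (hSURJ : StSURJ) : StLIFT := by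
  intro G _ _ dd g0 h1 f lam p hf hl hF e1 e2
  have hg : ∀ g, eval p (f g) ≠ 0 := by
    intro g
    rw [map_prod] at hF
    exact Finset.prod_ne_zero_iff.mp hF g (Finset.mem_univ g)
  set c : G → ℂ := fun g => (eval p (f g))⁻¹ with hc
  set fc : G → Pol ℂ := fun g => c g • tr p (f g) with hfc
  set lam' : G → ℂ := fun g => lam g * eval p (∏ g, f g) with hlam
  have hom : om fc lam' = trP p (om f lam) := by
    rw [trP_om, hfc, LIFT_om_scale]
    congr 1
    funext g
    rw [hlam, mul_assoc, map_prod, ← Finset.prod_mul_distrib,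
      Finset.prod_eq_one fun j _ => mul_inv_cancel₀ (hg j), mul_one]
  have hone : ∀ g, coeff 0 (fc g) = 1 := by
    intro g
    rw [hfc]
    simp only [coeff_smul, coeff_zero_tr, smul_eq_mul, hc]
    exact inv_mul_cancel₀ (hg g)
  have hN : Nrm dd fc lam' := by
    refine ⟨fun g => (totalDegree_smul_le _ _).trans ((totalDegree_tr_le _ _).trans (hf g)),
      hone, ?_⟩
    obtain ⟨k1, k2⟩ := LIFT_coeff_om lam' hone
    rw [hom] at k1 k2
    simp only [trP, coeff_zero_tr, e1, e2] at k1 k2
    intro i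
    fin_cases i
    · exact neg_eq_zero.mp k2.symm
    · exact k1.symm
  obtain ⟨τ, t1, t2, t3⟩ := hSURJ G dd g0 h1 ℂ fc lam' p hN (mul_ne_zero hl hF)
  refine ⟨τ, t3, ?_⟩
  have e := trP_om_yF g0 τ
  rw [t1, t3] at e
  conv_rhs at e => rw [t2, hom]
  have inj : ∀ u : Pol ℂ × Pol ℂ, trP (-p) (trP p u) = u := fun u => by
    simp [trP, tr_neg_tr]
  rw [← inj (om (yF g0 τ) (ylam g0 τ)), e, inj]

end CenLoc
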