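import Pool.Agent.P.MP_2862dc_ag.Stmts

namespace CenLoc

open Module

lemma LIS_span {K A J : Type} [Field K] [Fintype A] [DecidableEq A] (v : A → J → K)
    (hv : LinearIndependent K v) :
    Submodule.span K (Set.range fun j : J => fun a : A => v a j) = ⊤ := by
  by_contra hne
  obtain ⟨f, hf0, hf⟩ := Submodule.exists_dual_map_eq_bot_of_lt_top
    (lt_top_iff_ne_top.mpr hne) inferInstance
  apply hf0
  have hrel : ∑ a, f (fun j => if a = j then 1 else 0) • v a = 0 := by
    funext j
    have hmem : f (fun a => v a j) ∈ Submodule.map f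
        (Submodule.span K (Set.range fun j : J => fun a : A => v a j)) :=
      Submodule.mem_map_of_mem (Submodule.subset_span ⟨j, rfl⟩)
    rw [hf, Submodule.mem_bot, LinearMap.pi_apply_eq_sum_univ] at hmem
    simp only [Finset.sum_apply, Pi.smul_apply, smul_eq_mul, Pi.zero_apply] at hmem ⊢
    exact (Finset.sum_congr rfl fun a _ => mul_comm _ _).trans hmem
  have hz := Fintype.linearIndependent_iff.mp hv _ hrel
  refine LinearMap.ext fun x => ?_
  rw [LinearMap.pi_apply_eq_sum_univ]
  simp [hz]

theorem pf_LIS : StLIS := by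
  intro U K _ _ φ A J _ _ w hw
  classical
  have hspan := LIS_span (fun a => fun j => φ (w a j)) hw
  obtain ⟨κ, a, ha, hsp, hli⟩ :=
    exists_linearIndependent' K (fun j : J => fun a : A => φ (w a j))
  rw [hspan] at hsp
  let b : Basis κ K (A → K) := Basis.mk hli hsp.ge
  let e : A ≃ κ := (Pi.basisFun K A).indexEquiv b
  refine ⟨fun x => a (e x), ?_⟩
  rw [RingHom.map_det]
  have hcol : LinearIndependent K
      (φ.mapMatrix (Matrix.of fun x x' => w x (a (e x')))).col := by
    have := hli.comp e e.injective
    exact this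
  have hu := Matrix.linearIndependent_cols_iff_isUnit.mp hcol
  exact ((Matrix.isUnit_iff_isUnit_det _).mp hu).ne_zero

end CenLoc
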