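import Pool.Agent.P.MP_2862dc_ag.Stmts

/-!
An immersed affine space with the full tangent space is locally everything.
-/

namespace CenLoc

open MvPolynomial

section LOC
variable {σ : Type} [Fintype σ]

/-- The maximal ideal of a point. -/
noncomputable def LOC_m (y : σ → ℂ) : Ideal (MvPolynomial σ ℂ) := RingHom.ker (eval y)

/-- The linear form with coefficients `a` centred at `y`. -/
noncomputable def LOC_lin (y a : σ → ℂ) : MvPolynomial σ ℂ := ∑ i, C (a i) * (X i - C (y i))

omit [Fintype σ] in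
lemma LOC_mem {y : σ → ℂ} {Φ : MvPolynomial σ ℂ} : Φ ∈ LOC_m y ↔ eval y Φ = 0 :=
  RingHom.mem_ker

lemma LOC_lin_mem (y a : σ → ℂ) : LOC_lin y a ∈ LOC_m y := by
  simp [LOC_mem, LOC_lin]

lemma LOC_lin_add (y a b : σ → ℂ) : LOC_lin y (a + b) = LOC_lin y a + LOC_lin y b := by
  simp [LOC_lin, add_mul, Finset.sum_add_distrib]

lemma LOC_lin_smul (y a : σ → ℂ) (c : ℂ) : LOC_lin y (c • a) = C c * LOC_lin y a := by
  simp [LOC_lin, Finset.mul_sum, mul_assoc]

lemma LOC_lin_sum {β : Type} (s : Finset β) (y : σ → ℂ) (a : β → σ → ℂ) :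
    LOC_lin y (∑ b ∈ s, a b) = ∑ b ∈ s, LOC_lin y (a b) := by
  classical
  induction s using Finset.induction_on with
  | empty => simp [LOC_lin]
  | insert b s hb ih => rw [Finset.sum_insert hb, Finset.sum_insert hb, LOC_lin_add, ih]

lemma LOC_lin_single [DecidableEq σ] (y : σ → ℂ) (j : σ) :
    LOC_lin y (Pi.single j 1) = X j - C (y j) := by
  unfold LOC_lin
  rw [Finset.sum_eq_single j]
  · simp
  · intro i _ hi
    simp [Pi.single_eq_of_ne hi]
  · simp

lemma LOC_taylor (y : σ → ℂ) (Φ : MvPolynomial σ ℂ) :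
    Φ - C (eval y Φ) - LOC_lin y (fun i => eval y (pderiv i Φ)) ∈ LOC_m y ^ 2 := by
  classical
  induction Φ using MvPolynomial.induction_on with
  | C a => simp [LOC_lin]
  | add p q hp hq =>
    have h : (fun i => eval y (pderiv i (p + q))) =
        (fun i => eval y (pderiv i p)) + fun i => eval y (pderiv i q) := by
      funext i; simp
    rw [h, LOC_lin_add]
    convert Ideal.add_mem _ hp hq using 1
    simp only [map_add]; ring
  | mul_X p j hp =>
    have h : (fun i => eval y (pderiv i (p * X j))) =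
        y j • (fun i => eval y (pderiv i p)) + eval y p • (Pi.single j 1 : σ → ℂ) := by
      funext i
      by_cases hij : i = j
      · subst hij; simp; ring
      · simp [pderiv_X_of_ne (Ne.symm hij), Pi.single_eq_of_ne hij]
    rw [h, LOC_lin_add, LOC_lin_smul, LOC_lin_smul, LOC_lin_single]
    have h1 : LOC_lin y (fun i => eval y (pderiv i p)) * (X j - C (y j)) ∈ LOC_m y ^ 2 := by
      rw [pow_two]
      exact Ideal.mul_mem_mul (LOC_lin_mem _ _) (by simp [LOC_mem])
    convert Ideal.add_mem _ (Ideal.mul_mem_right (X j) _ hp) h1 using 1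
    simp only [map_mul, eval_X]; ring

omit [Fintype σ] in
lemma LOC_endo (n : Ideal (MvPolynomial σ ℂ)) (E : MvPolynomial σ ℂ →ₐ[ℂ] MvPolynomial σ ℂ)
    (hE : ∀ u, E (X u) - X u ∈ n ^ 2) (k : ℕ) : ∀ b ∈ n ^ k, E b - b ∈ n ^ (k + 1) := by
  have h2 : ∀ b, E b - b ∈ n ^ 2 := by
    intro b
    induction b using MvPolynomial.induction_on with
    | C a => simp
    | add p q hp hq =>
      convert Ideal.add_mem _ hp hq using 1
      simp only [map_add]; ring
    | mul_X p j hp =>
      convert Ideal.add_mem _ (Ideal.mul_mem_left _ (E p) (hE j))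
        (Ideal.mul_mem_right (X j) _ hp) using 1
      simp only [map_mul]; ring
  induction k with
  | zero => exact fun b _ => Ideal.pow_le_pow_right (by norm_num) (h2 b)
  | succ k ih =>
    intro b hb
    rw [pow_succ] at hb
    refine Submodule.mul_induction_on hb ?_ ?_
    · intro c hc d hd
      have hEc : E c ∈ n ^ k := by
        have := Ideal.add_mem _ (Ideal.pow_le_pow_right (Nat.le_succ k) (ih c hc)) hc
        simpa using this
      have h3 : E c * (E d - d) ∈ n ^ (k + 1 + 1) := by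
        rw [show k + 1 + 1 = k + 2 from rfl, pow_add]
        exact Ideal.mul_mem_mul hEc (h2 d)
      have h4 : (E c - c) * d ∈ n ^ (k + 1 + 1) := by
        rw [pow_succ]
        exact Ideal.mul_mem_mul (ih c hc) hd
      convert Ideal.add_mem _ h3 h4 using 1
      simp only [map_mul]; ring
    · intro c d hc hd
      convert Ideal.add_mem _ hc hd using 1
      simp only [map_add]; ring

lemma LOC_map_pow {R S : Type} [CommRing R] [CommRing S] (f : R →+* S) (I : Ideal R)
    (I' : Ideal S) (h : ∀ x ∈ I, f x ∈ I') (k : ℕ) : ∀ x ∈ I ^ k, f x ∈ I' ^ k := by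
  intro x hx
  have h1 : I.map f ≤ I' := Ideal.map_le_iff_le_comap.mpr h
  have h2 : f x ∈ (I.map f) ^ k := by
    rw [← Ideal.map_pow]
    exact Ideal.mem_map_of_mem f hx
  exact Ideal.pow_right_mono h1 k h2

lemma LOC_step {R S : Type} [CommRing R] [CommRing S] (ψ : S →+* R) (m J : Ideal R)
    (n : Ideal S) (hψ : ∀ x ∈ n, ψ x ∈ m)
    (h1 : ∀ x ∈ m, ∃ b ∈ n, ∃ j ∈ J, x - ψ b - j ∈ m ^ 2)
    (h0 : ∀ x, ∃ b, x - ψ b ∈ m) (k : ℕ) :
    ∀ x ∈ m ^ k, ∃ b ∈ n ^ k, ∃ j ∈ J, x - ψ b - j ∈ m ^ (k + 1) := by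
  induction k with
  | zero =>
    intro x _
    obtain ⟨b, hb⟩ := h0 x
    exact ⟨b, by simp, 0, J.zero_mem, by simpa using hb⟩
  | succ k ih =>
    intro x hx
    rw [pow_succ] at hx
    refine Submodule.mul_induction_on hx ?_ ?_
    · intro c hc d hd
      obtain ⟨b, hb, j, hj, hr⟩ := ih c hc
      obtain ⟨b', hb', j', hj', hr'⟩ := h1 d hd
      have hψb : ψ b ∈ m ^ k := LOC_map_pow ψ n m hψ k b hb
      refine ⟨b * b', by rw [pow_succ]; exact Ideal.mul_mem_mul hb hb',
        j * d + ψ b * j', J.add_mem (J.mul_mem_right _ hj) (J.mul_mem_left _ hj'), ?_⟩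
      have h3 : (c - ψ b - j) * d ∈ m ^ (k + 1 + 1) := by
        rw [pow_succ]
        exact Ideal.mul_mem_mul hr hd
      have h4 : ψ b * (d - ψ b' - j') ∈ m ^ (k + 1 + 1) := by
        rw [show k + 1 + 1 = k + 2 from rfl, pow_add]
        exact Ideal.mul_mem_mul hψb hr'
      convert Ideal.add_mem _ h3 h4 using 1
      simp only [map_mul]; ring
    · rintro c d ⟨b, hb, j, hj, hr⟩ ⟨b', hb', j', hj', hr'⟩
      refine ⟨b + b', Ideal.add_mem _ hb hb', j + j', J.add_mem hj hj', ?_⟩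
      convert Ideal.add_mem _ hr hr' using 1
      simp only [map_add]; ring

/-- The vanishing ideal of a set. -/
def LOC_J (Z : Set (σ → ℂ)) : Ideal (MvPolynomial σ ℂ) where
  carrier := {Φ | ∀ z ∈ Z, eval z Φ = 0}
  add_mem' := fun ha hb z hz => by rw [map_add, ha z hz, hb z hz, add_zero]
  zero_mem' := fun z _ => by simp
  smul_mem' := fun c Φ h z hz => by rw [smul_eq_mul, map_mul, h z hz, mul_zero]

/-- A covector killing the tangent space is the differential of an equation. -/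
lemma LOC_dual (Z : Set (σ → ℂ)) (y a : σ → ℂ)
    (ha : ∀ v ∈ tangent Z y, ∑ i, a i * v i = 0) :
    ∃ Φ ∈ LOC_J Z, (fun i => eval y (pderiv i Φ)) = a := by
  classical
  let cov : (σ → ℂ) → Module.Dual ℂ (σ → ℂ) := fun c =>
    { toFun := fun v => ∑ i, c i * v i
      map_add' := fun v w => by simp [mul_add, Finset.sum_add_distrib]
      map_smul' := fun r v => by simp [Finset.mul_sum, mul_left_comm] }
  let W : Submodule ℂ (Module.Dual ℂ (σ → ℂ)) :=
    { carrier := {f | ∃ Φ ∈ LOC_J Z, f = cov fun i => eval y (pderiv i Φ)}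
      add_mem' := by
        rintro _ _ ⟨Φ, hΦ, rfl⟩ ⟨Ψ, hΨ, rfl⟩
        refine ⟨Φ + Ψ, Ideal.add_mem _ hΦ hΨ, ?_⟩
        refine LinearMap.ext fun v => ?_
        simp [cov, add_mul, Finset.sum_add_distrib]
      zero_mem' := ⟨0, Ideal.zero_mem _, LinearMap.ext fun v => by simp [cov]⟩
      smul_mem' := by
        rintro r _ ⟨Φ, hΦ, rfl⟩
        refine ⟨C r * Φ, Ideal.mul_mem_left _ _ hΦ, ?_⟩
        refine LinearMap.ext fun v => ?_
        simp [cov, Finset.mul_sum, mul_assoc] }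
  have hmem : cov a ∈ W.dualCoannihilator.dualAnnihilator := by
    rw [Submodule.mem_dualAnnihilator]
    intro v hv
    rw [Submodule.mem_dualCoannihilator] at hv
    exact ha v fun Φ hΦ => hv _ ⟨Φ, hΦ, rfl⟩
  rw [Subspace.dualCoannihilator_dualAnnihilator_eq] at hmem
  obtain ⟨Φ, hΦ, h⟩ := hmem
  refine ⟨Φ, hΦ, funext fun i => ?_⟩
  have := LinearMap.congr_fun h (Pi.single i 1)
  simpa [cov, Pi.single_apply] using this.symm

end LOC

theorem pf_LOC (hCHAIN : StCHAIN) : StLOC := by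
  classical
  intro ι κ _ _ Z θ τ hZ hinj htan Γ hΓ
  set y : ι → ℂ := fun i => aeval τ (θ i) with hy
  have hev : ∀ Φ : MvPolynomial ι ℂ, eval τ (aeval θ Φ) = eval y Φ := by
    intro Φ
    induction Φ using MvPolynomial.induction_on with
    | C a => simp
    | add p q hp hq => simp only [map_add, hp, hq]
    | mul_X p j hp => simp only [map_mul, hp, aeval_X, eval_X, hy, coe_aeval_eq_eval]; rfl
  obtain ⟨L, hL⟩ := (dmap θ τ).exists_leftInverse_of_injective (LinearMap.ker_eq_bot.mpr hinj)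
  have hLD : ∀ w, L (dmap θ τ w) = w := fun w => LinearMap.congr_fun hL w
  have hLv : ∀ (v : ι → ℂ) (u : κ), L v u = ∑ i, L (Pi.single i 1) u * v i := by
    intro v u
    conv_lhs => rw [pi_eq_sum_univ' v]
    simp [map_sum, Finset.sum_apply, mul_comm]
  have hDv : ∀ (w : κ → ℂ) (i : ι), dmap θ τ w i = ∑ u, eval τ (pderiv u (θ i)) * w u := by
    intro w i
    simp [dmap, Matrix.mulVec, dotProduct, coe_aeval_eq_eval]
  let t : κ → MvPolynomial ι ℂ := fun u => LOC_lin y fun i => L (Pi.single i 1) u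
  let ψ : MvPolynomial κ ℂ →ₐ[ℂ] MvPolynomial ι ℂ := aeval fun u => t u + C (τ u)
  have hevψ : ∀ b : MvPolynomial κ ℂ, eval y (ψ b) = eval τ b := by
    intro b
    induction b using MvPolynomial.induction_on with
    | C a => simp [ψ]
    | add p q hp hq => simp only [map_add, hp, hq]
    | mul_X p j hp =>
      have : eval y (t j) = 0 := LOC_lin_mem _ _
      simp only [map_mul, hp, eval_X]
      simp [ψ, this]
  have hψ : ∀ b ∈ LOC_m τ, (ψ : MvPolynomial κ ℂ →+* MvPolynomial ι ℂ) b ∈ LOC_m y := by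
    intro b hb
    rw [LOC_mem] at hb ⊢
    exact (hevψ b).trans hb
  have hφ : ∀ Φ ∈ LOC_m y,
      ((aeval θ : MvPolynomial ι ℂ →ₐ[ℂ] _) : MvPolynomial ι ℂ →+* MvPolynomial κ ℂ) Φ ∈
        LOC_m τ := by
    intro Φ hΦ
    rw [LOC_mem] at hΦ ⊢
    exact (hev Φ).trans hΦ
  have hψlin : ∀ c : κ → ℂ, ψ (LOC_lin τ c) = LOC_lin y (fun i => ∑ u, c u * L (Pi.single i 1) u) := by
    intro c
    have h : (fun i => ∑ u, c u * L (Pi.single i 1) u) =
        ∑ u, c u • (fun i => L (Pi.single i 1) u : ι → ℂ) := by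
      funext i; simp [Finset.sum_apply]
    rw [h, LOC_lin_sum]
    simp only [LOC_lin_smul]
    conv_lhs => unfold LOC_lin
    simp [ψ, t, map_sum]
  have hE : ∀ u, ((aeval θ).comp ψ) (X u) - X u ∈ LOC_m τ ^ 2 := by
    intro u
    have h1 : ∀ i, θ i - C (y i) - LOC_lin τ (fun w => eval τ (pderiv w (θ i))) ∈ LOC_m τ ^ 2 :=
      fun i => LOC_taylor τ (θ i)
    have h2 : ∑ i, L (Pi.single i 1) u • (fun w => eval τ (pderiv w (θ i)) : κ → ℂ) =
        Pi.single u 1 := by
      funext w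
      have := congrFun (hLD (Pi.single w 1)) u
      rw [hLv] at this
      simp only [hDv, Pi.single_apply, mul_ite, mul_one, mul_zero, Finset.sum_ite_eq',
        Finset.mem_univ, if_true] at this
      simp only [Finset.sum_apply, Pi.smul_apply, smul_eq_mul, this, Pi.single_apply, eq_comm]
    have h3 := congrArg (LOC_lin τ) h2
    rw [LOC_lin_sum, LOC_lin_single] at h3
    simp only [LOC_lin_smul] at h3
    have h4 := Ideal.sum_mem (LOC_m τ ^ 2) (t := Finset.univ)
      fun i _ => Ideal.mul_mem_left _ (C (L (Pi.single i 1) u)) (h1 i)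
    convert h4 using 1
    simp only [mul_sub, Finset.sum_sub_distrib, h3]
    simp [ψ, t, LOC_lin, map_sum, mul_sub, Finset.sum_sub_distrib]
    ring
  have h1 : ∀ x ∈ LOC_m y, ∃ b ∈ LOC_m τ, ∃ j ∈ LOC_J Z,
      x - (ψ : MvPolynomial κ ℂ →+* MvPolynomial ι ℂ) b - j ∈ LOC_m y ^ 2 := by
    intro x hx
    let a : ι → ℂ := fun i => eval y (pderiv i x)
    let c : κ → ℂ := fun u => ∑ i, a i * eval τ (pderiv u (θ i))
    obtain ⟨Φ, hΦ, hd⟩ := LOC_dual Z y (fun i => a i - ∑ u, c u * L (Pi.single i 1) u) (by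
      intro v hv
      obtain ⟨w, rfl⟩ := htan v hv
      have e1 : ∑ i, (∑ u, c u * L (Pi.single i 1) u) * dmap θ τ w i = ∑ u, c u * w u := by
        simp only [Finset.sum_mul]
        rw [Finset.sum_comm]
        refine Finset.sum_congr rfl fun u _ => ?_
        rw [← congrFun (hLD w) u, hLv, Finset.mul_sum]
        exact Finset.sum_congr rfl fun i _ => by ring
      have e2 : ∑ i, a i * dmap θ τ w i = ∑ u, c u * w u := by
        simp only [hDv, Finset.mul_sum, c, Finset.sum_mul]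
        rw [Finset.sum_comm]
        exact Finset.sum_congr rfl fun u _ => Finset.sum_congr rfl fun i _ => by ring
      simp only [sub_mul, Finset.sum_sub_distrib, e1, e2, sub_self])
    refine ⟨LOC_lin τ c, LOC_lin_mem _ _, Φ, hΦ, ?_⟩
    have hΦ0 : eval y Φ = 0 := by rw [← hev, hZ Φ hΦ, map_zero]
    have t1 := LOC_taylor y x
    have t2 := LOC_taylor y Φ
    rw [hd, hΦ0] at t2
    rw [LOC_mem.mp hx] at t1
    have t3 : LOC_lin y a = LOC_lin y (fun i => a i - ∑ u, c u * L (Pi.single i 1) u) +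
        LOC_lin y (fun i => ∑ u, c u * L (Pi.single i 1) u) := by
      rw [← LOC_lin_add]
      congr 1
      funext i; simp
    have t4 : (ψ : MvPolynomial κ ℂ →+* MvPolynomial ι ℂ) (LOC_lin τ c) = _ := hψlin c
    rw [t4]
    change x - C 0 - LOC_lin y a ∈ _ at t1
    rw [t3] at t1
    convert Ideal.sub_mem _ t1 t2 using 1
    ring
  have h0 : ∀ x, ∃ b, x - (ψ : MvPolynomial κ ℂ →+* MvPolynomial ι ℂ) b ∈ LOC_m y := by
    intro x
    refine ⟨C (eval y x), ?_⟩
    rw [LOC_mem, map_sub]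
    have : eval y ((ψ : MvPolynomial κ ℂ →+* MvPolynomial ι ℂ) (C (eval y x))) = _ := hevψ _
    rw [this]; simp
  have hall : ∀ k : ℕ, ∃ g ∈ LOC_m y ^ k, Γ - g ∈ LOC_J Z := by
    intro k
    induction k with
    | zero => exact ⟨Γ, by simp, by simp⟩
    | succ k ih =>
      obtain ⟨g, hg, hj⟩ := ih
      obtain ⟨b, hb, j, hj', hr⟩ := LOC_step _ _ (LOC_J Z) _ hψ h1 h0 k g hg
      have e1 : aeval θ g = 0 := by
        have := hZ _ hj
        rw [map_sub, hΓ, zero_sub, neg_eq_zero] at this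
        exact this
      have e2 := LOC_map_pow _ _ _ hφ (k + 1) _ hr
      have e3 : aeval θ (ψ b) ∈ LOC_m τ ^ (k + 1) := by
        have e4 : aeval θ (g - ψ b - j) ∈ LOC_m τ ^ (k + 1) := e2
        rw [map_sub, map_sub, e1, hZ j hj', zero_sub, sub_zero] at e4
        exact (Ideal.neg_mem_iff _).mp e4
      have e5 : b ∈ LOC_m τ ^ (k + 1) := by
        have := Ideal.sub_mem _ e3 (LOC_endo _ _ hE k b hb)
        simpa using this
      have e6 := LOC_map_pow _ _ _ hψ (k + 1) b e5
      refine ⟨_, Ideal.add_mem _ hr e6, ?_⟩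
      convert Ideal.add_mem _ hj hj' using 1
      ring
  have hK : (Submodule.Quotient.mk Γ : MvPolynomial ι ℂ ⧸ LOC_J Z) ∈
      (⨅ k : ℕ, LOC_m y ^ k • ⊤ : Submodule (MvPolynomial ι ℂ) (MvPolynomial ι ℂ ⧸ LOC_J Z)) := by
    rw [Submodule.mem_iInf]
    intro k
    obtain ⟨g, hg, hj⟩ := hall k
    have : (Submodule.Quotient.mk Γ : MvPolynomial ι ℂ ⧸ LOC_J Z) =
        g • (Submodule.Quotient.mk 1 : MvPolynomial ι ℂ ⧸ LOC_J Z) := by
      rw [← Submodule.Quotient.mk_smul, Submodule.Quotient.eq]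
      simpa using hj
    rw [this]
    exact Submodule.smul_mem_smul hg Submodule.mem_top
  obtain ⟨r, hr⟩ := (Ideal.mem_iInf_smul_pow_eq_bot_iff _ _).mp hK
  rw [← Submodule.Quotient.mk_smul, Submodule.Quotient.eq] at hr
  refine ⟨1 - r, ?_, ?_⟩
  · rw [map_sub, LOC_mem.mp r.2]; simp
  · have : (1 - (r : MvPolynomial ι ℂ)) * Γ ∈ LOC_J Z := by
      convert (Ideal.neg_mem_iff _).mpr hr using 1
      simp only [smul_eq_mul]; ring
    exact this

end CenLoc
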