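import Pool.Agent.P.MP_2862dc_ag.Stmts

/-!
The truncated logarithm: a polynomial `H` without constant term such that `(∏ f) • ham H`
agrees with the logarithmic form up to any prescribed order.
-/

namespace CenLoc

open MvPolynomial

section

variable {R : Type} [CommRing R] [Algebra ℚ R]

/-- Truncated series of `log (1 + u)`. -/
noncomputable def LOG_ser (M : ℕ) (u : Pol R) : Pol R :=
  ∑ n ∈ Finset.range M, C (algebraMap ℚ R ((-1) ^ n / ((n : ℚ) + 1))) * u ^ (n + 1)

lemma LOG_mem (M : ℕ) {u : Pol R} (hu : u ∈ mI R) : LOG_ser M u ∈ mI R := by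
  unfold LOG_ser
  refine Ideal.sum_mem _ fun n _ => Ideal.mul_mem_left _ _ ?_
  rw [pow_succ]
  exact Ideal.mul_mem_left _ _ hu

lemma LOG_coef (n : ℕ) :
    (C (algebraMap ℚ R ((-1) ^ n / ((n : ℚ) + 1))) : Pol R) * ((n : Pol R) + 1) = (-1) ^ n := by
  have h1 : ((n : Pol R) + 1) = C (algebraMap ℚ R ((n : ℚ) + 1)) := by simp
  have h2 : ((-1 : Pol R)) ^ n = C (algebraMap ℚ R ((-1) ^ n)) := by simp
  have h3 : ((n : ℚ) + 1) ≠ 0 := by positivity
  rw [h1, h2, ← map_mul, ← map_mul, div_mul_cancel₀ _ h3]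

lemma LOG_der (M : ℕ) (u : Pol R) (i : Fin 2) :
    pderiv i (LOG_ser M u) = (∑ n ∈ Finset.range M, (-u) ^ n) * pderiv i u := by
  unfold LOG_ser
  rw [map_sum, Finset.sum_mul]
  refine Finset.sum_congr rfl fun n _ => ?_
  rw [pderiv_C_mul, Derivation.leibniz_pow, Nat.add_sub_cancel, smul_eq_mul, nsmul_eq_mul,
    Nat.cast_add, Nat.cast_one, ← mul_assoc, LOG_coef, neg_pow u n]
  ring

omit [Algebra ℚ R] in
lemma LOG_geom (M : ℕ) (u : Pol R) :
    (u + 1) * ∑ n ∈ Finset.range M, (-u) ^ n = 1 - (-u) ^ M := by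
  have h := mul_neg_geom_sum (-u) M
  rw [← h]
  ring

lemma LOG_key {G : Type} [Fintype G] [DecidableEq G] (f : G → Pol R) (lam : G → R) (M : ℕ)
    (hf : ∀ g, f g - 1 ∈ mI R) (i : Fin 2) :
    (∏ g, f g) * pderiv i (∑ g, C (lam g) * LOG_ser M (f g - 1)) -
      ∑ g, C (lam g) * (∏ j ∈ Finset.univ.erase g, f j) * pderiv i (f g) ∈ mI R ^ M := by
  rw [map_sum, Finset.mul_sum, ← Finset.sum_sub_distrib]
  refine Ideal.sum_mem _ fun g _ => ?_
  have h1 : (∏ j, f j) = f g * ∏ j ∈ Finset.univ.erase g, f j :=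
    (Finset.mul_prod_erase Finset.univ f (Finset.mem_univ g)).symm
  have h2 := LOG_geom M (f g - 1)
  rw [sub_add_cancel] at h2
  have h3 : pderiv i (f g - 1) = pderiv i (f g) := by simp
  have h4 : (∏ j, f j) * pderiv i (C (lam g) * LOG_ser M (f g - 1)) -
      C (lam g) * (∏ j ∈ Finset.univ.erase g, f j) * pderiv i (f g) =
      (-(C (lam g) * (∏ j ∈ Finset.univ.erase g, f j) * pderiv i (f g))) * (-(f g - 1)) ^ M := by
    rw [pderiv_C_mul, LOG_der, h3, h1]
    linear_combination (C (lam g) * (∏ j ∈ Finset.univ.erase g, f j) * pderiv i (f g)) * h2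
  rw [h4]
  exact Ideal.mul_mem_left _ _ (Ideal.pow_mem_pow ((mI R).neg_mem (hf g)) M)

end

theorem pf_LOG : StLOG := by
  intro R _ _ G _ _ f lam M hf
  have hm : ∀ g, f g - 1 ∈ mI R := by
    intro g
    have h : f g - 1 ∈ idealOfVars (Fin 2) R ^ 1 := by
      rw [mem_pow_idealOfVars_iff']
      intro x hx
      have hx0 : x = 0 := by
        rw [← Finsupp.degree_eq_zero_iff]
        omega
      subst hx0
      simp [hf g]
    simpa using h
  refine ⟨∑ g, C (lam g) * LOG_ser M (f g - 1),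
    Ideal.sum_mem _ fun g _ => Ideal.mul_mem_left _ _ (LOG_mem M (hm g)), ?_, ?_⟩
  · simpa [ham, om] using LOG_key f lam M hm 1
  · have h := (mI R ^ M).neg_mem (LOG_key f lam M hm 0)
    convert h using 1
    simp only [ham, om, Prod.smul_mk, smul_eq_mul, Prod.snd_sub]
    ring

end CenLoc
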