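import Pool.Agent.P.MP_2862dc_ag.Basic

/-! Logarithmic forms of a line arrangement as power series. -/

namespace CenLoc

open MvPolynomial

section
variable {k G I : Type} [Field k] [Fintype G] [DecidableEq G] [Fintype I] [DecidableEq I]
  (L : Lines k G I)

omit [Fintype G] [DecidableEq G] [Fintype I] [DecidableEq I] in
lemma LS_prod_mul (s : Finset I) :
    ((∏ i ∈ s, L.l i : Pol k) : Ser k) * ∏ i ∈ s, L.t i = 1 := by
  rw [coeS_prod, ← Finset.prod_mul_distrib]
  exact Finset.prod_eq_one fun i _ => L.l_mul_t i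

omit [Fintype G] [DecidableEq G] in
lemma LS_F_mul_t (i : I) : ((∏ j, L.l j : Pol k) : Ser k) * L.t i =
    ((∏ j ∈ Finset.univ.erase i, L.l j : Pol k) : Ser k) := by
  rw [← Finset.mul_prod_erase _ L.l (Finset.mem_univ i), MvPolynomial.coe_mul]
  have := L.l_mul_t i
  linear_combination ((∏ j ∈ Finset.univ.erase i, L.l j : Pol k) : Ser k) * this

omit [Fintype G] [DecidableEq G] [DecidableEq I] in
lemma LS_dvg_zeta (c : I → k) : dvgS (L.zeta c) = 0 := by
  rw [Lines.zeta, dvgS_sum]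
  refine Finset.sum_eq_zero fun i _ => ?_
  rw [dvgS_smul, dvgS_hamS, hamS_smul, L.hamS_t, wedge_smul_left', wedge_smul_left, wedge_self]
  simp

omit [Fintype G] [DecidableEq G] in
lemma LS_F_zeta (c : I → k) :
    ((∏ i, L.l i : Pol k) : Ser k) • L.zeta c = coeP (∑ i, c i • lg L.l i) := by
  rw [Lines.zeta, coeP_sum, Finset.smul_sum]
  refine Finset.sum_congr rfl fun i _ => ?_
  rw [coeP_smul', lg, coeP_smul, coeP_ham, smul_smul, mul_smul_comm, LS_F_mul_t, smul_assoc]

omit [Fintype G] [DecidableEq G] [DecidableEq I] in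
lemma LS_wedge_zeta (c : I → k) :
    wedge L.h (L.zeta c) = ∑ i, ∑ j, (L.mu i * c j) • L.e i j := by
  rw [Lines.h, Lines.zeta, Lines.zeta, wedge_sum_left]
  refine Finset.sum_congr rfl fun i _ => ?_
  rw [wedge_sum_right]
  refine Finset.sum_congr rfl fun j _ => ?_
  rw [wedge_smul_left, wedge_smul_right, L.wedge_hamS_l, Lines.e]
  simp only [MvPowerSeries.smul_eq_C_mul, map_mul]
  ring

omit [Fintype G] [DecidableEq G] [Fintype I] [DecidableEq I] in
lemma LS_three (i j m : I) :
    L.D i j m • (L.t i * L.t j * L.t m) = L.e i j + L.e j m + L.e m i := by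
  have h := congrArg (fun x : Pol k => (x : Ser k)) (L.br_rel i j m)
  simp only [MvPolynomial.coe_add, MvPolynomial.coe_mul, MvPolynomial.coe_C] at h
  have hi := L.l_mul_t i
  have hj := L.l_mul_t j
  have hm := L.l_mul_t m
  simp only [Lines.e, MvPowerSeries.smul_eq_C_mul]
  linear_combination (-(L.t i * L.t j * L.t m)) * h +
    MvPowerSeries.C (L.br j m) * L.t j * L.t m * hi +
    MvPowerSeries.C (L.br m i) * L.t i * L.t m * hj +
    MvPowerSeries.C (L.br i j) * L.t i * L.t j * hm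

omit [Fintype G] [DecidableEq G] [Fintype I] [DecidableEq I] in
lemma LS_const_t (i : I) : MvPowerSeries.constantCoeff (L.t i) = 1 := by
  have h := congrArg MvPowerSeries.constantCoeff (L.l_mul_t i)
  rw [map_mul, map_one] at h
  have h1 : MvPowerSeries.constantCoeff (L.l i : Ser k) = 1 := by simp [Lines.l]
  rwa [h1, one_mul] at h

omit [Fintype G] [DecidableEq G] [DecidableEq I] in
lemma LS_const_h1 : MvPowerSeries.constantCoeff L.h.1 = ∑ i, L.mu i * L.b i := by
  rw [Lines.h, Lines.zeta, Prod.fst_sum, map_sum]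
  refine Finset.sum_congr rfl fun i _ => ?_
  rw [L.hamS_l]
  simp [LS_const_t]

omit [Fintype G] [DecidableEq G] [DecidableEq I] in
lemma LS_const_h2 : MvPowerSeries.constantCoeff L.h.2 = -∑ i, L.mu i * L.a i := by
  rw [Lines.h, Lines.zeta, Prod.snd_sum, map_sum, ← Finset.sum_neg_distrib]
  refine Finset.sum_congr rfl fun i _ => ?_
  rw [L.hamS_l]
  simp [LS_const_t]

omit [DecidableEq I] in
lemma LS_tv (hprod : ∏ g, L.f g = ∏ i, L.l i)
    (hh : ((∏ i, L.l i : Pol k) : Ser k) • L.h = coeP (om L.f L.lam)) (g : G) (r : Pol k) :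
    coeP (tv L.f L.lam g r) = ((∏ i, L.l i : Pol k) : Ser k) •
    (L.lam g • hamS ((r : Ser k) * ∏ i ∈ L.fib g, L.t i) +
      ((r : Ser k) * ∏ i ∈ L.fib g, L.t i) • L.h) := by
  have hf : (L.f g : Ser k) * ∏ i ∈ L.fib g, L.t i = 1 := LS_prod_mul L _
  set T := ∏ i ∈ L.fib g, L.t i with hT
  set U := (r : Ser k) * T with hU
  have hfU : (L.f g : Ser k) * U = r := by rw [hU]; linear_combination (r : Ser k) * hf
  have hr : hamS (r : Ser k) = (L.f g : Ser k) • hamS U + U • hamS (L.f g : Ser k) := by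
    rw [← hamS_mul, hfU]
  have hF : ((∏ i, L.l i : Pol k) : Ser k) =
      (L.f g : Ser k) * ((∏ j ∈ Finset.univ.erase g, L.f j : Pol k) : Ser k) := by
    rw [← hprod, ← Finset.mul_prod_erase _ L.f (Finset.mem_univ g), MvPolynomial.coe_mul]
  have key := congrArg coeP (smul_tv L.f L.lam g r)
  rw [coeP_smul, coeP_add, coeP_sub, coeP_smul, coeP_smul, coeP_smul, lg, coeP_smul, coeP_ham,
    coeP_ham, ← hh, hprod, hr] at key
  have e : coeP (tv L.f L.lam g r) = T • ((L.f g : Ser k) • coeP (tv L.f L.lam g r)) := by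
    rw [smul_smul, mul_comm, hf, one_smul]
  rw [e, key]
  simp only [MvPolynomial.coe_mul, MvPolynomial.coe_C]
  rw [hF, ← hfU]
  generalize ((∏ j ∈ Finset.univ.erase g, L.f j : Pol k) : Ser k) = P
  generalize hamS U = x
  generalize hamS (L.f g : Ser k) = y
  generalize L.h = z
  ext1
  · simp only [Prod.smul_fst, Prod.fst_add, Prod.fst_sub, smul_eq_mul,
      MvPowerSeries.smul_eq_C_mul]
    linear_combination (MvPowerSeries.C (L.lam g) * (L.f g : Ser k) * P * x.1 +
      (L.f g : Ser k) * P * U * z.1) * hf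
  · simp only [Prod.smul_snd, Prod.snd_add, Prod.snd_sub, smul_eq_mul,
      MvPowerSeries.smul_eq_C_mul]
    linear_combination (MvPowerSeries.C (L.lam g) * (L.f g : Ser k) * P * x.2 +
      (L.f g : Ser k) * P * U * z.2) * hf

end

theorem pf_LS (hLB : StLB) (hKOS : StKOS) : StLS := by
  intro k G I _ _ _ _ _ _ L hG
  obtain ⟨-, -, -, -, -, hprod, hom, -, -, -, hjac⟩ := hLB k G I L hG
  have hh : ((∏ i, L.l i : Pol k) : Ser k) • L.h = coeP (om L.f L.lam) := by
    rw [hom, om_eq, Lines.h, LS_F_zeta]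
  have c1 : MvPowerSeries.constantCoeff L.h.1 = 0 := by rw [LS_const_h1, hG.crit_b]
  have c2 : MvPowerSeries.constantCoeff L.h.2 = 0 := by rw [LS_const_h2, hG.crit_a, neg_zero]
  refine ⟨⟨LS_dvg_zeta L _, c1, c2, fun β hβ => ?_⟩, LS_dvg_zeta L, LS_F_zeta L, hh,
    LS_wedge_zeta L, fun i j m _ _ _ => LS_three L i j m, LS_tv L hprod hh⟩
  have hord : OrdP 1 (om L.f L.lam) := by
    have h1 := congrArg (fun u : Ser k × Ser k => MvPowerSeries.constantCoeff u.1) hh
    have h2 := congrArg (fun u : Ser k × Ser k => MvPowerSeries.constantCoeff u.2) hh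
    simp only [Prod.smul_fst, Prod.smul_snd, smul_eq_mul, map_mul, c1, c2, mul_zero, coeP]
      at h1 h2
    rw [← MvPowerSeries.coeff_zero_eq_constantCoeff_apply, MvPolynomial.coeff_coe] at h1 h2
    constructor
    · rw [pow_one, mem_mI]; exact h1.symm
    · rw [pow_one, mem_mI]; exact h2.symm
  obtain ⟨c, hc⟩ := hKOS k _ hord hjac β (by rw [← hh, wedge_smul_left, hβ, mul_zero])
  exact ⟨c * ((∏ i, L.l i : Pol k) : Ser k), by rw [hc, ← hh, smul_smul]⟩

end CenLoc
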