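import Pool.Agent.P.MP_2862dc_ag.Basic

/-! Assembly of the final statement from the intermediate ones. -/

namespace CenLoc

open MvPolynomial Filter Topology

/-- A family of polynomials in `x, y` as one polynomial in the parameters and `x, y`. -/
noncomputable def MAIN_flat {W : Type} (g : Pol (MvPolynomial W ℂ)) : MvPolynomial (W ⊕ Fin 2) ℂ :=
  eval₂ (rename Sum.inl : MvPolynomial W ℂ →ₐ[ℂ] MvPolynomial (W ⊕ Fin 2) ℂ).toRingHom
    (fun i => X (Sum.inr i)) g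

lemma MAIN_eval_flat {W : Type} (g : Pol (MvPolynomial W ℂ)) (z : W ⊕ Fin 2 → ℂ) :
    eval z (MAIN_flat g) = eval (z ∘ Sum.inr) (map (eval (z ∘ Sum.inl)) g) := by
  unfold MAIN_flat
  induction g using MvPolynomial.induction_on with
  | C r => simp [eval_rename]
  | add a b ha hb => simp only [eval₂_add, map_add, ha, hb]
  | mul_X a j ha => simp only [eval₂_mul, eval₂_X, map_mul, ha, eval_X, map_X, Function.comp]

lemma MAIN_mapP_form {d : ℕ} (ω : Fin 2 × Mon d → ℂ) :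
    mapP (eval ω) (form (d := d) X) = form ω := by
  rw [mapP_form]; simp

lemma MAIN_tangent_sub {ι : Type} [Fintype ι] {Z : Set (ι → ℂ)} {y v w : ι → ℂ}
    (hv : v ∈ tangent Z y) (hw : w ∈ tangent Z y) : v - w ∈ tangent Z y := by
  intro Φ hΦ
  have h1 := hv Φ hΦ
  have h2 := hw Φ hΦ
  simp only [Pi.sub_apply, mul_sub, Finset.sum_sub_distrib, h1, h2, sub_zero]

lemma MAIN_c1 {ι : Type} [Fintype ι] (y v : ι → ℂ) (Φ : MvPolynomial ι ℂ) :
    (Der.pt y v).c1 Φ = ∑ i, eval y (pderiv i Φ) * v i := by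
  simp [Der.pt_c1, aeval_eq_eval]

lemma MAIN_range_tangent (hCHAIN : StCHAIN) {ι κ : Type} [Fintype ι] [Fintype κ]
    {Z : Set (ι → ℂ)} {θ : ι → MvPolynomial κ ℂ}
    (h : ∀ Φ : MvPolynomial ι ℂ, (∀ z ∈ Z, eval z Φ = 0) → aeval θ Φ = 0) (τ t : κ → ℂ) :
    dmap θ τ t ∈ tangent Z fun i => aeval τ (θ i) := by
  intro Φ hΦ
  rw [← MAIN_c1, ← hCHAIN ℂ ι κ θ τ t Φ, h Φ hΦ, map_zero]

lemma MAIN_eval_aeval {ι κ k : Type} [CommRing k] [Algebra ℂ k] (θ : ι → MvPolynomial κ ℂ)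
    (τ : κ → k) (Φ : MvPolynomial ι ℂ) :
    aeval τ (aeval θ Φ) = aeval (fun i => aeval τ (θ i)) Φ := by
  rw [← AlgHom.comp_apply, comp_aeval]

lemma MAIN_vanish {d : ℕ} {Φ : MvPolynomial (Fin 2 × Mon d) ℂ} :
    (∀ ω ∈ centerLocus d, eval ω Φ = 0) ↔ ∀ z ∈ cenPairs d, eval (z ∘ Sum.inl) Φ = 0 := by
  constructor
  · intro h z hz
    exact h _ (subset_closure ⟨hz.1, hz.2.1, _, hz.2.2⟩)
  · intro h ω hω
    refine closure_minimal (t := {ω | eval ω Φ = 0}) ?_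
      (isClosed_eq (MvPolynomial.continuous_eval Φ) continuous_const) hω
    rintro ω' ⟨h1, h2, p, h3⟩
    exact h (Sum.elim ω' p) ⟨h1, h2, h3⟩

theorem pf_MAIN (hKEY : StKEY) (hFIN : StFIN) (hGS : StGS) (hJIND : StJIND) (hALG : StALG)
    (hBAD : StBAD) (hLIFT : StLIFT) (hKILL : StKILL) (hTAN : StTAN) (hLOC : StLOC)
    (hPUSH : StPUSH) (hCHAIN : StCHAIN) (hDPI : StDPI) (hTLSUB : StTLSUB) (hTSTAR : StTSTAR)
    (hEXACT : StEXACT) (hTLEX : StTLEX) (hCJET : StCJET) (hDENS : StDENS) : StMAIN := by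
  intro d s dd hd hs h1 hsum
  have htwo : ∃ g g' : Fin s, g ≠ g' := ⟨⟨0, by omega⟩, ⟨1, by omega⟩, by simp⟩
  have g0 : Fin s := ⟨0, by omega⟩
  obtain ⟨⟨N, Ψ1, hΨ1, hgen⟩, ⟨e, he⟩, k, _, _, τk, hτk⟩ := hKEY (Fin s) dd g0 d hd htwo h1 hsum
  obtain ⟨Δ, hΔ1, hΔ2, hΔ3⟩ := hFIN d (by omega)
  have hΔ : aeval (piU d dd g0) Δ ≠ 0 := by
    intro h
    apply hΔ3 k _ hτk
    have := MAIN_eval_aeval (piU d dd g0) τk Δ
    rw [h, map_zero] at this
    simp only [aeval_piU] at this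
    exact this.symm
  obtain ⟨Ψ2, hΨ2, hgs⟩ := hGS _ _ (piU d dd g0) e he
  have hind : AlgebraicIndependent ℂ fun u => piU d dd g0 (e u) := hJIND _ _ he
  obtain ⟨A0, hA0, hdvd⟩ := (hALG _ _ hind).2 (Ψ1 * Ψ2) (mul_ne_zero hΨ1 hΨ2)
  obtain ⟨A1, hA1, hbad⟩ := hBAD (Fin s) dd g0 d h1 hsum e
  have hren : ∀ A : MvPolynomial (Idx dd) ℂ, A ≠ 0 → aeval (piU d dd g0) (rename e A) ≠ 0 := by
    intro A hA h
    rw [aeval_rename] at h
    exact hA (hind (h.trans (map_zero _).symm))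
  obtain ⟨Φ, hΦ⟩ : ∃ Φ, Φ = Δ * rename e A0 * rename e A1 := ⟨_, rfl⟩
  have hΦne : aeval (piU d dd g0) Φ ≠ 0 := by
    rw [hΦ, map_mul, map_mul]
    exact mul_ne_zero (mul_ne_zero hΔ (hren _ hA0)) (hren _ hA1)
  have hev : ∀ (τ : Idx dd → ℂ) (Γ : MvPolynomial (Fin 2 × Mon d) ℂ),
      eval τ (aeval (piU d dd g0) Γ) = eval (ypi d g0 τ) Γ := by
    intro τ Γ
    have := MAIN_eval_aeval (piU d dd g0) τ Γ
    simp only [aeval_piU] at this
    simpa [aeval_eq_eval] using this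
  have hΔof : ∀ ω, eval ω Φ ≠ 0 → eval ω Δ ≠ 0 := fun ω h h' => h (by simp [hΦ, h'])
  have hgood : ∀ τ : Idx dd → ℂ, eval (ypi d g0 τ) Φ ≠ 0 → eval τ Ψ1 ≠ 0 ∧ eval τ Ψ2 ≠ 0 := by
    intro τ h
    have h0 : eval (ypi d g0 τ) (rename e A0) ≠ 0 := fun h' => h (by simp [hΦ, h'])
    rw [← hev, aeval_rename] at h0
    obtain ⟨c, hc⟩ := hdvd
    have h0' : eval τ (Ψ1 * Ψ2 * c) ≠ 0 := by rw [← hc]; exact h0
    rw [map_mul, map_mul] at h0'
    exact ⟨left_ne_zero_of_mul (left_ne_zero_of_mul h0'),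
      right_ne_zero_of_mul (left_ne_zero_of_mul h0')⟩
  obtain ⟨τ1, hτ1⟩ : ∃ τ, eval (ypi d g0 τ) Φ ≠ 0 := by
    refine Classical.byContradiction fun hc => hΦne (MvPolynomial.funext fun τ => ?_)
    rw [hev, map_zero]
    exact Classical.byContradiction fun h => hc ⟨τ, h⟩
  have hmem : ∀ τ : Idx dd → ℂ, eval (ypi d g0 τ) Φ ≠ 0 → ypi d g0 τ ∈ logLocus d dd := by
    intro τ h
    refine ⟨fun h0 => ?_, yF g0 τ, ylam g0 τ, totalDegree_yF_le g0 τ, form_ypi g0 h1 hsum τ⟩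
    have := (hΔ2 _ (hΔof _ h)).2
    rw [h0] at this
    have e0 : form (0 : Fin 2 × Mon d → ℂ) = 0 := by simp [form, polyOf]
    rw [e0] at this
    simp at this
    omega
  obtain ⟨hcen, hkill⟩ := hKILL (Fin s) dd g0 d h1 hsum Δ hΔ2 hΔ
    ⟨τ1, (hgen τ1 (hgood τ1 hτ1).1).1⟩
  have hkillU : ∀ Γ : MvPolynomial (Fin 2 × Mon d) ℂ,
      aeval (piT d dd g0) (rename Sum.inl Γ) = aeval (piU d dd g0) Γ := by
    intro Γ; rw [aeval_rename]; rfl
  -- the formal tangent space at a good point of the chart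
  have hTN : ∀ τ : Idx dd → ℂ, eval (ypi d g0 τ) Φ ≠ 0 →
      LinearMap.range (dmap (piU d dd g0) τ) =
        TN d (N + 1) (yf g0 τ) (ylam g0 τ) (yp g0 τ) := by
    intro τ h
    obtain ⟨h1', h2'⟩ := hgood τ h
    refine Submodule.eq_of_le_of_finrank_le ?_ ?_
    · rintro _ ⟨t, rfl⟩
      exact hTLSUB ℂ (Fin s) dd _ _ (N + 1) (nrm_y g0 h1 τ).one
        (hDPI (Fin s) dd g0 d h1 hsum ℂ τ t).2.2
    · rw [LinearMap.finrank_range_of_inj (hgs τ h2').1, Module.finrank_fintype_fun_eq_card]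
      exact (hgen τ h1').2
  have hloc : ∀ τ : Idx dd → ℂ, eval (ypi d g0 τ) Φ ≠ 0 →
      ∀ Γ : MvPolynomial (Fin 2 × Mon d) ℂ, aeval (piU d dd g0) Γ = 0 →
      ∃ S : MvPolynomial ((Fin 2 × Mon d) ⊕ Fin 2) ℂ,
        eval (Sum.elim (ypi d g0 τ) (yp g0 τ)) S ≠ 0 ∧
        ∀ z ∈ cenPairs d, eval z (S * rename Sum.inl Γ) = 0 := by
    intro τ h Γ hΓ
    obtain ⟨h1', h2'⟩ := hgood τ h
    have hinl : ∀ t, dmap (piT d dd g0) τ t ∘ Sum.inl = dmap (piU d dd g0) τ t := fun t => rfl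
    rw [← aeval_piT]
    refine hLOC _ _ (cenPairs d) (piT d dd g0) τ hkill ?_ ?_ _ (by rw [hkillU, hΓ])
    · intro t t' htt
      apply (hgs τ h2').1
      rw [← hinl, ← hinl, htt]
    · intro v hv
      have htan := hTAN (Fin s) dd g0 d h1 hsum τ N (hgen τ h1').1
      rw [← aeval_piT] at htan
      have hη := (htan v hv).1
      rw [← hTN τ h] at hη
      obtain ⟨t, ht⟩ := hη
      refine ⟨t, ?_⟩
      have h3 := (htan _ (MAIN_tangent_sub hv (MAIN_range_tangent hCHAIN hkill τ t))).2 (by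
        rw [Pi.sub_comp, hinl, ht, sub_self])
      exact (sub_eq_zero.mp h3).symm
  refine ⟨Φ, hDENS d s dd Φ h1 hsum ⟨_, hmem τ1 hτ1, hτ1⟩,
    ⟨_, hmem τ1 hτ1, hτ1, _, (hcen τ1 (hgen τ1 (hgood τ1 hτ1).1).1).1⟩, ?_⟩
  rintro ω ⟨hω0, f, lam, hdeg, hω⟩ hωΦ
  have hf : ∀ g, f g ≠ 0 := by
    intro g hg
    apply hω0
    apply form_injective
    have e0 : form (0 : Fin 2 × Mon d → ℂ) = 0 := by simp [form, polyOf]
    rw [hω, e0, om_eq]
    refine Finset.sum_eq_zero fun j _ => ?_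
    by_cases hj : j = g
    · subst hj; simp [lg, hg, ham_zero]
    · rw [lg, Finset.prod_eq_zero (Finset.mem_erase.mpr ⟨Ne.symm hj, Finset.mem_univ g⟩) hg]
      simp
  have hnb : ¬ Bad g0 f lam := by
    intro hb
    have := hbad f lam hdeg hf hb
    rw [← hω, coords_form] at this
    apply hωΦ
    rw [hΦ, map_mul, eval_rename e ω A1]
    exact mul_eq_zero_of_right _ this
  have hlift : ∀ p : Pt, eval p (form ω).1 = 0 → eval p (form ω).2 = 0 →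
      eval p (dvg (form ω)) = 0 → ∃ τ : Idx dd → ℂ, yp g0 τ = p ∧ ypi d g0 τ = ω := by
    intro p hp1 hp2 hp3
    rw [hω] at hp1 hp2 hp3
    obtain ⟨τ, h3, h4⟩ := hLIFT (Fin s) dd g0 h1 f lam p hdeg (fun h => hnb (Or.inl h))
      (fun h => hnb (Or.inr ⟨p, hp1, hp2, hp3, h⟩)) hp1 hp2
    exact ⟨τ, h3, by rw [ypi, h4, ← hω, coords_form]⟩
  have hpush : ∀ Γ : MvPolynomial (Fin 2 × Mon d) ℂ, aeval (piU d dd g0) Γ = 0 →
      ∃ S : MvPolynomial (Fin 2 × Mon d) ℂ, eval ω S ≠ 0 ∧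
        ∀ ω' ∈ centerLocus d, eval ω' (S * Γ) = 0 := by
    intro Γ hΓ
    obtain ⟨S, hS1, hS2⟩ := hPUSH _ (cenPairs d) Δ (fun i => by
      obtain ⟨m, hm1, hm2⟩ := hΔ1 i
      exact ⟨m, hm1, fun z hz => hm2 _ (z ∘ Sum.inr) hz.2.2.1 hz.2.2.2.1⟩) ω Γ (hΔof ω hωΦ) (by
      intro p hp
      have e1 := hp (MAIN_flat (form (d := d) X).1) fun z hz => by
        rw [MAIN_eval_flat]
        have := congrArg Prod.fst (MAIN_mapP_form (z ∘ Sum.inl))
        rw [show map (eval (z ∘ Sum.inl)) (form (d := d) X).1 = _ from this]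
        exact hz.2.2.1
      have e2 := hp (MAIN_flat (form (d := d) X).2) fun z hz => by
        rw [MAIN_eval_flat]
        have := congrArg Prod.snd (MAIN_mapP_form (z ∘ Sum.inl))
        rw [show map (eval (z ∘ Sum.inl)) (form (d := d) X).2 = _ from this]
        exact hz.2.2.2.1
      have e3 := hp (MAIN_flat (dvg (form (d := d) X))) fun z hz => by
        rw [MAIN_eval_flat, map_dvg, MAIN_mapP_form]
        exact (hCJET _ _ hz.2.2).1
      rw [MAIN_eval_flat] at e1 e2 e3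
      rw [map_dvg] at e3
      simp only [Sum.elim_comp_inl, Sum.elim_comp_inr, MAIN_mapP_form] at e1 e2 e3
      rw [show map (eval ω) (form (d := d) X).1 = _ from congrArg Prod.fst (MAIN_mapP_form ω)]
        at e1
      rw [show map (eval ω) (form (d := d) X).2 = _ from congrArg Prod.snd (MAIN_mapP_form ω)]
        at e2
      obtain ⟨τ, rfl, rfl⟩ := hlift p e1 e2 e3
      exact hloc τ hωΦ Γ hΓ)
    exact ⟨S, hS1, MAIN_vanish.mpr hS2⟩
  intro p hp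
  obtain ⟨τ, rfl, rfl⟩ := hlift p hp.1 hp.2.1 (hCJET _ _ hp).1
  obtain ⟨h1', h2'⟩ := hgood τ hωΦ
  refine ⟨(hcen τ (hgen τ h1').1).2, fun c => ?_⟩
  have hy : (fun i => aeval τ (piU d dd g0 i)) = ypi d g0 τ := by
    funext i; rw [aeval_piU]
  have hT : tangent (centerLocus d) (ypi d g0 τ) =
      (LinearMap.range (dmap (piU d dd g0) τ) : Set (Fin 2 × Mon d → ℂ)) := by
    ext v
    constructor
    · intro hv
      refine (hgs τ h2').2 v fun Γ hΓ => ?_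
      obtain ⟨S, hS1, hS2⟩ := hpush Γ hΓ
      have h3 := hv _ hS2
      have h4 : eval (ypi d g0 τ) Γ = 0 := by rw [← hev, hΓ, map_zero]
      rw [hy]
      simp only [Derivation.leibniz, smul_eq_mul, map_add, map_mul, h4, zero_mul, add_zero,
        mul_assoc, ← Finset.mul_sum] at h3
      exact (mul_eq_zero.mp h3).resolve_left hS1
    · rintro ⟨t, rfl⟩
      rw [← hy]
      refine MAIN_range_tangent hCHAIN (fun Γ hΓ => ?_) τ t
      rw [← hkillU]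
      refine hkill _ fun z hz => ?_
      rw [eval_rename]
      exact MAIN_vanish.mp hΓ z hz
  have hform := form_ypi g0 h1 hsum τ
  have hF : eval (yp g0 τ) (∏ g, yF g0 τ g) ≠ 0 := by simp [eval_yF]
  have hcl : (∏ g, yF g0 τ g) * dvg (form (ypi d g0 τ)) =
      wedge (ham (∏ g, yF g0 τ g)) (form (ypi d g0 τ)) := by rw [hform]; exact om_closed _ _
  rw [hT]
  ext η
  constructor
  · rintro ⟨t, rfl⟩
    obtain ⟨a, ha1, ha2⟩ := hTLEX (Fin s) dd (yF g0 τ) (ylam g0 τ) (yp g0 τ) _ (eval_yF g0 τ)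
      (hDPI (Fin s) dd g0 d h1 hsum ℂ τ t).2.1
    rw [← hform] at ha2
    exact hEXACT _ _ _ c _ a hp.2.2.1 hF hcl ha1 ha2
  · intro hη
    obtain ⟨a, ha⟩ := hTSTAR _ _ _ c _ hp.2.2.1 hF hcl hη (N + 1)
    rw [hTN τ hωΦ]
    refine ⟨a, ?_⟩
    rw [hform, trP_om_yF, map_prod] at ha
    simp only [tr_yF] at ha
    exact ha

end CenLoc
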