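import Pool.Agent.P.MP_2862dc_ag.Basic

/-! The holomorphic Morse lemma at a nondegenerate zero of a logarithmic form. -/

namespace CenLoc

open MvPolynomial Filter Topology

/-- Hadamard's lemma for analytic functions of two variables. -/
lemma MORSE_had {g : Pt → ℂ} {p : Pt} (hg : AnalyticAt ℂ g p) :
    ∃ A B : Pt → ℂ, AnalyticAt ℂ A p ∧ AnalyticAt ℂ B p ∧
      ∀ᶠ z in 𝓝 p, g z = g p + (z 0 - p 0) * A z + (z 1 - p 1) * B z := by
  obtain ⟨q, r, hq⟩ := hg
  have hr : 0 < q.shift.radius := by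
    rw [FormalMultilinearSeries.radius_shift]; exact hq.radius_pos
  have hA := (q.shift.hasFPowerSeriesOnBall hr).comp_sub p
  rw [zero_add] at hA
  have hu := hA.unshift (z := g p)
  have e : q.shift.unshift (g p) = q := by
    funext n
    cases n with
    | zero =>
      ext v
      simp only [FormalMultilinearSeries.unshift]
      exact (hq.coeff_zero v).symm
    | succ n =>
      simp only [FormalMultilinearSeries.unshift, FormalMultilinearSeries.shift]
      exact LinearIsometryEquiv.symm_apply_apply (continuousMultilinearCurryRightEquiv' ℂ n Pt ℂ) _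
  rw [e] at hu
  have han : AnalyticAt ℂ (fun z => q.shift.sum (z - p)) p := hA.analyticAt
  refine ⟨fun z => q.shift.sum (z - p) (Pi.single 0 1), fun z => q.shift.sum (z - p) (Pi.single 1 1),
    ((ContinuousLinearMap.apply ℂ ℂ (Pi.single 0 1 : Pt)).analyticAt _).comp han,
    ((ContinuousLinearMap.apply ℂ ℂ (Pi.single 1 1 : Pt)).analyticAt _).comp han, ?_⟩
  filter_upwards [hq.hasFPowerSeriesAt.eventually_hasSum_sub,
    hu.hasFPowerSeriesAt.eventually_hasSum_sub] with z h1 h2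
  rw [h1.unique h2]
  generalize q.shift.sum (z - p) = L
  have hv : z - p = (z 0 - p 0) • (Pi.single 0 1 : Pt) + (z 1 - p 1) • (Pi.single 1 1 : Pt) := by
    funext i; fin_cases i <;> simp
  rw [hv, map_add, map_smul, map_smul, smul_eq_mul, smul_eq_mul, add_assoc]

lemma MORSE_an_coord (p : Pt) (i : Fin 2) : AnalyticAt ℂ (fun z : Pt => z i - p i) p :=
  ((ContinuousLinearMap.proj (R := ℂ) (φ := fun _ : Fin 2 => ℂ) i).analyticAt p).sub
    analyticAt_const

lemma MORSE_dP_congr {g h : Pt → ℂ} {p : Pt} (e : g =ᶠ[𝓝 p] h) (i : Fin 2) :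
    dP g i =ᶠ[𝓝 p] dP h i := by
  filter_upwards [e.fderiv (𝕜 := ℂ)] with z hz
  simp only [dP, hz]

/-- Partial derivatives of `c + X A + Y B`. -/
lemma MORSE_dP_near {g A B : Pt → ℂ} {p : Pt} {c : ℂ} (hA : AnalyticAt ℂ A p)
    (hB : AnalyticAt ℂ B p)
    (h : ∀ᶠ z in 𝓝 p, g z = c + (z 0 - p 0) * A z + (z 1 - p 1) * B z) :
    ∀ᶠ z in 𝓝 p, dP g 0 z = A z + (z 0 - p 0) * dP A 0 z + (z 1 - p 1) * dP B 0 z ∧
      dP g 1 z = B z + (z 0 - p 0) * dP A 1 z + (z 1 - p 1) * dP B 1 z := by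
  filter_upwards [MORSE_dP_congr h 0, MORSE_dP_congr h 1, hA.eventually_analyticAt,
    hB.eventually_analyticAt] with z h0 h1 ha hb
  have hc : ∀ i : Fin 2, HasFDerivAt (fun x : Pt => x i - p i)
      (ContinuousLinearMap.proj i : Pt →L[ℂ] ℂ) z := fun i =>
    (hasFDerivAt_apply (𝕜 := ℂ) i z).sub_const (p i)
  have hd := (((hc 0).mul ha.differentiableAt.hasFDerivAt).const_add c).add
    ((hc 1).mul hb.differentiableAt.hasFDerivAt)
  have hd' : fderiv ℂ (fun x : Pt => c + (x 0 - p 0) * A x + (x 1 - p 1) * B x) z = _ := hd.fderiv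
  rw [h0, h1]
  constructor
  · simp only [dP, hd']; simp; ring
  · simp only [dP, hd']; simp; ring

lemma MORSE_dP_at {g A B : Pt → ℂ} {p : Pt} {c : ℂ} (hA : AnalyticAt ℂ A p)
    (hB : AnalyticAt ℂ B p)
    (h : ∀ᶠ z in 𝓝 p, g z = c + (z 0 - p 0) * A z + (z 1 - p 1) * B z) :
    dP g 0 p = A p ∧ dP g 1 p = B p := by
  simpa using (MORSE_dP_near hA hB h).self_of_nhds

/-- Second order Hadamard expansion at a critical point. -/
lemma MORSE_quad {H : Pt → ℂ} {p : Pt} (hH : AnalyticAt ℂ H p) (h0 : H p = 0)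
    (h1 : dP H 0 p = 0) (h2 : dP H 1 p = 0) :
    ∃ a b c : Pt → ℂ, AnalyticAt ℂ a p ∧ AnalyticAt ℂ b p ∧ AnalyticAt ℂ c p ∧
      (∀ᶠ z in 𝓝 p, H z = a z * (z 0 - p 0) ^ 2 + 2 * b z * (z 0 - p 0) * (z 1 - p 1) +
        c z * (z 1 - p 1) ^ 2) ∧
      dP (dP H 0) 0 p = 2 * a p ∧ dP (dP H 0) 1 p = 2 * b p ∧
      dP (dP H 1) 0 p = 2 * b p ∧ dP (dP H 1) 1 p = 2 * c p := by
  obtain ⟨A, B, hA, hB, h⟩ := MORSE_had hH
  obtain ⟨A0, A1, hA0, hA1, hA'⟩ := MORSE_had hA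
  obtain ⟨B0, B1, hB0, hB1, hB'⟩ := MORSE_had hB
  obtain ⟨eA, eB⟩ := MORSE_dP_at hA hB h
  obtain ⟨eA0, eA1⟩ := MORSE_dP_at hA0 hA1 hA'
  obtain ⟨eB0, eB1⟩ := MORSE_dP_at hB0 hB1 hB'
  have zA : A p = 0 := eA ▸ h1
  have zB : B p = 0 := eB ▸ h2
  have k0 : ∀ᶠ z in 𝓝 p, dP H 0 z =
      0 + (z 0 - p 0) * (A0 z + dP A 0 z) + (z 1 - p 1) * (A1 z + dP B 0 z) := by
    filter_upwards [MORSE_dP_near hA hB h, hA'] with z e e'
    rw [e.1, e', zA]; ring
  have k1 : ∀ᶠ z in 𝓝 p, dP H 1 z =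
      0 + (z 0 - p 0) * (B0 z + dP A 1 z) + (z 1 - p 1) * (B1 z + dP B 1 z) := by
    filter_upwards [MORSE_dP_near hA hB h, hB'] with z e e'
    rw [e.2, e', zB]; ring
  obtain ⟨m0, m1⟩ := MORSE_dP_at (hA0.add (analyticAt_dP hA 0)) (hA1.add (analyticAt_dP hB 0)) k0
  obtain ⟨m2, m3⟩ := MORSE_dP_at (hB0.add (analyticAt_dP hA 1)) (hB1.add (analyticAt_dP hB 1)) k1
  refine ⟨A0, fun z => (A1 z + B0 z) / 2, B1, hA0, (hA1.add hB0).div_const, hB1, ?_, ?_, ?_, ?_, ?_⟩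
  · filter_upwards [h, hA', hB'] with z e e1 e2
    rw [e, e1, e2, h0, zA, zB]; ring
  · rw [m0, Pi.add_apply, eA0]; ring
  · rw [m1, Pi.add_apply, eB0]; ring
  · rw [m2, Pi.add_apply, eA1]; ring
  · rw [m3, Pi.add_apply, eB1]; ring

/-- Analytic square root of a nonvanishing germ. -/
lemma MORSE_sqrt {g : Pt → ℂ} {p : Pt} (hg : AnalyticAt ℂ g p) (h : g p ≠ 0) :
    ∃ s : Pt → ℂ, AnalyticAt ℂ s p ∧ s p ≠ 0 ∧ ∀ᶠ z in 𝓝 p, s z ^ 2 = g z := by
  obtain ⟨w, hw⟩ := IsAlgClosed.exists_pow_nat_eq (g p) (n := 2) two_pos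
  have hw0 : w ≠ 0 := by rintro rfl; exact h (by simpa using hw.symm)
  have h1 : AnalyticAt ℂ (fun z => Complex.log (g z / g p)) p :=
    (hg.div_const (c := g p)).clog (by simp [div_self h])
  refine ⟨fun z => w * Complex.exp (Complex.log (g z / g p) / 2),
    analyticAt_const.mul (h1.div_const (c := 2)).cexp, mul_ne_zero hw0 (Complex.exp_ne_zero _), ?_⟩
  filter_upwards [hg.continuousAt.eventually_ne h] with z hz
  rw [mul_pow, hw, sq, ← Complex.exp_add, add_halves, Complex.exp_log (div_ne_zero hz h)]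
  field_simp

lemma MORSE_an_pair {u v : Pt → ℂ} {p : Pt} (hu : AnalyticAt ℂ u p) (hv : AnalyticAt ℂ v p) :
    AnalyticAt ℂ (fun z => (![u z, v z] : Pt)) p := by
  refine AnalyticAt.pi fun i => ?_
  fin_cases i
  · simpa using hu
  · simpa using hv

lemma MORSE_bij {u v : Pt → ℂ} {p : Pt} (hu : AnalyticAt ℂ u p) (hv : AnalyticAt ℂ v p)
    (hd : dP u 0 p * dP v 1 p - dP u 1 p * dP v 0 p ≠ 0) :
    Function.Bijective (fderiv ℂ (fun z => (![u z, v z] : Pt)) p) := by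
  have hψ := (MORSE_an_pair hu hv).differentiableAt.hasFDerivAt
  set L := fderiv ℂ (fun z => (![u z, v z] : Pt)) p with hL
  have e0 : ∀ w, L w 0 = dP u 0 p * w 0 + dP u 1 p * w 1 := fun w => by
    have := (hasFDerivAt_pi'.mp hψ 0).fderiv
    simp only [Matrix.cons_val_zero] at this
    rw [← fderiv_eq_dP, this]; rfl
  have e1 : ∀ w, L w 1 = dP v 0 p * w 0 + dP v 1 p * w 1 := fun w => by
    have := (hasFDerivAt_pi'.mp hψ 1).fderiv
    simp only [Matrix.cons_val_one, Matrix.cons_val_zero] at this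
    rw [← fderiv_eq_dP, this]; rfl
  have hinj : Function.Injective L := by
    refine (injective_iff_map_eq_zero L).mpr fun w hw => ?_
    have a0 := e0 w
    have a1 := e1 w
    rw [hw, Pi.zero_apply] at a0 a1
    have b0 : w 0 = 0 := by
      refine (mul_eq_zero.mp (?_ : _ * w 0 = 0)).resolve_left hd
      linear_combination (-dP v 1 p) * a0 + dP u 1 p * a1
    have b1 : w 1 = 0 := by
      refine (mul_eq_zero.mp (?_ : _ * w 1 = 0)).resolve_left hd
      linear_combination dP v 0 p * a0 - dP u 0 p * a1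
    funext i; fin_cases i
    · exact b0
    · exact b1
  exact ⟨hinj, (LinearMap.injective_iff_surjective (f := (L : Pt →ₗ[ℂ] Pt))).mp hinj⟩

/-- Morse coordinates for a nondegenerate quadratic expansion. -/
lemma MORSE_coord {H a b c : Pt → ℂ} {p : Pt} (ha : AnalyticAt ℂ a p) (hb : AnalyticAt ℂ b p)
    (hc : AnalyticAt ℂ c p)
    (h : ∀ᶠ z in 𝓝 p, H z = a z * (z 0 - p 0) ^ 2 + 2 * b z * (z 0 - p 0) * (z 1 - p 1) +
        c z * (z 1 - p 1) ^ 2) (hd : a p * c p - b p ^ 2 ≠ 0) :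
    ∃ ψ : Pt → Pt, AnalyticAt ℂ ψ p ∧ ψ p = 0 ∧ Function.Bijective (fderiv ℂ ψ p) ∧
      sqs ψ =ᶠ[𝓝 p] H := by
  obtain ⟨t, ht⟩ : ∃ t : ℂ, a p + 2 * b p * t + c p * t ^ 2 ≠ 0 := by
    by_contra hn
    push Not at hn
    have h0 := hn 0
    have h1 := hn 1
    have h2 := hn (-1)
    have hb0 : b p = 0 := by linear_combination (h1 - h2) / 4
    have ha0 : a p = 0 := by linear_combination h0
    exact hd (by rw [ha0, hb0]; ring)
  set a' : Pt → ℂ := fun z => a z + 2 * b z * t + c z * t ^ 2 with ha'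
  set b' : Pt → ℂ := fun z => b z + c z * t with hb'
  have ana : AnalyticAt ℂ a' p :=
    (ha.add ((analyticAt_const.mul hb).mul analyticAt_const)).add (hc.mul analyticAt_const)
  have anb : AnalyticAt ℂ b' p := hb.add (hc.mul analyticAt_const)
  have ht' : a' p ≠ 0 := ht
  obtain ⟨α, anα, α0, hα⟩ := MORSE_sqrt ana ht'
  obtain ⟨β, anβ, β0, hβ⟩ := MORSE_sqrt (g := fun z => (a z * c z - b z ^ 2) / a' z)
    (((ha.mul hc).sub (hb.pow 2)).div ana ht') (div_ne_zero hd ht')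
  have anq : AnalyticAt ℂ (fun z => b' z / a' z) p := anb.div ana ht'
  have U0 : AnalyticAt ℂ (fun z => α z * (1 - t * (b' z / a' z))) p :=
    anα.mul (analyticAt_const.sub (analyticAt_const.mul anq))
  have U1 : AnalyticAt ℂ (fun z => α z * (b' z / a' z)) p := anα.mul anq
  have V0 : AnalyticAt ℂ (fun z => -t * β z) p := analyticAt_const.mul anβ
  set u : Pt → ℂ := fun z => 0 + (z 0 - p 0) * (α z * (1 - t * (b' z / a' z))) +
    (z 1 - p 1) * (α z * (b' z / a' z)) with hu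
  set v : Pt → ℂ := fun z => 0 + (z 0 - p 0) * (-t * β z) + (z 1 - p 1) * β z with hv
  have anu : AnalyticAt ℂ u p :=
    (analyticAt_const.add ((MORSE_an_coord p 0).mul U0)).add ((MORSE_an_coord p 1).mul U1)
  have anv : AnalyticAt ℂ v p :=
    (analyticAt_const.add ((MORSE_an_coord p 0).mul V0)).add ((MORSE_an_coord p 1).mul anβ)
  obtain ⟨u0, u1⟩ := MORSE_dP_at (g := u) U0 U1 (Eventually.of_forall fun _ => rfl)
  obtain ⟨v0, v1⟩ := MORSE_dP_at (g := v) V0 anβ (Eventually.of_forall fun _ => rfl)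
  refine ⟨fun z => ![u z, v z], MORSE_an_pair anu anv, ?_, MORSE_bij anu anv ?_, ?_⟩
  · funext i; fin_cases i <;> simp [hu, hv]
  · rw [u0, u1, v0, v1]
    convert mul_ne_zero α0 β0 using 1
    ring
  · filter_upwards [h, hα, hβ, ana.continuousAt.eventually_ne ht'] with z e e1 e2 e3
    have eu : u z ^ 2 = a' z * ((z 0 - p 0) + b' z / a' z * ((z 1 - p 1) - t * (z 0 - p 0))) ^ 2 := by
      simp only [hu]
      linear_combination ((z 0 - p 0) + b' z / a' z * ((z 1 - p 1) - t * (z 0 - p 0))) ^ 2 * e1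
    have ev : v z ^ 2 = (a z * c z - b z ^ 2) / a' z * ((z 1 - p 1) - t * (z 0 - p 0)) ^ 2 := by
      simp only [hv]
      linear_combination ((z 1 - p 1) - t * (z 0 - p 0)) ^ 2 * e2
    have e4 : a' z = a z + 2 * b z * t + c z * t ^ 2 := rfl
    have e5 : b' z = b z + c z * t := rfl
    simp only [sqs, Matrix.cons_val_zero, Matrix.cons_val_one]
    rw [eu, ev, e]
    field_simp
    rw [e4, e5]; ring

/-- The analytic local inverse. -/
lemma MORSE_inv {ψ : Pt → Pt} {p : Pt} (h : AnalyticAt ℂ ψ p)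
    (hb : Function.Bijective (fderiv ℂ ψ p)) :
    ∃ χ : Pt → Pt, AnalyticAt ℂ χ (ψ p) ∧ χ (ψ p) = p ∧ (∀ᶠ z in 𝓝 p, χ (ψ z) = z) ∧
      ∀ᶠ w in 𝓝 (ψ p), ψ (χ w) = w := by
  let L : Pt ≃L[ℂ] Pt :=
    (LinearEquiv.ofBijective (fderiv ℂ ψ p : Pt →ₗ[ℂ] Pt) hb).toContinuousLinearEquiv
  have hL : HasFDerivAt ψ (L : Pt →L[ℂ] Pt) p := by
    refine h.differentiableAt.hasFDerivAt.congr_fderiv ?_
    ext1 v; rfl
  have hc : ContDiffAt ℂ ⊤ ψ p := h.contDiffAt
  have hn : (⊤ : WithTop ℕ∞) ≠ 0 := by simp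
  exact ⟨hc.localInverse hL hn, (hc.to_localInverse hL hn).analyticAt,
    hc.localInverse_apply_image hL hn, (hc.hasStrictFDerivAt' hL hn).eventually_left_inverse,
    (hc.hasStrictFDerivAt' hL hn).eventually_right_inverse⟩

lemma MORSE_dP_mul {g F K : Pt → ℂ} {p : Pt} (hF : AnalyticAt ℂ F p) (hK : AnalyticAt ℂ K p)
    (h : ∀ᶠ z in 𝓝 p, g z = F z * K z) (F1 : F p = 1) (K0 : K p = 0) (i : Fin 2) :
    dP g i p = dP K i p := by
  rw [(MORSE_dP_congr h i).self_of_nhds]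
  have hd : fderiv ℂ (fun z => F z * K z) p = _ :=
    (hF.differentiableAt.hasFDerivAt.mul hK.differentiableAt.hasFDerivAt).fderiv
  simp only [dP, hd, F1, K0]
  simp

/-- The logarithmic primitive. -/
lemma MORSE_log {G : Type} [Fintype G] [DecidableEq G] (f : G → Pol ℂ) (lam : G → ℂ) (p : Pt)
    (hf : ∀ g, eval p (f g) = 1) :
    ∃ H : Pt → ℂ, AnalyticAt ℂ H p ∧ H p = 0 ∧ ∀ᶠ z in 𝓝 p,
      eval z (om f lam).1 = eval z (∏ g, f g) * dP H 1 z ∧
      -eval z (om f lam).2 = eval z (∏ g, f g) * dP H 0 z := by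
  have hs : ∀ g, eval p (f g) ∈ Complex.slitPlane := fun g => by simp [hf g]
  refine ⟨fun z => ∑ g, lam g * Complex.log (eval z (f g)), ?_, by simp [hf], ?_⟩
  · exact Finset.analyticAt_fun_sum _ fun g _ =>
      analyticAt_const.mul ((analyticAt_eval (f g) p).clog (hs g))
  have hev : ∀ᶠ z in 𝓝 p, ∀ g, eval z (f g) ∈ Complex.slitPlane :=
    eventually_all.mpr fun g => (analyticAt_eval (f g) p).continuousAt.eventually_mem
      (Complex.isOpen_slitPlane.mem_nhds (hs g))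
  filter_upwards [hev] with z hz
  have hd : fderiv ℂ (fun x : Pt => ∑ g, lam g * Complex.log (eval x (f g))) z = _ :=
    (HasFDerivAt.fun_sum fun g (_ : g ∈ Finset.univ) =>
      ((hasFDerivAt_eval (f g) z).clog (hz g)).const_mul (lam g)).fderiv
  have key : ∀ i : Fin 2, eval z (∏ g, f g) *
      dP (fun x : Pt => ∑ g, lam g * Complex.log (eval x (f g))) i z =
      eval z (∑ g, C (lam g) * (∏ j ∈ Finset.univ.erase g, f j) * pderiv i (f g)) := by
    intro i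
    simp only [dP, hd, map_sum, sum_apply, Finset.mul_sum]
    refine Finset.sum_congr rfl fun g _ => ?_
    have hne : eval z (f g) ≠ 0 := Complex.slitPlane_ne_zero (hz g)
    rw [← Finset.mul_prod_erase _ f (Finset.mem_univ g)]
    simp only [map_mul, eval_C]
    generalize eval z (∏ j ∈ Finset.univ.erase g, f j) = W
    fin_cases i <;> simp <;> field_simp
  constructor
  · rw [key]; rfl
  · rw [key]; simp [om]

theorem pf_MORSE : StMORSE := by
  intro G _ _ f lam p hf h1 h2 hj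
  obtain ⟨H, anH, H0, hH⟩ := MORSE_log f lam p hf
  have F1 : eval p (∏ g, f g) = 1 := by simp [hf]
  have hp := hH.self_of_nhds
  rw [h1, h2, F1, one_mul, one_mul, neg_zero] at hp
  obtain ⟨a, b, c, ha, hb, hc, hq, d00, d01, d10, d11⟩ := MORSE_quad anH H0 hp.2.symm hp.1.symm
  have eP : ∀ i, eval p (pderiv i (om f lam).1) = dP (dP H 1) i p := fun i => by
    rw [← dP_eval]
    exact MORSE_dP_mul (analyticAt_eval _ p) (analyticAt_dP anH 1) (hH.mono fun z hz => hz.1) F1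
      hp.1.symm i
  have eQ : ∀ i, eval p (pderiv i (om f lam).2) = -dP (dP H 0) i p := fun i => by
    have := MORSE_dP_mul (g := fun z => eval z (-(om f lam).2)) (analyticAt_eval _ p)
      (analyticAt_dP anH 0) (hH.mono fun z hz => by rw [map_neg]; exact hz.2) F1 hp.2.symm i
    rw [dP_eval, map_neg, map_neg] at this
    rw [← this, neg_neg]
  have hd : a p * c p - b p ^ 2 ≠ 0 := by
    intro h0
    apply hj
    simp only [jacP, map_sub, map_mul, eP, eQ, d00, d01, d10, d11]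
    linear_combination 4 * h0
  obtain ⟨ψ, anψ, ψ0, bij, hs⟩ := MORSE_coord ha hb hc hq hd
  obtain ⟨χ, anχ, χ0, hl, hr⟩ := MORSE_inv anψ bij
  rw [ψ0] at anχ χ0 hr
  have fac : ∀ᶠ z in 𝓝 p, eval z (om f lam).1 = eval z (∏ g, f g) * dP (sqs ψ) 1 z ∧
      -eval z (om f lam).2 = eval z (∏ g, f g) * dP (sqs ψ) 0 z := by
    filter_upwards [hH, MORSE_dP_congr hs 0, MORSE_dP_congr hs 1] with z e e0 e1
    rw [e0, e1]; exact e
  refine ⟨⟨h1, h2, hj, ψ, anψ, ψ0, bij, ?_⟩,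
    ⟨⟨ψ, χ, fun z => eval z (∏ g, f g), anψ, anχ, analyticAt_eval _ p, ψ0, χ0, hl, hr, fac⟩⟩⟩
  filter_upwards [fac] with z e
  linear_combination dP (sqs ψ) 0 z * e.1 - dP (sqs ψ) 1 z * e.2

end CenLoc
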