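import Pool.Agent.P.MP_2862dc_ag.Stmts

namespace CenLoc

section
variable {k : Type} [Field k]

/-- Coefficients indexed by the integers. -/
noncomputable def NULL_cf (ρ : Polynomial (Ser k)) (j : ℤ) : Ser k :=
  if 0 ≤ j then ρ.coeff j.toNat else 0

lemma NULL_iff (h : Ser k × Ser k) (ρ : Polynomial (Ser k)) :
    Null h ρ ↔ ∃ b : ℤ → Ser k × Ser k, (∃ m : ℤ, ∀ j, m < j → b j = 0) ∧
      ∀ j : ℤ, NULL_cf ρ j = dvgS (b j) + wedge h (b (j - 1)) := Iff.rfl

lemma NULL_cf_add (ρ σ : Polynomial (Ser k)) (j : ℤ) :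
    NULL_cf (ρ + σ) j = NULL_cf ρ j + NULL_cf σ j := by
  unfold NULL_cf
  split_ifs <;> simp

lemma NULL_cf_C_mul (a : Ser k) (ρ : Polynomial (Ser k)) (j : ℤ) :
    NULL_cf (Polynomial.C a * ρ) j = a * NULL_cf ρ j := by
  unfold NULL_cf
  split_ifs <;> simp

lemma NULL_cf_X_mul (ρ : Polynomial (Ser k)) (j : ℤ) :
    NULL_cf (Polynomial.X * ρ) j = NULL_cf ρ (j - 1) := by
  unfold NULL_cf
  rcases lt_trichotomy j 0 with hj | rfl | hj
  · rw [if_neg (by omega), if_neg (by omega)]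
  · simp
  · rw [if_pos hj.le, if_pos (by omega)]
    have : j.toNat = (j - 1).toNat + 1 := by omega
    rw [this, Polynomial.coeff_X_mul]

lemma NULL_cf_C (a : Ser k) (j : ℤ) :
    NULL_cf (Polynomial.C a) j = if j = 0 then a else 0 := by
  unfold NULL_cf
  rcases lt_trichotomy j 0 with hj | rfl | hj
  · rw [if_neg (by omega), if_neg (by omega)]
  · simp
  · rw [if_pos hj.le, if_neg (by omega), Polynomial.coeff_C, if_neg (by omega)]

lemma NULL_dvg_zero : dvgS (0 : Ser k × Ser k) = 0 := by simp [dvgS]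

lemma NULL_wedge_zero (h : Ser k × Ser k) : wedge h 0 = 0 := by simp [wedge]

lemma NULL_dvg_add (u v : Ser k × Ser k) : dvgS (u + v) = dvgS u + dvgS v := by
  simp only [dvgS, Prod.fst_add, Prod.snd_add, map_add]
  ring

lemma NULL_wedge_add (h u v : Ser k × Ser k) : wedge h (u + v) = wedge h u + wedge h v := by
  simp only [wedge, Prod.fst_add, Prod.snd_add]
  ring

lemma NULL_dvg_smul (c : k) (u : Ser k × Ser k) :
    dvgS (c • u) = algebraMap k (Ser k) c * dvgS u := by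
  simp only [dvgS, Prod.smul_fst, Prod.smul_snd, Derivation.map_smul]
  rw [← smul_add, Algebra.smul_def]

lemma NULL_wedge_smul (c : k) (h u : Ser k × Ser k) :
    wedge h (c • u) = algebraMap k (Ser k) c * wedge h u := by
  simp only [wedge, Prod.smul_fst, Prod.smul_snd]
  rw [Algebra.smul_def, Algebra.smul_def]
  ring

lemma NULL_comm (B : Ser k) :
    MvPowerSeries.pderiv k 0 (MvPowerSeries.pderiv k 1 B) =
      MvPowerSeries.pderiv k (1 : Fin 2) (MvPowerSeries.pderiv k (0 : Fin 2) B) := by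
  ext m
  simp only [MvPowerSeries.coeff_pderiv]
  have h1 : m + Finsupp.single (0 : Fin 2) 1 + Finsupp.single 1 1 =
      m + Finsupp.single 1 1 + Finsupp.single 0 1 := by abel
  rw [h1]
  simp
  ring

lemma NULL_dvg_ham (B : Ser k) : dvgS (-hamS B) = 0 := by
  simp only [dvgS, hamS, Prod.fst_neg, Prod.snd_neg, map_neg, neg_neg, NULL_comm]
  ring

lemma NULL_zero (h : Ser k × Ser k) : Null h 0 := by
  rw [NULL_iff]
  refine ⟨fun _ => 0, ⟨0, fun _ _ => rfl⟩, fun j => ?_⟩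
  simp [NULL_cf, NULL_dvg_zero, NULL_wedge_zero]

lemma NULL_add (h : Ser k × Ser k) (ρ σ : Polynomial (Ser k)) (h1 : Null h ρ) (h2 : Null h σ) :
    Null h (ρ + σ) := by
  rw [NULL_iff] at h1 h2 ⊢
  obtain ⟨b, ⟨m, hm⟩, hb⟩ := h1
  obtain ⟨c, ⟨n, hn⟩, hc⟩ := h2
  refine ⟨fun j => b j + c j, ⟨max m n, fun j hj => ?_⟩, fun j => ?_⟩
  · simp [hm j (lt_of_le_of_lt (le_max_left _ _) hj), hn j (lt_of_le_of_lt (le_max_right _ _) hj)]
  · rw [NULL_cf_add, hb, hc, NULL_dvg_add, NULL_wedge_add]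
    ring

lemma NULL_smul (h : Ser k × Ser k) (c : k) (ρ : Polynomial (Ser k)) (h1 : Null h ρ) :
    Null h (Polynomial.C (algebraMap k (Ser k) c) * ρ) := by
  rw [NULL_iff] at h1 ⊢
  obtain ⟨b, ⟨m, hm⟩, hb⟩ := h1
  refine ⟨fun j => c • b j, ⟨m, fun j hj => ?_⟩, fun j => ?_⟩
  · simp [hm j hj]
  · rw [NULL_cf_C_mul, hb, NULL_dvg_smul, NULL_wedge_smul]
    ring

lemma NULL_X (h : Ser k × Ser k) (ρ : Polynomial (Ser k)) (h1 : Null h ρ) :
    Null h (Polynomial.X * ρ) := by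
  rw [NULL_iff] at h1 ⊢
  obtain ⟨b, ⟨m, hm⟩, hb⟩ := h1
  refine ⟨fun j => b (j - 1), ⟨m + 1, fun j hj => hm _ (by omega)⟩, fun j => ?_⟩
  rw [NULL_cf_X_mul, hb]

lemma NULL_poly (h : Ser k × Ser k) (p : Polynomial k) (ρ : Polynomial (Ser k)) (h1 : Null h ρ) :
    Null h (p.map (algebraMap k (Ser k)) * ρ) := by
  induction p using Polynomial.induction_on with
  | C a => rw [Polynomial.map_C]; exact NULL_smul h a ρ h1
  | add p q hp hq => rw [Polynomial.map_add, add_mul]; exact NULL_add h _ _ hp hq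
  | monomial n a ih =>
    have : (Polynomial.C a * Polynomial.X ^ (n + 1)).map (algebraMap k (Ser k)) * ρ =
        Polynomial.X * ((Polynomial.C a * Polynomial.X ^ n).map (algebraMap k (Ser k)) * ρ) := by
      simp only [Polynomial.map_mul, Polynomial.map_pow, Polynomial.map_X]
      ring
    rw [this]
    exact NULL_X h _ ih

lemma NULL_divX (h : Ser k × Ser k) (ρ : Polynomial (Ser k)) (h1 : Null h (Polynomial.X * ρ)) :
    Null h ρ := by
  rw [NULL_iff] at h1 ⊢
  obtain ⟨b, ⟨m, hm⟩, hb⟩ := h1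
  refine ⟨fun j => b (j + 1), ⟨m, fun j hj => hm _ (by omega)⟩, fun j => ?_⟩
  have := hb (j + 1)
  rw [NULL_cf_X_mul] at this
  simpa using this

lemma NULL_exact (h β : Ser k × Ser k) :
    Null h (Polynomial.C (dvgS β) + Polynomial.X * Polynomial.C (wedge h β)) := by
  rw [NULL_iff]
  refine ⟨fun j => if j = 0 then β else 0, ⟨0, fun j hj => if_neg (by omega)⟩, fun j => ?_⟩
  rw [NULL_cf_add, NULL_cf_X_mul, NULL_cf_C, NULL_cf_C]
  beta_reduce
  congr 1
  · split_ifs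
    · rfl
    · exact NULL_dvg_zero.symm
  · split_ifs
    · rfl
    · exact (NULL_wedge_zero h).symm

lemma NULL_ham (h : Ser k × Ser k) (B : Ser k) :
    Null h (Polynomial.C (wedge (hamS B) h)) := by
  rw [NULL_iff]
  refine ⟨fun j => if j = -1 then -hamS B else 0, ⟨0, fun j hj => if_neg (by omega)⟩,
    fun j => ?_⟩
  rw [NULL_cf_C]
  have h1 : dvgS (if j = -1 then -hamS B else 0) = 0 := by
    split_ifs
    · exact NULL_dvg_ham B
    · exact NULL_dvg_zero
  simp only [h1, zero_add]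
  by_cases hj : j = 0
  · rw [if_pos hj, if_pos (by omega)]
    simp only [wedge, Prod.fst_neg, Prod.snd_neg]
    ring
  · rw [if_neg hj, if_neg (by omega), NULL_wedge_zero]

end

theorem pf_NULL : StNULL := fun _ _ h =>
  ⟨NULL_zero h, NULL_add h, NULL_poly h, NULL_divX h, NULL_exact h, NULL_ham h⟩

end CenLoc
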