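import Pool.Agent.P.MP_2862dc_ag.Basic

namespace CenLoc

open MvPolynomial

section PF
variable {k G I : Type} [Field k] [Fintype G] [DecidableEq G] [Fintype I] [DecidableEq I]
  (L : Lines k G I)

omit [Fintype G] [DecidableEq G] [Fintype I] in
lemma PF_erase {A : Finset I} {i : I} (hi : i ∈ A) :
    (L.l i : Ser k) * ∏ j ∈ A, L.t j = ∏ j ∈ A.erase i, L.t j := by
  rw [← Finset.mul_prod_erase A _ hi, ← mul_assoc, L.l_mul_t, one_mul]

omit [DecidableEq G] in
lemma PF_prod (hG : L.Gen) : ∀ (n : ℕ) (A : Finset I), A.card = n + 1 → ∏ j ∈ A, L.t j ∈ L.A1 := by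
  intro n
  induction n with
  | zero =>
    intro A hA
    obtain ⟨i, rfl⟩ := Finset.card_eq_one.1 hA
    rw [Finset.prod_singleton]
    exact Submodule.subset_span (Or.inl ⟨i, rfl⟩)
  | succ n ih =>
    intro A hA
    rcases Nat.eq_zero_or_pos n with rfl | hn
    · obtain ⟨i, j, hij, rfl⟩ := Finset.card_eq_two.1 hA
      rw [Finset.prod_pair hij]
      exact Submodule.subset_span (Or.inr ⟨i, j, hij, rfl⟩)
    · obtain ⟨i, hi, j, hj, m, hm, hij, him, hjm⟩ := Finset.two_lt_card.1 (show 2 < A.card by omega)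
      have hD := hG.D_ne i j m hij hjm him
      have er : ∀ x ∈ A, ∏ j ∈ A.erase x, L.t j ∈ L.A1 := fun x hx =>
        ih _ (by rw [Finset.card_erase_of_mem hx, hA]; rfl)
      have rel := congrArg (fun p : Pol k => (p : Ser k)) (L.br_rel i j m)
      simp only [MvPolynomial.coe_add, MvPolynomial.coe_mul, MvPolynomial.coe_C] at rel
      have e : L.D i j m • ∏ j ∈ A, L.t j = L.br j m • ∏ x ∈ A.erase i, L.t x +
          L.br m i • ∏ x ∈ A.erase j, L.t x + L.br i j • ∏ x ∈ A.erase m, L.t x := by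
        rw [← PF_erase L hi, ← PF_erase L hj, ← PF_erase L hm]
        simp only [MvPowerSeries.smul_eq_C_mul]
        rw [← rel]
        ring
      have h : L.D i j m • ∏ j ∈ A, L.t j ∈ L.A1 := by
        rw [e]
        exact add_mem (add_mem (L.A1.smul_mem _ (er i hi)) (L.A1.smul_mem _ (er j hj)))
          (L.A1.smul_mem _ (er m hm))
      have := L.A1.smul_mem (L.D i j m)⁻¹ h
      rwa [smul_smul, inv_mul_cancel₀ hD, one_smul] at this

omit [DecidableEq G] in
lemma PF_step (hG : L.Gen) {s : Ser k} {n : ℕ}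
    (h : ∀ A : Finset I, n + 1 ≤ A.card → s * ∏ j ∈ A, L.t j ∈ L.A1) (x : Fin 2) (A : Finset I)
    (hA : n + 2 ≤ A.card) : MvPowerSeries.X x * s * ∏ j ∈ A, L.t j ∈ L.A1 := by
  obtain ⟨i, hi, j, hj, hij⟩ := Finset.one_lt_card.1 (show 1 < A.card by omega)
  have hb := hG.br_ne i j hij
  have h0 := h A (by omega)
  have er : ∀ y ∈ A, ((L.l y : Ser k) - 1) * (s * ∏ j ∈ A, L.t j) ∈ L.A1 := fun y hy => by
    have e : ((L.l y : Ser k) - 1) * (s * ∏ j ∈ A, L.t j) =
        s * ∏ j ∈ A.erase y, L.t j - s * ∏ j ∈ A, L.t j := by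
      rw [← PF_erase L hy]
      ring
    rw [e]
    exact sub_mem (h _ (by rw [Finset.card_erase_of_mem hy]; omega)) h0
  have hl : ∀ y, (L.l y : Ser k) - 1 = MvPowerSeries.C (L.a y) * MvPowerSeries.X 0 +
      MvPowerSeries.C (L.b y) * MvPowerSeries.X 1 := fun y => by
    simp only [Lines.l, MvPolynomial.coe_add, MvPolynomial.coe_mul, MvPolynomial.coe_C,
      MvPolynomial.coe_X, MvPolynomial.coe_one]
    ring
  have key : L.br i j • (MvPowerSeries.X x * s * ∏ j ∈ A, L.t j) ∈ L.A1 := by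
    obtain rfl | rfl : x = 0 ∨ x = 1 := by omega
    · have e : L.br i j • (MvPowerSeries.X 0 * s * ∏ j ∈ A, L.t j) =
          L.b j • (((L.l i : Ser k) - 1) * (s * ∏ j ∈ A, L.t j)) -
          L.b i • (((L.l j : Ser k) - 1) * (s * ∏ j ∈ A, L.t j)) := by
        simp only [MvPowerSeries.smul_eq_C_mul, hl, Lines.br, map_sub, map_mul]
        ring
      rw [e]
      exact sub_mem (L.A1.smul_mem _ (er i hi)) (L.A1.smul_mem _ (er j hj))
    · have e : L.br i j • (MvPowerSeries.X 1 * s * ∏ j ∈ A, L.t j) =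
          L.a i • (((L.l j : Ser k) - 1) * (s * ∏ j ∈ A, L.t j)) -
          L.a j • (((L.l i : Ser k) - 1) * (s * ∏ j ∈ A, L.t j)) := by
        simp only [MvPowerSeries.smul_eq_C_mul, hl, Lines.br, map_sub, map_mul]
        ring
      rw [e]
      exact sub_mem (L.A1.smul_mem _ (er j hj)) (L.A1.smul_mem _ (er i hi))
  have := L.A1.smul_mem (L.br i j)⁻¹ key
  rwa [smul_smul, inv_mul_cancel₀ hb, one_smul] at this

omit [DecidableEq G] in
lemma PF_mon (hG : L.Gen) (a b : ℕ) : ∀ A : Finset I, a + b + 1 ≤ A.card →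
    (MvPowerSeries.X 0 ^ a * MvPowerSeries.X 1 ^ b : Ser k) * ∏ j ∈ A, L.t j ∈ L.A1 := by
  induction a with
  | zero =>
    induction b with
    | zero =>
      intro A hA
      rw [pow_zero, pow_zero, one_mul, one_mul]
      exact PF_prod L hG (A.card - 1) A (by omega)
    | succ b ih =>
      intro A hA
      have := PF_step L hG ih 1 A (by omega)
      convert this using 2
      ring
  | succ a ih =>
    intro A hA
    have := PF_step L hG ih 0 A (by omega)
    convert this using 2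
    ring

end PF

theorem pf_PF : StPF := by
  intro k G I _ _ _ _ _ _ L hG P hP
  rw [P.as_sum, coeS_sum, Finset.sum_mul]
  refine Submodule.sum_mem _ fun m hm => ?_
  have hd : m 0 + m 1 ≤ P.totalDegree := by
    have := le_totalDegree hm
    rwa [Finsupp.sum_fintype _ _ (fun _ => rfl), Fin.sum_univ_two] at this
  have e : monomial m (coeff m P) = C (coeff m P) * (X 0 ^ m 0 * X 1 ^ m 1) := by
    rw [monomial_eq, Finsupp.prod_fintype _ _ (fun _ => pow_zero _), Fin.prod_univ_two]
  rw [e]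
  simp only [MvPolynomial.coe_mul, MvPolynomial.coe_C, MvPolynomial.coe_pow, MvPolynomial.coe_X]
  rw [mul_assoc, ← MvPowerSeries.smul_eq_C_mul]
  exact L.A1.smul_mem _ (PF_mon L hG _ _ _ (by rw [Finset.card_univ]; omega))

end CenLoc
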