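import Pool.Agent.P.MP_2862dc_ag.Basic

/-! The five elementary thin sets. -/

namespace CenLoc

open MvPolynomial

section
variable {G : Type} [Fintype G] [DecidableEq G] {dd : G → ℕ} {d : ℕ}

/-- The centred coefficient vector. -/
noncomputable def PIECE_cv (dd : G → ℕ) (p : Pt) (x : (G → Pol ℂ) × (G → ℂ)) : Idx dd ⊕ G → ℂ :=
  Sum.elim (fun u => coeff u.2.1 (tr p (x.1 u.1))) x.2

/-- A coefficient slot. -/
def PIECE_slot (g : G) (m : Fin 2 →₀ ℕ) (h : m.degree ≤ dd g) : Idx dd ⊕ G := Sum.inl ⟨g, ⟨m, h⟩⟩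

omit [Fintype G] [DecidableEq G] in
lemma PIECE_ne {g g' : G} {m m' : Fin 2 →₀ ℕ} (h : m.degree ≤ dd g) (h' : m'.degree ≤ dd g')
    (hne : g ≠ g' ∨ m ≠ m') : PIECE_slot g m h ≠ PIECE_slot g' m' h' := by
  intro e
  have e1 := congrArg (Sum.elim (fun u : Idx dd => (u.1, u.2.1)) fun g : G => (g, 0)) e
  simp only [PIECE_slot, Sum.elim_inl, Prod.mk.injEq] at e1
  rcases hne with h1 | h1
  · exact h1 e1.1
  · exact h1 e1.2

omit [Fintype G] [DecidableEq G] in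
lemma PIECE_cv_zero (p : Pt) (x : (G → Pol ℂ) × (G → ℂ)) (g : G)
    (h : (0 : Fin 2 →₀ ℕ).degree ≤ dd g) :
    PIECE_cv dd p x (PIECE_slot g 0 h) = eval p (x.1 g) := coeff_zero_tr p _

omit [Fintype G] [DecidableEq G] in
lemma PIECE_cv_one (p : Pt) (x : (G → Pol ℂ) × (G → ℂ)) (g : G) (c : Fin 2)
    (h : (Finsupp.single c 1 : Fin 2 →₀ ℕ).degree ≤ dd g) :
    PIECE_cv dd p x (PIECE_slot g (Finsupp.single c 1) h) = eval p (pderiv c (x.1 g)) := by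
  rw [← coeff_zero_tr, ← pderiv_tr, coeff_pderiv]
  simp [PIECE_cv, PIECE_slot]

lemma PIECE_gen (hTHIN : StTHIN) (u0 : Idx dd ⊕ G)
    (sub : Idx dd ⊕ G → MvPolynomial (Idx dd ⊕ G) ℂ) (pp : Fin 2 → MvPolynomial (Idx dd ⊕ G) ℂ)
    (Ω : Set ((G → Pol ℂ) × (G → ℂ)))
    (h : ∀ x ∈ Ω, ∃ a : Idx dd ⊕ G → ℂ, a u0 = 0 ∧
      ∀ u, PIECE_cv dd (fun i => eval a (pp i)) x u = eval a (sub u)) : Thin d dd Ω := by
  classical
  let V : Idx dd ⊕ G → MvPolynomial {u : Idx dd ⊕ G // u ≠ u0} ℂ :=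
    fun u => if h : u ≠ u0 then X ⟨u, h⟩ else 0
  have hc : Fintype.card {u : Idx dd ⊕ G // u ≠ u0} < Fintype.card (Idx dd) + Fintype.card G := by
    rw [← Fintype.card_sum]
    exact Fintype.card_subtype_lt (x := u0) (by simp)
  intro e
  obtain ⟨A, hA, hA'⟩ := hTHIN G dd d {u : Idx dd ⊕ G // u ≠ u0} (fun u => aeval V (sub u))
    (fun i => aeval V (pp i)) hc e
  refine ⟨A, hA, fun x hx => hA' x ?_⟩
  obtain ⟨a, ha0, ha⟩ := h x hx
  have key : ∀ P : MvPolynomial (Idx dd ⊕ G) ℂ,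
      eval (fun u : {u : Idx dd ⊕ G // u ≠ u0} => a u.1) (aeval V P) = eval a P := by
    intro P
    induction P using MvPolynomial.induction_on with
    | C r => simp
    | add P Q hP hQ => simp only [map_add, hP, hQ]
    | mul_X P u hP =>
      simp only [map_mul, hP, aeval_X, eval_X, V]
      by_cases hu : u = u0
      · simp [hu, ha0]
      · simp [hu]
  refine ⟨fun u => a u.1, fun g m => ?_, fun g => ?_⟩
  · simp only [key]
    exact ha (Sum.inl ⟨g, m⟩)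
  · simp only [key]
    exact ha (Sum.inr g)

/-- Three vanishing slots: two of them store the point. -/
lemma PIECE_three (hTHIN : StTHIN) (s0 s1 s2 : Idx dd ⊕ G) (h01 : s0 ≠ s1) (h02 : s0 ≠ s2)
    (h12 : s1 ≠ s2) (Ω : Set ((G → Pol ℂ) × (G → ℂ)))
    (h : ∀ x ∈ Ω, ∃ p : Pt, PIECE_cv dd p x s0 = 0 ∧ PIECE_cv dd p x s1 = 0 ∧
      PIECE_cv dd p x s2 = 0) : Thin d dd Ω := by
  classical
  refine PIECE_gen hTHIN s2 (fun u => if u = s0 ∨ u = s1 ∨ u = s2 then 0 else X u)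
    ![X s0, X s1] Ω fun x hx => ?_
  obtain ⟨p, e0, e1, e2⟩ := h x hx
  let a : Idx dd ⊕ G → ℂ := fun u =>
    if u = s0 then p 0 else if u = s1 then p 1 else PIECE_cv dd p x u
  have hp : (fun i => eval a ((![X s0, X s1] : Fin 2 → MvPolynomial (Idx dd ⊕ G) ℂ) i)) = p := by
    funext i
    fin_cases i
    · simp [a]
    · simp [a, h01.symm]
  refine ⟨a, by simp [a, h02.symm, h12.symm, e2], fun u => ?_⟩
  rw [hp]
  by_cases hu : u = s0 ∨ u = s1 ∨ u = s2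
  · rw [if_pos hu, map_zero]
    rcases hu with rfl | rfl | rfl <;> assumption
  · rw [if_neg hu, eval_X]
    push Not at hu
    simp [a, hu.1, hu.2.1]

/-- Two vanishing slots and a proportionality. -/
lemma PIECE_tan (hTHIN : StTHIN) (s0 s1 t0 t1 r0 r1 : Idx dd ⊕ G) (h01 : s0 ≠ s1)
    (h0t0 : s0 ≠ t0) (h0t1 : s0 ≠ t1) (h1t0 : s1 ≠ t0) (h1t1 : s1 ≠ t1) (ht : t0 ≠ t1)
    (h0r0 : r0 ≠ s0) (h1r0 : r0 ≠ s1) (h2r0 : r0 ≠ t0) (h3r0 : r0 ≠ t1)
    (h0r1 : r1 ≠ s0) (h1r1 : r1 ≠ s1) (h2r1 : r1 ≠ t0) (h3r1 : r1 ≠ t1)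
    (Ω : Set ((G → Pol ℂ) × (G → ℂ)))
    (h : ∀ x ∈ Ω, ∃ (p : Pt) (t : ℂ), PIECE_cv dd p x s0 = 0 ∧ PIECE_cv dd p x s1 = 0 ∧
      PIECE_cv dd p x t0 = t * PIECE_cv dd p x r0 ∧
      PIECE_cv dd p x t1 = t * PIECE_cv dd p x r1) : Thin d dd Ω := by
  classical
  refine PIECE_gen hTHIN t1 (fun u => if u = s0 then 0 else if u = s1 then 0 else
      if u = t0 then X t0 * X r0 else if u = t1 then X t0 * X r1 else X u)
    ![X s0, X s1] Ω fun x hx => ?_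
  obtain ⟨p, t, e0, e1, e2, e3⟩ := h x hx
  let a : Idx dd ⊕ G → ℂ := fun u =>
    if u = s0 then p 0 else if u = s1 then p 1 else if u = t0 then t else if u = t1 then 0
      else PIECE_cv dd p x u
  have hp : (fun i => eval a ((![X s0, X s1] : Fin 2 → MvPolynomial (Idx dd ⊕ G) ℂ) i)) = p := by
    funext i
    fin_cases i
    · simp [a]
    · simp [a, h01.symm]
  have at0 : a t0 = t := by simp [a, h0t0.symm, h1t0.symm]
  have ar0 : a r0 = PIECE_cv dd p x r0 := by simp [a, h0r0, h1r0, h2r0, h3r0]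
  have ar1 : a r1 = PIECE_cv dd p x r1 := by simp [a, h0r1, h1r1, h2r1, h3r1]
  refine ⟨a, by simp [a, h0t1.symm, h1t1.symm, ht.symm], fun u => ?_⟩
  rw [hp]
  by_cases u0 : u = s0
  · rw [if_pos u0, map_zero, u0, e0]
  rw [if_neg u0]
  by_cases u1 : u = s1
  · rw [if_pos u1, map_zero, u1, e1]
  rw [if_neg u1]
  by_cases u2 : u = t0
  · rw [if_pos u2, map_mul, eval_X, eval_X, at0, ar0, u2, e2]
  rw [if_neg u2]
  by_cases u3 : u = t1
  · rw [if_pos u3, map_mul, eval_X, eval_X, at0, ar1, u3, e3]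
  rw [if_neg u3, eval_X]
  simp [a, u0, u1, u2, u3]

end

theorem pf_PIECE (hTHIN : StTHIN) : StPIECE := by
  classical
  intro G _ _ dd d h1 _
  have z : ∀ g, (0 : Fin 2 →₀ ℕ).degree ≤ dd g := fun g => by simp
  have o : ∀ g (c : Fin 2), (Finsupp.single c 1 : Fin 2 →₀ ℕ).degree ≤ dd g := fun g c => by
    simpa using h1 g
  have n0 : ∀ c : Fin 2, (0 : Fin 2 →₀ ℕ) ≠ Finsupp.single c 1 := fun c => by
    intro h; simpa using DFunLike.congr_fun h c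
  have n1 : (Finsupp.single 0 1 : Fin 2 →₀ ℕ) ≠ Finsupp.single 1 1 := by
    intro h; simpa using DFunLike.congr_fun h 0
  refine ⟨fun i => ?_, fun i j hij => ?_, fun i => ?_, fun i j hij => ?_,
    fun i j m hij hjm him => ?_⟩
  · refine PIECE_gen hTHIN (Sum.inr i) X 0 _ fun x hx => ⟨PIECE_cv dd 0 x, hx, fun u => ?_⟩
    rw [eval_X]
    congr 1
  · refine PIECE_gen hTHIN (Sum.inr j) (fun u => if u = Sum.inr j then X (Sum.inr i) else X u) 0 _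
      fun x hx => ⟨fun u => if u = Sum.inr j then 0 else PIECE_cv dd 0 x u, by simp, fun u => ?_⟩
    have hp : (fun c => eval (fun u => if u = Sum.inr j then 0 else PIECE_cv dd 0 x u)
        ((0 : Fin 2 → MvPolynomial (Idx dd ⊕ G) ℂ) c)) = (0 : Pt) := by
      funext c; simp
    rw [hp]
    by_cases hu : u = Sum.inr j
    · rw [if_pos hu, eval_X, if_neg (by simpa using hij), hu]
      exact (hx : x.2 i = x.2 j).symm
    · rw [if_neg hu, eval_X, if_neg hu]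
  · refine PIECE_three hTHIN (PIECE_slot i _ (o i 0)) (PIECE_slot i _ (o i 1))
      (PIECE_slot i 0 (z i)) (PIECE_ne _ _ (Or.inr n1)) (PIECE_ne _ _ (Or.inr (n0 0).symm))
      (PIECE_ne _ _ (Or.inr (n0 1).symm)) _ ?_
    rintro x ⟨p, e0, e1⟩
    exact ⟨p, by rw [PIECE_cv_one, e1], by rw [PIECE_cv_one, e1], by rw [PIECE_cv_zero, e0]⟩
  · refine PIECE_tan hTHIN (PIECE_slot i 0 (z i)) (PIECE_slot j 0 (z j)) (PIECE_slot j _ (o j 0))
      (PIECE_slot j _ (o j 1)) (PIECE_slot i _ (o i 0)) (PIECE_slot i _ (o i 1))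
      (PIECE_ne _ _ (Or.inl hij)) (PIECE_ne _ _ (Or.inl hij)) (PIECE_ne _ _ (Or.inl hij))
      (PIECE_ne _ _ (Or.inr (n0 0))) (PIECE_ne _ _ (Or.inr (n0 1))) (PIECE_ne _ _ (Or.inr n1))
      (PIECE_ne _ _ (Or.inr (n0 0).symm)) (PIECE_ne _ _ (Or.inl hij)) (PIECE_ne _ _ (Or.inl hij))
      (PIECE_ne _ _ (Or.inl hij)) (PIECE_ne _ _ (Or.inr (n0 1).symm)) (PIECE_ne _ _ (Or.inl hij))
      (PIECE_ne _ _ (Or.inl hij)) (PIECE_ne _ _ (Or.inl hij)) _ ?_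
    rintro x ⟨p, t, e0, e1, e2⟩
    exact ⟨p, t, by rw [PIECE_cv_zero, e0], by rw [PIECE_cv_zero, e1],
      by rw [PIECE_cv_one, PIECE_cv_one, e2], by rw [PIECE_cv_one, PIECE_cv_one, e2]⟩
  · refine PIECE_three hTHIN (PIECE_slot i 0 (z i)) (PIECE_slot j 0 (z j)) (PIECE_slot m 0 (z m))
      (PIECE_ne _ _ (Or.inl hij)) (PIECE_ne _ _ (Or.inl him)) (PIECE_ne _ _ (Or.inl hjm)) _ ?_
    rintro x ⟨p, e0, e1, e2⟩
    exact ⟨p, by rw [PIECE_cv_zero, e0], by rw [PIECE_cv_zero, e1], by rw [PIECE_cv_zero, e2]⟩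

end CenLoc
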