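import Pool.Agent.P.MP_2862dc_ag.Stmts

/-!
A polynomial is `O(‖w‖ ^ N)` at the origin iff it lies in the `N`-th power of the maximal ideal.
-/

namespace CenLoc

open MvPolynomial Filter Topology Asymptotics

lemma POLYO_one (N : ℕ) : ∀ q : Polynomial ℂ,
    ((fun t : ℂ => q.eval t) =O[𝓝[≠] 0] fun t => ‖t‖ ^ N) → ∀ j < N, q.coeff j = 0 := by
  induction N with
  | zero => intro q _ j hj; omega
  | succ N ih =>
    intro q hq j hj
    have h0 : q.coeff 0 = 0 := by
      have h1 : Tendsto (fun t : ℂ => ‖t‖ ^ (N + 1)) (𝓝[≠] 0) (𝓝 0) := by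
        have : Tendsto (fun t : ℂ => ‖t‖ ^ (N + 1)) (𝓝 0) (𝓝 (‖(0 : ℂ)‖ ^ (N + 1))) :=
          (continuous_norm.pow _).continuousAt
        simpa using this.mono_left nhdsWithin_le_nhds
      have h2 := hq.trans_tendsto h1
      have h3 : Tendsto (fun t : ℂ => q.eval t) (𝓝[≠] 0) (𝓝 (q.eval 0)) :=
        (q.continuous.continuousAt.tendsto).mono_left nhdsWithin_le_nhds
      rw [Polynomial.coeff_zero_eq_eval_zero]
      exact tendsto_nhds_unique h3 h2
    rcases j with _ | j
    · exact h0
    rw [← Polynomial.coeff_divX]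
    refine ih q.divX ?_ j (by omega)
    obtain ⟨c, hc⟩ := hq.bound
    refine IsBigO.of_bound c ?_
    filter_upwards [hc, self_mem_nhdsWithin] with t ht ht0
    have ht0' : 0 < ‖t‖ := norm_pos_iff.mpr ht0
    have e : q.eval t = q.divX.eval t * t := by
      conv_lhs => rw [← Polynomial.divX_mul_X_add q]
      simp [h0]
    rw [e, norm_mul, Real.norm_of_nonneg (by positivity), pow_succ, ← mul_assoc] at ht
    rw [Real.norm_of_nonneg (by positivity)]
    exact le_of_mul_le_mul_right ht ht0'

lemma POLYO_eval (T : Pol ℂ) (w : Pt) :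
    eval w T = ∑ m ∈ T.support, coeff m T * ∏ i, w i ^ m i := eval_eq' w T

lemma POLYO_deg (m : Fin 2 →₀ ℕ) : m.degree = ∑ i, m i := Finsupp.degree_eq_sum m

/-- Restriction of a polynomial to a line through the origin. -/
noncomputable def POLYO_line (T : Pol ℂ) (v : Pt) : Polynomial ℂ :=
  ∑ m ∈ T.support, Polynomial.monomial m.degree (coeff m T * ∏ i, v i ^ m i)

lemma POLYO_line_eval (T : Pol ℂ) (v : Pt) (t : ℂ) :
    (POLYO_line T v).eval t = eval (t • v) T := by
  rw [POLYO_eval, POLYO_line, Polynomial.eval_finsetSum]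
  refine Finset.sum_congr rfl fun m _ => ?_
  rw [Polynomial.eval_monomial, POLYO_deg]
  simp only [Pi.smul_apply, smul_eq_mul, mul_pow, Finset.prod_mul_distrib,
    Finset.prod_pow_eq_pow_sum]
  ring

lemma POLYO_line_coeff (T : Pol ℂ) (v : Pt) (j : ℕ) :
    (POLYO_line T v).coeff j = eval v (homogeneousComponent j T) := by
  classical
  rw [POLYO_line, Polynomial.finsetSum_coeff, homogeneousComponent_apply, map_sum,
    Finset.sum_filter]
  refine Finset.sum_congr rfl fun m _ => ?_
  rw [Polynomial.coeff_monomial]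
  split_ifs with h
  · rw [eval_monomial, Finsupp.prod_fintype _ _ (by simp)]
  · rfl

theorem pf_POLYO : StPOLYO := by
  intro T p N
  constructor
  · intro h
    rw [mem_pow_idealOfVars_iff']
    intro m hm
    have key : homogeneousComponent m.degree T = 0 := by
      refine MvPolynomial.funext fun v => ?_
      rw [← POLYO_line_coeff, map_zero]
      refine POLYO_one N _ ?_ _ hm
      have ht : Tendsto (fun t : ℂ => p + t • v) (𝓝 0) (𝓝 p) := by
        have : Continuous fun t : ℂ => p + t • v := by fun_prop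
        simpa using this.tendsto 0
      have h1 := h.comp_tendsto ht
      have h2 : (fun t : ℂ => ‖t • v‖ ^ N) =O[𝓝 0] fun t : ℂ => ‖t‖ ^ N := by
        refine IsBigO.of_bound (‖v‖ ^ N) (Eventually.of_forall fun t => ?_)
        rw [Real.norm_of_nonneg (by positivity), Real.norm_of_nonneg (by positivity), norm_smul,
          mul_pow, mul_comm]
      have h3 : (fun t : ℂ => (POLYO_line T v).eval t) =O[𝓝 0] fun t : ℂ => ‖t • v‖ ^ N := by
        refine h1.congr (fun t => ?_) (fun t => ?_)
        · simp [POLYO_line_eval]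
        · simp
      exact (h3.trans h2).mono nhdsWithin_le_nhds
    have := coeff_homogeneousComponent m.degree T m
    rw [key] at this
    simpa using this.symm
  · intro h
    rw [mem_pow_idealOfVars_iff] at h
    simp only [POLYO_eval]
    refine IsBigO.fun_sum (A := fun m z => coeff m T * ∏ i, (z - p) i ^ m i) fun m hm => ?_
    refine IsBigO.of_bound ‖coeff m T‖ ?_
    have hb : ∀ᶠ z in 𝓝 p, ‖z - p‖ ≤ 1 := by
      filter_upwards [Metric.closedBall_mem_nhds p one_pos] with z hz
      rwa [Metric.mem_closedBall, dist_eq_norm] at hz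
    filter_upwards [hb] with z hz
    rw [norm_mul, Real.norm_of_nonneg (by positivity : (0 : ℝ) ≤ ‖z - p‖ ^ N)]
    refine mul_le_mul_of_nonneg_left ?_ (norm_nonneg _)
    calc ‖∏ i, (z - p) i ^ m i‖ = ∏ i, ‖(z - p) i‖ ^ m i := by simp
      _ ≤ ∏ i, ‖z - p‖ ^ m i :=
        Finset.prod_le_prod (fun i _ => by positivity)
          fun i _ => pow_le_pow_left₀ (norm_nonneg _) (norm_le_pi_norm _ i) _
      _ = ‖z - p‖ ^ m.degree := by rw [Finset.prod_pow_eq_pow_sum, POLYO_deg]
      _ ≤ ‖z - p‖ ^ N := pow_le_pow_of_le_one (norm_nonneg _) hz (h m hm)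

end CenLoc
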