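import Pool.Agent.P.MP_2862dc_ag.Stmts

/-!
Elimination of the singular point.
-/

namespace CenLoc

open MvPolynomial

/-- The substitution multiplying the last two variables by `Δ`. -/
noncomputable def PUSH_phi {W : Type} (Δ : MvPolynomial W ℂ) :
    MvPolynomial (W ⊕ Fin 2) ℂ →ₐ[ℂ] MvPolynomial (W ⊕ Fin 2) ℂ :=
  aeval (Sum.elim (fun w => X (Sum.inl w)) fun i => rename Sum.inl Δ * X (Sum.inr i))

lemma PUSH_eval {W : Type} (Δ : MvPolynomial W ℂ) (z : W ⊕ Fin 2 → ℂ)
    (S : MvPolynomial (W ⊕ Fin 2) ℂ) :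
    eval z (PUSH_phi Δ S) =
      eval (Sum.elim (z ∘ Sum.inl) fun i => eval (z ∘ Sum.inl) Δ * z (Sum.inr i)) S := by
  induction S using MvPolynomial.induction_on with
  | C a => simp [PUSH_phi]
  | add p q hp hq => simp only [map_add, hp, hq]
  | mul_X p n hp =>
    rw [map_mul, map_mul, map_mul, hp]
    congr 1
    rcases n with w | i
    · simp [PUSH_phi]
    · simp [PUSH_phi, eval_rename]

lemma PUSH_rename {W : Type} (Δ : MvPolynomial W ℂ) (A : MvPolynomial W ℂ) :
    PUSH_phi Δ (rename Sum.inl A) = rename Sum.inl A := by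
  induction A using MvPolynomial.induction_on with
  | C a => simp [PUSH_phi]
  | add p q hp hq => simp only [map_add, hp, hq]
  | mul_X p n hp =>
    rw [map_mul, map_mul, hp]
    simp [PUSH_phi]

lemma PUSH_clear {W : Type} (Δ : MvPolynomial W ℂ) (S : MvPolynomial (W ⊕ Fin 2) ℂ) :
    ∃ (n : ℕ) (S' : MvPolynomial (W ⊕ Fin 2) ℂ),
      PUSH_phi Δ S' = rename Sum.inl Δ ^ n * S := by
  induction S using MvPolynomial.induction_on with
  | C a => exact ⟨0, C a, by simp [PUSH_phi]⟩
  | add p q hp hq =>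
    obtain ⟨n, p', hp⟩ := hp
    obtain ⟨m, q', hq⟩ := hq
    refine ⟨n + m, rename Sum.inl Δ ^ m * p' + rename Sum.inl Δ ^ n * q', ?_⟩
    rw [map_add, map_mul, map_mul, map_pow, map_pow, PUSH_rename, hp, hq]
    ring
  | mul_X p k hp =>
    obtain ⟨n, p', hp⟩ := hp
    rcases k with w | i
    · refine ⟨n, p' * X (Sum.inl w), ?_⟩
      rw [map_mul, hp]
      simp [PUSH_phi, mul_assoc]
    · refine ⟨n + 1, p' * X (Sum.inr i), ?_⟩
      rw [map_mul, hp]
      simp only [PUSH_phi, aeval_X, Sum.elim_inr]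
      ring

/-- The polynomials `S` such that `S Γ` vanishes on `Z`. -/
def PUSH_b {V : Type} (Z : Set (V → ℂ)) (Γ : MvPolynomial V ℂ) : Ideal (MvPolynomial V ℂ) where
  carrier := {S | ∀ z ∈ Z, eval z (S * Γ) = 0}
  add_mem' := by
    intro a b ha hb z hz
    rw [add_mul, map_add, ha z hz, hb z hz, add_zero]
  zero_mem' := by
    intro z _
    simp
  smul_mem' := by
    intro c a ha z hz
    rw [smul_eq_mul, mul_assoc, map_mul, ha z hz, mul_zero]

theorem pf_PUSH : StPUSH := by
  intro W _ Z Δ hm ω Γ hω hp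
  classical
  by_contra hcon
  push Not at hcon
  set b : Ideal (MvPolynomial (W ⊕ Fin 2) ℂ) := PUSH_b Z (rename Sum.inl Γ) with hb
  set b' : Ideal (MvPolynomial (W ⊕ Fin 2) ℂ) := b.comap (PUSH_phi Δ) with hb'
  let f : MvPolynomial W ℂ →+* MvPolynomial (W ⊕ Fin 2) ℂ ⧸ b' :=
    (Ideal.Quotient.mk b').comp
      (rename Sum.inl : MvPolynomial W ℂ →ₐ[ℂ] MvPolynomial (W ⊕ Fin 2) ℂ).toRingHom
  have hf : ∀ A, f A = Ideal.Quotient.mk b' (rename Sum.inl A) := fun A => rfl
  have hint : f.IsIntegral := by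
    intro x
    obtain ⟨S, rfl⟩ := Ideal.Quotient.mk_surjective x
    induction S using MvPolynomial.induction_on with
    | C a =>
      have : Ideal.Quotient.mk b' (C a) = f (C a) := by rw [hf, rename_C]
      rw [this]
      exact f.isIntegralElem_map
    | add p q hp hq =>
      rw [map_add]
      exact hp.add f hq
    | mul_X p k hp =>
      rw [map_mul]
      refine hp.mul f ?_
      rcases k with w | i
      · have : Ideal.Quotient.mk b' (X (Sum.inl w)) = f (X w) := by rw [hf, rename_X]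
        rw [this]
        exact f.isIntegralElem_map
      · obtain ⟨m, hmon, hz⟩ := hm i
        refine ⟨m, hmon, ?_⟩
        rw [← Polynomial.hom_eval₂, Ideal.Quotient.eq_zero_iff_mem]
        intro z hzZ
        rw [map_mul]
        apply mul_eq_zero_of_left
        rw [PUSH_eval, Polynomial.hom_eval₂, ← hz z hzZ]
        congr 1
        · ext a
          · simp
          · simp
        · simp
  letI := f.toAlgebra
  haveI : Algebra.IsIntegral (MvPolynomial W ℂ) (MvPolynomial (W ⊕ Fin 2) ℂ ⧸ b') := ⟨hint⟩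
  have hker : RingHom.ker (algebraMap (MvPolynomial W ℂ) (MvPolynomial (W ⊕ Fin 2) ℂ ⧸ b')) ≤
      vanishingIdeal ℂ {ω} := by
    intro A hA
    rw [mem_vanishingIdeal_singleton_iff]
    by_contra hne
    have h1 : Ideal.Quotient.mk b' (rename Sum.inl A) = 0 := hA
    rw [Ideal.Quotient.eq_zero_iff_mem, hb', Ideal.mem_comap, PUSH_rename] at h1
    obtain ⟨z, hz, hz'⟩ := hcon A (by simpa [aeval_eq_eval] using hne)
    apply hz'
    have := h1 z hz
    rwa [← map_mul, eval_rename] at this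
  obtain ⟨Q, hQ, hQc⟩ := Ideal.exists_ideal_over_maximal_of_isIntegral _ hker
  have hQ' : (Q.comap (Ideal.Quotient.mk b')).IsMaximal :=
    Ideal.comap_isMaximal_of_surjective _ Ideal.Quotient.mk_surjective
  obtain ⟨x, hx⟩ := isMaximal_iff_eq_vanishingIdeal_singleton.1 hQ'
  have hxω : x ∘ Sum.inl = ω := by
    funext w
    have h1 : X w - C (ω w) ∈ vanishingIdeal ℂ {ω} := by
      rw [mem_vanishingIdeal_singleton_iff]
      simp
    rw [← hQc] at h1
    have h2 : rename Sum.inl (X w - C (ω w)) ∈ Q.comap (Ideal.Quotient.mk b') := h1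
    rw [hx, mem_vanishingIdeal_singleton_iff] at h2
    simpa [sub_eq_zero] using h2
  set p : Pt := fun i => x (Sum.inr i) / eval ω Δ with hpdef
  have hkill : ∀ S ∈ b, eval (Sum.elim ω p) S = 0 := by
    intro S hS
    obtain ⟨n, S', hS'⟩ := PUSH_clear Δ S
    have h1 : S' ∈ b' := by
      rw [hb', Ideal.mem_comap, hS']
      exact Ideal.mul_mem_left _ _ hS
    have h2 : S' ∈ Q.comap (Ideal.Quotient.mk b') := by
      rw [Ideal.mem_comap, Ideal.Quotient.eq_zero_iff_mem.2 h1]
      exact Q.zero_mem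
    rw [hx, mem_vanishingIdeal_singleton_iff] at h2
    have h3 := PUSH_eval Δ (Sum.elim ω p) S'
    have h4 : (Sum.elim (Sum.elim ω p ∘ Sum.inl)
        fun i => eval (Sum.elim ω p ∘ Sum.inl) Δ * Sum.elim ω p (Sum.inr i)) = x := by
      funext k
      rcases k with w | i
      · simp [← hxω]
      · simp only [Sum.elim_comp_inl, Sum.elim_inr, hpdef]
        field_simp
    rw [h4, hS', map_mul, map_pow, eval_rename, Sum.elim_comp_inl] at h3
    have h5 : eval x S' = 0 := by simpa [aeval_eq_eval] using h2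
    rw [h5] at h3
    exact (mul_eq_zero.1 h3).resolve_left (pow_ne_zero _ hω)
  obtain ⟨S, hS, hSb⟩ := hp p fun Φ hΦ => hkill Φ fun z hz => by
    rw [map_mul, hΦ z hz, zero_mul]
  exact hS (hkill S hSb)

end CenLoc
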