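import Pool.Agent.P.MP_2862dc_ag.Basic

namespace CenLoc

open Polynomial

section RED
variable {k G : Type} [Field k] [Fintype G] [DecidableEq G]

/-- The factor `1 - lam g z`. -/
noncomputable def RED_q (lam : G → k) (g : G) : Polynomial k := 1 - C (lam g) * X

/-- The product of the other factors. -/
noncomputable def RED_p (lam : G → k) (g : G) : Polynomial k :=
  ∏ g' ∈ Finset.univ.erase g, RED_q lam g'

lemma RED_qp (lam : G → k) (g : G) : ∏ g', RED_q lam g' = RED_q lam g * RED_p lam g :=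
  (Finset.mul_prod_erase _ _ (Finset.mem_univ g)).symm

omit [Fintype G] [DecidableEq G] in
lemma RED_q0 {lam : G → k} {g : G} (h : lam g ≠ 0) : (RED_q lam g).eval (lam g)⁻¹ = 0 := by
  simp [RED_q, h]

lemma RED_p0 {lam : G → k} {g g' : G} (h : lam g ≠ 0) (hg : g' ≠ g) :
    (RED_p lam g').eval (lam g)⁻¹ = 0 := by
  rw [RED_p, eval_prod]
  exact Finset.prod_eq_zero (Finset.mem_erase.2 ⟨hg.symm, Finset.mem_univ g⟩) (RED_q0 h)

lemma RED_p1 {lam : G → k} {g : G} (h : lam g ≠ 0) (hl : ∀ g g', g ≠ g' → lam g ≠ lam g') :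
    (RED_p lam g).eval (lam g)⁻¹ ≠ 0 := by
  rw [RED_p, eval_prod]
  refine Finset.prod_ne_zero_iff.2 fun g' hg' h0 => hl g' g (Finset.ne_of_mem_erase hg') ?_
  simp only [RED_q, eval_sub, eval_one, eval_mul, eval_C, eval_X] at h0
  field_simp at h0
  linear_combination -h0

lemma RED_all0 {lam : G → k} {g : G} (h : lam g ≠ 0) :
    (∏ g', RED_q lam g').eval (lam g)⁻¹ = 0 := by
  rw [RED_qp lam g, eval_mul, RED_q0 h, zero_mul]

omit [Fintype G] [DecidableEq G] in
lemma RED_dz (lam : G → k) (g : G) (D W : Ser k) :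
    (C D + X * C W : Polynomial (Ser k)) =
      (RED_q lam g).map (algebraMap k (Ser k)) * C D + X * C (lam g • D + W) := by
  simp only [RED_q, Polynomial.map_sub, Polynomial.map_one, Polynomial.map_mul, map_C, map_X,
    Algebra.smul_def, map_add, map_mul]
  ring

omit [DecidableEq G] in
lemma RED_coeff (E : Submodule k (Ser k)) (p : G → Polynomial k) (v : G → Ser k)
    (hv : ∀ g, v g ∈ E) (j : ℕ) :
    (∑ g, (p g).map (algebraMap k (Ser k)) * C (v g)).coeff j ∈ E := by
  rw [finsetSum_coeff]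
  refine Submodule.sum_mem _ fun g _ => ?_
  rw [coeff_mul_C, coeff_map, ← Algebra.smul_def]
  exact E.smul_mem _ (hv g)

omit [DecidableEq G] in
lemma RED_eval (p : G → Polynomial k) (v : G → Ser k) (z : k) :
    (∑ g, (p g).map (algebraMap k (Ser k)) * C (v g)).eval (MvPowerSeries.C z) =
      ∑ g, (p g).eval z • v g := by
  rw [eval_finsetSum]
  refine Finset.sum_congr rfl fun g _ => ?_
  have e : (MvPowerSeries.C z : Ser k) = algebraMap k (Ser k) z := rfl
  rw [eval_mul, eval_C, e, eval_map, eval₂_at_apply, ← Algebra.smul_def]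

omit [DecidableEq G] in
lemma RED_null (hNULL : StNULL) (h : Ser k × Ser k) (p : G → Polynomial k)
    (β : G → Ser k × Ser k) :
    Null h (∑ g, (p g).map (algebraMap k (Ser k)) * (C (dvgS (β g)) + X * C (wedge h (β g)))) := by
  obtain ⟨h0, ha, hm, -, hd, -⟩ := hNULL k h
  exact Finset.sum_induction _ _ ha h0 fun g _ => hm _ _ (hd _)

omit [Fintype G] [DecidableEq G] in
lemma RED_div {I : Type} [Fintype I] (L : Lines k G I) {r : k} (hr : r ≠ 0) {v : Ser k}
    (h : ∃ c, r • v = wedge L.h (L.zeta c)) : ∃ c, v = wedge L.h (L.zeta c) := by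
  obtain ⟨c, hc⟩ := h
  refine ⟨r⁻¹ • c, ?_⟩
  have e : L.zeta (r⁻¹ • c) = r⁻¹ • L.zeta c := by
    simp only [Lines.zeta, Finset.smul_sum, Pi.smul_apply, smul_assoc]
  rw [e, wedge_smul_right', ← hc, smul_smul, inv_mul_cancel₀ hr, one_smul]

end RED

theorem pf_RED (hLB : StLB) (hNULL : StNULL) : StRED := by
  intro k G I _ _ _ _ _ _ L hG hI
  obtain ⟨hmu, -, hl, -⟩ := hLB k G I L hG
  have h0 : ∀ g, L.lam g ≠ 0 := fun g => by
    obtain ⟨i, rfl⟩ := hG.surj g
    exact hmu i
  obtain ⟨-, ha, hm, -, -, -⟩ := hNULL k L.h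
  constructor
  · intro χ hχ hN g0
    have N : Null L.h (∑ g, (-X * RED_p L.lam g).map (algebraMap k (Ser k)) *
        C (L.lam g • dvgS (χ g) + wedge L.h (χ g))) := by
      have := ha _ _ (hm (∏ g, RED_q L.lam g) _ hN)
        (RED_null hNULL L.h (fun g => -RED_p L.lam g) χ)
      convert this using 1
      rw [dvgS_sum, map_sum, Finset.mul_sum, ← Finset.sum_add_distrib]
      refine Finset.sum_congr rfl fun g _ => ?_
      rw [RED_dz L.lam g, RED_qp L.lam g]
      simp only [Polynomial.map_mul, Polynomial.map_neg, map_X]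
      ring
    obtain ⟨c, hc⟩ := hI _ (RED_coeff L.E _ _ hχ) N (L.lam g0)⁻¹
    rw [RED_eval, Finset.sum_eq_single g0 (fun g _ hg => by
      rw [eval_mul, RED_p0 (h0 g0) hg, mul_zero, zero_smul]) (by simp)] at hc
    refine RED_div L ?_ ⟨c, hc⟩
    rw [eval_mul, eval_neg, eval_X]
    exact mul_ne_zero (neg_ne_zero.2 (inv_ne_zero (h0 g0))) (RED_p1 (h0 g0) hl)
  · intro χ ξ χ' w hχ hχ' hw hξ hN g0
    have N : Null L.h (∑ g, (-X * (∏ g', RED_q L.lam g') * RED_p L.lam g).map
          (algebraMap k (Ser k)) * C (L.lam g • dvgS (χ g) + wedge L.h (χ g)) +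
        ∑ g, (X ^ 2 * RED_p L.lam g ^ 2).map (algebraMap k (Ser k)) *
          C (L.lam g • dvgS (χ' g) + wedge L.h (χ' g)) +
        ∑ g, (-X * (∏ g', RED_q L.lam g') * RED_p L.lam g).map (algebraMap k (Ser k)) *
          C (w g)) := by
      have := ha _ _ (ha _ _ (ha _ _ (hm ((∏ g, RED_q L.lam g) ^ 2) _ hN)
        (RED_null hNULL L.h (fun g => -((∏ g', RED_q L.lam g') * RED_p L.lam g)) χ))
        (RED_null hNULL L.h (fun g => -((∏ g', RED_q L.lam g') * RED_p L.lam g)) ξ))
        (RED_null hNULL L.h (fun g => X * RED_p L.lam g ^ 2) χ')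
      convert this using 1
      rw [dvgS_add, dvgS_sum, dvgS_sum, C_add, map_sum C, map_sum C, mul_add, Finset.mul_sum,
        Finset.mul_sum]
      simp only [← Finset.sum_add_distrib]
      refine Finset.sum_congr rfl fun g _ => ?_
      rw [RED_dz L.lam g (dvgS (χ g)), RED_dz L.lam g (dvgS (ξ g)), RED_dz L.lam g (dvgS (χ' g)),
        hξ g, RED_qp L.lam g, C_add (a := dvgS (χ' g))]
      simp only [Polynomial.map_mul, Polynomial.map_neg, map_X, Polynomial.map_pow]
      ring
    obtain ⟨c, hc⟩ := hI _ (fun j => by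
      rw [coeff_add, coeff_add]
      exact add_mem (add_mem (RED_coeff L.E _ _ hχ j) (RED_coeff L.E _ _ hχ' j))
        (RED_coeff L.E _ _ hw j)) N (L.lam g0)⁻¹
    rw [eval_add, eval_add, RED_eval, RED_eval, RED_eval,
      Finset.sum_eq_zero (fun g _ => by
        rw [eval_mul, eval_mul, RED_all0 (h0 g0), mul_zero, zero_mul, zero_smul]),
      Finset.sum_eq_single g0 (fun g _ hg => by
        rw [eval_mul, eval_pow, eval_pow, RED_p0 (h0 g0) hg, zero_pow two_ne_zero, mul_zero,
          zero_smul]) (by simp),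
      Finset.sum_eq_zero (fun g _ => by
        rw [eval_mul, eval_mul, RED_all0 (h0 g0), mul_zero, zero_mul, zero_smul]),
      zero_add, add_zero] at hc
    refine RED_div L ?_ ⟨c, hc⟩
    rw [eval_mul, eval_pow, eval_pow, eval_X]
    exact mul_ne_zero (pow_ne_zero _ (inv_ne_zero (h0 g0))) (pow_ne_zero _ (RED_p1 (h0 g0) hl))

end CenLoc
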