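import Pool.Agent.P.MP_2862dc_ag.Basic

/-! Lower bound for the rank of the derivative acting on jets. -/

namespace CenLoc

open MvPolynomial

theorem pf_RKGE (hKERN : StKERN) : StRKGE := by
  intro k _ _ u H N hu hd hj hH2 hH3 hact
  have hle : LinearMap.ker (Lmap N u) ≤
      Submodule.span k (Set.range fun i : Fin (N / 2 + 1) => jet N (H ^ (i : ℕ))) := by
    intro c hc
    have h1 : act u (polyOf c) ∈ mI k ^ (N + 1) := jet_eq_zero_iff.mp hc
    obtain ⟨e, he⟩ := hKERN k u H (polyOf c) (N + 1) hu hd hj hH2 hH3 hact h1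
    have hN : (N + 1 + 1) / 2 = N / 2 + 1 := by omega
    rw [hN] at he
    have h2 := jet_eq_zero_iff.mpr he
    have h3 : c = ∑ i : Fin (N / 2 + 1), e i • jet N (H ^ (i : ℕ)) := by
      funext m
      have := congrFun h2 m
      simp only [jet, coeff_sub, coeff_polyOf_mon, coeff_sum, coeff_C_mul, Pi.zero_apply,
        sub_eq_zero] at this
      rw [this, Finset.sum_range]
      simp [jet]
    rw [h3]
    exact Submodule.sum_mem _ fun i _ =>
      Submodule.smul_mem _ _ (Submodule.subset_span ⟨i, rfl⟩)
  have h4 := (Submodule.finrank_mono hle).trans (finrank_range_le_card _)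
  have h5 := LinearMap.finrank_range_add_finrank_ker (Lmap N u)
  rw [Module.finrank_fintype_fun_eq_card] at h5
  rw [Fintype.card_fin] at h4
  omega

end CenLoc
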