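import Pool.Agent.P.MP_2862dc_ag.Basic

/-! Upper bound for the rank of the derivative along a field with a formal first integral. -/

namespace CenLoc

open MvPolynomial

variable {k : Type} [Field k]

theorem RKLE_pow_mem {f : Pol k} (h : f ∈ mI k ^ 2) (i : ℕ) : f ^ i ∈ mI k ^ (2 * i) := by
  rw [pow_mul]; exact Ideal.pow_mem_pow h i

theorem RKLE_pow_notMem {f : Pol k} (h2 : f ∈ mI k ^ 2) (h3 : f ∉ mI k ^ 3) (i : ℕ) :
    f ^ i ∉ mI k ^ (2 * i + 1) := by
  set g := homogeneousComponent 2 f with hg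
  have hd : f - g ∈ mI k ^ 3 := mem_mI_pow.mpr fun m hm => by
    rw [coeff_sub, hg, coeff_homogeneousComponent]
    split_ifs with h
    · exact sub_self _
    · rw [mem_mI_pow.mp h2 m (by omega), sub_zero]
  have hg2 : g ∈ mI k ^ 2 := by
    have := Ideal.sub_mem _ h2 (mI_pow_mono (by norm_num : 2 ≤ 3) hd)
    rwa [sub_sub_cancel] at this
  have hg0 : g ≠ 0 := fun h => h3 (by rwa [h, sub_zero] at hd)
  have hdi : ∀ j, f ^ j - g ^ j ∈ mI k ^ (2 * j + 1) := fun j => by
    induction j with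
    | zero => simp
    | succ j ih =>
      have e : f ^ (j + 1) - g ^ (j + 1) = f * (f ^ j - g ^ j) + (f - g) * g ^ j := by ring
      rw [e]
      exact Ideal.add_mem _ (mI_pow_mono (by omega) (mul_mem_mI_pow h2 ih))
        (mI_pow_mono (by omega) (mul_mem_mI_pow hd (RKLE_pow_mem hg2 j)))
  intro h
  have h1 : g ^ i ∈ mI k ^ (2 * i + 1) := by
    have := Ideal.sub_mem _ h (hdi i)
    rwa [sub_sub_cancel] at this
  have hh : (g ^ i).IsHomogeneous (2 * i) := (homogeneousComponent_isHomogeneous 2 f).pow i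
  refine pow_ne_zero i hg0 (MvPolynomial.ext _ _ fun m => ?_)
  rw [coeff_zero]
  by_cases hm : m.degree = 2 * i
  · exact mem_mI_pow.mp h1 m (by omega)
  · exact hh.coeff_eq_zero hm

theorem RKLE_act_pow (u : Pol k × Pol k) (f : Pol k) (i : ℕ) :
    ∃ c, act u (f ^ i) = c * act u f :=
  ⟨i • f ^ (i - 1), by simp only [act, Derivation.leibniz_pow, smul_eq_mul, nsmul_eq_mul]; ring⟩

theorem pf_RKLE : StRKLE := by
  intro k _ u f N hu h2 h3 ha
  have hker : ∀ i : ℕ, jet N (f ^ i) ∈ LinearMap.ker (Lmap N u) := fun i => by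
    obtain ⟨c, hc⟩ := RKLE_act_pow u f i
    have h1 := act_mem_mI_pow hu (sub_polyOf_jet N (f ^ i))
    have e : act u (polyOf (jet N (f ^ i))) =
        c * act u f - act u (f ^ i - polyOf (jet N (f ^ i))) := by
      rw [← hc]; simp only [act, map_sub]; ring
    refine (jet_eq_zero_iff (g := act u (polyOf (jet N (f ^ i))))).mpr ?_
    rw [e]
    exact Ideal.sub_mem _ (Ideal.mul_mem_left _ _ ha) h1
  have hli : LinearIndependent k fun i : Fin (N / 2 + 1) =>
      (⟨jet N (f ^ (i : ℕ)), hker i⟩ : LinearMap.ker (Lmap N u)) := by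
    refine Fintype.linearIndependent_iff.mpr fun c hc => ?_
    have h0 : ∑ i : Fin (N / 2 + 1), C (c i) * f ^ (i : ℕ) ∈ mI k ^ (N + 1) := by
      refine jet_eq_zero_iff.mp (funext fun m => ?_)
      have := congrFun (congrArg Subtype.val hc) m
      simpa [jet, coeff_sum] using this
    intro i
    induction i using WellFoundedLT.induction with
    | ind i ih =>
      by_contra hi
      refine RKLE_pow_notMem h2 h3 i ?_
      have hi' := i.2
      have h1 : ∑ j ∈ Finset.univ.erase i, C (c j) * f ^ (j : ℕ) ∈ mI k ^ (2 * (i : ℕ) + 1) := by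
        refine Ideal.sum_mem _ fun j hj => ?_
        rcases lt_or_gt_of_ne (Finset.ne_of_mem_erase hj) with h | h
        · rw [ih j h, C_0, zero_mul]; exact Ideal.zero_mem _
        · have : (i : ℕ) < j := h
          exact Ideal.mul_mem_left _ _ (mI_pow_mono (by omega) (RKLE_pow_mem h2 j))
      rw [← Finset.add_sum_erase _ _ (Finset.mem_univ i)] at h0
      have h4 := Ideal.mul_mem_left _ (C (c i)⁻¹)
        (Ideal.sub_mem _ (mI_pow_mono (by omega : 2 * (i : ℕ) + 1 ≤ N + 1) h0) h1)
      rwa [add_sub_cancel_right, ← mul_assoc, ← C_mul, inv_mul_cancel₀ hi, C_1, one_mul] at h4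
  have h5 := hli.fintype_card_le_finrank
  have h6 := LinearMap.finrank_range_add_finrank_ker (Lmap N u)
  rw [Fintype.card_fin] at h5
  rw [Module.finrank_fintype_fun_eq_card] at h6
  omega

end CenLoc
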