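import Pool.Agent.P.MP_2862dc_ag.Basic

/-! The formal condition over the one parameter family is saturated. -/

namespace CenLoc

open MvPolynomial

section
variable {R : Type} [CommRing R]

theorem SAT_act_pow (u : Pol R × Pol R) (f : Pol R) (i : ℕ) :
    ∃ c, act u (f ^ i) = c * act u f :=
  ⟨i • f ^ (i - 1), by simp only [act, Derivation.leibniz_pow, smul_eq_mul, nsmul_eq_mul]; ring⟩

theorem SAT_act_add (u : Pol R × Pol R) (a b : Pol R) : act u (a + b) = act u a + act u b := by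
  simp only [act, map_add]; ring

theorem SAT_act_C (u : Pol R × Pol R) (r : R) (a : Pol R) : act u (C r * a) = C r * act u a := by
  simp only [act, pderiv_C_mul]; ring

theorem SAT_act_sum {N : ℕ} (u : Pol R × Pol R) {H : Pol R} (h : act u H ∈ mI R ^ N)
    (s : Finset ℕ) (c : ℕ → R) : act u (∑ i ∈ s, C (c i) * H ^ i) ∈ mI R ^ N := by
  refine Finset.sum_induction _ (fun x => act u x ∈ mI R ^ N) (fun a b ha hb => ?_)
    (by simp [act]) fun i _ => ?_
  · rw [SAT_act_add]; exact Ideal.add_mem _ ha hb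
  · obtain ⟨e, he⟩ := SAT_act_pow u H i
    rw [SAT_act_C, he]
    exact Ideal.mul_mem_left _ _ (Ideal.mul_mem_left _ _ h)

theorem SAT_jac {u : Pol R × Pol R} (h : OrdP 2 u) : jac u = 0 := by
  refine mem_mI.mp ?_
  have h1 := pderiv_mem_mI_pow h.1 0
  have h2 := pderiv_mem_mI_pow h.1 1
  rw [pow_one] at h1 h2
  exact Ideal.sub_mem _ (Ideal.mul_mem_right _ _ h1) (Ideal.mul_mem_right _ _ h2)

theorem SAT_ord {M : ℕ} (hM : 2 ≤ M) {F H : Pol R} {u : Pol R × Pol R}
    (h : OrdP M (F • ham H - u)) (hH : H ∈ mI R ^ 3) : OrdP 2 u := by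
  constructor
  · have := Ideal.sub_mem _ (Ideal.mul_mem_left _ F (pderiv_mem_mI_pow hH 1)) (mI_pow_mono hM h.1)
    simpa [ham] using this
  · have := Ideal.sub_mem _ (Ideal.mul_mem_left _ F (neg_mem (pderiv_mem_mI_pow hH 0)))
      (mI_pow_mono hM h.2)
    simpa [ham] using this

end

theorem SAT_split {k : Type} [Field k] (g : Pol (Polynomial k)) : ∃ g1,
    g = C Polynomial.X * g1 + map Polynomial.C (map (Der.eps k).c0 g) := by
  have : C Polynomial.X ∣ g - map Polynomial.C (map (Der.eps k).c0 g) := by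
    refine (C_dvd_iff_dvd_coeff _ _).mpr fun m => Polynomial.X_dvd_iff.mpr ?_
    simp [coeff_map, Der.eps]
  obtain ⟨g1, h⟩ := this
  exact ⟨g1, by rw [← h, sub_add_cancel]⟩

theorem pf_SAT (hLB : StLB) (hFE : StFE) (hFINT : StFINT) (hKERN : StKERN) : StSAT := by
  intro k G I _ _ _ _ _ _ L hL j hj N u ⟨a, ha⟩
  obtain ⟨-, -, -, -, -, -, -, -, -, hN0, hjac⟩ := hLB k G I L hL
  obtain ⟨hN, hf, -, hl, -⟩ := hFE k G I L hL j hj
  obtain ⟨h1, -, H, hH2, hHo, hHa, -⟩ := hFINT _ G L.dd (L.fE j) L.lamE (N + 3) hN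
  obtain ⟨h01, h0d, -⟩ := hFINT k G L.dd L.f L.lam 0 hN0
  set φ := (Der.eps k).c0 with hφ
  have hom : mapP φ (om (L.fE j) L.lamE) = om L.f L.lam := by
    rw [mapP_om, funext hf, funext hl]
  have hF : map φ (∏ g, L.fE j g) = ∏ g, L.f g := by rw [map_prod, funext hf]
  have hX : φ Polynomial.X = 0 := by simp [hφ, Der.eps]
  have hCφ : ∀ c : k, φ (Polynomial.C c) = c := fun c => by simp [hφ, Der.eps]
  have hw : wedge ((Polynomial.X : Polynomial k) • u) (om (L.fE j) L.lamE) =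
      C Polynomial.X * wedge u (om (L.fE j) L.lamE) := by
    rw [smul_eq_C_smul, wedge_smul_left]
  rw [hw] at ha
  have ha0 : act (om L.f L.lam) (map φ a) ∈ mI k ^ N := by
    have := map_mem_mI_pow φ ha
    rw [map_sub, map_mul, map_mul, map_C, hX, C_0, zero_mul, zero_sub, map_act, hom, hF] at this
    exact mem_mI_pow_of_mul (coeff_zero_prod _ _ fun g _ => hN0.one g) (neg_mem_iff.mp this)
  have hH3 : map φ H ∉ mI k ^ 3 := fun h => hjac (SAT_jac (SAT_ord (M := N + 3) (by omega)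
    (F := ∏ g, L.f g) (by
      rw [← hom, ← hF, ← mapP_ham, ← mapP_smul, ← mapP_sub]
      exact ⟨map_mem_mI_pow φ hHo.1, map_mem_mI_pow φ hHo.2⟩) h))
  obtain ⟨c, hc⟩ := hKERN k (om L.f L.lam) (map φ H) (map φ a) N h01 h0d hjac
    (map_mem_mI_pow φ hH2) hH3 (by rw [← hom, ← map_act]; exact map_mem_mI_pow φ hHa) ha0
  set s := ∑ i ∈ Finset.range ((N + 1) / 2), C (Polynomial.C (c i)) * H ^ i with hs
  obtain ⟨a1, e1⟩ := SAT_split (a - s)
  have hb : map Polynomial.C (map φ (a - s)) ∈ mI (Polynomial k) ^ N := by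
    refine map_mem_mI_pow _ ?_
    simpa only [hs, map_sub, map_sum, map_mul, map_C, map_pow, hCφ] using hc
  have e2 : a = C Polynomial.X * a1 + map Polynomial.C (map φ (a - s)) + s := by
    rw [← e1, sub_add_cancel]
  have h2 := Ideal.add_mem _ ha (Ideal.mul_mem_left _ (∏ g, L.fE j g)
    (Ideal.add_mem _ (act_mem_mI_pow h1 hb)
      (SAT_act_sum _ (mI_pow_mono (by omega : N ≤ N + 3) hHa) (Finset.range ((N + 1) / 2))
        fun i => Polynomial.C (c i))))
  have e3 : act (om (L.fE j) L.lamE) a = C Polynomial.X * act (om (L.fE j) L.lamE) a1 +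
      act (om (L.fE j) L.lamE) (map Polynomial.C (map φ (a - s))) +
      act (om (L.fE j) L.lamE) s := by
    rw [← SAT_act_C, ← SAT_act_add, ← SAT_act_add, ← e2]
  refine ⟨a1, mem_mI_pow.mpr fun m hm => ?_⟩
  have h3 : C Polynomial.X * (wedge u (om (L.fE j) L.lamE) -
      (∏ g, L.fE j g) * act (om (L.fE j) L.lamE) a1) ∈ mI (Polynomial k) ^ N := by
    convert h2 using 1
    rw [e3, ← hs]
    ring
  have h4 := mem_mI_pow.mp h3 m hm
  rw [coeff_C_mul] at h4
  exact (mul_eq_zero.mp h4).resolve_left Polynomial.X_ne_zero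

end CenLoc
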