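import Pool.Agent.P.MP_2862dc_ag.Stmts

namespace CenLoc

open Module

theorem SEMI_rn {F V W : Type} [Field F] [AddCommGroup V] [Module F V] [AddCommGroup W]
    [Module F W] [FiniteDimensional F V] [FiniteDimensional F W] (S : Submodule F V)
    (f : W →ₗ[F] V) :
    finrank F (S ⊔ LinearMap.range f : Submodule F V) + finrank F (S.comap f)
      = finrank F S + finrank F W := by
  have h1 := LinearMap.finrank_range_add_finrank_ker (S.mkQ ∘ₗ f)
  have h2 := LinearMap.finrank_range_add_finrank_ker
    (S.mkQ ∘ₗ (S ⊔ LinearMap.range f).subtype)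
  have k1 : LinearMap.ker (S.mkQ ∘ₗ f) = S.comap f := by
    rw [LinearMap.ker_comp, Submodule.ker_mkQ]
  have k2 : LinearMap.ker (S.mkQ ∘ₗ (S ⊔ LinearMap.range f).subtype)
      = S.comap (S ⊔ LinearMap.range f).subtype := by
    rw [LinearMap.ker_comp, Submodule.ker_mkQ]
  have r2 : LinearMap.range (S.mkQ ∘ₗ (S ⊔ LinearMap.range f).subtype)
      = LinearMap.range (S.mkQ ∘ₗ f) := by
    rw [LinearMap.range_comp, LinearMap.range_comp, Submodule.range_subtype, Submodule.map_sup,
      Submodule.mkQ_map_self, bot_sup_eq]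
  have e2 : finrank F (S.comap (S ⊔ LinearMap.range f).subtype) = finrank F S :=
    (Submodule.comapSubtypeEquivOfLe (le_sup_left : S ≤ S ⊔ LinearMap.range f)).finrank_eq
  rw [k1] at h1
  rw [k2, r2, e2] at h2
  omega

theorem SEMI_rn2 {F A B J : Type} [Field F] [Fintype A] [Fintype B] [Fintype J]
    (l : A → J → F) (α : B → J → F) :
    finrank F (Submodule.span F (Set.range (Sum.elim l α)))
      + finrank F ((Submodule.span F (Set.range l)).comap (Fintype.linearCombination F α))
      = finrank F (Submodule.span F (Set.range l)) + Fintype.card B := by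
  have h := SEMI_rn (Submodule.span F (Set.range l)) (Fintype.linearCombination F α)
  rw [Fintype.range_linearCombination, ← Submodule.span_union, ← Set.Sum.elim_range,
    Module.finrank_fintype_fun_eq_card] at h
  exact h

theorem pf_SEMI (hLIS : StLIS) : StSEMI := by
  classical
  intro U K _ _ φ A B J _ _ _ l α ρ n hρ hn
  obtain ⟨κ, a, ha, hspan, hli⟩ := exists_linearIndependent' K
    (Sum.elim (fun a => fun j => φ (l a j)) (fun b => fun j => φ (α b j)) : A ⊕ B → J → K)
  have : Finite κ := Finite.of_injective a ha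
  let : Fintype κ := Fintype.ofFinite κ
  have hcard := finrank_span_eq_card hli
  rw [hspan] at hcard
  have hφ := SEMI_rn2 (fun a => fun j => φ (l a j)) (fun b => fun j => φ (α b j))
  have hel : ∀ (F : Type) [Field F] (χ : U →+* F),
      (fun k => fun j => χ ((Sum.elim l α : A ⊕ B → J → U) (a k) j))
        = (Sum.elim (fun a => fun j => χ (l a j)) (fun b => fun j => χ (α b j))
          : A ⊕ B → J → F) ∘ a := by
    intro F _ χ
    funext k j
    simp only [Function.comp]
    cases a k <;> rfl
  obtain ⟨e, he⟩ := hLIS U K φ κ J (fun k => (Sum.elim l α : A ⊕ B → J → U) (a k))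
    (by rw [hel K φ]; exact hli)
  refine ⟨_, he, fun ψ hψ hS => ?_⟩
  have hψ2 := SEMI_rn2 (fun a => fun j => ψ (l a j)) (fun b => fun j => ψ (α b j))
  rw [RingHom.map_det] at hψ
  have hrows := Matrix.linearIndependent_rows_of_det_ne_zero hψ
  have hli2 : LinearIndependent ℂ
      (fun k => fun j => ψ ((Sum.elim l α : A ⊕ B → J → U) (a k) j)) :=
    LinearIndependent.of_comp (LinearMap.funLeft ℂ ℂ e) hrows
  rw [hel ℂ ψ] at hli2
  have hc2 := finrank_span_eq_card hli2
  have hle : finrank ℂ (Submodule.span ℂ (Set.range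
      ((Sum.elim (fun a => fun j => ψ (l a j)) (fun b => fun j => ψ (α b j))
          : A ⊕ B → J → ℂ) ∘ a)))
      ≤ finrank ℂ (Submodule.span ℂ (Set.range
        (Sum.elim (fun a => fun j => ψ (l a j)) (fun b => fun j => ψ (α b j))
          : A ⊕ B → J → ℂ))) :=
    Submodule.finrank_mono (Submodule.span_mono (Set.range_comp_subset_range _ _))
  omega

end CenLoc
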