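import Pool.Agent.P.MP_2862dc_ag.Stmts

/-! The factor `s` of a chart does not vanish at a reduced zero. -/

namespace CenLoc

open MvPolynomial Filter Topology

lemma SP_hasFDeriv (g : Pol ℂ) (z : Pt) :
    ∃ L : Pt →L[ℂ] ℂ, HasFDerivAt (fun x : Pt => eval x g) L z ∧
      ∀ i : Fin 2, L (Pi.single i 1) = eval z (pderiv i g) := by
  induction g using MvPolynomial.induction_on with
  | C a =>
    refine ⟨0, ?_, fun i => by simp⟩
    simpa using hasFDerivAt_const a z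
  | add p q hp hq =>
    obtain ⟨L, hL, hL'⟩ := hp
    obtain ⟨M, hM, hM'⟩ := hq
    refine ⟨L + M, ?_, fun i => by simp [hL', hM']⟩
    simpa [map_add] using hL.fun_add hM
  | mul_X p n hp =>
    obtain ⟨L, hL, hL'⟩ := hp
    have hX : HasFDerivAt (fun x : Pt => x n)
        (ContinuousLinearMap.proj n : Pt →L[ℂ] ℂ) z := hasFDerivAt_apply n z
    refine ⟨_, by simpa [map_mul] using hL.fun_mul hX, fun i => ?_⟩
    by_cases h : n = i
    · subst h
      simp [hL', mul_comm, add_comm]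
    · simp [hL', h, mul_comm, pderiv_X_of_ne h]

lemma SP_sqs_an {ψ : Pt → Pt} {p : Pt} (h : AnalyticAt ℂ ψ p) : AnalyticAt ℂ (sqs ψ) p := by
  have h0 : AnalyticAt ℂ (fun z => ψ z 0) p := (analyticAt_pi_iff.1 h) 0
  have h1 : AnalyticAt ℂ (fun z => ψ z 1) p := (analyticAt_pi_iff.1 h) 1
  exact (h0.fun_pow 2).fun_add (h1.fun_pow 2)

lemma SP_dP_diff {f : Pt → ℂ} {p : Pt} (h : AnalyticAt ℂ f p) (i : Fin 2) :
    DifferentiableAt ℂ (dP f i) p :=
  h.fderiv.differentiableAt.clm_apply (differentiableAt_const _)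

lemma SP_dP_zero {ψ : Pt → Pt} {p : Pt} (h : AnalyticAt ℂ ψ p) (h0 : ψ p = 0) (i : Fin 2) :
    dP (sqs ψ) i p = 0 := by
  have d0 : DifferentiableAt ℂ (fun z => ψ z 0) p := ((analyticAt_pi_iff.1 h) 0).differentiableAt
  have d1 : DifferentiableAt ℂ (fun z => ψ z 1) p := ((analyticAt_pi_iff.1 h) 1).differentiableAt
  have e : sqs ψ = fun z => ψ z 0 * ψ z 0 + ψ z 1 * ψ z 1 := by
    funext z
    simp [sqs, sq]
  have := (d0.hasFDerivAt.fun_mul d0.hasFDerivAt).fun_add (d1.hasFDerivAt.fun_mul d1.hasFDerivAt)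
  rw [dP, e, this.fderiv]
  simp [h0]

lemma SP_prod {s t : Pt → ℂ} {p : Pt} (hs : DifferentiableAt ℂ s p) (ht : DifferentiableAt ℂ t p)
    (s0 : s p = 0) (t0 : t p = 0) : HasFDerivAt (fun z => s z * t z) (0 : Pt →L[ℂ] ℂ) p := by
  have := hs.hasFDerivAt.fun_mul ht.hasFDerivAt
  rw [s0, t0] at this
  refine this.congr_fderiv ?_
  ext v
  simp

theorem pf_SP : StSP := by
  intro u p c hj hs
  apply hj
  have hP : HasFDerivAt (fun z : Pt => eval z u.1) (0 : Pt →L[ℂ] ℂ) p :=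
    (SP_prod c.s_an.differentiableAt (SP_dP_diff (SP_sqs_an c.ψ_an) 1) hs
      (SP_dP_zero c.ψ_an c.ψ_p 1)).congr_of_eventuallyEq (c.fac.mono fun z hz => hz.1)
  obtain ⟨L, hL, hL'⟩ := SP_hasFDeriv u.1 p
  have h0 : L = 0 := hL.unique hP
  have e0 := hL' 0
  have e1 := hL' 1
  rw [h0] at e0 e1
  simp only [zero_apply] at e0 e1
  simp [jacP, ← e0, ← e1]

end CenLoc
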