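import Pool.Agent.P.MP_2862dc_ag.Basic

/-!
The formal conditions of order `N` stabilise for large `N`.
-/

namespace CenLoc

open MvPolynomial

lemma STAB_chain {k V : Type} [Field k] [AddCommGroup V] [Module k V] [FiniteDimensional k V]
    (S : ℕ → Submodule k V) (hS : Antitone S) : ∃ N, ∀ M, S N ≤ S M := by
  obtain ⟨_, ⟨N, rfl⟩, hN⟩ := (wellFounded_lt (α := Submodule k V)).has_min (Set.range S)
    (Set.range_nonempty S)
  refine ⟨N, fun M => ?_⟩
  have h1 : S (max N M) = S N :=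
    (hS (le_max_left N M)).eq_of_not_lt (hN _ (Set.mem_range_self _))
  rw [← h1]
  exact hS (le_max_right N M)

/-- Pairs satisfying the first order condition modulo order `N`. -/
def STAB_sub {k : Type} [Field k] (ω0 ω1 : Pol k × Pol k) (F0 F1 : Pol k) (N : ℕ) :
    Submodule k ((Pol k × Pol k) × (Pol k × Pol k)) where
  carrier := {z | ∃ a0 a1 : Pol k, wedge z.1 ω0 - F0 * act ω0 a0 ∈ mI k ^ N ∧
    wedge z.2 ω0 + wedge z.1 ω1 - (F1 * act ω0 a0 + F0 * act ω1 a0 + F0 * act ω0 a1) ∈ mI k ^ N}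
  add_mem' := by
    rintro u v ⟨a0, a1, ha, ha'⟩ ⟨b0, b1, hb, hb'⟩
    refine ⟨a0 + b0, a1 + b1, ?_, ?_⟩
    · convert Ideal.add_mem _ ha hb using 1
      simp [wedge, act]; ring
    · convert Ideal.add_mem _ ha' hb' using 1
      simp [wedge, act]; ring
  zero_mem' := ⟨0, 0, by simp [wedge, act], by simp [wedge, act]⟩
  smul_mem' := by
    rintro r u ⟨a0, a1, ha, ha'⟩
    refine ⟨r • a0, r • a1, ?_, ?_⟩
    · convert Ideal.mul_mem_left _ (C r) ha using 1
      simp [wedge, act, smul_eq_C_mul]; ring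
    · convert Ideal.mul_mem_left _ (C r) ha' using 1
      simp [wedge, act, smul_eq_C_mul]; ring

lemma STAB_anti {k : Type} [Field k] (ω0 ω1 : Pol k × Pol k) (F0 F1 : Pol k) :
    Antitone (STAB_sub ω0 ω1 F0 F1) := fun _ _ h _ ⟨a0, a1, h0, h1⟩ =>
  ⟨a0, a1, mI_pow_mono h h0, mI_pow_mono h h1⟩

lemma STAB_formAt {k : Type} [Field k] {d : ℕ} {u : Pol k × Pol k} (hu : DegLE d u) :
    formAt d 0 (coords d u) = u := by
  change trP 0 (form (coords d u)) = u
  rw [form_coords hu, trP_zero]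

theorem pf_STAB (hFORM : StFORM) (hTZ : StTZ) (hFA : StFA) (hFT : StFT) : StSTAB := by
  intro k G I _ _ _ _ _ _ L hG hI j hj
  obtain ⟨N1, hN1⟩ := STAB_chain (fun N => TN (Fintype.card I - 1) N L.f L.lam 0)
    fun _ _ h => Submodule.comap_mono (InT_anti h L.f L.lam)
  let φ : ((I → k) × (Fin 2 × Mon (Fintype.card I - 1) → k)) →ₗ[k]
      (Pol k × Pol k) × (Pol k × Pol k) :=
    (Fintype.linearCombination k (lg L.l)).prodMap (formAt (Fintype.card I - 1) 0)
  obtain ⟨N2, hN2⟩ := STAB_chain (fun N => (STAB_sub (om L.f L.lam)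
      (∑ g, tv L.f L.lam g (L.pert j g)) (∏ g, L.f g)
      (∑ g, L.pert j g * ∏ m ∈ Finset.univ.erase g, L.f m) N).comap φ)
    fun _ _ h => Submodule.comap_mono (STAB_anti _ _ _ _ h)
  refine ⟨max N1 N2, fun u hu hT => ?_, fun c u1 a0 a1 hu h0 h1 => ?_⟩
  · have h1 : coords (Fintype.card I - 1) u ∈ TN (Fintype.card I - 1) N1 L.f L.lam 0 := by
      rw [TN, Submodule.mem_comap, STAB_formAt hu]
      exact InT_anti (le_max_left _ _) _ _ hT
    obtain ⟨a, ha⟩ := (hFORM k (om L.f L.lam) 0 (∏ g, L.f g) 0 (wedge u (om L.f L.lam)) 0).1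
      fun N => by
        have h2 := hN1 N h1
        rw [TN, Submodule.mem_comap, STAB_formAt hu] at h2
        exact h2
    exact hTZ k G I L hG hI u a hu ha
  · have hφ : φ (c, coords (Fintype.card I - 1) u1) = (∑ i, c i • lg L.l i, u1) := by
      simp only [φ, LinearMap.prodMap_apply, Fintype.linearCombination_apply, STAB_formAt hu]
    have h2 : (c, coords (Fintype.card I - 1) u1) ∈ (STAB_sub (om L.f L.lam)
        (∑ g, tv L.f L.lam g (L.pert j g)) (∏ g, L.f g)
        (∑ g, L.pert j g * ∏ m ∈ Finset.univ.erase g, L.f m) N2).comap φ := by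
      rw [Submodule.mem_comap, hφ]
      exact ⟨a0, a1, mI_pow_mono (le_max_right _ _) h0, mI_pow_mono (le_max_right _ _) h1⟩
    obtain ⟨b0, b1, hb0, hb1⟩ := (hFORM k (om L.f L.lam) (∑ g, tv L.f L.lam g (L.pert j g))
      (∏ g, L.f g) (∑ g, L.pert j g * ∏ m ∈ Finset.univ.erase g, L.f m)
      (wedge (∑ i, c i • lg L.l i) (om L.f L.lam))
      (wedge u1 (om L.f L.lam) + wedge (∑ i, c i • lg L.l i)
        (∑ g, tv L.f L.lam g (L.pert j g)))).2
      fun N => by
        have h3 := hN2 N h2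
        rw [Submodule.mem_comap, hφ] at h3
        exact h3
    exact hFT k G I L hG hI j hj c u1 hu (hFA k G I L hG j hj c u1 b0 b1 hb0 hb1)

end CenLoc
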