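import Pool.Agent.P.MP_2862dc_ag.Basic

/-! One step of the division by the smoothing parameter. -/

namespace CenLoc

open MvPolynomial

lemma STEP_map_C {k : Type} [CommRing k] (g : Pol k) :
    map (Der.eps k).c0 (map Polynomial.C g) = g := by
  ext m; simp [coeff_map, Der.eps_c0]

lemma STEP_form_add {R : Type} [CommRing R] {d : ℕ} (a b : Fin 2 × Mon d → R) :
    form (a + b) = form a + form b := by
  have : trP 0 (form (a + b)) = trP 0 (form a) + trP 0 (form b) :=
    (formAt d (0 : Fin 2 → R)).map_add a b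
  simpa only [trP_zero] using this

lemma STEP_form_smul {R : Type} [CommRing R] {d : ℕ} (r : R) (a : Fin 2 × Mon d → R) :
    form (r • a) = r • form a := by
  have : trP 0 (form (r • a)) = r • trP 0 (form a) := (formAt d (0 : Fin 2 → R)).map_smul r a
  simpa only [trP_zero] using this

lemma STEP_div {k : Type} [CommRing k] {d : ℕ} (w : Pol (Polynomial k) × Pol (Polynomial k))
    (hw : DegLE d w) (h0 : mapP (Der.eps k).c0 w = 0) :
    ∃ η : Fin 2 × Mon d → Polynomial k, (Polynomial.X : Polynomial k) • form η = w := by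
  refine ⟨fun x => (coords d w x).divX, ?_⟩
  rw [← STEP_form_smul]
  conv_rhs => rw [← form_coords hw]
  congr 1
  funext x
  have h := coords_mapP (Der.eps k).c0 d w x
  rw [h0, Der.eps_c0] at h
  have h' : (coords d w x).coeff 0 = 0 := by
    rw [← h]; simp only [coords]; split_ifs <;> simp
  have := Polynomial.X_mul_divX_add (coords d w x)
  rw [h', map_zero, add_zero] at this
  simpa using this

theorem pf_STEP (hLB : StLB) (hFE : StFE) (hSTAB : StSTAB) (hDLOG : StDLOG) (hTLSUB : StTLSUB)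
    (hSAT : StSAT) (hDEC : StDEC) : StSTEP := by
  intro k G I _ _ _ _ _ _ L hG hI j hj
  obtain ⟨N, h1, h2⟩ := hSTAB k G I L hG hI j hj
  obtain ⟨hn, e0, e1, l0, l1⟩ := hFE k G I L hG j hj
  obtain ⟨-, -, -, hsum, hdd, -, -, hlg, -, -, -⟩ := hLB k G I L hG
  have ef : (fun g => map (Der.eps k).c0 (L.fE j g)) = L.f := funext e0
  have el : (fun g => (Der.eps k).c0 (L.lamE g)) = L.lam := funext l0
  have hs : ∑ g, L.dd g = (Fintype.card I - 1) + 1 := by have := hG.three; omega
  have hom : mapP (Der.eps k).c0 (om (L.fE j) L.lamE) = om L.f L.lam := by rw [mapP_om, ef, el]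
  have hpr : map (Der.eps k).c0 (∏ g, L.fE j g) = ∏ g, L.f g := by
    rw [map_prod]; exact Finset.prod_congr rfl fun g _ => e0 g
  obtain ⟨d1, d2⟩ := hDLOG _ k (Der.eps k) G (L.fE j) L.lamE
  rw [ef, el] at d1
  simp only [e1, l1, zero_smul, Finset.sum_const_zero, add_zero] at d1
  simp only [e1, e0] at d2
  have hsub := hTLSUB (Polynomial k) G L.dd (L.fE j) L.lamE N hn.one
  have hdeg : ∀ {u}, u ∈ InTL L.dd (L.fE j) L.lamE → DegLE (Fintype.card I - 1) u :=
    fun hu => degLE_of_mem_InTL hdd hs hn.deg hu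
  refine ⟨N, fun η hη => ?_⟩
  rw [mem_TN, trP_zero] at hη
  have hu0 : mapP (Der.eps k).c0 (form η) ∈ InT N L.f L.lam := by
    obtain ⟨a, ha⟩ := hη
    refine ⟨map (Der.eps k).c0 a, ?_⟩
    have := map_mem_mI_pow (Der.eps k).c0 ha
    rwa [map_sub, map_mul, map_wedge, map_act, hom, hpr] at this
  have hd0 : DegLE (Fintype.card I - 1) (mapP (Der.eps k).c0 (form η)) := by
    rw [mapP_form]; exact degLE_form _
  obtain ⟨r, c, hr, hrc⟩ := h1 _ hd0 hu0
  have ht : ∑ g, tv (L.fE j) L.lamE g (map Polynomial.C (r g)) ∈ InTL L.dd (L.fE j) L.lamE :=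
    ⟨fun g => map Polynomial.C (r g), 0, fun g => (totalDegree_map_le' _ _).trans (hr g), by simp⟩
  set t := ∑ g, tv (L.fE j) L.lamE g (map Polynomial.C (r g)) with htdef
  have ht0 : mapP (Der.eps k).c0 t = ∑ g, tv L.f L.lam g (r g) := by
    rw [htdef, mapP_sum]
    refine Finset.sum_congr rfl fun g _ => ?_
    rw [mapP_tv, ef, el, STEP_map_C]
  have hu' : form η - t ∈ InT N (L.fE j) L.lamE := Submodule.sub_mem _ hη (hsub ht)
  have hu'0 : mapP (Der.eps k).c0 (form η - t) = ∑ i, c i • lg L.l i := by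
    rw [mapP_sub, ht0, hrc, add_sub_cancel_left]
  have hdu' : DegLE (Fintype.card I - 1) (form η - t) := (degLE_form η).sub (hdeg ht)
  have hc : ∀ i, c i = c (j (L.grp i)) := by
    obtain ⟨a, ha⟩ := hu'
    refine h2 c ((Der.eps k).p1P (form η - t)) (map (Der.eps k).c0 a) ((Der.eps k).p1 a)
      ⟨((Der.eps k).totalDegree_p1_le _).trans hdu'.1,
        ((Der.eps k).totalDegree_p1_le _).trans hdu'.2⟩ ?_ ?_
    · have := map_mem_mI_pow (Der.eps k).c0 ha
      rwa [map_sub, map_mul, map_wedge, map_act, hom, hpr, hu'0] at this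
    · have := (Der.eps k).p1_mem_mI_pow ha
      rw [Der.p1_sub, Der.p1_wedge, Der.p1_mul, Der.p1_act, map_act, hom, hpr, hu'0, d1, d2]
        at this
      convert this using 1
      ring
  have ht' : ∑ g, Polynomial.C (c (j g)) • lg (L.fE j) g ∈ InTL L.dd (L.fE j) L.lamE :=
    ⟨0, fun g => Polynomial.C (c (j g)), by simp, by simp [tv_zero]⟩
  set t' := ∑ g, Polynomial.C (c (j g)) • lg (L.fE j) g with ht'def
  have ht'0 : mapP (Der.eps k).c0 t' = ∑ i, c i • lg L.l i := by
    have e : ∑ i, c i • lg L.l i = ∑ i, c (j (L.grp i)) • lg L.l i :=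
      Finset.sum_congr rfl fun i _ => by rw [← hc i]
    rw [ht'def, mapP_sum, e, hlg fun g => c (j g)]
    refine Finset.sum_congr rfl fun g _ => ?_
    rw [mapP_smul', mapP_lg, ef, Der.eps_c0, Polynomial.coeff_C_zero]
  have htt : t + t' ∈ InTL L.dd (L.fE j) L.lamE := Submodule.add_mem _ ht ht'
  obtain ⟨η2, h2'⟩ := STEP_div (form η - t - t') (hdu'.sub (hdeg ht'))
    (by rw [mapP_sub, hu'0, ht'0, sub_self])
  refine ⟨coords _ (t + t'), ?_, η2, ?_, ?_⟩
  · rw [mem_TL, trP_zero, form_coords (hdeg htt)]; exact htt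
  · rw [mem_TN, trP_zero]
    refine hSAT k G I L hG j hj N _ ?_
    rw [h2']
    exact Submodule.sub_mem _ hu' (hsub ht')
  · apply form_injective
    rw [STEP_form_add, STEP_form_smul, h2', form_coords (hdeg htt)]
    abel

end CenLoc
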