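import Pool.Agent.P.MP_2862dc_ag.Basic

/-! Every normalised datum with nonzero first residue lies in the image of the chart. -/

namespace CenLoc

open MvPolynomial

lemma SURJ_deg_one {m : Fin 2 →₀ ℕ} (h : m.degree = 1) :
    ∃ i : Fin 2, m = Finsupp.single i 1 := by
  rw [Finsupp.degree_eq_sum, Fin.sum_univ_two] at h
  by_cases h0 : m 0 = 0
  · refine ⟨1, ?_⟩
    ext i
    fin_cases i
    · simpa using h0
    · simp; omega
  · refine ⟨0, ?_⟩
    ext i
    fin_cases i
    · simp; omega
    · simp; omega

lemma SURJ_single_ne (i : Fin 2) : (Finsupp.single i 1 : Fin 2 →₀ ℕ) ≠ 0 := by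
  simp

lemma SURJ_single_deg (i : Fin 2) : (Finsupp.single i 1 : Fin 2 →₀ ℕ).degree = 1 := by
  simp

theorem pf_SURJ : StSURJ := by
  intro G _ _ dd g0 h1 k _ f lam p hN h0
  classical
  let val : G → (Fin 2 →₀ ℕ) → k := fun g m =>
    if m = 0 then (if g = g0 then lam g0 else lam g / lam g0) else
      if g = g0 ∧ m.degree = 1 then (if m = Finsupp.single 0 1 then p 0 else p 1)
      else coeff m (f g)
  let τ : Idx dd → k := fun u => val u.1 u.2.1
  have hext : ∀ g m, m.degree ≤ dd g → yext τ g m = val g m := by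
    intro g m hm
    rw [yext, dif_pos hm]
  have hext0 : ∀ g, yext τ g 0 = if g = g0 then lam g0 else lam g / lam g0 := by
    intro g
    rw [hext g 0 (by simp)]
    simp [val]
  have hnu : ∀ g, ynu g0 τ g = lam g / lam g0 := by
    intro g
    rw [ynu]
    split_ifs with hg
    · rw [hg, div_self h0]
    · rw [hext0, if_neg hg]
  refine ⟨τ, ?_, ?_, ?_⟩
  · funext g
    rw [← polyOf_coeff (hN.deg g), yf]
    congr 1
    funext m
    rw [ycf]
    split_ifs with hm hg
    · rw [hm, hN.one]
    · obtain ⟨hg, hm1⟩ := hg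
      obtain ⟨i, hi⟩ := SURJ_deg_one hm1
      have hc := hN.crit i
      rw [← Finset.add_sum_erase _ _ (Finset.mem_univ g0)] at hc
      have hs : ∑ j ∈ Finset.univ.erase g0, ynu g0 τ j * yext τ j m.1 =
          (∑ j ∈ Finset.univ.erase g0, lam j * coeff (Finsupp.single i 1) (f j)) / lam g0 := by
        rw [Finset.sum_div]
        refine Finset.sum_congr rfl fun j hj => ?_
        have hj' : j ≠ g0 := Finset.ne_of_mem_erase hj
        rw [hnu, hext j m.1 (by rw [hm1]; exact h1 j)]
        simp only [val]
        rw [if_neg hm, if_neg (fun h => hj' h.1), hi]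
        ring
      rw [hs, hi, hg]
      field_simp
      linear_combination -hc
    · rw [hext g m.1 m.2]
      simp only [val]
      rw [if_neg hm, if_neg hg]
  · funext g
    rw [ylam, hext0, if_pos rfl, hnu]
    field_simp
  · funext i
    rw [yp, hext g0 _ (by rw [SURJ_single_deg]; exact h1 g0)]
    simp only [val]
    rw [if_neg (SURJ_single_ne i), if_pos ⟨trivial, SURJ_single_deg i⟩]
    fin_cases i
    · simp
    · have : ¬ (Finsupp.single (1 : Fin 2) 1 : Fin 2 →₀ ℕ) = Finsupp.single 0 1 := by
        rw [Finsupp.single_left_inj one_ne_zero]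
        decide
      simp [this]

end CenLoc
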