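import Pool.Agent.P.MP_2862dc_ag.Stmts

/-!
The Sylvester determinant of the top degree parts.
-/

namespace CenLoc

open MvPolynomial

noncomputable section

/-- The exponent of `x ^ i * y ^ (n - i)`. -/
def SYL_ex (n i : ℕ) : Fin 2 →₀ ℕ := Finsupp.single 0 i + Finsupp.single 1 (n - i)

lemma SYL_ex_zero (n i : ℕ) : SYL_ex n i 0 = i := by simp [SYL_ex]

lemma SYL_ex_one (n i : ℕ) : SYL_ex n i 1 = n - i := by simp [SYL_ex]

lemma SYL_deg (m : Fin 2 →₀ ℕ) : m.degree = m 0 + m 1 := by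
  rw [Finsupp.degree_eq_sum, Fin.sum_univ_two]

lemma SYL_ex_deg (n i : ℕ) (h : i ≤ n) : (SYL_ex n i).degree = n := by
  rw [SYL_deg, SYL_ex_zero, SYL_ex_one]; omega

lemma SYL_ex_inj {n i j : ℕ} (h : SYL_ex n i = SYL_ex n j) : i = j := by
  have := congrArg (fun m : Fin 2 →₀ ℕ => m 0) h
  simpa [SYL_ex_zero] using this

lemma SYL_eq_ex (m : Fin 2 →₀ ℕ) (n : ℕ) (h : m.degree = n) : m = SYL_ex n (m 0) := by
  rw [SYL_deg] at h
  ext i
  fin_cases i
  · simp [SYL_ex_zero]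
  · simp only [Fin.mk_one, SYL_ex_one]; omega

variable {R : Type} [CommRing R]

/-- The form of degree `d - 1` with the given coefficients. -/
def SYL_fm (d : ℕ) (v : Fin d → R) : Pol R := ∑ i : Fin d, monomial (SYL_ex (d - 1) i) (v i)

lemma SYL_fm_hom (d : ℕ) (v : Fin d → R) : (SYL_fm d v).IsHomogeneous (d - 1) := by
  refine IsHomogeneous.sum _ _ _ fun i _ => isHomogeneous_monomial _ ?_
  have := i.2
  exact SYL_ex_deg _ _ (by omega)

lemma SYL_fm_coeff (d : ℕ) (v : Fin d → R) (i : Fin d) :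
    coeff (SYL_ex (d - 1) i) (SYL_fm d v) = v i := by
  rw [SYL_fm, coeff_sum, Finset.sum_eq_single i]
  · simp
  · intro j _ hj
    rw [coeff_monomial, if_neg]
    intro h
    exact hj (Fin.ext (SYL_ex_inj h))
  · simp

/-- The columns of the Sylvester matrix, as polynomials. -/
def SYL_col (d : ℕ) (P Q : Pol R) : Fin d ⊕ Fin d → Pol R :=
  Sum.elim (fun i => monomial (SYL_ex (d - 1) i) 1 * P) (fun i => monomial (SYL_ex (d - 1) i) 1 * Q)

/-- The exponent attached to a row. -/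
def SYL_row (d : ℕ) (r : Fin d ⊕ Fin d) : Fin 2 →₀ ℕ :=
  SYL_ex (2 * d - 1) (finSumFinEquiv r : Fin (d + d))

/-- The Sylvester matrix. -/
def SYL_mat (d : ℕ) (P Q : Pol R) : Matrix (Fin d ⊕ Fin d) (Fin d ⊕ Fin d) R :=
  Matrix.of fun r j => coeff (SYL_row d r) (SYL_col d P Q j)

lemma SYL_row_inj {d : ℕ} {r s : Fin d ⊕ Fin d} (h : SYL_row d r = SYL_row d s) : r = s :=
  finSumFinEquiv.injective (Fin.ext (SYL_ex_inj h))

lemma SYL_row_surj {d : ℕ} (hd : 1 ≤ d) (m : Fin 2 →₀ ℕ) (h : m.degree = 2 * d - 1) :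
    ∃ r, SYL_row d r = m := by
  have h0 : m 0 < d + d := by
    have := SYL_deg m
    omega
  refine ⟨finSumFinEquiv.symm ⟨m 0, h0⟩, ?_⟩
  rw [SYL_row, Equiv.apply_symm_apply]
  exact (SYL_eq_ex m _ h).symm

lemma SYL_fm_mul (d : ℕ) (v : Fin d → R) (P : Pol R) (m : Fin 2 →₀ ℕ) :
    coeff m (SYL_fm d v * P) =
      ∑ i : Fin d, coeff m (monomial (SYL_ex (d - 1) i) 1 * P) * v i := by
  rw [SYL_fm, Finset.sum_mul, coeff_sum]
  refine Finset.sum_congr rfl fun i _ => ?_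
  have : (monomial (SYL_ex (d - 1) i) (v i) : Pol R) =
      C (v i) * monomial (SYL_ex (d - 1) i) 1 := by
    rw [C_mul_monomial, mul_one]
  rw [this, mul_assoc, coeff_C_mul, mul_comm]

lemma SYL_mulVec (d : ℕ) (P Q : Pol R) (v : Fin d ⊕ Fin d → R) (r : Fin d ⊕ Fin d) :
    coeff (SYL_row d r) (SYL_fm d (v ∘ Sum.inl) * P + SYL_fm d (v ∘ Sum.inr) * Q) =
      (SYL_mat d P Q).mulVec v r := by
  rw [coeff_add, SYL_fm_mul, SYL_fm_mul, Matrix.mulVec, dotProduct, Fintype.sum_sum_type]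
  rfl

lemma SYL_ext {d : ℕ} (hd : 1 ≤ d) {F G : Pol R} (hF : F.IsHomogeneous (2 * d - 1))
    (hG : G.IsHomogeneous (2 * d - 1))
    (h : ∀ r, coeff (SYL_row d r) F = coeff (SYL_row d r) G) : F = G := by
  ext m
  by_cases hm : m.degree = 2 * d - 1
  · obtain ⟨r, rfl⟩ := SYL_row_surj hd m hm
    exact h r
  · rw [hF.coeff_eq_zero hm, hG.coeff_eq_zero hm]

lemma SYL_comb_hom {d : ℕ} (hd : 1 ≤ d) {P Q : Pol R} (hP : P.IsHomogeneous d)
    (hQ : Q.IsHomogeneous d) (v w : Fin d → R) :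
    (SYL_fm d v * P + SYL_fm d w * Q).IsHomogeneous (2 * d - 1) := by
  have e : 2 * d - 1 = (d - 1) + d := by omega
  rw [e]
  exact ((SYL_fm_hom d v).mul hP).add ((SYL_fm_hom d w).mul hQ)

lemma SYL_adj {d : ℕ} (hd : 1 ≤ d) {P Q : Pol R} (hP : P.IsHomogeneous d)
    (hQ : Q.IsHomogeneous d) (m : Fin 2 →₀ ℕ) (hm : m.degree = 2 * d - 1) :
    ∃ A B : Pol R, A.IsHomogeneous (d - 1) ∧ B.IsHomogeneous (d - 1) ∧
      monomial m (SYL_mat d P Q).det = A * P + B * Q := by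
  obtain ⟨r0, rfl⟩ := SYL_row_surj hd m hm
  set v := (SYL_mat d P Q).cramer (Pi.single r0 1) with hv
  refine ⟨SYL_fm d (v ∘ Sum.inl), SYL_fm d (v ∘ Sum.inr), SYL_fm_hom _ _, SYL_fm_hom _ _, ?_⟩
  refine SYL_ext hd (isHomogeneous_monomial _ hm) (SYL_comb_hom hd hP hQ _ _) fun r => ?_
  rw [SYL_mulVec, hv, Matrix.mulVec_cramer, coeff_monomial]
  by_cases h : r0 = r
  · subst h; simp
  · rw [if_neg fun h' => h (SYL_row_inj h')]
    simp [Pi.single_eq_of_ne (Ne.symm h)]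

lemma SYL_det_ne {k : Type} [Field k] {d : ℕ} (hd : 1 ≤ d) {P Q : Pol k}
    (hP : P.IsHomogeneous d) (hQ : Q.IsHomogeneous d)
    (h : ∀ A B : Pol k, A.IsHomogeneous (d - 1) → B.IsHomogeneous (d - 1) →
      A * P + B * Q = 0 → A = 0 ∧ B = 0) : (SYL_mat d P Q).det ≠ 0 := by
  intro h0
  obtain ⟨v, hv, hz⟩ := Matrix.exists_mulVec_eq_zero_iff.2 h0
  have hz' : SYL_fm d (v ∘ Sum.inl) * P + SYL_fm d (v ∘ Sum.inr) * Q = 0 := by
    refine SYL_ext hd (SYL_comb_hom hd hP hQ _ _) (isHomogeneous_zero _ _ _) fun r => ?_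
    rw [SYL_mulVec, hz]; simp
  obtain ⟨hA, hB⟩ := h _ _ (SYL_fm_hom _ _) (SYL_fm_hom _ _) hz'
  apply hv
  funext j
  rcases j with i | i
  · have := SYL_fm_coeff d (v ∘ Sum.inl) i
    rw [hA] at this
    simpa using this.symm
  · have := SYL_fm_coeff d (v ∘ Sum.inr) i
    rw [hB] at this
    simpa using this.symm

lemma SYL_mat_map {R' : Type} [CommRing R'] (φ : R →+* R') (d : ℕ) (P Q : Pol R) :
    (SYL_mat d P Q).map φ = SYL_mat d (map φ P) (map φ Q) := by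
  ext r j
  simp only [SYL_mat, Matrix.map_apply, Matrix.of_apply, ← coeff_map]
  congr 1
  rcases j with i | i <;> simp [SYL_col]

lemma SYL_hc_map {R' : Type} [CommRing R'] (φ : R →+* R') (d : ℕ) (P : Pol R) :
    map φ (homogeneousComponent d P) = homogeneousComponent d (map φ P) := by
  ext m
  simp only [coeff_map, coeff_homogeneousComponent]
  split_ifs <;> simp

lemma SYL_polyOf_map {R' : Type} [CommRing R'] (φ : R →+* R') {e : ℕ} (c : Mon e → R) :
    map φ (polyOf c) = polyOf fun m => φ (c m) := by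
  simp [polyOf]

theorem pf_SYL : StSYL := by
  intro d hd
  refine ⟨(SYL_mat d (homogeneousComponent d (form (d := d) X).1)
    (homogeneousComponent d (form (d := d) X).2)).det, fun m hm => ?_, fun k _ _ ω h => ?_⟩
  · exact SYL_adj hd (homogeneousComponent_isHomogeneous _ _)
      (homogeneousComponent_isHomogeneous _ _) m hm
  · set φ : MvPolynomial (Fin 2 × Mon d) ℂ →+* k :=
      (aeval ω : MvPolynomial (Fin 2 × Mon d) ℂ →ₐ[ℂ] k).toRingHom with hφ
    have h1 : map φ (form (d := d) X).1 = (form ω).1 := by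
      simp [form, SYL_polyOf_map, hφ]
    have h2 : map φ (form (d := d) X).2 = (form ω).2 := by
      simp [form, SYL_polyOf_map, hφ]
    change φ _ ≠ 0
    rw [RingHom.map_det, RingHom.mapMatrix_apply, SYL_mat_map, SYL_hc_map, SYL_hc_map, h1, h2]
    exact SYL_det_ne hd (homogeneousComponent_isHomogeneous _ _)
      (homogeneousComponent_isHomogeneous _ _) h

end

end CenLoc
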