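import Pool.Agent.P.MP_2862dc_ag.Basic

/-!
The top degree parts of the logarithmic form of a generic line arrangement have no syzygy of
low degree.
-/

namespace CenLoc

open MvPolynomial

noncomputable section

section
variable {k G I : Type} [Field k]

/-- The linear part of a line. -/
def SYLL_lin (L : Lines k G I) (i : I) : Pol k := C (L.a i) * X 0 + C (L.b i) * X 1

lemma SYLL_lin_hom (L : Lines k G I) (i : I) : (SYLL_lin L i).IsHomogeneous 1 :=
  (isHomogeneous_C_mul_X _ _).add (isHomogeneous_C_mul_X _ _)

lemma SYLL_l (L : Lines k G I) (i : I) : L.l i = 1 + SYLL_lin L i := by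
  simp [Lines.l, SYLL_lin, add_assoc]

lemma SYLL_eval_lin (L : Lines k G I) (i : I) (y : Fin 2 → k) :
    eval y (SYLL_lin L i) = L.a i * y 0 + L.b i * y 1 := by simp [SYLL_lin]

lemma SYLL_top (L : Lines k G I) (s : Finset I) :
    homogeneousComponent s.card (∏ j ∈ s, L.l j) = ∏ j ∈ s, SYLL_lin L j := by
  classical
  simp only [SYLL_l]
  rw [Finset.prod_one_add, map_sum, Finset.sum_eq_single s]
  · have h := IsHomogeneous.prod s (SYLL_lin L) (fun _ => 1) fun i _ => SYLL_lin_hom L i
    rw [homogeneousComponent_of_mem h, if_pos (by simp)]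
  · intro t ht hts
    have h := IsHomogeneous.prod t (SYLL_lin L) (fun _ => 1) fun i _ => SYLL_lin_hom L i
    rw [homogeneousComponent_of_mem h, if_neg]
    have := Finset.card_lt_card (lt_of_le_of_ne (Finset.mem_powerset.mp ht) hts)
    simp only [Finset.sum_const, smul_eq_mul, mul_one]
    omega
  · intro h
    exact absurd (Finset.mem_powerset_self s) h

variable [Fintype I] [DecidableEq I]

lemma SYLL_top1 (L : Lines k G I) :
    homogeneousComponent (Fintype.card I - 1) (om L.l L.mu).1 =
      ∑ i, C (L.mu i * L.b i) * ∏ j ∈ Finset.univ.erase i, SYLL_lin L j := by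
  simp only [om, map_sum]
  refine Finset.sum_congr rfl fun i _ => ?_
  have e : C (L.mu i) * (∏ j ∈ Finset.univ.erase i, L.l j) * pderiv 1 (L.l i) =
      C (L.mu i * L.b i) * ∏ j ∈ Finset.univ.erase i, L.l j := by
    have := congrArg Prod.fst (L.ham_l i)
    simp only [ham] at this
    rw [this, map_mul]; ring
  have c : Fintype.card I - 1 = (Finset.univ.erase i).card := by
    rw [Finset.card_erase_of_mem (Finset.mem_univ i), Finset.card_univ]
  rw [e, homogeneousComponent_C_mul, c, SYLL_top]

lemma SYLL_top2 (L : Lines k G I) :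
    homogeneousComponent (Fintype.card I - 1) (om L.l L.mu).2 =
      -∑ i, C (L.mu i * L.a i) * ∏ j ∈ Finset.univ.erase i, SYLL_lin L j := by
  simp only [om, map_neg, map_sum]
  congr 1
  refine Finset.sum_congr rfl fun i _ => ?_
  have e : C (L.mu i) * (∏ j ∈ Finset.univ.erase i, L.l j) * pderiv 0 (L.l i) =
      C (L.mu i * L.a i) * ∏ j ∈ Finset.univ.erase i, L.l j := by
    have := congrArg Prod.snd (L.ham_l i)
    simp only [ham, neg_inj] at this
    rw [this, map_mul]; ring
  have c : Fintype.card I - 1 = (Finset.univ.erase i).card := by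
    rw [Finset.card_erase_of_mem (Finset.mem_univ i), Finset.card_univ]
  rw [e, homogeneousComponent_C_mul, c, SYLL_top]

omit [Fintype I] [DecidableEq I] in
/-- Two different lines through the origin meet only there. -/
lemma SYLL_meet (L : Lines k G I) {i j : I} (h : L.br i j ≠ 0) {y : Fin 2 → k}
    (hi : L.a i * y 0 + L.b i * y 1 = 0) (hj : L.a j * y 0 + L.b j * y 1 = 0) :
    y 0 = 0 ∧ y 1 = 0 := by
  constructor
  · apply mul_left_cancel₀ h
    rw [Lines.br]
    linear_combination L.b j * hi - L.b i * hj
  · apply mul_left_cancel₀ h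
    rw [Lines.br]
    linear_combination L.a i * hj - L.a j * hi

omit [Fintype I] in
/-- On the line `i` only the term `i` survives. -/
lemma SYLL_eval_sum [Fintype I] (L : Lines k G I) (c : I → k) (i : I) {y : Fin 2 → k}
    (hi : L.a i * y 0 + L.b i * y 1 = 0) :
    eval y (∑ m, C (c m) * ∏ j ∈ Finset.univ.erase m, SYLL_lin L j) =
      c i * ∏ j ∈ Finset.univ.erase i, (L.a j * y 0 + L.b j * y 1) := by
  simp only [map_sum, map_mul, eval_C, map_prod, SYLL_eval_lin]
  rw [Finset.sum_eq_single i]
  · intro m _ hm
    rw [Finset.prod_eq_zero (Finset.mem_erase.mpr ⟨Ne.symm hm, Finset.mem_univ i⟩) hi, mul_zero]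
  · intro h
    exact absurd (Finset.mem_univ i) h

omit [DecidableEq I] in
/-- A polynomial of degree less than the number of lines vanishing on all lines is zero. -/
lemma SYLL_zero [CharZero k] (L : Lines k G I) (hbr : ∀ i j, i ≠ j → L.br i j ≠ 0)
    (hab : ∀ i, L.a i ≠ 0 ∨ L.b i ≠ 0) {W : Pol k} (hW : W.totalDegree < Fintype.card I)
    (hv : ∀ i (y : Fin 2 → k), (y 0 ≠ 0 ∨ y 1 ≠ 0) → L.a i * y 0 + L.b i * y 1 = 0 →
      eval y W = 0) : W = 0 := by
  classical
  obtain ⟨s, hs⟩ := Infinite.exists_notMem_finset
    (Finset.univ.image fun i => -L.a i / L.b i)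
  have hw : ∀ i, L.a i + L.b i * s ≠ 0 := by
    intro i h
    by_cases hb : L.b i = 0
    · rcases hab i with ha | hb'
      · apply ha
        rw [hb] at h
        simpa using h
      · exact hb' hb
    · apply hs
      refine Finset.mem_image.mpr ⟨i, Finset.mem_univ _, ?_⟩
      field_simp
      linear_combination -h
  have hl : (X 1 - C s * X 0 : Pol k) ≠ 0 := by
    intro h
    have := congrArg (eval ![0, 1]) h
    simp at this
  have key : W * (X 1 - C s * X 0) = 0 := by
    apply MvPolynomial.funext
    intro z
    rw [map_mul, map_zero]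
    by_cases hz : eval z (X 1 - C s * X 0 : Pol k) = 0
    · rw [hz, mul_zero]
    have hz' : z 1 - s * z 0 ≠ 0 := by simpa using hz
    let w : Fin 2 → k := ![1, s]
    let φ : Fin 2 → Polynomial k := fun i => Polynomial.C (w i) * Polynomial.X + Polynomial.C (z i)
    let p : Polynomial k := aeval φ W
    have hp : ∀ t, p.eval t = eval (fun i => w i * t + z i) W := by
      intro t
      have : (Polynomial.evalRingHom t).comp (aeval φ : Pol k →ₐ[k] Polynomial k).toRingHom =
          eval (fun i => w i * t + z i) := by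
        ext <;> simp [φ]
      exact congrArg (fun f : Pol k →+* k => f W) this
    have hd : p.natDegree ≤ W.totalDegree * 1 :=
      MvPolynomial.aeval_natDegree_le W le_rfl φ fun i => Polynomial.natDegree_linear_le
    let τ : I → k := fun i => -(L.a i * z 0 + L.b i * z 1) / (L.a i + L.b i * s)
    have hτ : ∀ i, L.a i * (w 0 * τ i + z 0) + L.b i * (w 1 * τ i + z 1) = 0 := by
      intro i
      have := hw i
      simp only [w, τ, Matrix.cons_val_zero, Matrix.cons_val_one]
      field_simp
      ring
    have hne : ∀ t, (w 0 * t + z 0 ≠ 0 ∨ w 1 * t + z 1 ≠ 0) := by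
      intro t
      by_contra h
      push Not at h
      apply hz'
      simp only [w, Matrix.cons_val_zero, Matrix.cons_val_one] at h
      linear_combination h.2 - s * h.1
    have hinj : Function.Injective τ := by
      intro i j hij
      by_contra hn
      have h1 := hτ i
      have h2 := hτ j
      rw [← hij] at h2
      have := SYLL_meet L (hbr i j hn) (y := fun m => w m * τ i + z m) h1 h2
      rcases hne (τ i) with h | h
      · exact h this.1
      · exact h this.2
    have p0 : p = 0 := by
      refine Polynomial.eq_zero_of_natDegree_lt_card_of_eval_eq_zero p hinj (fun i => ?_)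
        (by omega)
      rw [hp]
      exact hv i _ (hne _) (hτ i)
    have := hp 0
    rw [p0] at this
    simp only [Polynomial.eval_zero, mul_zero, zero_add] at this
    rw [← this, zero_mul]
  exact (mul_eq_zero.mp key).resolve_right hl

end

theorem pf_SYLL (hLB : StLB) : StSYLL := by
  intro k G I _ _ _ _ _ _ L hG A B hA hB hAB
  obtain ⟨hmu, hsum, -, -, -, -, hom, -⟩ := hLB k G I L hG
  have h3 := hG.three
  rw [hom, SYLL_top1, SYLL_top2] at hAB
  have hab : ∀ i, L.a i ≠ 0 ∨ L.b i ≠ 0 := by
    intro i
    obtain ⟨j, hj⟩ := Fintype.exists_ne_of_one_lt_card (by omega : 1 < Fintype.card I) i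
    by_contra h
    push Not at h
    apply hG.br_ne j i hj
    simp [Lines.br, h.1, h.2]
  have hW : X 0 * A + X 1 * B = 0 := by
    refine SYLL_zero L hG.br_ne hab ?_ ?_
    · have h : (X 0 * A + X 1 * B).IsHomogeneous (1 + (Fintype.card I - 1 - 1)) :=
        ((isHomogeneous_X k 0).mul hA).add ((isHomogeneous_X k 1).mul hB)
      have := h.totalDegree_le
      omega
    · intro i y hy hi
      have e := congrArg (eval y) hAB
      rw [map_add, map_mul, map_mul, map_neg, SYLL_eval_sum L _ i hi, SYLL_eval_sum L _ i hi,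
        map_zero] at e
      have hP : ∏ j ∈ Finset.univ.erase i, (L.a j * y 0 + L.b j * y 1) ≠ 0 := by
        refine Finset.prod_ne_zero_iff.mpr fun j hj h => ?_
        have := SYLL_meet L (hG.br_ne j i (Finset.ne_of_mem_erase hj)) h hi
        rcases hy with h' | h'
        · exact h' this.1
        · exact h' this.2
      have e2 : L.b i * eval y A - L.a i * eval y B = 0 := by
        apply mul_left_cancel₀ (mul_ne_zero (hmu i) hP)
        linear_combination e
      simp only [map_add, map_mul, eval_X]
      rcases hab i with h | h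
      · apply mul_left_cancel₀ h
        linear_combination eval y A * hi - y 1 * e2
      · apply mul_left_cancel₀ h
        linear_combination eval y B * hi + y 0 * e2
  have hE : X 1 * (∑ i, C (L.mu i * L.b i) * ∏ j ∈ Finset.univ.erase i, SYLL_lin L j) +
      X 0 * (∑ i, C (L.mu i * L.a i) * ∏ j ∈ Finset.univ.erase i, SYLL_lin L j) =
      C (∑ i, L.mu i) * ∏ j, SYLL_lin L j := by
    rw [map_sum, Finset.sum_mul, Finset.mul_sum, Finset.mul_sum, ← Finset.sum_add_distrib]
    refine Finset.sum_congr rfl fun i _ => ?_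
    rw [← Finset.mul_prod_erase _ _ (Finset.mem_univ i)]
    simp only [SYLL_lin, map_mul]
    ring
  have hne : (C (∑ i, L.mu i) * ∏ j, SYLL_lin L j : Pol k) ≠ 0 := by
    refine mul_ne_zero (C_ne_zero.mpr hsum) (Finset.prod_ne_zero_iff.mpr fun j _ h => ?_)
    have h0 := congrArg (eval ![1, 0]) h
    have h1 := congrArg (eval ![0, 1]) h
    simp [SYLL_eval_lin] at h0 h1
    rcases hab j with h' | h'
    · exact h' h0
    · exact h' h1
  have hA0 : A = 0 := by
    apply mul_left_cancel₀ hne
    rw [← hE]
    linear_combination X 1 * hAB +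
      (∑ i, C (L.mu i * L.a i) * ∏ j ∈ Finset.univ.erase i, SYLL_lin L j) * hW
  refine ⟨hA0, ?_⟩
  rw [hA0, mul_zero, zero_add] at hW
  exact (mul_eq_zero.mp hW).resolve_left (X_ne_zero 1)

end

end CenLoc
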