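import Pool.Agent.P.MP_2862dc_ag.Basic

/-! Tangent vectors to the logarithmic family are relatively exact near a normalised point. -/

namespace CenLoc

open MvPolynomial Filter Topology

/-- The relative exactness property. -/
def TLEX_P (F : Pol ℂ) (u : Pol ℂ × Pol ℂ) (p : Pt) (v : Pol ℂ × Pol ℂ) : Prop :=
  ∃ a : Pt → ℂ, AnalyticAt ℂ a p ∧ ∀ᶠ z in 𝓝 p, eval z (wedge v u) =
    eval z F * (eval z u.1 * dP a 0 z + eval z u.2 * dP a 1 z)

lemma TLEX_zero (F : Pol ℂ) (u : Pol ℂ × Pol ℂ) (p : Pt) : TLEX_P F u p 0 := by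
  refine ⟨fun _ => 0, analyticAt_const, Eventually.of_forall fun z => ?_⟩
  simp [wedge, dP]

lemma TLEX_add {F : Pol ℂ} {u : Pol ℂ × Pol ℂ} {p : Pt} {v w : Pol ℂ × Pol ℂ}
    (hv : TLEX_P F u p v) (hw : TLEX_P F u p w) : TLEX_P F u p (v + w) := by
  obtain ⟨a, ha, ha'⟩ := hv
  obtain ⟨b, hb, hb'⟩ := hw
  refine ⟨a + b, ha.add hb, ?_⟩
  filter_upwards [ha', hb', ha.eventually_analyticAt, hb.eventually_analyticAt] with z h1 h2 h3 h4
  have e : ∀ i, dP (a + b) i z = dP a i z + dP b i z := fun i => by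
    simp only [dP]
    rw [fderiv_add h3.differentiableAt h4.differentiableAt]
    rfl
  rw [wedge_add_left, map_add, h1, h2, e, e]
  ring

lemma TLEX_sum {F : Pol ℂ} {u : Pol ℂ × Pol ℂ} {p : Pt} {ι : Type} (s : Finset ι)
    (v : ι → Pol ℂ × Pol ℂ) (h : ∀ i ∈ s, TLEX_P F u p (v i)) : TLEX_P F u p (∑ i ∈ s, v i) :=
  Finset.sum_induction _ _ (fun _ _ => TLEX_add) (TLEX_zero F u p) h

lemma TLEX_slit {g : Pol ℂ} {p : Pt} (h : eval p g = 1) :
    ∀ᶠ z in 𝓝 p, eval z g ∈ Complex.slitPlane := by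
  have hc : ContinuousAt (fun x : Pt => eval x g) p := (analyticAt_eval g p).continuousAt
  refine hc.eventually_mem (Complex.isOpen_slitPlane.mem_nhds ?_)
  rw [h]; exact Complex.one_mem_slitPlane

lemma TLEX_dP_log (c : ℂ) (g : Pol ℂ) (z : Pt) (hz : eval z g ∈ Complex.slitPlane) (i : Fin 2) :
    dP (fun x => c * Complex.log (eval x g)) i z = c * (eval z (pderiv i g) / eval z g) := by
  have h := ((hasFDerivAt_eval g z).clog hz).const_mul c
  rw [dP, h.fderiv]
  fin_cases i <;> simp <;> ring_nf <;> simp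

lemma TLEX_dP_div (c : ℂ) (h g : Pol ℂ) (z : Pt) (hz : eval z g ≠ 0) (i : Fin 2) :
    dP (fun x => c * (eval x h * (eval x g)⁻¹)) i z =
      c * ((eval z (pderiv i h) * eval z g - eval z h * eval z (pderiv i g)) / eval z g ^ 2) := by
  have h1 := (hasDerivAt_inv hz).comp_hasFDerivAt z (hasFDerivAt_eval g z)
  have h2 := ((hasFDerivAt_eval h z).mul h1).const_mul c
  have e : (fun x => c * (eval x h * (eval x g)⁻¹)) =
      fun x => c * ((fun x : Pt => eval x h) * ((fun y : ℂ => y⁻¹) ∘ fun x : Pt => eval x g)) x :=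
    rfl
  rw [dP, e, h2.fderiv]
  fin_cases i <;> simp <;> field_simp <;> ring_nf

variable {G : Type} [Fintype G] [DecidableEq G]

lemma TLEX_lg (f : G → Pol ℂ) (u : Pol ℂ × Pol ℂ) (p : Pt) (g : G) (h : eval p (f g) = 1)
    (c : ℂ) : TLEX_P (∏ j, f j) u p (c • lg f g) := by
  refine ⟨fun x => c * Complex.log (eval x (f g)), ?_, ?_⟩
  · refine analyticAt_const.mul ((analyticAt_eval _ p).clog ?_)
    rw [h]; exact Complex.one_mem_slitPlane
  · filter_upwards [TLEX_slit h] with z hz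
    have h0 : eval z (f g) ≠ 0 := Complex.slitPlane_ne_zero hz
    rw [TLEX_dP_log _ _ _ hz, TLEX_dP_log _ _ _ hz,
      ← Finset.mul_prod_erase _ f (Finset.mem_univ g), lg, smul_eq_C_smul, wedge_smul_left,
      wedge_smul_left, ← act_eq_wedge, act]
    simp only [map_mul, map_add, eval_C]
    field_simp

lemma TLEX_tv (f : G → Pol ℂ) (lam : G → ℂ) (p : Pt) (g : G) (h : eval p (f g) = 1)
    (r : Pol ℂ) : TLEX_P (∏ j, f j) (om f lam) p (tv f lam g r) := by
  refine ⟨fun x => lam g * (eval x r * (eval x (f g))⁻¹), ?_, ?_⟩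
  · refine analyticAt_const.mul ((analyticAt_eval _ p).mul ((analyticAt_eval _ p).inv ?_))
    rw [h]; exact one_ne_zero
  · filter_upwards [TLEX_slit h] with z hz
    have h0 : eval z (f g) ≠ 0 := Complex.slitPlane_ne_zero hz
    have e := congrArg (fun w => eval z (wedge w (om f lam))) (smul_tv f lam g r)
    simp only [wedge_add_left, wedge_sub_left, wedge_smul_left, wedge_self, lg, ← act_eq_wedge,
      act] at e
    rw [← Finset.mul_prod_erase _ f (Finset.mem_univ g)] at e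
    simp only [map_mul, map_add, map_sub, eval_C, mul_zero, add_zero] at e
    rw [TLEX_dP_div _ _ _ _ h0, TLEX_dP_div _ _ _ _ h0,
      ← Finset.mul_prod_erase _ f (Finset.mem_univ g), map_mul]
    apply mul_left_cancel₀ h0
    rw [e]
    field_simp
    ring

theorem pf_TLEX : StTLEX := by
  intro G _ _ dd f lam p v hf hv
  obtain ⟨h, μ, -, rfl⟩ := hv
  exact TLEX_add (TLEX_sum _ _ fun g _ => TLEX_tv f lam p g (hf g) (h g))
    (TLEX_sum _ _ fun g _ => TLEX_lg f _ p g (hf g) (μ g))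

end CenLoc
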