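import Pool.Agent.P.MP_2862dc_ag.Basic

/-! Tangent vectors to the logarithmic family satisfy the formal condition. -/

namespace CenLoc

open MvPolynomial

section
variable {R : Type} [CommRing R] {G : Type} [Fintype G] [DecidableEq G]

lemma TLSUB_wedge {N : ℕ} {v : Pol R × Pol R} (hv : OrdP N v) (u : Pol R × Pol R) :
    wedge v u ∈ mI R ^ N :=
  Ideal.sub_mem _ (Ideal.mul_mem_right _ _ hv.1) (Ideal.mul_mem_right _ _ hv.2)

lemma TLSUB_ham {N : ℕ} {a : Pol R} (ha : a ∈ mI R ^ (N + 1)) : OrdP N (ham a) :=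
  ⟨pderiv_mem_mI_pow ha 1, Submodule.neg_mem _ (pderiv_mem_mI_pow ha 0)⟩

lemma TLSUB_inv {a : Pol R} (ha : coeff 0 a = 1) (M : ℕ) : ∃ w : Pol R, a * w - 1 ∈ mI R ^ M := by
  have h1 : 1 - a ∈ mI R := by rw [mem_mI]; simp [ha]
  refine ⟨∑ n ∈ Finset.range M, (1 - a) ^ n, ?_⟩
  have e : a * ∑ n ∈ Finset.range M, (1 - a) ^ n - 1 = -(1 - a) ^ M := by
    have := geom_sum_mul (1 - a) M
    linear_combination -this
  rw [e]
  exact Submodule.neg_mem _ (Ideal.pow_mem_pow h1 M)

lemma TLSUB_tv (f : G → Pol R) (lam : G → R) (N : ℕ) (g : G) (hg : coeff 0 (f g) = 1)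
    (h : Pol R) : tv f lam g h ∈ InT N f lam := by
  obtain ⟨w, hw⟩ := TLSUB_inv hg (N + 1)
  refine ⟨C (lam g) * (h * w), ?_⟩
  have hF : ∏ j, f j = f g * ∏ j ∈ Finset.univ.erase g, f j :=
    (Finset.mul_prod_erase _ f (Finset.mem_univ g)).symm
  have e1 : f g * wedge (tv f lam g h) (om f lam) =
      C (lam g) * (∏ j, f j) * wedge (ham h) (om f lam) -
        C (lam g) * h * ((∏ j ∈ Finset.univ.erase g, f j) * wedge (ham (f g)) (om f lam)) := by
    rw [← wedge_smul_left, smul_tv, wedge_add_left, wedge_sub_left, wedge_smul_left,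
      wedge_smul_left, wedge_smul_left, wedge_self, lg, wedge_smul_left]
    ring
  have e2 : act (om f lam) (C (lam g) * (h * w)) =
      C (lam g) * (h * wedge (ham w) (om f lam) + w * wedge (ham h) (om f lam)) := by
    rw [act_eq_wedge, ham_mul, ham_C, smul_zero, add_zero, ham_mul, wedge_smul_left,
      wedge_add_left, wedge_smul_left, wedge_smul_left]
  have e3 : wedge (ham (f g * w - 1)) (om f lam) =
      f g * wedge (ham w) (om f lam) + w * wedge (ham (f g)) (om f lam) := by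
    have : ham (f g * w - 1) = ham (f g * w) := by ext1 <;> simp [ham]
    rw [this, ham_mul, wedge_add_left, wedge_smul_left, wedge_smul_left]
  refine mem_mI_pow_of_mul hg (mem_mI_pow_of_mul hg ?_)
  have e : f g * (f g * (wedge (tv f lam g h) (om f lam) -
      (∏ j, f j) * act (om f lam) (C (lam g) * (h * w)))) =
      (f g * w - 1) * (C (lam g) * (∏ j, f j) *
        (h * wedge (ham (f g)) (om f lam) - f g * wedge (ham h) (om f lam))) -
      wedge (ham (f g * w - 1)) (om f lam) * (C (lam g) * h * (∏ j, f j) * f g) := by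
    rw [e2, e3, mul_sub, e1, hF]
    ring
  rw [e]
  exact Ideal.sub_mem _ (Ideal.mul_mem_right _ _ (mI_pow_mono (Nat.le_succ N) hw))
    (Ideal.mul_mem_right _ _ (TLSUB_wedge (TLSUB_ham hw) _))

end

theorem pf_TLSUB (hLOG : StLOG) : StTLSUB := by
  intro R _ _ G _ _ dd f lam N hf u hu
  obtain ⟨h, μ, -, rfl⟩ := hu
  refine Submodule.add_mem _ (Submodule.sum_mem _ fun g _ => TLSUB_tv f lam N g (hf g) _) ?_
  obtain ⟨H, -, hH⟩ := hLOG R G f μ N hf
  refine ⟨H, ?_⟩
  have e : wedge (∑ g, μ g • lg f g) (om f lam) - (∏ g, f g) * act (om f lam) H =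
      -wedge ((∏ g, f g) • ham H - om f μ) (om f lam) := by
    rw [← om_eq, wedge_sub_left, wedge_smul_left, act_eq_wedge]
    ring
  rw [e]
  exact Submodule.neg_mem _ (TLSUB_wedge hH _)

end CenLoc
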