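import Pool.Agent.P.MP_2862dc_ag.Basic

namespace CenLoc

open MvPolynomial Filter Topology Asymptotics

/-- The point of the circle of radius `r`. -/
noncomputable def TSTAR_circ (r : ℂ) (θ : ℝ) : Pt := ![r * Real.cos θ, r * Real.sin θ]

lemma TSTAR_norm_circ (r : ℂ) (θ : ℝ) : ‖TSTAR_circ r θ‖ ≤ ‖r‖ := by
  refine (pi_norm_le_iff_of_nonneg (norm_nonneg r)).2 fun i => ?_
  fin_cases i
  · have h : ‖((Real.cos θ : ℝ) : ℂ)‖ ≤ 1 := by
      rw [Complex.norm_real, Real.norm_eq_abs]; exact Real.abs_cos_le_one θ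
    show ‖r * ((Real.cos θ : ℝ) : ℂ)‖ ≤ ‖r‖
    rw [norm_mul]
    exact mul_le_of_le_one_right (norm_nonneg r) h
  · have h : ‖((Real.sin θ : ℝ) : ℂ)‖ ≤ 1 := by
      rw [Complex.norm_real, Real.norm_eq_abs]; exact Real.abs_sin_le_one θ
    show ‖r * ((Real.sin θ : ℝ) : ℂ)‖ ≤ ‖r‖
    rw [norm_mul]
    exact mul_le_of_le_one_right (norm_nonneg r) h

lemma TSTAR_ev {A : Pt → Prop} (h : ∀ᶠ w in 𝓝 (0 : Pt), A w) :
    ∀ᶠ r in 𝓝 (0 : ℂ), ∀ θ : ℝ, A (TSTAR_circ r θ) := by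
  obtain ⟨ε, hε, hA⟩ := Metric.eventually_nhds_iff.1 h
  refine Metric.eventually_nhds_iff.2 ⟨ε, hε, fun r hr θ => hA ?_⟩
  rw [dist_zero_right] at hr ⊢
  exact (TSTAR_norm_circ r θ).trans_lt hr

lemma TSTAR_deriv_circ (r : ℂ) (θ : ℝ) :
    HasDerivAt (TSTAR_circ r) ![-TSTAR_circ r θ 1, TSTAR_circ r θ 0] θ := by
  refine hasDerivAt_pi.2 fun i => ?_
  fin_cases i
  · have h := ((Real.hasDerivAt_cos θ).ofReal_comp).const_mul r
    refine h.congr_deriv ?_
    simp [TSTAR_circ]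
  · have h := ((Real.hasDerivAt_sin θ).ofReal_comp).const_mul r
    refine h.congr_deriv ?_
    simp [TSTAR_circ]

lemma TSTAR_cont_circ (r : ℂ) : Continuous (TSTAR_circ r) :=
  continuous_iff_continuousAt.2 fun θ => (TSTAR_deriv_circ r θ).continuousAt

lemma TSTAR_deriv_cyc {χ : Pt → Pt} (r : ℂ) (θ : ℝ)
    (h : DifferentiableAt ℂ χ (TSTAR_circ r θ)) (i : Fin 2) :
    deriv (fun t => χ (TSTAR_circ r t) i) θ =
      fderiv ℂ χ (TSTAR_circ r θ) ![-TSTAR_circ r θ 1, TSTAR_circ r θ 0] i := by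
  have h1 := (h.hasFDerivAt.restrictScalars ℝ).comp_hasDerivAt θ (TSTAR_deriv_circ r θ)
  have h2 := hasDerivAt_pi.1 h1 i
  exact h2.deriv

/-- Circle integrals of the jet of a function whose circle integrals vanish. -/
lemma TSTAR_avg {g : Pt → ℂ} (hg : AnalyticAt ℂ g 0) {T : Pol ℂ} {N : ℕ}
    (hT : (fun w => g w - eval w T) =O[𝓝 (0 : Pt)] fun w => ‖w‖ ^ N)
    (h0 : ∀ᶠ r in 𝓝 (0 : ℂ), ∫ θ in (0 : ℝ)..2 * Real.pi, g (TSTAR_circ r θ) = 0) :
    (fun r : ℂ => ∫ θ in (0 : ℝ)..2 * Real.pi, eval (TSTAR_circ r θ) T) =O[𝓝 0]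
      fun r => ‖r‖ ^ N := by
  obtain ⟨C, hC, hb⟩ := hT.exists_pos
  refine IsBigO.of_bound (C * (2 * Real.pi)) ?_
  filter_upwards [h0, TSTAR_ev hb.bound, TSTAR_ev hg.eventually_analyticAt] with r hr hb' han
  have c1 : Continuous fun θ => g (TSTAR_circ r θ) :=
    continuous_iff_continuousAt.2 fun θ =>
      ContinuousAt.comp (han θ).continuousAt (TSTAR_cont_circ r).continuousAt
  have c2 : Continuous fun θ => eval (TSTAR_circ r θ) T :=
    continuous_iff_continuousAt.2 fun θ =>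
      ContinuousAt.comp (g := fun x : Pt => eval x T) (analyticAt_eval T _).continuousAt
        (TSTAR_cont_circ r).continuousAt
  have e : ∫ θ in (0 : ℝ)..2 * Real.pi, eval (TSTAR_circ r θ) T =
      -∫ θ in (0 : ℝ)..2 * Real.pi, (g (TSTAR_circ r θ) - eval (TSTAR_circ r θ) T) := by
    rw [intervalIntegral.integral_sub (c1.intervalIntegrable _ _) (c2.intervalIntegrable _ _), hr]
    ring
  rw [e, norm_neg]
  have hle := intervalIntegral.norm_integral_le_of_norm_le_const (a := 0) (b := 2 * Real.pi)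
    (C := C * ‖r‖ ^ N) (f := fun θ => g (TSTAR_circ r θ) - eval (TSTAR_circ r θ) T)
    (fun θ _ => (hb' θ).trans (by
      rw [Real.norm_of_nonneg (by positivity)]
      gcongr
      exact TSTAR_norm_circ r θ))
  refine hle.trans (le_of_eq ?_)
  rw [sub_zero, abs_of_nonneg (by positivity), Real.norm_of_nonneg (by positivity)]
  ring

lemma TSTAR_dP_mul {a b : Pt → ℂ} {z : Pt} (ha : DifferentiableAt ℂ a z)
    (hb : DifferentiableAt ℂ b z) (i : Fin 2) :
    dP (fun x => a x * b x) i z = dP a i z * b z + a z * dP b i z := by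
  simp only [dP]
  rw [fderiv_fun_mul ha hb]
  simp
  ring

lemma TSTAR_dP_sub {a b : Pt → ℂ} {z : Pt} (ha : DifferentiableAt ℂ a z)
    (hb : DifferentiableAt ℂ b z) (i : Fin 2) :
    dP (fun x => a x - b x) i z = dP a i z - dP b i z := by
  simp only [dP]
  rw [fderiv_fun_sub ha hb]
  simp

lemma TSTAR_mul_bdd {a b : Pt → ℂ} {p : Pt} {f : Pt → ℝ} (ha : ContinuousAt a p)
    (hb : b =O[𝓝 p] f) : (fun z => a z * b z) =O[𝓝 p] f := by
  have h1 : a =O[𝓝 p] (fun _ => (1 : ℝ)) := ha.tendsto.isBigO_one ℝ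
  simpa using h1.mul hb

/-- Replacing an analytic primitive by its jet. -/
lemma TSTAR_fin (hJET : StJET) (hDERO : StDERO) (hPOLYO : StPOLYO) (u v : Pol ℂ × Pol ℂ) (p : Pt)
    (F : Pol ℂ) (N : ℕ) (a : Pt → ℂ) (ha : AnalyticAt ℂ a p)
    (h : (fun z => eval z (wedge v u) -
      eval z F * (eval z u.1 * dP a 0 z + eval z u.2 * dP a 1 z)) =O[𝓝 p] fun z => ‖z - p‖ ^ N) :
    ∃ b : Pol ℂ, wedge (trP p v) (trP p u) - tr p F * act (trP p u) b ∈ mI ℂ ^ N := by
  obtain ⟨T, hT⟩ := hJET a p (N + 1) ha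
  refine ⟨T, (hPOLYO _ p N).1 ?_⟩
  have e0 : ∀ z : Pt, eval (z - p) T = eval z (tr (-p) T) := fun z => by
    rw [eval_tr, sub_eq_add_neg]
  have han : AnalyticAt ℂ (fun z => a z - eval (z - p) T) p := by
    simp only [e0]
    exact ha.sub (analyticAt_eval _ p)
  have hd : ∀ i : Fin 2, (fun z => dP a i z - eval (z - p) (pderiv i T)) =O[𝓝 p]
      fun z => ‖z - p‖ ^ N := by
    intro i
    refine (hDERO _ p N i han hT).congr' ?_ EventuallyEq.rfl
    filter_upwards [ha.eventually_analyticAt] with z hz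
    simp only [e0]
    rw [TSTAR_dP_sub hz.differentiableAt (analyticAt_eval _ z).differentiableAt, dP_eval,
      pderiv_tr, eval_tr, sub_eq_add_neg z p]
  have h0 := TSTAR_mul_bdd (analyticAt_eval (F * u.1) p).continuousAt (hd 0)
  have h1 := TSTAR_mul_bdd (analyticAt_eval (F * u.2) p).continuousAt (hd 1)
  refine ((h.add h0).add h1).congr_left fun z => ?_
  simp only [wedge, act, trP, map_sub, map_mul, map_add, eval_sub_tr]
  ring

theorem pf_TSTAR (hJET : StJET) (hDERO : StDERO) (hPOLYO : StPOLYO) (hSP : StSP) (hXI : StXI)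
    (hFI : StFI) (hAVG : StAVG) : StTSTAR := by
  intro u v p c F hj hF hcl hmel N
  have hs : c.s p ≠ 0 := hSP u p c hj
  obtain ⟨κ, hκ, hκ0, hrot⟩ := hXI u p c hs
  have hfi := hFI u p c F hs hF hcl
  have tχ : Tendsto c.χ (𝓝 0) (𝓝 p) := by
    have := c.χ_an.continuousAt.tendsto
    rwa [c.χ_zero] at this
  have tψ : Tendsto c.ψ (𝓝 p) (𝓝 0) := by
    have := c.ψ_an.continuousAt.tendsto
    rwa [c.ψ_p] at this
  have hsχ : AnalyticAt ℂ (fun w => c.s (c.χ w)) 0 :=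
    AnalyticAt.comp (g := c.s) (f := c.χ) (by rw [c.χ_zero]; exact c.s_an) c.χ_an
  have hs0 : c.s (c.χ 0) ≠ 0 := by rw [c.χ_zero]; exact hs
  set g : Pt → ℂ := fun w => κ w * eval (c.χ w) (wedge v u) / c.s (c.χ w) with hgdef
  have hg : AnalyticAt ℂ g 0 :=
    (hκ.mul (AnalyticAt.comp (g := fun x : Pt => eval x (wedge v u)) (f := c.χ)
      (analyticAt_eval _ _) c.χ_an)).div hsχ hs0
  have h0 : ∀ᶠ r in 𝓝 (0 : ℂ), ∫ θ in (0 : ℝ)..2 * Real.pi, g (TSTAR_circ r θ) = 0 := by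
    filter_upwards [hmel, TSTAR_ev hrot, TSTAR_ev c.χ_an.eventually_analyticAt] with r hr h1 h2
    rw [← hr, Chart.mel]
    refine intervalIntegral.integral_congr fun θ _ => ?_
    have d0 := TSTAR_deriv_cyc r θ (h2 θ).differentiableAt 0
    have d1 := TSTAR_deriv_cyc r θ (h2 θ).differentiableAt 1
    rw [h1 θ] at d0 d1
    show g (TSTAR_circ r θ) =
      (eval (c.χ (TSTAR_circ r θ)) v.1 * deriv (fun t => c.χ (TSTAR_circ r t) 1) θ -
        eval (c.χ (TSTAR_circ r θ)) v.2 * deriv (fun t => c.χ (TSTAR_circ r t) 0) θ) /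
          c.s (c.χ (TSTAR_circ r θ))
    rw [d0, d1, hgdef]
    simp only [wedge, map_sub, map_mul, Pi.smul_apply, smul_eq_mul, Matrix.cons_val_zero,
      Matrix.cons_val_one, Matrix.cons_val_fin_one]
    ring
  obtain ⟨T, hT⟩ := hJET g 0 N hg
  simp only [sub_zero] at hT
  obtain ⟨a, ha⟩ := hAVG T N (TSTAR_avg hg hT h0)
  have ha' := (hPOLYO _ 0 N).2 ha
  simp only [sub_zero] at ha'
  set a1 : Pt → ℂ := fun z => eval (c.ψ z) a with ha1def
  have ha1 : AnalyticAt ℂ a1 p :=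
    AnalyticAt.comp (g := fun x : Pt => eval x a) (f := c.ψ) (analyticAt_eval _ _) c.ψ_an
  have h1 : (fun w => κ w * (eval (c.χ w) (wedge v u) / c.s (c.χ w) -
      (eval (c.χ w) u.1 * dP a1 0 (c.χ w) + eval (c.χ w) u.2 * dP a1 1 (c.χ w)))) =O[𝓝 (0 : Pt)]
        fun w => ‖w‖ ^ N := by
    refine (hT.add ha').congr' ?_ EventuallyEq.rfl
    filter_upwards [hrot, c.right.eventually_nhds, c.χ_an.eventually_analyticAt,
      tχ.eventually ha1.eventually_analyticAt] with w hw hr hχ hw1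
    have hc := fderiv_comp w hw1.differentiableAt hχ.differentiableAt
    have he : (a1 ∘ c.χ) =ᶠ[𝓝 w] fun x => eval x a := by
      filter_upwards [hr] with x hx
      simp only [Function.comp, ha1def, hx]
    rw [he.fderiv_eq] at hc
    have hv := congrArg (fun A : Pt →L[ℂ] ℂ => A ![-w 1, w 0]) hc
    simp only [ContinuousLinearMap.comp_apply] at hv
    rw [hw, fderiv_eval, fderiv_eq_dP] at hv
    simp only [Fin.sum_univ_two, Pi.smul_apply, smul_eq_mul, Matrix.cons_val_zero,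
      Matrix.cons_val_one, Matrix.cons_val_fin_one] at hv
    simp only [hgdef, map_sub, map_mul, eval_X]
    linear_combination -hv
  have hψO : (fun z => ‖c.ψ z‖ ^ N) =O[𝓝 p] fun z => ‖z - p‖ ^ N := by
    have := c.ψ_an.differentiableAt.isBigO_sub
    simp only [c.ψ_p, sub_zero] at this
    exact (this.norm_left.norm_right).pow N
  have h2 := (h1.comp_tendsto tψ).trans hψO
  have hκψ : ContinuousAt (fun z => κ (c.ψ z)) p :=
    ContinuousAt.comp (g := κ) (f := c.ψ) (by rw [c.ψ_p]; exact hκ.continuousAt)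
      c.ψ_an.continuousAt
  have hκp : κ (c.ψ p) ≠ 0 := by rw [c.ψ_p]; exact hκ0
  have h3 := TSTAR_mul_bdd (c.s_an.continuousAt.div hκψ hκp) h2
  have hφ : AnalyticAt ℂ (fun x => c.s x / eval x F) p := c.s_an.div (analyticAt_eval F p) hF
  refine TSTAR_fin hJET hDERO hPOLYO u v p F N (fun z => a1 z * (c.s z / eval z F))
    (ha1.mul hφ) (h3.congr' ?_ EventuallyEq.rfl)
  filter_upwards [c.left, hfi, ha1.eventually_analyticAt, hφ.eventually_analyticAt,
    c.s_an.continuousAt.eventually_ne hs, hκψ.eventually_ne hκp,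
    (analyticAt_eval F p).continuousAt.eventually_ne hF] with z hz hf e1 e2 n1 n2 n3
  rw [TSTAR_dP_mul e1.differentiableAt e2.differentiableAt,
    TSTAR_dP_mul e1.differentiableAt e2.differentiableAt]
  simp only [Function.comp, Pi.div_apply, hz]
  have e3 : eval z F * (c.s z / eval z F) = c.s z := by field_simp
  have e4 : c.s z / κ (c.ψ z) * κ (c.ψ z) = c.s z := by field_simp
  have e5 : c.s z * (eval z (wedge v u) / c.s z) = eval z (wedge v u) := by field_simp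
  linear_combination (eval z (wedge v u) / c.s z -
      (eval z u.1 * dP a1 0 z + eval z u.2 * dP a1 1 z)) * e4 + e5 +
    (eval z u.1 * dP a1 0 z + eval z u.2 * dP a1 1 z) * e3 + eval z F * a1 z * hf

end CenLoc
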