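import Pool.Agent.P.MP_2862dc_ag.Stmts

namespace CenLoc

open MvPolynomial Filter Topology

lemma XI_dec (v : Pt) : v = v 0 • (Pi.single 0 1 : Pt) + v 1 • (Pi.single 1 1 : Pt) := by
  ext i; fin_cases i <;> simp

lemma XI_lin {E : Type} [NormedAddCommGroup E] [NormedSpace ℂ E] (A : Pt →L[ℂ] E) (v : Pt) :
    A v = v 0 • A (Pi.single 0 1) + v 1 • A (Pi.single 1 1) := by
  conv_lhs => rw [XI_dec v]
  rw [map_add, map_smul, map_smul]

lemma XI_sqs_an {ψ : Pt → Pt} {p : Pt} (h : AnalyticAt ℂ ψ p) : AnalyticAt ℂ (sqs ψ) p := by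
  have h0 : AnalyticAt ℂ (fun z => ψ z 0) p := analyticAt_pi_iff.1 h 0
  have h1 : AnalyticAt ℂ (fun z => ψ z 1) p := analyticAt_pi_iff.1 h 1
  exact (h0.pow 2).add (h1.pow 2)

lemma XI_q (w v : Pt) :
    fderiv ℂ (fun x : Pt => x 0 ^ 2 + x 1 ^ 2) w v = 2 * w 0 * v 0 + 2 * w 1 * v 1 := by
  have h0 : HasFDerivAt (fun x : Pt => x 0) (ContinuousLinearMap.proj (R := ℂ) 0) w :=
    hasFDerivAt_apply 0 w
  have h1 : HasFDerivAt (fun x : Pt => x 1) (ContinuousLinearMap.proj (R := ℂ) 1) w :=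
    hasFDerivAt_apply 1 w
  have h := ((h0.pow 2).add (h1.pow 2)).fderiv
  have e : (fun x : Pt => x 0 ^ 2 + x 1 ^ 2) =
      (fun x : Pt => x 0 ^ 2) + fun x : Pt => x 1 ^ 2 := rfl
  rw [e, h]
  simp

theorem pf_XI : StXI := by
  intro u p c hs
  have hM : AnalyticAt ℂ (fderiv ℂ c.χ) 0 := c.χ_an.fderiv
  have hent : ∀ i j : Fin 2, AnalyticAt ℂ (fun w => fderiv ℂ c.χ w (Pi.single i 1) j) 0 := by
    intro i j
    have h1 : AnalyticAt ℂ (fun w => fderiv ℂ c.χ w (Pi.single i 1)) 0 :=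
      ((ContinuousLinearMap.apply ℂ Pt (Pi.single i (1 : ℂ) : Pt)).analyticAt _).comp hM
    exact analyticAt_pi_iff.1 h1 j
  have htend : Tendsto c.χ (𝓝 0) (𝓝 p) := by
    have := c.χ_an.continuousAt.tendsto
    rwa [c.χ_zero] at this
  have hsχ : AnalyticAt ℂ (fun w => c.s (c.χ w)) 0 :=
    AnalyticAt.comp (g := c.s) (f := c.χ) (by rw [c.χ_zero]; exact c.s_an) c.χ_an
  have hs0 : c.s (c.χ 0) ≠ 0 := by rw [c.χ_zero]; exact hs
  refine ⟨fun w => -(fderiv ℂ c.χ w (Pi.single 0 1) 0 * fderiv ℂ c.χ w (Pi.single 1 1) 1 -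
      fderiv ℂ c.χ w (Pi.single 0 1) 1 * fderiv ℂ c.χ w (Pi.single 1 1) 0) / (2 * c.s (c.χ w)),
    ?_, ?_, ?_⟩
  · refine AnalyticAt.div ?_ (analyticAt_const.mul hsχ) (mul_ne_zero two_ne_zero hs0)
    exact (((hent 0 0).mul (hent 1 1)).sub ((hent 0 1).mul (hent 1 0))).neg
  · refine div_ne_zero (neg_ne_zero.2 ?_) (mul_ne_zero two_ne_zero hs0)
    have hψ : DifferentiableAt ℂ c.ψ (c.χ 0) := by
      rw [c.χ_zero]; exact c.ψ_an.differentiableAt
    have hc := fderiv_comp (0 : Pt) hψ c.χ_an.differentiableAt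
    have he : (c.ψ ∘ c.χ) =ᶠ[𝓝 0] id := c.right
    rw [he.fderiv_eq, fderiv_id] at hc
    have hv : ∀ v : Pt, fderiv ℂ c.ψ (c.χ 0) (fderiv ℂ c.χ 0 v) = v := fun v => by
      have := congrArg (fun A : Pt →L[ℂ] Pt => A v) hc
      simpa using this.symm
    have ha := hv (Pi.single 0 1)
    have hb := hv (Pi.single 1 1)
    rw [XI_lin] at ha hb
    have a0 := congrFun ha 0
    have a1 := congrFun ha 1
    have b0 := congrFun hb 0
    have b1 := congrFun hb 1
    simp only [Pi.add_apply, Pi.smul_apply, smul_eq_mul, Pi.single_eq_same, ne_eq, zero_ne_one,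
      one_ne_zero, not_false_eq_true, Pi.single_eq_of_ne] at a0 a1 b0 b1
    intro h0
    set α := fderiv ℂ c.ψ (c.χ 0) (Pi.single 0 1)
    set β := fderiv ℂ c.ψ (c.χ 0) (Pi.single 1 1)
    set eu := fderiv ℂ c.χ 0 (Pi.single 0 1)
    set ev := fderiv ℂ c.χ 0 (Pi.single 1 1)
    have : (eu 0 * α 0 + eu 1 * β 0) * (ev 0 * α 1 + ev 1 * β 1) -
        (eu 0 * α 1 + eu 1 * β 1) * (ev 0 * α 0 + ev 1 * β 0) = 0 := by
      linear_combination (α 0 * β 1 - α 1 * β 0) * h0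
    rw [a0, a1, b0, b1] at this
    simp at this
  · have e1 := c.right.eventually_nhds
    have e2 := c.χ_an.eventually_analyticAt
    have e3 := htend.eventually (XI_sqs_an c.ψ_an).eventually_analyticAt
    have e4 := htend.eventually c.fac
    have e5 := hsχ.continuousAt.eventually_ne hs0
    filter_upwards [e1, e2, e3, e4, e5] with w h1 h2 h3 h4 h5
    have hc := fderiv_comp w h3.differentiableAt h2.differentiableAt
    have he : (sqs c.ψ ∘ c.χ) =ᶠ[𝓝 w] fun x : Pt => x 0 ^ 2 + x 1 ^ 2 := by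
      filter_upwards [h1] with x hx
      simp only [Function.comp, sqs, hx]
    rw [he.fderiv_eq] at hc
    have hv : ∀ v : Pt, fderiv ℂ (sqs c.ψ) (c.χ w) (fderiv ℂ c.χ w v) =
        2 * w 0 * v 0 + 2 * w 1 * v 1 := fun v => by
      rw [← XI_q, hc]; rfl
    have ha := hv (Pi.single 0 1)
    have hb := hv (Pi.single 1 1)
    rw [XI_lin] at ha hb
    simp only [smul_eq_mul, Pi.single_eq_same, ne_eq, zero_ne_one,
      one_ne_zero, not_false_eq_true, Pi.single_eq_of_ne] at ha hb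
    obtain ⟨hP, hQ⟩ := h4
    simp only [dP] at hP hQ
    rw [XI_lin]
    set fx := fderiv ℂ (sqs c.ψ) (c.χ w) (Pi.single 0 1)
    set fy := fderiv ℂ (sqs c.ψ) (c.χ w) (Pi.single 1 1)
    set eu := fderiv ℂ c.χ w (Pi.single 0 1)
    set ev := fderiv ℂ c.χ w (Pi.single 1 1)
    have hQ' : eval (c.χ w) u.2 = -(c.s (c.χ w) * fx) := by rw [← hQ]; ring
    rw [hP, hQ']
    ext i
    fin_cases i
    · simp only [Fin.zero_eta, Pi.add_apply, Pi.smul_apply, smul_eq_mul, Matrix.cons_val_zero,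
        Matrix.cons_val_one]
      field_simp
      linear_combination (eu 0) * hb - (ev 0) * ha
    · simp only [Fin.mk_one, Pi.add_apply, Pi.smul_apply, smul_eq_mul, Matrix.cons_val_zero,
        Matrix.cons_val_one]
      field_simp
      linear_combination (eu 1) * hb - (ev 1) * ha

end CenLoc
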