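import Pool.Agent.P.MP_2862dc_ag.Basic

namespace CenLoc

open MvPolynomial

set_option linter.unusedSectionVars false

section
variable {G : Type} [Fintype G] [DecidableEq G] {dd : G → ℕ} (g0 : G) {d : ℕ}
  {k : Type} [CommRing k] [Algebra ℂ k] (τ v : Idx dd → k)

theorem DPI_e1 : dmap (piU d dd g0) τ v = fun w => (Der.pt τ v).c1 (piU d dd g0 w) :=
    funext fun w => dmap_apply _ τ v w

theorem DPI_e2 : (fun j => map (Der.pt τ v).c0 (yF g0 (X : Idx dd → MvPolynomial (Idx dd) ℂ) j)) =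
      yF g0 τ := funext fun j => map_aeval_yF g0 τ j

theorem DPI_e3 : (fun j => (Der.pt τ v).c0 (ylam g0 (X : Idx dd → MvPolynomial (Idx dd) ℂ) j)) =
      ylam g0 τ := funext fun j => (Der.pt_c0 τ v _).trans (aeval_ylam g0 τ j)

theorem DPI_e5 (h1 : ∀ g, 1 ≤ dd g) (hs : ∑ g, dd g = d + 1) :
    form (piU d dd g0) = om (yF g0 (X : Idx dd → MvPolynomial (Idx dd) ℂ)) (ylam g0 X) :=
  form_ypi g0 h1 hs X

theorem DPI_key (hDLOG : StDLOG) (h1 : ∀ g, 1 ≤ dd g) (hs : ∑ g, dd g = d + 1) :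
    form (dmap (piU d dd g0) τ v) =
      ∑ g, tv (yF g0 τ) (ylam g0 τ) g ((Der.pt τ v).p1 (yF g0 X g)) +
        ∑ g, (Der.pt τ v).c1 (ylam g0 X g) • lg (yF g0 τ) g := by
  have e6 := (hDLOG _ _ (Der.pt τ v) G (yF g0 (X : Idx dd → MvPolynomial (Idx dd) ℂ))
    (ylam g0 X)).1
  rw [DPI_e2, DPI_e3] at e6
  rw [DPI_e1, ← Der.p1P_form, DPI_e5 g0 h1 hs]
  exact e6

theorem DPI_mem {f : G → Pol k} {lam : G → k} {u : Pol k × Pol k} (h : G → Pol k) (μ : G → k)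
    (hh : ∀ g, (h g).totalDegree ≤ dd g) (e : u = ∑ g, tv f lam g (h g) + ∑ g, μ g • lg f g) :
    u ∈ InTL dd f lam := ⟨h, μ, hh, e⟩

theorem DPI_TL {f F : G → Pol k} {lam : G → k} {p : Fin 2 → k} {η : Fin 2 × Mon d → k}
    (e : ∀ j, tr p (F j) = f j) (h : form η ∈ InTL dd F lam) : η ∈ TL d dd f lam p := by
  have h3 := trP_mem_InTL p h
  rw [show (fun j => tr p (F j)) = f from funext e] at h3
  exact mem_TL.2 h3

theorem DPI_mem2 (hDLOG : StDLOG) (h1 : ∀ g, 1 ≤ dd g) (hs : ∑ g, dd g = d + 1) :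
    form (dmap (piU d dd g0) τ v) ∈ InTL dd (yF g0 τ) (ylam g0 τ) := by
  refine DPI_mem _ _ (fun g => ?_) (DPI_key g0 τ v hDLOG h1 hs)
  exact (Der.totalDegree_p1_le (Der.pt τ v) _).trans (totalDegree_yF_le g0 X g)

end

theorem pf_DPI (hDLOG : StDLOG) : StDPI := by
  intro G _ _ dd g0 d h1 hs k _ _ τ v
  exact ⟨DPI_key g0 τ v hDLOG h1 hs, DPI_mem2 g0 τ v hDLOG h1 hs,
    DPI_TL (tr_yF g0 τ) (DPI_mem2 g0 τ v hDLOG h1 hs)⟩

end CenLoc
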