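import Pool.Agent.P.MP_2862dc_ag.Basic

namespace CenLoc

open MvPolynomial Filter Topology

section
variable {k G I : Type} [Field k] [Fintype I] [DecidableEq I]

lemma INJA_tri (L : Lines k G I) (c : k) (i j m : I) :
    ∑ q : I × I, (c * tri (k := k) i j m q) • L.e q.1 q.2 =
      c • (L.e i j + L.e j m + L.e m i) := by
  have h : ∑ q : I × I, tri (k := k) i j m q • L.e q.1 q.2 = L.e i j + L.e j m + L.e m i := by
    simp only [tri, Pi.add_apply, add_smul, Finset.sum_add_distrib, Pi.single_apply, ite_smul,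
      one_smul, zero_smul, Finset.sum_ite_eq', Finset.mem_univ, if_true]
  rw [← h, Finset.smul_sum]
  exact Finset.sum_congr rfl fun q _ => mul_smul _ _ _

lemma INJA_null_sum (hNULL : StNULL) (h : Ser k × Ser k) {ι : Type} (s : Finset ι)
    (ρ : ι → Polynomial (Ser k)) (hρ : ∀ i, Null h (ρ i)) : Null h (∑ i ∈ s, ρ i) :=
  Finset.sum_induction ρ (Null h) (hNULL k h).2.1 (hNULL k h).1 fun i _ => hρ i

lemma INJA_ser_sum (hCONN : StCONN) (δ : Derivation ℤ k k) {ι : Type} (s : Finset ι)
    (a : ι → Ser k) : serMap δ (∑ i ∈ s, a i) = ∑ i ∈ s, serMap δ (a i) := by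
  classical
  have h0 : serMap δ (0 : Ser k) = 0 := by
    have h1 := (hCONN k δ).1 0 0
    rw [add_zero] at h1
    exact left_eq_add.1 h1
  induction s using Finset.induction_on with
  | empty => simpa using h0
  | insert i s hi ih => rw [Finset.sum_insert hi, Finset.sum_insert hi, (hCONN k δ).1, ih]

lemma INJA_coeff (δ : Derivation ℤ k k) (q : Polynomial k) (j : ℕ) :
    (∑ n ∈ q.support, Polynomial.monomial n (δ (q.coeff n))).coeff j = δ (q.coeff j) := by
  classical
  rw [Polynomial.finsetSum_coeff]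
  simp only [Polynomial.coeff_monomial, Finset.sum_ite_eq']
  split_ifs with h
  · rfl
  · rw [Polynomial.notMem_support_iff.1 h, map_zero]

lemma INJA_key (L : Lines k G I) (θ : I → I → I → k) (mu : I → k) (v : I × I → Polynomial k) :
    ∑ q : I × I, (Polynomial.X * ∑ i, ∑ j, ∑ m,
        Polynomial.C (mu i * θ i j m * tri (k := k) i j m q) * v (j, m)).map
          (algebraMap k (Ser k)) * Polynomial.C (L.e q.1 q.2) =
      ∑ p : I × I, (v p).map (algebraMap k (Ser k)) * (Polynomial.X * Polynomial.C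
        (∑ i, (mu i * θ i p.1 p.2) • (L.e i p.1 + L.e p.1 p.2 + L.e p.2 i))) := by
  have hR : ∀ p : I × I, (v p).map (algebraMap k (Ser k)) * (Polynomial.X * Polynomial.C
        (∑ i, (mu i * θ i p.1 p.2) • (L.e i p.1 + L.e p.1 p.2 + L.e p.2 i))) =
      ∑ q : I × I, ∑ i, Polynomial.X * (Polynomial.C (algebraMap k (Ser k)
        (mu i * θ i p.1 p.2 * tri (k := k) i p.1 p.2 q)) * (v p).map (algebraMap k (Ser k))) *
          Polynomial.C (L.e q.1 q.2) := by
    intro p
    rw [Finset.sum_comm, map_sum, Finset.mul_sum, Finset.mul_sum]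
    refine Finset.sum_congr rfl fun i _ => ?_
    rw [← INJA_tri, map_sum, Finset.mul_sum, Finset.mul_sum]
    refine Finset.sum_congr rfl fun q _ => ?_
    rw [Algebra.smul_def, map_mul]
    ring
  rw [Finset.sum_congr rfl fun p _ => hR p, Finset.sum_comm]
  refine Finset.sum_congr rfl fun q _ => ?_
  refine Eq.trans ?_ Finset.sum_comm
  rw [Polynomial.map_mul, Polynomial.map_X, Polynomial.map_sum, Finset.mul_sum, Finset.sum_mul]
  refine Finset.sum_congr rfl fun i _ => ?_
  rw [Polynomial.map_sum, Finset.mul_sum, Finset.sum_mul]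
  refine Eq.trans ?_ (Fintype.sum_prod_type _).symm
  refine Finset.sum_congr rfl fun j _ => ?_
  rw [Polynomial.map_sum, Finset.mul_sum, Finset.sum_mul]
  refine Finset.sum_congr rfl fun m _ => ?_
  rw [Polynomial.map_mul, Polynomial.map_C]

end

theorem pf_INJA (hNULL : StNULL) (hCONN : StCONN) (hGM : StGM) : StINJA := by
  intro k G I _ _ _ _ _ _ L hL δ s hs v hv
  obtain ⟨hH, hG⟩ := hGM k G I L hL δ s hs
  obtain ⟨-, hmul, hC, -, -, hconn⟩ := hCONN k δ
  have h1 := hconn L.h _ hH (L.rho v)
    (∑ p : I × I, ((∑ n ∈ (v p).support, Polynomial.monomial n (δ ((v p).coeff n))).map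
      (algebraMap k (Ser k)) * Polynomial.C (L.e p.1 p.2) +
      (v p).map (algebraMap k (Ser k)) * Polynomial.C (serMap δ (L.e p.1 p.2)))) (by
      intro j
      rw [Lines.rho, Polynomial.finsetSum_coeff, Polynomial.finsetSum_coeff,
        INJA_ser_sum hCONN]
      refine Finset.sum_congr rfl fun p _ => ?_
      rw [Polynomial.coeff_add, Polynomial.coeff_mul_C, Polynomial.coeff_mul_C,
        Polynomial.coeff_mul_C, Polynomial.coeff_map, Polynomial.coeff_map, INJA_coeff, hmul,
        MvPowerSeries.algebraMap_apply, MvPowerSeries.algebraMap_apply, hC, add_comm]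
      rfl) hv
  have h2 := INJA_null_sum hNULL L.h Finset.univ _
    fun p : I × I => (hNULL k L.h).2.2.1 (-v p) _ (hG p.1 p.2)
  have h3 := (hNULL k L.h).2.1 _ _ h1 h2
  refine Eq.mp (congrArg (Null L.h) ?_) h3
  have e1 : L.rho (conn δ L.mu (L.theta s) v) =
      ∑ p : I × I, (∑ n ∈ (v p).support, Polynomial.monomial n (δ ((v p).coeff n))).map
        (algebraMap k (Ser k)) * Polynomial.C (L.e p.1 p.2) +
      ∑ p : I × I, (v p).map (algebraMap k (Ser k)) * (Polynomial.X * Polynomial.C
        (∑ i, (L.mu i * L.theta s i p.1 p.2) • (L.e i p.1 + L.e p.1 p.2 + L.e p.2 i))) := by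
    rw [← INJA_key, Lines.rho, ← Finset.sum_add_distrib]
    refine Finset.sum_congr rfl fun p _ => ?_
    rw [conn, Polynomial.map_add, add_mul]
  rw [e1, Lines.rho, Finset.mul_sum, ← Finset.sum_add_distrib, ← Finset.sum_add_distrib,
    ← Finset.sum_add_distrib]
  refine Finset.sum_congr rfl fun p _ => ?_
  rw [Polynomial.map_neg]
  ring

end CenLoc
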