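import Pool.Agent.P.MP_2862dc_ag.Stmts

/-! Homogeneous first integrals of a nondegenerate traceless linear field. -/

namespace CenLoc

open MvPolynomial

section
variable {k : Type} [Field k]

/-- The invariant quadratic form of the linear field. -/
noncomputable def LIN_q (α β γ : k) : Pol k :=
  C γ * X 0 ^ 2 - C (2 * α) * X 0 * X 1 - C β * X 1 ^ 2

lemma LIN_q_hom (α β γ : k) : (LIN_q α β γ).IsHomogeneous 2 := by
  unfold LIN_q
  refine IsHomogeneous.sub (IsHomogeneous.sub ?_ ?_) ?_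
  · exact ((isHomogeneous_X k (0 : Fin 2)).pow 2).C_mul γ
  · rw [mul_assoc]
    exact ((isHomogeneous_X k (0 : Fin 2)).mul (isHomogeneous_X k (1 : Fin 2))).C_mul (2 * α)
  · exact ((isHomogeneous_X k (1 : Fin 2)).pow 2).C_mul β

lemma LIN_q_eq (α β γ : k) :
    LIN_q α β γ = X 0 * (C γ * X 0 - C α * X 1) - X 1 * (C α * X 0 + C β * X 1) := by
  simp only [LIN_q, map_mul, map_ofNat]; ring

lemma LIN_dq0 (α β γ : k) :
    pderiv 0 (LIN_q α β γ) = 2 * (C γ * X 0 - C α * X 1) := by
  rw [LIN_q_eq]; simp; ring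

lemma LIN_dq1 (α β γ : k) :
    pderiv 1 (LIN_q α β γ) = -2 * (C α * X 0 + C β * X 1) := by
  rw [LIN_q_eq]; simp; ring

lemma LIN_q_ne [CharZero k] {α β γ : k} (h : α ^ 2 + β * γ ≠ 0) : LIN_q α β γ ≠ 0 := by
  intro h0
  have h1 := LIN_dq0 α β γ
  have h2 := LIN_dq1 α β γ
  rw [h0, map_zero] at h1 h2
  have h3 : (C (2 * (α ^ 2 + β * γ)) * X 0 : Pol k) = 0 := by
    simp only [map_mul, map_add, map_pow, map_ofNat]
    linear_combination (C α : Pol k) * h2 - (C β : Pol k) * h1
  rcases mul_eq_zero.mp h3 with h4 | h4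
  · rw [C_eq_zero] at h4
    exact h (by simpa using h4)
  · exact X_ne_zero _ h4

lemma LIN_const [CharZero k] (g : Pol k) (h : ∀ i, pderiv i g = 0) : g = C (coeff 0 g) := by
  ext m
  rw [coeff_C]
  split_ifs with hm
  · rw [← hm]
  · have : ∃ i, m i ≠ 0 := by
      by_contra hc
      push Not at hc
      exact hm (Finsupp.ext fun i => (hc i).symm)
    obtain ⟨i, hi⟩ := this
    have h1 := coeff_pderiv (i := i) g (m - Finsupp.single i 1)
    rw [h i, coeff_zero] at h1
    have h2 : m - Finsupp.single i 1 + Finsupp.single i 1 = m :=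
      tsub_add_cancel_of_le (Finsupp.single_le_iff.mpr (Nat.one_le_iff_ne_zero.mpr hi))
    rw [h2] at h1
    rcases mul_eq_zero.mp h1.symm with h3 | h3
    · exact h3
    · exact absurd h3 (Nat.cast_add_one_ne_zero _)

lemma LIN_dvd {α β γ : k} (h : α ^ 2 + β * γ ≠ 0) (hq : LIN_q α β γ ≠ 0) (g : Pol k) (t : k)
    (ht : t ≠ 0) (he : X 0 * pderiv 0 g + X 1 * pderiv 1 g = C t * g)
    (ha : (C α * X 0 + C β * X 1) * pderiv 0 g + (C γ * X 0 - C α * X 1) * pderiv 1 g = 0) :
    ∃ g', g = LIN_q α β γ * g' := by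
  set a : Pol k := C β * pderiv 0 g - C α * pderiv 1 g with ha_def
  set b : Pol k := -(C γ * pderiv 1 g) - C α * pderiv 0 g with hb_def
  have h1 : C (t * (α ^ 2 + β * γ)) * g * X 0 = LIN_q α β γ * a := by
    rw [LIN_q_eq, ha_def]
    simp only [map_mul, map_add, map_pow]
    linear_combination
      (-(C α * (C α * X 0 + C β * X 1) + C β * (C γ * X 0 - C α * X 1)) : Pol k) * he +
        (C β * X 1 + C α * X 0 : Pol k) * ha
  have h2 : C (t * (α ^ 2 + β * γ)) * g * X 1 = LIN_q α β γ * b := by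
    rw [LIN_q_eq, hb_def]
    simp only [map_mul, map_add, map_pow]
    linear_combination
      (-(C γ * (C α * X 0 + C β * X 1) - C α * (C γ * X 0 - C α * X 1)) : Pol k) * he +
        (C γ * X 0 - C α * X 1 : Pol k) * ha
  have h3 : a * X 1 = X 0 * b := by
    apply mul_left_cancel₀ hq
    linear_combination (X 0 : Pol k) * h2 - (X 1 : Pol k) * h1
  have h4 : (X 0 : Pol k) ∣ a := by
    rcases X_dvd_mul_iff.mp (Dvd.intro b h3.symm) with h5 | h5
    · exact h5
    · exact absurd (X_dvd_X.mp h5) (by decide)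
  obtain ⟨a', ha'⟩ := h4
  have h5 : C (t * (α ^ 2 + β * γ)) * g = LIN_q α β γ * a' := by
    apply mul_right_cancel₀ (X_ne_zero (R := k) (0 : Fin 2))
    rw [h1, ha']; ring
  refine ⟨C (t * (α ^ 2 + β * γ))⁻¹ * a', ?_⟩
  have h6 : (C (t * (α ^ 2 + β * γ))⁻¹ * C (t * (α ^ 2 + β * γ)) : Pol k) = 1 := by
    rw [← map_mul, inv_mul_cancel₀ (mul_ne_zero ht h), map_one]
  linear_combination (C (t * (α ^ 2 + β * γ))⁻¹ : Pol k) * h5 - g * h6

lemma LIN_main [CharZero k] {α β γ : k} (h : α ^ 2 + β * γ ≠ 0) (n : ℕ) :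
    ∀ (g : Pol k) (t : k), g.totalDegree = n →
      X 0 * pderiv 0 g + X 1 * pderiv 1 g = C t * g →
      (C α * X 0 + C β * X 1) * pderiv 0 g + (C γ * X 0 - C α * X 1) * pderiv 1 g = 0 →
      ∃ (i : ℕ) (c : k), g = C c * LIN_q α β γ ^ i := by
  have hq := LIN_q_ne h
  induction n using Nat.strong_induction_on with
  | _ n ih =>
    intro g t hn he ha
    by_cases ht : t = 0
    · refine ⟨0, coeff 0 g, ?_⟩
      rw [pow_zero, mul_one]
      apply LIN_const
      rw [ht, map_zero, zero_mul] at he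
      have h0 : pderiv 0 g = 0 := by
        apply mul_left_cancel₀ hq
        rw [LIN_q_eq]
        linear_combination (C γ * X 0 - C α * X 1 : Pol k) * he - (X 1 : Pol k) * ha
      have h1 : pderiv 1 g = 0 := by
        apply mul_left_cancel₀ hq
        rw [LIN_q_eq]
        linear_combination (-(C α * X 0 + C β * X 1) : Pol k) * he + (X 0 : Pol k) * ha
      intro i
      fin_cases i
      · exact h0
      · exact h1
    · obtain ⟨g', hg'⟩ := LIN_dvd h hq g t ht he ha
      by_cases h0 : g' = 0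
      · exact ⟨0, 0, by rw [hg', h0]; simp⟩
      have hd : g'.totalDegree < n := by
        rw [← hn, hg', totalDegree_mul_of_isDomain hq h0, (LIN_q_hom α β γ).totalDegree hq]
        omega
      have d0 : pderiv 0 g = LIN_q α β γ * pderiv 0 g' + g' * (2 * (C γ * X 0 - C α * X 1)) := by
        rw [hg', Derivation.leibniz, LIN_dq0]; simp only [smul_eq_mul]
      have d1 : pderiv 1 g = LIN_q α β γ * pderiv 1 g' + g' * (-2 * (C α * X 0 + C β * X 1)) := by
        rw [hg', Derivation.leibniz, LIN_dq1]; simp only [smul_eq_mul]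
      rw [d0, d1] at he ha
      have he' : X 0 * pderiv 0 g' + X 1 * pderiv 1 g' = C (t - 2) * g' := by
        apply mul_left_cancel₀ hq
        have hq2 := LIN_q_eq α β γ
        rw [hg'] at he
        simp only [map_sub, map_ofNat]
        linear_combination he + (2 * g' : Pol k) * hq2
      have ha' : (C α * X 0 + C β * X 1) * pderiv 0 g' +
          (C γ * X 0 - C α * X 1) * pderiv 1 g' = 0 := by
        apply mul_left_cancel₀ hq
        linear_combination ha
      obtain ⟨i, c, hc⟩ := ih _ hd g' (t - 2) rfl he' ha'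
      exact ⟨i + 1, c, by rw [hg', hc]; ring⟩

end

theorem pf_LIN : StLIN := by
  intro k _ _ α β γ g j h hg ha
  by_cases h0 : g = 0
  · exact Or.inl h0
  right
  have he := hg.sum_X_mul_pderiv
  rw [Fin.sum_univ_two, nsmul_eq_mul, ← map_natCast (C : k →+* Pol k)] at he
  obtain ⟨i, c, hc⟩ := LIN_main h _ g (j : k) rfl he ha
  refine ⟨i, c, ?_, hc⟩
  have h1 : g.IsHomogeneous (2 * i) := by
    rw [hc]; exact ((LIN_q_hom α β γ).pow i).C_mul c
  exact hg.inj_right h1 h0

end CenLoc
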