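import Pool.Agent.P.MP_2862dc_ag.Basic

namespace CenLoc

open MvPolynomial

section
variable {R k : Type} [CommRing R] [CommRing k]

/-- Matrix of the derivative along `u` acting on jets. -/
noncomputable def TAN_mat (N : ℕ) (u : Pol R × Pol R) : Matrix (Mon N) (Mon N) R :=
  Matrix.of fun m' m => coeff m'.1 (act u (monomial m.1 1))

lemma TAN_act_sum {ι : Type} (s : Finset ι) (u : Pol R × Pol R) (a : ι → Pol R) :
    act u (∑ i ∈ s, a i) = ∑ i ∈ s, act u (a i) := by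
  simp [act, Finset.mul_sum, Finset.sum_add_distrib]

lemma TAN_act_C (u : Pol R × Pol R) (c : R) (a : Pol R) : act u (C c * a) = C c * act u a := by
  simp [act]
  ring

lemma TAN_act_sub (u : Pol R × Pol R) (a b : Pol R) : act u (a - b) = act u a - act u b := by
  simp [act]
  ring

lemma TAN_mulVec (N : ℕ) (u : Pol R × Pol R) (x : Mon N → R) :
    (TAN_mat N u).mulVec x = jet N (act u (polyOf x)) := by
  funext m'
  simp only [Matrix.mulVec, dotProduct, TAN_mat, Matrix.of_apply, jet, polyOf, TAN_act_sum,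
    coeff_sum]
  refine Finset.sum_congr rfl fun m _ => ?_
  rw [show (monomial m.1 (x m) : Pol R) = C (x m) * monomial m.1 1 by
    rw [C_mul_monomial, mul_one], TAN_act_C, coeff_C_mul, mul_comm]

lemma TAN_map (φ : R →+* k) (N : ℕ) (u : Pol R × Pol R) :
    (TAN_mat N u).map φ = TAN_mat N (mapP φ u) := by
  ext m' m
  simp only [Matrix.map_apply, TAN_mat, Matrix.of_apply]
  rw [← coeff_map, map_act, map_monomial, map_one]

lemma TAN_p1_monomial (D : Der R k) (m : Fin 2 →₀ ℕ) : D.p1 (monomial m 1) = 0 := by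
  classical
  ext m'
  rw [D.coeff_p1, coeff_monomial]
  split_ifs <;> simp [D.c1_one]

lemma TAN_der (D : Der R k) (N : ℕ) (u : Pol R × Pol R) :
    (TAN_mat N u).map D.c1 = TAN_mat N (D.p1P u) := by
  ext m' m
  simp only [Matrix.map_apply, TAN_mat, Matrix.of_apply]
  rw [← D.coeff_p1, D.p1_act, TAN_p1_monomial, map_monomial, map_one]
  simp [act]

lemma TAN_jet_sub {N : ℕ} {a b : Pol R} (h : jet N a = jet N b) : a - b ∈ mI R ^ (N + 1) := by
  rw [← jet_eq_zero_iff]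
  funext m
  have := congrFun h m
  simp only [jet] at this
  simp [jet, this]

lemma TAN_jac_zero {u : Pol R × Pol R} (h : OrdP 2 u) : jac u = 0 := by
  have h1 : ∀ i, pderiv i u.1 ∈ mI R := fun i => by simpa using pderiv_mem_mI_pow h.1 i
  rw [jac, ← mem_mI, jacP]
  exact Ideal.sub_mem _ (Ideal.mul_mem_right _ _ (h1 0)) (Ideal.mul_mem_right _ _ (h1 1))

lemma TAN_act_pderiv (u : Pol R × Pol R) (H : Pol R) (i : Fin 2) :
    act (pderiv i u.1, pderiv i u.2) H = pderiv i (act u H) - act u (pderiv i H) := by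
  simp only [act, map_add, Derivation.leibniz, smul_eq_mul, pderiv_comm' i]
  ring

end

lemma TAN_rank (N : ℕ) (u : Pol ℂ × Pol ℂ) :
    (TAN_mat N u).rank = Module.finrank ℂ (LinearMap.range (Lmap N u)) := by
  have h : (TAN_mat N u).mulVecLin = Lmap N u := LinearMap.ext fun x => TAN_mulVec N u x
  rw [Matrix.rank, h]

/-- The universal form recentered at the universal point. -/
noncomputable def TAN_u (d : ℕ) :
    Pol (MvPolynomial ((Fin 2 × Mon d) ⊕ Fin 2) ℂ) ×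
      Pol (MvPolynomial ((Fin 2 × Mon d) ⊕ Fin 2) ℂ) :=
  trP (fun i => X (Sum.inr i)) (form fun w => X (Sum.inl w))

lemma TAN_u_eval (d : ℕ) (z : (Fin 2 × Mon d) ⊕ Fin 2 → ℂ) :
    mapP (eval z) (TAN_u d) = trP (z ∘ Sum.inr) (form (z ∘ Sum.inl)) := by
  rw [TAN_u, mapP_trP, mapP_form]
  simp only [eval_X]
  rfl

lemma TAN_c0 {κ : Type} [Fintype κ] (y v : κ → ℂ) : (Der.pt y v).c0 = eval y := by
  refine RingHom.ext fun Φ => ?_
  rw [Der.pt_c0, aeval_eq_eval]

lemma TAN_u_der (d : ℕ) (y v : (Fin 2 × Mon d) ⊕ Fin 2 → ℂ) {ω : Pol ℂ × Pol ℂ}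
    (hω : trP (y ∘ Sum.inr) (form (y ∘ Sum.inl)) = ω) :
    (Der.pt y v).p1P (TAN_u d) = trP (y ∘ Sum.inr) (form (v ∘ Sum.inl)) +
      (C (v (Sum.inr 0)) : Pol ℂ) • (pderiv 0 ω.1, pderiv 0 ω.2) +
      (C (v (Sum.inr 1)) : Pol ℂ) • (pderiv 1 ω.1, pderiv 1 ω.2) := by
  subst hω
  ext1
  · simp only [Der.p1P, TAN_u, trP, form, Der.p1_tr, Der.p1_polyOf, Der.pt_c1_X, TAN_c0, eval_X,
      map_polyOf, Fin.sum_univ_two, Prod.fst_add, Prod.smul_fst, smul_eq_mul, add_assoc]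
    rfl
  · simp only [Der.p1P, TAN_u, trP, form, Der.p1_tr, Der.p1_polyOf, Der.pt_c1_X, TAN_c0, eval_X,
      map_polyOf, Fin.sum_univ_two, Prod.snd_add, Prod.smul_snd, smul_eq_mul, add_assoc]
    rfl

lemma TAN_ord {u : Pol ℂ × Pol ℂ} {p : Pt} (h : IsCenter u p) : OrdP 1 (trP p u) := by
  constructor
  · rw [pow_one, mem_mI]
    exact (coeff_zero_tr p u.1).trans h.1
  · rw [pow_one, mem_mI]
    exact (coeff_zero_tr p u.2).trans h.2.1

lemma TAN_ord_der (d : ℕ) (y v : (Fin 2 × Mon d) ⊕ Fin 2 → ℂ) (hv : v ∈ tangent (cenPairs d) y) :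
    OrdP 1 ((Der.pt y v).p1P (TAN_u d)) := by
  have key : ∀ g : Pol (MvPolynomial ((Fin 2 × Mon d) ⊕ Fin 2) ℂ),
      (∀ z ∈ cenPairs d, map (eval z) g ∈ mI ℂ ^ 1) → (Der.pt y v).p1 g ∈ mI ℂ ^ 1 := by
    intro g hg
    rw [pow_one, mem_mI, Der.coeff_p1, Der.pt_c1]
    simp only [aeval_eq_eval]
    refine hv _ fun z hz => ?_
    have := hg z hz
    rwa [pow_one, mem_mI, coeff_map] at this
  have h : ∀ z ∈ cenPairs d, OrdP 1 (mapP (eval z) (TAN_u d)) := fun z hz => by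
    rw [TAN_u_eval]
    exact TAN_ord hz.2.2
  exact ⟨key _ fun z hz => (h z hz).1, key _ fun z hz => (h z hz).2⟩

theorem pf_TAN (hDET : StDET) (hCJET : StCJET) (hRKLE : StRKLE) (hRKGE : StRKGE)
    (hFINT : StFINT) : StTAN := by
  intro G _ _ dd g0 d h1 hs τ N hjac v hv
  obtain ⟨hord, hdv, H, hH2, hFH, hact, hH3⟩ :=
    hFINT ℂ G dd (yf g0 τ) (ylam g0 τ) (N + 4) (nrm_y g0 h1 τ)
  have hH3' : H ∉ mI ℂ ^ 3 := fun h => hjac (TAN_jac_zero (hH3 (by omega) h))
  rw [mem_TN, mem_InT]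
  have hy : trP (Sum.elim (ypi d g0 τ) (yp g0 τ) ∘ Sum.inr)
      (form (Sum.elim (ypi d g0 τ) (yp g0 τ) ∘ Sum.inl)) = om (yf g0 τ) (ylam g0 τ) := by
    rw [Sum.elim_comp_inl, Sum.elim_comp_inr, form_ypi g0 h1 hs, trP_om_yF]
  have hp : Sum.elim (ypi d g0 τ) (yp g0 τ) ∘ Sum.inr = yp g0 τ := Sum.elim_comp_inr _ _
  rw [← hp]
  generalize Sum.elim (ypi d g0 τ) (yp g0 τ) = y at hv hy ⊢
  generalize om (yf g0 τ) (ylam g0 τ) = ω at hy hord hdv hFH hact hjac ⊢
  generalize ∏ g, yf g0 τ g = F at hFH ⊢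
  have hder := TAN_u_der d y v hy
  have hord1 := TAN_ord_der d y v hv
  constructor
  · have hev : (TAN_mat N (TAN_u d)).map (eval y) = TAN_mat N ω := by
      rw [TAN_map, TAN_u_eval, hy]
    obtain ⟨x', hx'⟩ := hDET _ _ (cenPairs d) (TAN_mat N (TAN_u d))
      (Fintype.card (Mon N) - (N / 2 + 1)) y v (jet N H) (by
        intro z hz
        obtain ⟨f, hf2, hf3, hf⟩ := (hCJET _ _ hz.2.2).2 (N + 1)
        have := hRKLE ℂ _ f N (TAN_ord hz.2.2) hf2 hf3 hf
        rw [TAN_map, TAN_u_eval, TAN_rank]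
        omega) (by
        have := hRKGE ℂ ω H N hord hdv hjac hH2 hH3' hact
        rw [hev, TAN_rank]
        omega) hv (by
        rw [hev, TAN_mulVec, jet_eq_zero_iff]
        have h2 := act_mem_mI_pow hord (sub_polyOf_jet N H)
        rw [TAN_act_sub] at h2
        simpa using Ideal.sub_mem _ (mI_pow_mono (by omega) hact) h2)
    rw [hev, TAN_der, TAN_mulVec, TAN_mulVec] at hx'
    have h3 := TAN_jet_sub hx'
    have h4 := act_mem_mI_pow hord1 (sub_polyOf_jet N H)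
    rw [TAN_act_sub] at h4
    have h5 := Ideal.add_mem _ h3 h4
    rw [hder] at h5
    generalize trP (y ∘ Sum.inr) (form (v ∘ Sum.inl)) = η at h5 ⊢
    have h6 : ∀ i : Fin 2, pderiv i (act ω H) ∈ mI ℂ ^ (N + 1) := fun i =>
      pderiv_mem_mI_pow (mI_pow_mono (by omega) hact) i
    have h7 : wedge (F • ham H - ω) η ∈ mI ℂ ^ (N + 1) :=
      Ideal.sub_mem _ (Ideal.mul_mem_right _ _ (mI_pow_mono (by omega) hFH.1))
        (Ideal.mul_mem_right _ _ (mI_pow_mono (by omega) hFH.2))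
    refine ⟨-(polyOf x' + C (v (Sum.inr 0)) * pderiv 0 H + C (v (Sum.inr 1)) * pderiv 1 H), ?_⟩
    have h8 := Ideal.sub_mem _ h7 (Ideal.mul_mem_left _ F (Ideal.sub_mem _ (Ideal.sub_mem _ h5
      (Ideal.mul_mem_left _ (C (v (Sum.inr 0))) (h6 0)))
      (Ideal.mul_mem_left _ (C (v (Sum.inr 1))) (h6 1))))
    convert h8 using 1
    have e0 := TAN_act_pderiv ω H 0
    have e1 := TAN_act_pderiv ω H 1
    simp only [act, wedge, ham, Prod.fst_add, Prod.snd_add, Prod.smul_fst, Prod.smul_snd,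
      smul_eq_mul, Prod.fst_sub, Prod.snd_sub, map_neg, map_add, pderiv_C_mul] at e0 e1 ⊢
    linear_combination (F * C (v (Sum.inr 0))) * e0 + (F * C (v (Sum.inr 1))) * e1
  · intro h0
    have hf0 : trP (y ∘ Sum.inr) (form (0 : Fin 2 × Mon d → ℂ)) = 0 :=
      (formAt d (y ∘ Sum.inr)).map_zero
    rw [hder, h0, hf0, zero_add] at hord1
    have a1 := hord1.1
    have a2 := hord1.2
    rw [pow_one, mem_mI] at a1 a2
    simp only [Prod.fst_add, Prod.snd_add, Prod.smul_fst, Prod.smul_snd, smul_eq_mul, coeff_add,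
      coeff_C_mul] at a1 a2
    have hj : jac ω = coeff 0 (pderiv 0 ω.1) * coeff 0 (pderiv 1 ω.2) -
        coeff 0 (pderiv 1 ω.1) * coeff 0 (pderiv 0 ω.2) := by
      simp only [jac, jacP, ← constantCoeff_eq, map_sub, map_mul]
    have b0 : v (Sum.inr 0) = 0 := by
      refine (mul_eq_zero.1 ?_).resolve_right hjac
      rw [hj]
      linear_combination coeff 0 (pderiv 1 ω.2) * a1 - coeff 0 (pderiv 1 ω.1) * a2
    have b1 : v (Sum.inr 1) = 0 := by
      refine (mul_eq_zero.1 ?_).resolve_right hjac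
      rw [hj]
      linear_combination coeff 0 (pderiv 0 ω.1) * a2 - coeff 0 (pderiv 0 ω.2) * a1
    funext i
    rcases i with w | i
    · exact congrFun h0 w
    · fin_cases i
      · exact b0
      · exact b1

end CenLoc
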