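import Pool.Agent.P.MP_2862dc_ag.Basic

/-! Sets of data parametrised by few variables are thin. -/

namespace CenLoc

open MvPolynomial

lemma THIN_eval_aeval {ι κ : Type} (θ : ι → MvPolynomial κ ℂ) (z : κ → ℂ)
    (A : MvPolynomial ι ℂ) : eval z (aeval θ A) = eval (fun i => eval z (θ i)) A := by
  induction A using MvPolynomial.induction_on with
  | C r => simp
  | add a b ha hb => simp only [map_add, ha, hb]
  | mul_X a j ha => simp only [map_mul, ha, aeval_X, eval_X]

lemma THIN_eval_rename {κ : Type} (a : κ → ℂ) (q : Pt) (Φ : MvPolynomial κ ℂ) :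
    eval (Sum.elim a q) (rename (Sum.inl : κ → κ ⊕ Fin 2) Φ) = eval a Φ := by
  rw [eval_rename]
  rfl

lemma THIN_eval_eval₂ {κ : Type} (a : κ → ℂ) (q : Pt) (g : Pol (MvPolynomial κ ℂ)) :
    eval (Sum.elim a q)
      (eval₂ (rename (Sum.inl : κ → κ ⊕ Fin 2) : MvPolynomial κ ℂ →ₐ[ℂ] _).toRingHom
        (fun i => X (Sum.inr i)) g) = eval q (map (eval a) g) := by
  induction g using MvPolynomial.induction_on with
  | C r => simp [THIN_eval_rename]
  | add u v hu hv => simp only [eval₂_add, map_add, hu, hv]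
  | mul_X u j hu => simp only [eval₂_mul, map_mul, hu, eval₂_X, map_X, eval_X, Sum.elim_inr]

theorem pf_THIN (hDEP : StDEP) : StTHIN := by
  intro G _ _ dd d κ _ sub pp hc e
  let fU : G → Pol (MvPolynomial κ ℂ) := fun g =>
    tr (-pp) (polyOf fun m : Mon (dd g) => sub (Sum.inl ⟨g, m⟩))
  let lamU : G → MvPolynomial κ ℂ := fun g => sub (Sum.inr g)
  let θ : Idx dd ⊕ G ⊕ Fin 2 → MvPolynomial (κ ⊕ Fin 2) ℂ :=
    Sum.elim (fun u => rename Sum.inl (coords d (om fU lamU) (e u)))
      (Sum.elim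
        (fun g => eval₂
          (rename (Sum.inl : κ → κ ⊕ Fin 2) : MvPolynomial κ ℂ →ₐ[ℂ] _).toRingHom
          (fun i => X (Sum.inr i)) (fU g))
        fun i => X (Sum.inr i))
  obtain ⟨A, hA, hA0⟩ := hDEP _ _ θ (by
    simp only [Fintype.card_sum, Fintype.card_fin]
    omega)
  refine ⟨A, hA, ?_⟩
  rintro x ⟨a, h1, h2⟩ hdeg q
  have hf : x.1 = fun g => map (eval a) (fU g) := by
    funext g
    have h3 : tr (fun i => eval a (pp i)) (x.1 g) =
        polyOf fun m : Mon (dd g) => eval a (sub (Sum.inl ⟨g, m⟩)) := by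
      rw [← polyOf_coeff ((totalDegree_tr_le (fun i => eval a (pp i)) (x.1 g)).trans (hdeg g))]
      congr 1
      funext m
      exact h1 g m
    have h4 : (fun i => eval a ((-pp) i)) = -fun i => eval a (pp i) := by
      funext i
      simp
    simp only [fU, map_tr, map_polyOf]
    rw [h4, ← h3, tr_neg_tr]
  have hl : x.2 = fun g => eval a (lamU g) := funext h2
  have h5 := congrArg (eval (Sum.elim a q)) hA0
  rw [THIN_eval_aeval, map_zero] at h5
  rw [← h5]
  congr 2
  funext i
  rcases i with u | g | i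
  · simp only [θ, Sum.elim_inl, THIN_eval_rename]
    rw [← coords_mapP, mapP_om, hf, hl]
  · simp only [θ, Sum.elim_inl, Sum.elim_inr, THIN_eval_eval₂]
    rw [hf]
  · simp only [θ, Sum.elim_inr, eval_X]

end CenLoc
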