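import Pool.Agent.P.MP_2862dc_ag.Basic

/-! The formal condition at a line arrangement forces tangency to the family of lines. -/

namespace CenLoc

open MvPolynomial

lemma TZ_unit {k G I : Type} [Field k] [Fintype I] (L : Lines k G I) :
    ((∏ i, L.l i : Pol k) : Ser k) * ∏ i, L.t i = 1 := by
  rw [coeS_prod, ← Finset.prod_mul_distrib]
  exact Finset.prod_eq_one fun i _ => L.l_mul_t i

lemma TZ_wedge {S : Type} [CommRing S] {F T : S} (hFT : F * T = 1) {h v w : S × S}
    (e : wedge v (F • h) = F * wedge w (F • h)) : wedge h (T • v - w) = 0 := by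
  rw [wedge_smul_right, wedge_smul_right] at e
  rw [wedge_sub_right, wedge_smul_right, wedge_comm h v, wedge_comm h w]
  linear_combination (-(T * T)) * e + (T * wedge v h - (F * T + 1) * wedge w h) * hFT

lemma TZ_fib {k G I M : Type} [Fintype G] [DecidableEq G] [Fintype I] [AddCommMonoid M]
    (L : Lines k G I) (x : I → M) : ∑ g, ∑ j ∈ L.fib g, x j = ∑ j, x j :=
  Finset.sum_fiberwise Finset.univ L.grp x

theorem pf_TZ (hLS : StLS) (hNULL : StNULL) (hPF : StPF) (hDEC : StDEC) (hRED : StRED)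
    (hHG : StHG) (hLB : StLB) : StTZ := by
  intro k G I _ _ _ _ _ _ L hG hI u a hu hyp
  obtain ⟨hM, hz, hzF, hhF, -⟩ := hLS k G I L hG
  obtain ⟨-, -, -, -, -, hN⟩ := hNULL k L.h
  obtain ⟨hD1, hD2, hD3, hD4, -⟩ := hDEC k G I L hG
  obtain ⟨-, -, -, -, -, hprod, -⟩ := hLB k G I L hG
  have hFT := TZ_unit L
  have h3 := hG.three
  rw [coe_wedge, hprod, actS_eq_wedge, ← hhF] at hyp
  obtain ⟨B, hB⟩ := hM.kos _ (TZ_wedge hFT hyp)
  have hdv : dvgS ((∏ i, L.t i) • coeP u) = wedge (hamS B) L.h := by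
    rw [eq_add_of_sub_eq hB, dvgS_add, dvgS_hamS, dvgS_smul, hM.closed, mul_zero, zero_add,
      add_zero]
  have hA : ∀ P : Pol k, P.totalDegree ≤ Fintype.card I - 1 →
      (∏ i, L.t i) * (P : Ser k) ∈ L.A1 := fun P hP => by
    rw [mul_comm]
    exact hPF k G I L hG P (by omega)
  obtain ⟨χ, hχ, hsum⟩ := hD1 ((∏ i, L.t i) • coeP u) (hA _ hu.1) (hA _ hu.2)
  choose σ hσd hσ using fun j => hD3 j (χ j) (hχ j)
  have hE : ∀ g, L.lam g • dvgS (∑ j ∈ L.fib g, χ j) + wedge L.h (∑ j ∈ L.fib g, χ j) ∈ L.E := by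
    intro g
    rw [dvgS_sum, wedge_sum_right, Finset.smul_sum, ← Finset.sum_add_distrib]
    refine Submodule.sum_mem _ fun j hj => ?_
    have hj' : L.grp j = g := (Finset.mem_filter.1 hj).2
    have := hD2 j (χ j) (hχ j)
    rwa [Lines.mu, hj'] at this
  have hnull : Null L.h (Polynomial.C (dvgS (∑ g, ∑ j ∈ L.fib g, χ j))) := by
    rw [TZ_fib, ← hsum, hdv]
    exact hN B
  choose c hc using (hRED k G I L hG hI).1 (fun g => ∑ j ∈ L.fib g, χ j) hE hnull
  have key : ∀ g, ∃ r : Pol k, r.totalDegree ≤ L.dd g ∧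
      ∑ j ∈ L.fib g, σ j - ∑ i, c g i • lg L.l i = tv L.f L.lam g r := by
    intro g
    refine hHG k G I L hG g _ (∑ j ∈ L.fib g, χ j - L.zeta (c g))
      ((degLE_sum _ _ fun j _ => hσd j).sub (hD4 _)) ?_ ?_
    · rw [smul_sub, hzF, coeP_sub, Finset.smul_sum, coeP_sum (L.fib g)]
      congr 1
      exact Finset.sum_congr rfl fun j _ => hσ j
    · rw [dvgS_sub, hz, sub_zero, wedge_sub_right, ← hc g]
      abel
  choose r hr he using key
  refine ⟨r, fun i => ∑ g, c g i, hr, ?_⟩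
  have hu' : u = ∑ j, σ j := by
    apply coeP_injective
    rw [coeP_sum, ← Finset.sum_congr rfl fun j _ => hσ j, ← Finset.smul_sum, ← hsum, smul_smul,
      hFT, one_smul]
  rw [hu', ← TZ_fib L σ]
  simp only [Finset.sum_smul]
  rw [Finset.sum_comm (s := (Finset.univ : Finset I)), ← Finset.sum_add_distrib]
  exact Finset.sum_congr rfl fun g _ => eq_add_of_sub_eq (he g)

end CenLoc
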