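import Pool.Agent.P.MP_2862dc_ag.Stmts

/-!
A derivative with at most a simple pole along a prime element has no pole.
-/

namespace CenLoc

open TrivSqZeroExt

section

variable {R K : Type} [CommRing R] [IsDomain R] [Field K] [Algebra R K] [IsFractionRing R K]

/-- The first order jet of a derivation as a ring homomorphism. -/
noncomputable def VAL_jet (K : Type) [Field K] [Algebra R K] (δ0 : Derivation ℤ R R) :
    R →+* TrivSqZeroExt K K where
  toFun x := inl (algebraMap R K x) + inr (algebraMap R K (δ0 x))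
  map_one' := by ext <;> simp
  map_mul' x y := by ext <;> simp [-DualNumber.inr_eq_smul_eps, mul_comm]
  map_zero' := by ext <;> simp
  map_add' x y := by ext <;> simp [-DualNumber.inr_eq_smul_eps]

theorem VAL_ext (K : Type) [Field K] [Algebra R K] [IsFractionRing R K] (δ0 : Derivation ℤ R R) :
    ∃ δ : Derivation ℤ K K, ∀ x : R, δ (algebraMap R K x) = algebraMap R K (δ0 x) := by
  have hu : ∀ y : nonZeroDivisors R, IsUnit (VAL_jet K δ0 y) := fun y => by
    rw [isUnit_iff_isUnit_fst, isUnit_iff_ne_zero]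
    simp [VAL_jet]
  set φ : K →+* TrivSqZeroExt K K := IsLocalization.lift hu with hφ
  have h1 : ∀ x : R, φ (algebraMap R K x) = VAL_jet K δ0 x := fun x => IsLocalization.lift_eq hu x
  have h2 : ∀ x : K, (φ x).fst = x := by
    have : (fstHom K K K).toRingHom.comp φ = RingHom.id K := by
      refine IsLocalization.ringHom_ext (nonZeroDivisors R) (RingHom.ext fun x => ?_)
      simp [h1, VAL_jet]
    exact fun x => RingHom.congr_fun this x
  refine ⟨Derivation.mk' (AddMonoidHom.toIntLinearMap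
    ⟨⟨fun x => (φ x).snd, by simp⟩, fun x y => by simp⟩) fun x y => ?_, fun x => ?_⟩
  · simp [h2, mul_comm]
  · simp [-DualNumber.inr_eq_smul_eps, h1, VAL_jet]

/-- The local ring at a prime element. -/
def VAL_O (K : Type) [Field K] [Algebra R K] {D : R} (hD : Prime D) : Subring K where
  carrier := {x | ∃ a b : R, ¬ D ∣ b ∧ x * algebraMap R K b = algebraMap R K a}
  mul_mem' := by
    rintro x y ⟨a, b, h1, h2⟩ ⟨c, d, h3, h4⟩
    refine ⟨a * c, b * d, fun h => (hD.dvd_or_dvd h).elim h1 h3, ?_⟩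
    rw [map_mul, map_mul, ← h2, ← h4]; ring
  one_mem' := ⟨1, 1, hD.not_dvd_one, by simp⟩
  add_mem' := by
    rintro x y ⟨a, b, h1, h2⟩ ⟨c, d, h3, h4⟩
    refine ⟨a * d + c * b, b * d, fun h => (hD.dvd_or_dvd h).elim h1 h3, ?_⟩
    rw [map_add, map_mul, map_mul, map_mul, ← h2, ← h4]; ring
  zero_mem' := ⟨0, 1, hD.not_dvd_one, by simp⟩
  neg_mem' := by
    rintro x ⟨a, b, h1, h2⟩
    exact ⟨-a, b, h1, by rw [map_neg, ← h2]; ring⟩

omit [IsDomain R] [IsFractionRing R K] in
theorem VAL_mem {D : R} (hD : Prime D) (a : R) : algebraMap R K a ∈ VAL_O K hD :=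
  ⟨a, 1, hD.not_dvd_one, by simp⟩

omit [IsDomain R] in
theorem VAL_div {D : R} (hD : Prime D) (a : R) {b : R} (hb : ¬ D ∣ b) :
    algebraMap R K a / algebraMap R K b ∈ VAL_O K hD := by
  refine ⟨a, b, hb, div_mul_cancel₀ _ ?_⟩
  rw [Ne, IsFractionRing.to_map_eq_zero_iff]
  rintro rfl
  exact hb (dvd_zero D)

omit [IsDomain R] [IsFractionRing R K] in
theorem VAL_der {D : R} (hD : Prime D) {δ0 : Derivation ℤ R R} {δ : Derivation ℤ K K}
    (hδ : ∀ x : R, δ (algebraMap R K x) = algebraMap R K (δ0 x)) {x : K} (hx : x ∈ VAL_O K hD) :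
    δ x ∈ VAL_O K hD := by
  obtain ⟨a, b, h1, h2⟩ := hx
  have h3 := congrArg δ h2
  rw [Derivation.leibniz, hδ, hδ, smul_eq_mul, smul_eq_mul] at h3
  refine ⟨δ0 a * b - a * δ0 b, b * b, fun h => (hD.dvd_or_dvd h).elim h1 h1, ?_⟩
  rw [map_sub, map_mul, map_mul, map_mul, ← h3, ← h2]
  ring

theorem VAL_pole [IsNoetherianRing R] [Algebra ℚ R] {D : R} (hD : Prime D)
    {δ0 : Derivation ℤ R R} (h0 : ¬ D ∣ δ0 D) {δ : Derivation ℤ K K}
    (hδ : ∀ x : R, δ (algebraMap R K x) = algebraMap R K (δ0 x)) {x : K}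
    (hx : algebraMap R K D * δ x ∈ VAL_O K hD) : x ∈ VAL_O K hD := by
  obtain ⟨a', b', hb', rfl⟩ := IsFractionRing.div_surjective (A := R) x
  have hb0 : b' ≠ 0 := nonZeroDivisors.ne_zero hb'
  by_cases ha0 : a' = 0
  · rw [ha0, map_zero, zero_div]; exact zero_mem _
  obtain ⟨p, a, ha, rfl⟩ := WfDvdMonoid.max_power_factor ha0 hD.irreducible
  obtain ⟨q, b, hb, rfl⟩ := WfDvdMonoid.max_power_factor hb0 hD.irreducible
  have hD0 : algebraMap R K D ≠ 0 := by
    rw [Ne, IsFractionRing.to_map_eq_zero_iff]; exact hD.ne_zero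
  have hb1 : algebraMap R K b ≠ 0 := by
    rw [Ne, IsFractionRing.to_map_eq_zero_iff]; exact right_ne_zero_of_mul hb0
  rcases le_or_gt q p with h | h
  · obtain ⟨m, rfl⟩ := Nat.exists_eq_add_of_le h
    refine ⟨D ^ m * a, b, hb, ?_⟩
    simp only [map_mul, map_pow]
    field_simp
    ring
  exfalso
  obtain ⟨m, rfl⟩ := Nat.exists_eq_add_of_lt h
  have h2 : algebraMap R K (D ^ p * a) / algebraMap R K (D ^ (p + m + 1) * b) *
      algebraMap R K (D ^ (m + 1) * b) = algebraMap R K a := by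
    simp only [map_mul, map_pow]
    field_simp
    ring
  generalize algebraMap R K (D ^ p * a) / algebraMap R K (D ^ (p + m + 1) * b) = x at hx h2
  obtain ⟨e, c, hc, he⟩ := hx
  have h3 := congrArg δ h2
  rw [Derivation.leibniz, hδ, hδ, Derivation.leibniz, Derivation.leibniz_pow] at h3
  simp only [smul_eq_mul, nsmul_eq_mul, Nat.add_sub_cancel, map_add, map_mul, map_pow,
    map_natCast] at h3 h2
  have h4 : c * a * ((m + 1 : ℕ) : R) * δ0 D * b =
      D * (c * b * δ0 a - e * D ^ m * b ^ 2 - c * a * δ0 b) := by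
    apply IsFractionRing.injective R K
    simp only [map_sub, map_mul, map_pow, map_natCast]
    rw [← h3, ← he, ← h2]
    ring
  have hm : IsUnit ((m + 1 : ℕ) : R) := by
    have := (IsUnit.mk0 ((m + 1 : ℕ) : ℚ) (by exact_mod_cast m.succ_ne_zero)).map
      (algebraMap ℚ R)
    rwa [map_natCast] at this
  rcases hD.dvd_or_dvd (Dvd.intro _ h4.symm) with h5 | h5
  · rcases hD.dvd_or_dvd h5 with h6 | h6
    · rcases hD.dvd_or_dvd h6 with h7 | h7
      · exact (hD.dvd_or_dvd h7).elim hc ha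
      · exact hD.not_isUnit (isUnit_of_dvd_unit h7 hm)
    · exact h0 h6
  · exact hb h5

end

theorem pf_VAL : StVAL := by
  intro R K _ _ _ _ _ _ _ D δ0 hD h0
  obtain ⟨δ, hδ⟩ := VAL_ext K δ0
  refine ⟨δ, hδ, fun T _ κ r0 r n0 n e h1 h2 h3 h4 h5 => ?_⟩
  by_contra hr
  have hc : ∀ x : K, δ x = 0 → x ∈ VAL_O K hD := fun x hx =>
    VAL_pole hD h0 hδ (by rw [hx, mul_zero]; exact zero_mem _)
  have hD0 : algebraMap R K D ≠ 0 := by
    rw [Ne, IsFractionRing.to_map_eq_zero_iff]; exact hD.ne_zero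
  have hs : ∑ t, r t * (algebraMap R K (n t) / algebraMap R K (e t)) ∈ VAL_O K hD :=
    sum_mem fun t _ => mul_mem (hc _ (h2 t)) (VAL_div hD _ (h4 t))
  have hκ : δ κ ∈ VAL_O K hD := by
    refine VAL_der hD hδ (VAL_pole hD h0 hδ ?_)
    rw [h5, mul_add, mul_left_comm, mul_div_cancel₀ _ hD0]
    exact add_mem (mul_mem (hc _ h1) (VAL_mem hD _)) (mul_mem (VAL_mem hD _) hs)
  have hi : r0⁻¹ ∈ VAL_O K hD := hc _ (by rw [Derivation.leibniz_inv, h1, smul_zero])
  have h6 := mul_mem hi (sub_mem hκ hs)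
  rw [h5, add_sub_cancel_right, inv_mul_cancel_left₀ hr] at h6
  obtain ⟨a, b, hb, hab⟩ := h6
  have h7 : n0 * b = D * a := by
    apply IsFractionRing.injective R K
    rw [map_mul, map_mul, ← hab]
    field_simp
  exact (hD.dvd_or_dvd (Dvd.intro _ h7.symm)).elim h3 hb

end CenLoc
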